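import Pool.Agent.H67.VS.Hat

/-!
[H67 VS FINA]  Auxiliary facts for the final assembly.

Proofs.
* `hat_supp`: `hat ≠ 0` means `|log(n/(X e^{jδ}))| < δ`.
* `jumps`: for `1 ≤ j < J` put `a_j = ⌈X exp(jδ)⌉₊` (`a_0 = X`, `a_J = 2X` as `exp(Jδ) = 2`); an integer
  `n` with `X exp((j-1)δ) < n < X exp((j+1)δ)` satisfies `a_{j-1} ≤ n ≤ a_{j+1}`, so if `H` takes two
  different values there then `H(a_{j+1}) - H(a_{j-1}) ≥ 1`; and
  `∑_{1 ≤ j < J} (H(a_{j+1}) - H(a_{j-1})) ≤ 2 (H(2X) - H(X))` (telescoping; all `a_i ∈ [X,2X]`).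
* `theta_le`: trivial bound: `w ≤ 1`, `pl ≤ log(4X)`, number of integers in the support
  `≤ X e^{jδ}(e^δ - e^{-δ}) + 1 ≤ 2X * 3δ + 1`.
* `PH_near`: `PH h n = ∑_{p ∈ (n,n+h]} log p`, `0 ≤ log p - log n ≤ h/n`, at most `h` primes.
* `tv_prod`: `|f g(k+1) - f g(k)| ≤ F |Δ g| + G |Δ f|`, monotone functions with values in `[0,F]` have
  total variation `≤ F`.
-/

namespace Pool.Agent.H67.VS

open Finset Filter

theorem hat_supp (y δ : ℝ) (hy : 0 < y) (hδ : 0 < δ) (n : ℕ) (h : hat y δ n ≠ 0) :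
    y * Real.exp (-δ) < n ∧ (n : ℝ) < y * Real.exp δ := by
  unfold hat at h
  by_cases hn : n = 0
  · rw [if_pos hn] at h
    exact absurd rfl h
  rw [if_neg hn] at h
  have hn0 : (0 : ℝ) < n := by
    have : 0 < n := Nat.pos_of_ne_zero hn
    exact_mod_cast this
  have h1 : 0 < 1 - |Real.log ((n : ℝ) / y)| / δ := by
    by_contra hle
    exact h (max_eq_left (not_lt.1 hle))
  have h2 : |Real.log ((n : ℝ) / y)| < δ := by
    have : |Real.log ((n : ℝ) / y)| / δ < 1 := by linarith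
    rwa [div_lt_one hδ] at this
  rw [abs_lt] at h2
  have hq : 0 < (n : ℝ) / y := div_pos hn0 hy
  constructor
  · have := (Real.lt_log_iff_exp_lt hq).1 h2.1
    rw [lt_div_iff₀ hy] at this
    linarith
  · have := (Real.log_lt_iff_lt_exp hq).1 h2.2
    rw [div_lt_iff₀ hy] at this
    linarith

open Classical in
theorem jumps (X J : ℕ) (hX : 1 ≤ X) (hJ : 1 ≤ J) (δ : ℝ) (hδ : J * δ = Real.log 2) (H : ℕ → ℕ)
    (hH : MonotoneOn H (Set.Icc X (2 * X))) :
    (((Ico 1 J).filter (fun j : ℕ => ∃ n n' : ℕ,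
      ((X : ℝ) * Real.exp ((j - 1) * δ) < n ∧ (n : ℝ) < X * Real.exp ((j + 1) * δ)) ∧
      ((X : ℝ) * Real.exp ((j - 1) * δ) < n' ∧ (n' : ℝ) < X * Real.exp ((j + 1) * δ)) ∧
      H n ≠ H n')).card : ℕ) ≤ 2 * (H (2 * X) - H X) := by
  have hX0 : (0 : ℝ) < X := by exact_mod_cast hX
  have hJ0 : (0 : ℝ) < J := by exact_mod_cast hJ
  have hδ0 : 0 < δ := by
    have h1 : 0 < Real.log 2 := Real.log_pos (by norm_num)
    rw [← hδ] at h1
    exact (mul_pos_iff_of_pos_left hJ0).1 h1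
  obtain ⟨a, ha⟩ : ∃ a : ℕ → ℕ, ∀ j, a j = ⌈(X : ℝ) * Real.exp (j * δ)⌉₊ := ⟨_, fun _ => rfl⟩
  have ha0 : a 0 = X := by
    rw [ha]; simp
  have haJ : a J = 2 * X := by
    rw [ha, hδ, Real.exp_log (by norm_num)]
    have : (X : ℝ) * 2 = ((2 * X : ℕ) : ℝ) := by push_cast; ring
    rw [this, Nat.ceil_natCast]
  have hmono : Monotone a := by
    intro i j hij
    rw [ha, ha]
    apply Nat.ceil_le_ceil
    have : (i : ℝ) ≤ j := by exact_mod_cast hij
    gcongr
  have hmem : ∀ j, j ≤ J → a j ∈ Set.Icc X (2 * X) := by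
    intro j hj
    constructor
    · rw [← ha0]; exact hmono (Nat.zero_le j)
    · rw [← haJ]; exact hmono hj
  have hb : ∀ i j, i ≤ j → j ≤ J → H (a i) ≤ H (a j) := fun i j hij hj =>
    hH (hmem i (hij.trans hj)) (hmem j hj) (hmono hij)
  have key : ∀ j ∈ (Ico 1 J).filter (fun j : ℕ => ∃ n n' : ℕ,
      ((X : ℝ) * Real.exp ((j - 1) * δ) < n ∧ (n : ℝ) < X * Real.exp ((j + 1) * δ)) ∧
      ((X : ℝ) * Real.exp ((j - 1) * δ) < n' ∧ (n' : ℝ) < X * Real.exp ((j + 1) * δ)) ∧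
      H n ≠ H n'), (1 : ℤ) ≤ (H (a (j + 1)) : ℤ) - H (a (j - 1)) := by
    intro j hj
    rw [mem_filter, mem_Ico] at hj
    obtain ⟨⟨hj1, hj2⟩, n, n', ⟨hn1, hn2⟩, ⟨hn1', hn2'⟩, hne⟩ := hj
    have hcast : ((j - 1 : ℕ) : ℝ) = (j : ℝ) - 1 := by
      rw [Nat.cast_sub hj1]; simp
    have hcast' : ((j + 1 : ℕ) : ℝ) = (j : ℝ) + 1 := by push_cast; ring
    have hlow : ∀ m : ℕ, (X : ℝ) * Real.exp ((j - 1) * δ) < m → a (j - 1) ≤ m := by
      intro m hm
      rw [ha, hcast]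
      exact Nat.ceil_le.2 hm.le
    have hupp : ∀ m : ℕ, (m : ℝ) < X * Real.exp ((j + 1) * δ) → m ≤ a (j + 1) := by
      intro m hm
      rw [ha, hcast']
      have : (m : ℝ) ≤ (⌈(X : ℝ) * Real.exp ((j + 1) * δ)⌉₊ : ℝ) := hm.le.trans (Nat.le_ceil _)
      exact_mod_cast this
    have hm1 := hmem (j - 1) (by omega)
    have hm2 := hmem (j + 1) (by omega)
    have in1 : n ∈ Set.Icc X (2 * X) := ⟨hm1.1.trans (hlow n hn1), (hupp n hn2).trans hm2.2⟩
    have in2 : n' ∈ Set.Icc X (2 * X) := ⟨hm1.1.trans (hlow n' hn1'), (hupp n' hn2').trans hm2.2⟩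
    have e1 := hH hm1 in1 (hlow n hn1)
    have e2 := hH in1 hm2 (hupp n hn2)
    have e3 := hH hm1 in2 (hlow n' hn1')
    have e4 := hH in2 hm2 (hupp n' hn2')
    omega
  have hsum : ∑ j ∈ Ico 1 J, ((H (a (j + 1)) : ℤ) - H (a (j - 1))) ≤ 2 * ((H (a J) : ℤ) - H (a 0)) := by
    have h1 : ∀ j ∈ Ico 1 J, ((H (a (j + 1)) : ℤ) - H (a (j - 1))) =
        ((H (a (j + 1)) : ℤ) - H (a j)) + ((H (a j) : ℤ) - H (a (j - 1))) := fun j _ => by ring
    rw [sum_congr rfl h1, sum_add_distrib]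
    have h2 : ∑ j ∈ Ico 1 J, ((H (a (j + 1)) : ℤ) - H (a j)) = (H (a J) : ℤ) - H (a 1) :=
      sum_Ico_sub (fun j => (H (a j) : ℤ)) hJ
    have h3 : ∑ j ∈ Ico 1 J, ((H (a j) : ℤ) - H (a (j - 1))) =
        (H (a (J - 1)) : ℤ) - H (a 0) := by
      obtain ⟨J', rfl⟩ : ∃ J', J = J' + 1 := ⟨J - 1, by omega⟩
      have : Ico 1 (J' + 1) = (range J').map (addRightEmbedding 1) := by
        rw [range_eq_Ico, Finset.map_add_right_Ico, zero_add]
      rw [this, sum_map]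
      simp only [addRightEmbedding_apply, Nat.add_sub_cancel]
      exact sum_range_sub (fun j => (H (a j) : ℤ)) J'
    rw [h2, h3]
    have e1 := hb 0 1 (by omega) hJ
    have e2 := hb (J - 1) J (by omega) le_rfl
    have e1' : (H (a 0) : ℤ) ≤ H (a 1) := by exact_mod_cast e1
    have e2' : (H (a (J - 1)) : ℤ) ≤ H (a J) := by exact_mod_cast e2
    linarith
  have hcard : (((Ico 1 J).filter (fun j : ℕ => ∃ n n' : ℕ,
      ((X : ℝ) * Real.exp ((j - 1) * δ) < n ∧ (n : ℝ) < X * Real.exp ((j + 1) * δ)) ∧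
      ((X : ℝ) * Real.exp ((j - 1) * δ) < n' ∧ (n' : ℝ) < X * Real.exp ((j + 1) * δ)) ∧
      H n ≠ H n')).card : ℤ) ≤ ∑ j ∈ Ico 1 J, ((H (a (j + 1)) : ℤ) - H (a (j - 1))) := by
    calc _ = ∑ j ∈ (Ico 1 J).filter (fun j : ℕ => ∃ n n' : ℕ,
      ((X : ℝ) * Real.exp ((j - 1) * δ) < n ∧ (n : ℝ) < X * Real.exp ((j + 1) * δ)) ∧
      ((X : ℝ) * Real.exp ((j - 1) * δ) < n' ∧ (n' : ℝ) < X * Real.exp ((j + 1) * δ)) ∧
      H n ≠ H n'), (1 : ℤ) := by simp
      _ ≤ ∑ j ∈ (Ico 1 J).filter (fun j : ℕ => ∃ n n' : ℕ,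
      ((X : ℝ) * Real.exp ((j - 1) * δ) < n ∧ (n : ℝ) < X * Real.exp ((j + 1) * δ)) ∧
      ((X : ℝ) * Real.exp ((j - 1) * δ) < n' ∧ (n' : ℝ) < X * Real.exp ((j + 1) * δ)) ∧
      H n ≠ H n'), ((H (a (j + 1)) : ℤ) - H (a (j - 1))) := sum_le_sum key
      _ ≤ _ := by
        apply sum_le_sum_of_subset_of_nonneg (filter_subset _ _)
        intro j hj _
        rw [mem_Ico] at hj
        have : (H (a (j - 1)) : ℤ) ≤ H (a (j + 1)) := by
          exact_mod_cast hb (j - 1) (j + 1) (by omega) (by omega)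
        linarith
  have h5 := hcard.trans hsum
  rw [ha0, haJ] at h5
  have h6 : H X ≤ H (2 * X) := by
    have := hb 0 J (by omega) le_rfl
    rwa [ha0, haJ] at this
  omega

theorem theta_le (X y δ : ℝ) (hX : 2 ≤ X) (hy1 : X ≤ y) (hy2 : y ≤ 2 * X) (hδ : 0 < δ)
    (hδ2 : δ ≤ 1 / 2) :
    theta (Ax X) (Bx X) (hat y δ) ≤ Real.log (4 * X) * (6 * δ * X + 1) := by
  have hy0 : 0 < y := by linarith
  have hwt := hat_wt X y δ hX hy1 hy2 hδ hδ2
  have hlog : 0 ≤ Real.log (4 * X) := Real.log_nonneg (by linarith)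
  obtain ⟨p, hp⟩ : ∃ p : ℕ, p = ⌊y * Real.exp (-δ)⌋₊ := ⟨_, rfl⟩
  obtain ⟨r, hr⟩ : ∃ r : ℕ, r = ⌊y * Real.exp δ⌋₊ := ⟨_, rfl⟩
  have hp0 : 0 ≤ y * Real.exp (-δ) := by positivity
  have hr0 : 0 ≤ y * Real.exp δ := by positivity
  have hpl : ∀ n : ℕ, 0 ≤ pl n := by
    intro n
    unfold pl
    split_ifs with h
    · exact Real.log_nonneg (by exact_mod_cast h.one_lt.le)
    · exact le_rfl
  have hterm : ∀ n ∈ Ioc (Ax X) (Bx X), hat y δ n * pl n ≤
      if n ∈ Ioc p r then Real.log (4 * X) else 0 := by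
    intro n hn
    rw [mem_Ioc] at hn
    by_cases h0 : hat y δ n = 0
    · rw [h0, zero_mul]
      split_ifs
      · exact hlog
      · exact le_rfl
    · obtain ⟨h1, h2⟩ := hat_supp y δ hy0 hδ n h0
      have hin : n ∈ Ioc p r := by
        rw [mem_Ioc, hp, hr]
        exact ⟨(Nat.floor_lt hp0).2 h1, Nat.le_floor h2.le⟩
      rw [if_pos hin]
      have hn4 : (n : ℝ) ≤ 4 * X := (Nat.le_floor_iff (by linarith)).1 hn.2
      have hpln : pl n ≤ Real.log (4 * X) := by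
        unfold pl
        split_ifs with h
        · exact Real.log_le_log (by exact_mod_cast h.pos) hn4
        · exact hlog
      calc hat y δ n * pl n ≤ 1 * pl n := mul_le_mul_of_nonneg_right (hwt.le_one n) (hpl n)
        _ ≤ Real.log (4 * X) := by rw [one_mul]; exact hpln
  have hpr : p ≤ r := by
    rw [hp, hr]
    apply Nat.floor_le_floor
    have : Real.exp (-δ) ≤ Real.exp δ := Real.exp_le_exp.2 (by linarith)
    exact mul_le_mul_of_nonneg_left this hy0.le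
  have hcount : ((Ioc p r).card : ℝ) ≤ 6 * δ * X + 1 := by
    rw [Nat.card_Ioc, Nat.cast_sub hpr]
    have h1 : (r : ℝ) ≤ y * Real.exp δ := by rw [hr]; exact Nat.floor_le hr0
    have h2 : y * Real.exp (-δ) < (p : ℝ) + 1 := by rw [hp]; exact Nat.lt_floor_add_one _
    have h3 : Real.exp δ ≤ 1 + δ + δ ^ 2 := by
      have := Real.abs_exp_sub_one_sub_id_le (x := δ) (by rw [abs_of_pos hδ]; linarith)
      have h4 := le_abs_self (Real.exp δ - 1 - δ)
      linarith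
    have h4 : 1 - δ ≤ Real.exp (-δ) := by
      have := Real.add_one_le_exp (-δ)
      linarith
    have h5 : y * (Real.exp δ - Real.exp (-δ)) ≤ 2 * X * (3 * δ) := by
      apply mul_le_mul hy2 _ _ (by linarith)
      · nlinarith
      · have : Real.exp (-δ) ≤ Real.exp δ := Real.exp_le_exp.2 (by linarith)
        linarith
    nlinarith
  unfold theta
  calc ∑ n ∈ Ioc (Ax X) (Bx X), hat y δ n * pl n
      ≤ ∑ n ∈ Ioc (Ax X) (Bx X), (if n ∈ Ioc p r then Real.log (4 * X) else 0) :=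
        sum_le_sum hterm
    _ = ((Ioc (Ax X) (Bx X)).filter (fun n => n ∈ Ioc p r)).card * Real.log (4 * X) := by
        rw [← sum_filter, sum_const, nsmul_eq_mul]
    _ ≤ ((Ioc p r).card : ℝ) * Real.log (4 * X) := by
        apply mul_le_mul_of_nonneg_right _ hlog
        have : ((Ioc (Ax X) (Bx X)).filter (fun n => n ∈ Ioc p r)).card ≤ (Ioc p r).card := by
          apply card_le_card
          intro n hn
          exact (mem_filter.1 hn).2
        exact_mod_cast this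
    _ ≤ (6 * δ * X + 1) * Real.log (4 * X) := mul_le_mul_of_nonneg_right hcount hlog
    _ = _ := by ring

theorem PH_near (h n : ℕ) (hn : 1 ≤ n) :
    |PH h n - Real.log n * (((Ioc n (n + h)).filter Nat.Prime).card : ℝ)| ≤ (h : ℝ) ^ 2 / n := by
  have hn0 : (0 : ℝ) < n := by exact_mod_cast hn
  have hI : Ioc n (n + h) = (Icc 1 h).map (addLeftEmbedding n) := by
    rw [Finset.map_add_left_Icc]
    ext k
    simp only [mem_Ioc, mem_Icc]
    omega
  have hc : (((Ioc n (n + h)).filter Nat.Prime).card : ℝ) =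
      ∑ i ∈ Icc 1 h, (if (n + i).Prime then (1 : ℝ) else 0) := by
    rw [card_filter, hI, sum_map]
    push_cast
    rfl
  have hdiff : PH h n - Real.log n * (((Ioc n (n + h)).filter Nat.Prime).card : ℝ) =
      ∑ i ∈ Icc 1 h, (if (n + i).Prime then Real.log ((n + i : ℕ) : ℝ) - Real.log n else 0) := by
    rw [hc, mul_sum]
    unfold PH pl
    rw [← sum_sub_distrib]
    refine sum_congr rfl fun i _ => ?_
    split_ifs <;> simp
  rw [hdiff]
  refine (abs_sum_le_sum_abs _ _).trans ?_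
  have hterm : ∀ i ∈ Icc 1 h, |(if (n + i).Prime then Real.log ((n + i : ℕ) : ℝ) - Real.log n
      else 0 : ℝ)| ≤ (h : ℝ) / n := by
    intro i hi
    rw [mem_Icc] at hi
    have hih : (i : ℝ) ≤ h := by exact_mod_cast hi.2
    split_ifs
    · have h1 : Real.log ((n + i : ℕ) : ℝ) - Real.log n = Real.log (1 + (i : ℝ) / n) := by
        rw [← Real.log_div (by positivity) hn0.ne']
        congr 1
        push_cast
        field_simp
      have h2 : 0 ≤ Real.log (1 + (i : ℝ) / n) := Real.log_nonneg (by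
        have : 0 ≤ (i : ℝ) / n := by positivity
        linarith)
      have h3 : Real.log (1 + (i : ℝ) / n) ≤ (i : ℝ) / n := by
        have := Real.log_le_sub_one_of_pos (x := 1 + (i : ℝ) / n) (by positivity)
        linarith
      rw [h1, abs_of_nonneg h2]
      refine h3.trans ?_
      gcongr
    · rw [abs_zero]
      positivity
  refine (sum_le_sum hterm).trans ?_
  rw [sum_const, Nat.card_Icc, nsmul_eq_mul, Nat.add_sub_cancel]
  apply le_of_eq
  ring

theorem tv_prod (f g : ℕ → ℝ) (F G : ℝ) (hf : Monotone f) (hg : Monotone g ∨ Antitone g)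
    (hf0 : ∀ n, 0 ≤ f n) (hfF : ∀ n, f n ≤ F) (hg0 : ∀ n, 0 ≤ g n) (hgG : ∀ n, g n ≤ G) (m n : ℕ) :
    ∑ k ∈ Ico m n, |f (k + 1) * g (k + 1) - f k * g k| ≤ 2 * F * G := by
  have hF : 0 ≤ F := (hf0 0).trans (hfF 0)
  have hG : 0 ≤ G := (hg0 0).trans (hgG 0)
  rcases Nat.lt_or_ge n m with hnm | hmn
  · rw [Ico_eq_empty_of_le hnm.le, sum_empty]
    positivity
  have h1 : ∀ k ∈ Ico m n, |f (k + 1) * g (k + 1) - f k * g k| ≤
      F * |g (k + 1) - g k| + G * |f (k + 1) - f k| := by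
    intro k _
    have : f (k + 1) * g (k + 1) - f k * g k =
        f (k + 1) * (g (k + 1) - g k) + g k * (f (k + 1) - f k) := by ring
    rw [this]
    refine (abs_add_le _ _).trans ?_
    rw [abs_mul, abs_mul, abs_of_nonneg (hf0 _), abs_of_nonneg (hg0 k)]
    exact add_le_add (mul_le_mul_of_nonneg_right (hfF _) (abs_nonneg _))
      (mul_le_mul_of_nonneg_right (hgG _) (abs_nonneg _))
  refine (sum_le_sum h1).trans ?_
  rw [sum_add_distrib, ← mul_sum, ← mul_sum]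
  have hfs : ∑ k ∈ Ico m n, |f (k + 1) - f k| ≤ F := by
    have : ∀ k ∈ Ico m n, |f (k + 1) - f k| = f (k + 1) - f k := fun k _ =>
      abs_of_nonneg (sub_nonneg.2 (hf (Nat.le_succ k)))
    rw [sum_congr rfl this, sum_Ico_sub f hmn]
    have e1 := hfF n
    have e2 := hf0 m
    linarith
  have hgs : ∑ k ∈ Ico m n, |g (k + 1) - g k| ≤ G := by
    rcases hg with hg | hg
    · have : ∀ k ∈ Ico m n, |g (k + 1) - g k| = g (k + 1) - g k := fun k _ =>
        abs_of_nonneg (sub_nonneg.2 (hg (Nat.le_succ k)))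
      rw [sum_congr rfl this, sum_Ico_sub g hmn]
      have e1 := hgG n
      have e2 := hg0 m
      linarith
    · have : ∀ k ∈ Ico m n, |g (k + 1) - g k| = -(g (k + 1) - g k) := fun k _ =>
        abs_of_nonpos (sub_nonpos.2 (hg (Nat.le_succ k)))
      rw [sum_congr rfl this, sum_neg_distrib, sum_Ico_sub g hmn]
      have e1 := hgG m
      have e2 := hg0 n
      linarith
  nlinarith

end Pool.Agent.H67.VS
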