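import Pool.Agent.H67.VS.Defs

/-!
[H67 VS SEL]  Existence of Selberg weights.

Proof.  `g m = μ(m)^2/φ(m)`, `S = ∑_{m ≤ L} g m`, `ρ_d = μ(d) d (∑_{m ≤ L, d ∣ m} g m)/S` for
`1 ≤ d ≤ L`, `0` otherwise.
`ρ_1 = 1`; `|ρ_d| ≤ d ≤ L`.
Diagonalisation: `1/lcm(d,e) = gcd(d,e)/(d e)`, `gcd(d,e) = ∑_{k ∣ gcd(d,e)} φ(k)`
(`Nat.sum_totient`), so the quadratic form is `∑_{k ≤ L} φ(k) (∑_{d ≤ L, k ∣ d} ρ_d/d)^2`, and
`∑_{k ∣ d} ρ_d/d = (1/S) ∑_{m ≤ L} g m ∑_{k ∣ d ∣ m} μ(d) = μ(k) g(k)/S` (Moebius, `m` squarefree, see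
`sum_moebius_between` in `Pool/Agent/H3/WSieve.lean`), total `∑_k φ(k) μ(k)^2 g(k)^2/S^2 = 1/S`.
`S ≥ log L`: `μ(m)^2/φ(m) = μ(m)^2 ∑ 1/n` over the `n` with squarefree kernel `m`, so
`S ≥ ∑_{n ≤ L} 1/n ≥ log L` (a proof is in `Pool/Agent/H41/Sieve/SSUM.lean`, or use the Selberg weights
`ww` of `Pool/Agent/H3/WSieve.lean`: only `|ρ_d| ≤ d` is needed).
-/

namespace Pool.Agent.H67.VS

open Finset ArithmeticFunction

theorem sel_geom (p N : ℕ) (hp : 2 ≤ p) :
    ∑ a ∈ Icc 1 N, (1 / (p : ℝ)) ^ a ≤ 1 / ((p : ℝ) - 1) := by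
  have hp' : (2 : ℝ) ≤ p := by exact_mod_cast hp
  have hpx : (p : ℝ) * (1 / (p : ℝ)) = 1 := by
    rw [mul_one_div, div_self (by linarith)]
  have key : (∑ a ∈ Icc 1 N, (1 / (p : ℝ)) ^ a) * ((p : ℝ) - 1) = 1 - (1 / (p : ℝ)) ^ N := by
    induction N with
    | zero => simp
    | succ n ih =>
      rw [Finset.sum_Icc_succ_top (by omega), add_mul, ih, pow_succ]
      linear_combination (1 / (p : ℝ)) ^ n * hpx
  rw [le_div_iff₀ (by linarith), key]
  have : (0 : ℝ) ≤ (1 / (p : ℝ)) ^ N := by positivity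
  linarith

theorem sel_rad (T : Finset ℕ) : (∀ p ∈ T, p.Prime) → ∀ A : Finset ℕ,
    (∀ n ∈ A, n ≠ 0 ∧ n.primeFactors = T) →
    ∑ n ∈ A, 1 / (n : ℝ) ≤ ∏ p ∈ T, 1 / ((p : ℝ) - 1) := by
  classical
  induction T using Finset.induction_on with
  | empty =>
    intro _ A hA
    have hsub : A ⊆ {1} := by
      intro n hn
      obtain ⟨h0, h1⟩ := hA n hn
      rw [Nat.primeFactors_eq_empty] at h1
      rw [Finset.mem_singleton]
      omega
    calc ∑ n ∈ A, 1 / (n : ℝ) ≤ ∑ n ∈ ({1} : Finset ℕ), 1 / (n : ℝ) := by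
          apply Finset.sum_le_sum_of_subset_of_nonneg hsub
          intros
          positivity
      _ = ∏ p ∈ (∅ : Finset ℕ), 1 / ((p : ℝ) - 1) := by simp
  | insert p T hpT ih =>
    intro hT A hA
    have hp : p.Prime := hT p (mem_insert_self _ _)
    have ih' := ih (fun q hq => hT q (mem_insert_of_mem hq))
    set A' : Finset ℕ := A.image (fun n => n / p ^ n.factorization p) with hA'
    have hA'1 : ∀ n' ∈ A', n' ≠ 0 ∧ n'.primeFactors = T := by
      intro n' hn'
      rw [hA', mem_image] at hn'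
      obtain ⟨n, hn, rfl⟩ := hn'
      obtain ⟨h0, h1⟩ := hA n hn
      refine ⟨(Nat.ordCompl_pos p h0).ne', ?_⟩
      have h2 : (n / p ^ n.factorization p).primeFactors = n.primeFactors.erase p := by
        ext q
        rw [Nat.mem_primeFactors_of_ne_zero (Nat.ordCompl_pos p h0).ne', mem_erase,
          Nat.mem_primeFactors_of_ne_zero h0]
        constructor
        · rintro ⟨hq, hd⟩
          refine ⟨?_, hq, hd.trans (Nat.ordCompl_dvd n p)⟩
          rintro rfl
          exact Nat.not_dvd_ordCompl hq h0 hd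
        · rintro ⟨hne, hq, hd⟩
          refine ⟨hq, ?_⟩
          have h3 : q ∣ p ^ n.factorization p * (n / p ^ n.factorization p) := by
            rw [Nat.ordProj_mul_ordCompl_eq_self]
            exact hd
          rcases (Nat.Prime.dvd_mul hq).1 h3 with h4 | h4
          · exact absurd ((Nat.prime_dvd_prime_iff_eq hq hp).1 (hq.dvd_of_dvd_pow h4)) hne
          · exact h4
      rw [h2, h1, Finset.erase_insert hpT]
    set N : ℕ := A.sup (fun n => n.factorization p) with hN
    have hmap : ∑ n ∈ A, 1 / (n : ℝ) ≤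
        ∑ q ∈ Icc 1 N ×ˢ A', (1 / (p : ℝ)) ^ q.1 * (1 / (q.2 : ℝ)) := by
      have hinj : Set.InjOn (fun n : ℕ => (n.factorization p, n / p ^ n.factorization p)) A := by
        intro a ha b hb hab
        simp only [Prod.mk.injEq] at hab
        rw [← Nat.ordProj_mul_ordCompl_eq_self a p, ← Nat.ordProj_mul_ordCompl_eq_self b p,
          hab.2, hab.1]
      have himg : ∀ n ∈ A, (n.factorization p, n / p ^ n.factorization p) ∈ Icc 1 N ×ˢ A' := by
        intro n hn
        rw [mem_product, mem_Icc]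
        refine ⟨⟨?_, ?_⟩, ?_⟩
        · obtain ⟨h0, h1⟩ := hA n hn
          have h2 : p ∈ n.primeFactors := by rw [h1]; exact mem_insert_self _ _
          exact hp.factorization_pos_of_dvd h0 (Nat.dvd_of_mem_primeFactors h2)
        · exact Finset.le_sup (f := fun n : ℕ => n.factorization p) hn
        · exact mem_image_of_mem _ hn
      calc ∑ n ∈ A, 1 / (n : ℝ) = ∑ n ∈ A, (1 / (p : ℝ)) ^ (n.factorization p) *
            (1 / ((n / p ^ n.factorization p : ℕ) : ℝ)) := by
            refine Finset.sum_congr rfl fun n hn => ?_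
            have h1 : (n : ℝ) = (p : ℝ) ^ (n.factorization p) *
                ((n / p ^ n.factorization p : ℕ) : ℝ) := by
              exact_mod_cast (Nat.ordProj_mul_ordCompl_eq_self n p).symm
            conv_lhs => rw [h1]
            rw [one_div_pow, one_div_mul_one_div]
        _ = ∑ q ∈ A.image (fun n : ℕ => (n.factorization p, n / p ^ n.factorization p)),
            (1 / (p : ℝ)) ^ q.1 * (1 / (q.2 : ℝ)) := by
            rw [Finset.sum_image hinj]
        _ ≤ _ := by
            apply Finset.sum_le_sum_of_subset_of_nonneg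
            · intro q hq
              rw [mem_image] at hq
              obtain ⟨n, hn, rfl⟩ := hq
              exact himg n hn
            · intros
              positivity
    refine hmap.trans ?_
    rw [Finset.sum_product, Finset.prod_insert hpT]
    simp_rw [← Finset.mul_sum]
    rw [← Finset.sum_mul]
    have hp2 : (2 : ℝ) ≤ p := by exact_mod_cast hp.two_le
    exact mul_le_mul (sel_geom p N hp.two_le) (ih' A' hA'1)
      (Finset.sum_nonneg fun _ _ => by positivity) (by
        apply one_div_nonneg.2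
        linarith)

/-- the function `μ^2/φ` -/
noncomputable def sel_g (m : ℕ) : ℝ := if Squarefree m then 1 / (m.totient : ℝ) else 0

theorem sel_g_nonneg (m : ℕ) : 0 ≤ sel_g m := by
  unfold sel_g
  split_ifs <;> positivity

theorem sel_totient {m : ℕ} (hm : Squarefree m) :
    (1 : ℝ) / (m.totient : ℝ) = ∏ p ∈ m.primeFactors, 1 / ((p : ℝ) - 1) := by
  have h1 : m.totient = ∏ p ∈ m.primeFactors, (p - 1) := by
    have h2 := Nat.totient_eq_div_primeFactors_mul m
    rw [Nat.prod_primeFactors_of_squarefree hm, Nat.div_self (Nat.pos_of_ne_zero hm.ne_zero),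
      one_mul] at h2
    exact h2
  rw [h1, Nat.cast_prod]
  simp only [one_div]
  rw [Finset.prod_inv_distrib]
  congr 1
  refine Finset.prod_congr rfl fun p hp => ?_
  rw [Nat.cast_sub (Nat.prime_of_mem_primeFactors hp).one_le, Nat.cast_one]

theorem sel_sqf (T : Finset ℕ) (hT : ∀ p ∈ T, p.Prime) : Squarefree (∏ p ∈ T, p) := by
  classical
  induction T using Finset.induction_on with
  | empty => simp
  | insert l S hl ih =>
    rw [Finset.prod_insert hl]
    have h1 : ∀ l' ∈ S, l'.Prime := fun l' h => hT l' (mem_insert_of_mem h)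
    have h2 := ih h1
    rw [Nat.squarefree_mul_iff]
    refine ⟨?_, (hT l (mem_insert_self _ _)).squarefree, h2⟩
    apply Nat.Coprime.prod_right
    intro l' hl'
    rw [Nat.coprime_primes (hT l (mem_insert_self _ _)) (h1 l' hl')]
    rintro rfl
    exact hl hl'

theorem sel_log (L : ℕ) (hL : 2 ≤ L) : Real.log L ≤ ∑ m ∈ Icc 1 L, sel_g m := by
  classical
  have h1 := log_add_one_le_harmonic L
  have h2 : ((harmonic L : ℚ) : ℝ) = ∑ n ∈ Icc 1 L, 1 / (n : ℝ) := by
    rw [harmonic_eq_sum_Icc]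
    push_cast
    simp
  have h3 : Real.log L ≤ ∑ n ∈ Icc 1 L, 1 / (n : ℝ) := by
    rw [← h2]
    refine le_trans ?_ h1
    apply Real.log_le_log
    · exact_mod_cast (by omega : 0 < L)
    · push_cast
      linarith
  refine h3.trans ?_
  -- group by the squarefree kernel
  set rad : ℕ → ℕ := fun n => ∏ p ∈ n.primeFactors, p with hrad
  have hrad1 : ∀ n ∈ Icc 1 L, rad n ∈ Icc 1 L := by
    intro n hn
    rw [mem_Icc] at hn ⊢
    have h4 : rad n ∣ n := Nat.prod_primeFactors_dvd n
    exact ⟨Nat.pos_of_dvd_of_pos h4 hn.1, (Nat.le_of_dvd hn.1 h4).trans hn.2⟩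
  rw [← Finset.sum_fiberwise_of_maps_to hrad1]
  refine Finset.sum_le_sum fun m hm => ?_
  by_cases hsq : Squarefree m
  · rw [sel_g, if_pos hsq, sel_totient hsq]
    apply sel_rad _ (fun p hp => Nat.prime_of_mem_primeFactors hp)
    intro n hn
    rw [mem_filter, mem_Icc] at hn
    refine ⟨by omega, ?_⟩
    rw [← hn.2, hrad]
    exact (Nat.primeFactors_prod fun p hp => Nat.prime_of_mem_primeFactors hp).symm
  · rw [sel_g, if_neg hsq]
    have h5 : (Icc 1 L).filter (fun n => rad n = m) = ∅ := by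
      rw [Finset.filter_eq_empty_iff]
      intro n hn h6
      apply hsq
      rw [← h6]
      exact sel_sqf _ fun p hp => Nat.prime_of_mem_primeFactors hp
    rw [h5, Finset.sum_empty]

theorem sel_moebius {m l : ℕ} (hm : Squarefree m) :
    (∑ d ∈ m.divisors, if l ∣ d then (moebius d : ℝ) else 0) =
      if m = l then (moebius l : ℝ) else 0 := by
  have hm0 : m ≠ 0 := hm.ne_zero
  by_cases hl : l ∣ m
  · obtain ⟨k, rfl⟩ := hl
    have hl0 : l ≠ 0 := left_ne_zero_of_mul hm0
    have hk0 : k ≠ 0 := right_ne_zero_of_mul hm0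
    have hsq := Nat.squarefree_mul_iff.mp hm
    rw [← Finset.sum_filter]
    have h1 : ((l * k).divisors).filter (fun d => l ∣ d) = k.divisors.image (fun e => l * e) := by
      ext d
      simp only [mem_filter, Nat.mem_divisors, mem_image]
      constructor
      · rintro ⟨⟨hd, _⟩, e, rfl⟩
        exact ⟨e, ⟨(Nat.mul_dvd_mul_iff_left (Nat.pos_of_ne_zero hl0)).mp hd, hk0⟩, rfl⟩
      · rintro ⟨e, ⟨he, _⟩, rfl⟩
        exact ⟨⟨Nat.mul_dvd_mul_left l he, hm0⟩, Dvd.intro _ rfl⟩
    rw [h1, Finset.sum_image]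
    · have h2 : ∀ e ∈ k.divisors, (moebius (l * e) : ℝ) = (moebius l : ℝ) * (moebius e : ℝ) := by
        intro e he
        have hcop : Nat.Coprime l e :=
          Nat.Coprime.coprime_dvd_right (Nat.dvd_of_mem_divisors he) hsq.1
        rw [isMultiplicative_moebius.map_mul_of_coprime hcop]
        push_cast
        ring
      rw [Finset.sum_congr rfl h2, ← Finset.mul_sum]
      have h3 : (∑ e ∈ k.divisors, (moebius e : ℤ)) = if k = 1 then 1 else 0 := by
        have := congrArg (fun f : ArithmeticFunction ℤ => f k) moebius_mul_coe_zeta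
        simp only [ArithmeticFunction.coe_mul_zeta_apply, ArithmeticFunction.one_apply] at this
        exact this
      have h4 : (∑ e ∈ k.divisors, (moebius e : ℝ)) = if k = 1 then 1 else 0 := by
        have h5 : (∑ e ∈ k.divisors, (moebius e : ℝ)) =
            ((∑ e ∈ k.divisors, (moebius e : ℤ) : ℤ) : ℝ) := by push_cast; rfl
        rw [h5, h3]
        split_ifs <;> simp
      rw [h4]
      by_cases hk : k = 1
      · subst hk
        simp
      · rw [if_neg hk, if_neg, mul_zero]
        intro h6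
        apply hk
        have h7 : l * k = l * 1 := by rw [h6, mul_one]
        exact Nat.eq_of_mul_eq_mul_left (Nat.pos_of_ne_zero hl0) h7
    · intro a _ b _ hab
      exact Nat.eq_of_mul_eq_mul_left (Nat.pos_of_ne_zero hl0) hab
  · have h1 : ∀ d ∈ m.divisors, (if l ∣ d then (moebius d : ℝ) else 0) = 0 := by
      intro d hd
      rw [if_neg]
      intro h
      exact hl (h.trans (Nat.dvd_of_mem_divisors hd))
    rw [Finset.sum_congr rfl h1, Finset.sum_const_zero, if_neg]
    rintro rfl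
    exact hl dvd_rfl

theorem sw_exists (L : ℕ) (hL : 2 ≤ L) : ∃ ρ : ℕ → ℝ, SW L ρ := by
  classical
  set S : ℝ := ∑ m ∈ Icc 1 L, sel_g m with hS
  have hlog : 0 < Real.log L := Real.log_pos (by exact_mod_cast (by omega : 1 < L))
  have hSL : Real.log L ≤ S := sel_log L hL
  have hS0 : 0 < S := lt_of_lt_of_le hlog hSL
  set W : ℕ → ℝ := fun d => ∑ m ∈ (Icc 1 L).filter (fun m => d ∣ m), sel_g m with hW
  have hW0 : ∀ d, 0 ≤ W d := fun d => Finset.sum_nonneg fun m _ => sel_g_nonneg m
  have hWS : ∀ d, W d ≤ S := fun d =>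
    Finset.sum_le_sum_of_subset_of_nonneg (filter_subset _ _) fun m _ _ => sel_g_nonneg m
  set ρ : ℕ → ℝ := fun d => if d ∈ Icc 1 L then (moebius d : ℝ) * d * W d / S else 0 with hρ
  -- y_k
  have hy : ∀ k ∈ Icc 1 L, ∑ d ∈ Icc 1 L, (if k ∣ d then ρ d / (d : ℝ) else 0) =
      (moebius k : ℝ) * sel_g k / S := by
    intro k hk
    have h1 : ∀ d ∈ Icc 1 L, (if k ∣ d then ρ d / (d : ℝ) else 0) =
        ∑ m ∈ Icc 1 L, sel_g m / S * (if d ∣ m then (if k ∣ d then (moebius d : ℝ) else 0) else 0) := by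
      intro d hd
      have hd0 : (d : ℝ) ≠ 0 := by
        rw [mem_Icc] at hd
        exact_mod_cast (by omega : d ≠ 0)
      by_cases hkd : k ∣ d
      · simp only [hkd, if_true]
        rw [hρ]
        simp only [hd, if_true, hW]
        rw [Finset.sum_filter]
        have e1 : (moebius d : ℝ) * d * (∑ m ∈ Icc 1 L, if d ∣ m then sel_g m else 0) / S / d =
            (∑ m ∈ Icc 1 L, if d ∣ m then sel_g m else 0) * ((moebius d : ℝ) / S) := by
          field_simp
        rw [e1, Finset.sum_mul]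
        refine Finset.sum_congr rfl fun m _ => ?_
        split_ifs <;> ring
      · simp [hkd]
    rw [Finset.sum_congr rfl h1, Finset.sum_comm]
    have h2 : ∀ m ∈ Icc 1 L, ∑ d ∈ Icc 1 L, sel_g m / S *
        (if d ∣ m then (if k ∣ d then (moebius d : ℝ) else 0) else 0) =
        if m = k then (moebius k : ℝ) * sel_g k / S else 0 := by
      intro m hm
      rw [mem_Icc] at hm
      rw [← Finset.mul_sum]
      by_cases hsq : Squarefree m
      · have h3 : ∑ d ∈ Icc 1 L, (if d ∣ m then (if k ∣ d then (moebius d : ℝ) else 0) else 0) =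
            ∑ d ∈ m.divisors, (if k ∣ d then (moebius d : ℝ) else 0) := by
          rw [← Finset.sum_filter]
          refine Finset.sum_congr ?_ fun _ _ => rfl
          ext d
          rw [mem_filter, mem_Icc, Nat.mem_divisors]
          constructor
          · rintro ⟨_, h⟩
            exact ⟨h, by omega⟩
          · rintro ⟨h, _⟩
            exact ⟨⟨Nat.pos_of_dvd_of_pos h (by omega), (Nat.le_of_dvd (by omega) h).trans hm.2⟩, h⟩
        rw [h3, sel_moebius hsq]
        split_ifs with h4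
        · subst h4
          ring
        · ring
      · have h5 : sel_g m = 0 := by
          unfold sel_g
          rw [if_neg hsq]
        rw [h5]
        split_ifs with h4
        · subst h4
          rw [h5]
          ring
        · ring
    rw [Finset.sum_congr rfl h2, Finset.sum_ite_eq' _ _ _, if_pos hk]
  refine ⟨ρ, ⟨?_, ?_, ?_, ?_⟩⟩
  · rw [hρ]
    have h1 : (1 : ℕ) ∈ Icc 1 L := mem_Icc.2 ⟨le_rfl, by omega⟩
    have h2 : W 1 = S := by
      rw [hW, hS]
      simp
    simp only [h1, if_true, h2]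
    simp
    exact hS0.ne'
  · intro d
    rw [hρ]
    show |if d ∈ Icc 1 L then (moebius d : ℝ) * d * W d / S else 0| ≤ (L : ℝ)
    split_ifs with hd
    · rw [mem_Icc] at hd
      have h1 : |(moebius d : ℝ)| ≤ 1 := by
        have := abs_moebius_le_one (n := d)
        exact_mod_cast this
      rw [abs_div, abs_mul, abs_mul, abs_of_nonneg (show (0 : ℝ) ≤ (d : ℝ) from Nat.cast_nonneg d),
        abs_of_nonneg (hW0 d),
        abs_of_pos hS0, div_le_iff₀ hS0]
      have h2 : (d : ℝ) ≤ L := by exact_mod_cast hd.2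
      have h3 := hWS d
      have h4 : |(moebius d : ℝ)| * (d : ℝ) ≤ 1 * (L : ℝ) :=
        mul_le_mul h1 h2 (Nat.cast_nonneg d) zero_le_one
      have h5 : 0 ≤ |(moebius d : ℝ)| * (d : ℝ) := by positivity
      calc |(moebius d : ℝ)| * (d : ℝ) * W d ≤ (1 * (L : ℝ)) * S :=
            mul_le_mul h4 h3 (hW0 d) (by positivity)
        _ = L * S := by ring
    · rw [abs_zero]
      positivity
  · intro d hd
    rw [hρ]
    simp only [hd, if_false]
  · -- the quadratic form
    have h1 : ∀ d ∈ Icc 1 L, ∀ e ∈ Icc 1 L, ρ d * ρ e / (Nat.lcm d e : ℝ) =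
        ∑ k ∈ Icc 1 L, (k.totient : ℝ) * ((if k ∣ d then ρ d / (d : ℝ) else 0) *
          (if k ∣ e then ρ e / (e : ℝ) else 0)) := by
      intro d hd e he
      rw [mem_Icc] at hd he
      have hd0 : (d : ℝ) ≠ 0 := by exact_mod_cast (by omega : d ≠ 0)
      have he0 : (e : ℝ) ≠ 0 := by exact_mod_cast (by omega : e ≠ 0)
      have hg0 : 0 < d.gcd e := Nat.gcd_pos_of_pos_left _ (by omega)
      have h2 : (Nat.lcm d e : ℝ) * (Nat.gcd d e : ℝ) = (d : ℝ) * e := by
        have := Nat.gcd_mul_lcm d e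
        rw [mul_comm] at this
        exact_mod_cast this
      have hl0 : (Nat.lcm d e : ℝ) ≠ 0 := by
        exact_mod_cast (Nat.lcm_pos (by omega) (by omega)).ne'
      have h3 : ((d.gcd e : ℕ) : ℝ) = ∑ k ∈ (d.gcd e).divisors, (k.totient : ℝ) := by
        exact_mod_cast (Nat.sum_totient (d.gcd e)).symm
      have h4 : ρ d * ρ e / (Nat.lcm d e : ℝ) =
          ((d.gcd e : ℕ) : ℝ) * (ρ d / d * (ρ e / e)) := by
        field_simp
        linear_combination (-(ρ d * ρ e)) * h2
      rw [h4, h3, Finset.sum_mul]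
      have h5 : (d.gcd e).divisors = (Icc 1 L).filter (fun k => k ∣ d ∧ k ∣ e) := by
        ext k
        rw [Nat.mem_divisors, mem_filter, mem_Icc, Nat.dvd_gcd_iff]
        constructor
        · rintro ⟨⟨h6, h7⟩, _⟩
          exact ⟨⟨Nat.pos_of_dvd_of_pos h6 (by omega), (Nat.le_of_dvd (by omega) h6).trans hd.2⟩,
            h6, h7⟩
        · rintro ⟨_, h6, h7⟩
          exact ⟨⟨h6, h7⟩, hg0.ne'⟩
      rw [h5, Finset.sum_filter]
      refine Finset.sum_congr rfl fun k _ => ?_
      by_cases h6 : k ∣ d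
      · by_cases h7 : k ∣ e
        · simp [h6, h7]
        · simp [h6, h7]
      · simp [h6]
    have h2 : ∑ d ∈ Icc 1 L, ∑ e ∈ Icc 1 L, ρ d * ρ e / (Nat.lcm d e : ℝ) =
        ∑ k ∈ Icc 1 L, (k.totient : ℝ) *
          (∑ d ∈ Icc 1 L, (if k ∣ d then ρ d / (d : ℝ) else 0)) ^ 2 := by
      calc ∑ d ∈ Icc 1 L, ∑ e ∈ Icc 1 L, ρ d * ρ e / (Nat.lcm d e : ℝ)
          = ∑ d ∈ Icc 1 L, ∑ e ∈ Icc 1 L, ∑ k ∈ Icc 1 L, (k.totient : ℝ) *
            ((if k ∣ d then ρ d / (d : ℝ) else 0) * (if k ∣ e then ρ e / (e : ℝ) else 0)) :=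
            Finset.sum_congr rfl fun d hd => Finset.sum_congr rfl fun e he => h1 d hd e he
        _ = ∑ k ∈ Icc 1 L, ∑ d ∈ Icc 1 L, ∑ e ∈ Icc 1 L, (k.totient : ℝ) *
            ((if k ∣ d then ρ d / (d : ℝ) else 0) * (if k ∣ e then ρ e / (e : ℝ) else 0)) := by
            rw [Finset.sum_comm' (t' := Icc 1 L) (s' := fun _ => Icc 1 L) (by simp)]
            rw [Finset.sum_comm]
            have : ∀ d ∈ Icc 1 L, ∑ e ∈ Icc 1 L, ∑ k ∈ Icc 1 L, (k.totient : ℝ) *
              ((if k ∣ d then ρ d / (d : ℝ) else 0) * (if k ∣ e then ρ e / (e : ℝ) else 0)) =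
              ∑ k ∈ Icc 1 L, ∑ e ∈ Icc 1 L, (k.totient : ℝ) *
              ((if k ∣ d then ρ d / (d : ℝ) else 0) * (if k ∣ e then ρ e / (e : ℝ) else 0)) :=
              fun d _ => Finset.sum_comm
            rw [Finset.sum_congr rfl this, Finset.sum_comm]
        _ = _ := by
            refine Finset.sum_congr rfl fun k _ => ?_
            rw [sq, Finset.sum_mul_sum, Finset.mul_sum]
            refine Finset.sum_congr rfl fun d _ => ?_
            rw [Finset.mul_sum]
    rw [h2]
    have h3 : ∑ k ∈ Icc 1 L, (k.totient : ℝ) *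
          (∑ d ∈ Icc 1 L, (if k ∣ d then ρ d / (d : ℝ) else 0)) ^ 2 =
        ∑ k ∈ Icc 1 L, sel_g k / S ^ 2 := by
      refine Finset.sum_congr rfl fun k hk => ?_
      rw [hy k hk]
      by_cases hsq : Squarefree k
      · have h4 : (moebius k : ℝ) ^ 2 = 1 := by
          have := moebius_sq_eq_one_of_squarefree hsq
          exact_mod_cast this
        have h5 : (k.totient : ℝ) ≠ 0 := by
          rw [mem_Icc] at hk
          exact_mod_cast (Nat.totient_pos.2 (by omega)).ne'
        unfold sel_g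
        rw [if_pos hsq, div_pow, mul_pow, h4]
        field_simp
      · have h5 : sel_g k = 0 := by
          unfold sel_g
          rw [if_neg hsq]
        rw [h5]
        ring
    rw [h3, ← Finset.sum_div, ← hS]
    have h6 : S / S ^ 2 = 1 / S := by
      field_simp
    rw [h6]
    exact one_div_le_one_div_of_le hlog hSL

end Pool.Agent.H67.VS
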