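import Pool.Agent.H67.VS.Defs
import Pool.Agent.H75.AP.MertensA
import Pool.Agent.H5.PNT.PNT

/-!
[H67 VS SQB]  Two facts about primes.

Proofs.
* `sq_lower`: Mertens' first theorem (H75/AP/MertensA.lean) gives
  `∑_{X^(7/100) < q ≤ X^(8/100)} log q / q ≥ (1/100) log X - C`, and `1/(q-1) ≥ (log q/q)/log(X^(8/100))`.
* `theta_total`: prime number theorem (`Pool/Agent/H5/PNT/PNT.lean`): `θ(7X/4) - θ(5X/4) ~ X/2`.
-/

namespace Pool.Agent.H67.VS

open Finset Filter

open Pool.Agent.H75.AP.MertA in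
lemma sqb_sum (a b : ℕ) (ha : 1 ≤ a) (hab : a ≤ b) :
    Real.log b - 5 - (Real.log a + Real.log 4) ≤
      ∑ q ∈ (Ioc a b).filter Nat.Prime, Real.log q / q := by
  have h1 := lowerN b (le_trans ha hab)
  have h2 := upperN a ha
  have hdis : Disjoint (PN a) ((Ioc a b).filter Nat.Prime) := by
    rw [Finset.disjoint_left]
    intro p hp hp'
    rw [PN, Finset.mem_filter, Finset.mem_range] at hp
    rw [Finset.mem_filter, Finset.mem_Ioc] at hp'
    omega
  have hun : PN b = PN a ∪ (Ioc a b).filter Nat.Prime := by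
    ext p
    simp only [PN, Finset.mem_filter, Finset.mem_range, Finset.mem_union, Finset.mem_Ioc]
    constructor
    · rintro ⟨h, hp⟩
      by_cases hpa : p < a + 1
      · exact Or.inl ⟨hpa, hp⟩
      · exact Or.inr ⟨⟨by omega, by omega⟩, hp⟩
    · rintro (⟨h, hp⟩ | ⟨⟨h, h'⟩, hp⟩)
      · exact ⟨by omega, hp⟩
      · exact ⟨by omega, hp⟩
  rw [hun, Finset.sum_union hdis] at h1
  linarith

theorem sq_lower : ∃ c : ℝ, 0 < c ∧ ∀ᶠ X : ℝ in atTop, c ≤ Sq (Qx X) := by
  refine ⟨1 / 16, by norm_num, ?_⟩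
  filter_upwards [eventually_ge_atTop (Real.exp 2000)] with X hX
  have hXpos : 0 < X := lt_of_lt_of_le (Real.exp_pos _) hX
  set L : ℝ := Real.log X with hL
  have hL1 : 2000 ≤ L := by
    rw [hL, Real.le_log_iff_exp_le hXpos]
    exact hX
  have hX1 : 1 ≤ X := by
    have := Real.add_one_le_exp (2000 : ℝ)
    linarith
  set a : ℕ := ⌊X ^ (7 / 100 : ℝ)⌋₊ with ha
  set b : ℕ := ⌊X ^ (8 / 100 : ℝ)⌋₊ with hb
  have hpa : 1 ≤ X ^ (7 / 100 : ℝ) := Real.one_le_rpow hX1 (by norm_num)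
  have hab' : X ^ (7 / 100 : ℝ) ≤ X ^ (8 / 100 : ℝ) :=
    Real.rpow_le_rpow_of_exponent_le hX1 (by norm_num)
  have ha1 : 1 ≤ a := Nat.le_floor (by simpa using hpa)
  have hab : a ≤ b := Nat.floor_le_floor hab'
  have hla : Real.log a ≤ 7 / 100 * L := by
    rw [hL, ← Real.log_rpow hXpos]
    exact Real.log_le_log (by exact_mod_cast ha1) (Nat.floor_le (by positivity))
  have hlb : Real.log b ≤ 8 / 100 * L := by
    rw [hL, ← Real.log_rpow hXpos]
    exact Real.log_le_log (by exact_mod_cast (le_trans ha1 hab)) (Nat.floor_le (by positivity))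
  have hlb' : 8 / 100 * L - Real.log 2 ≤ Real.log b := by
    have h1 : X ^ (8 / 100 : ℝ) / 2 ≤ b := by
      have h2 := Nat.lt_floor_add_one (X ^ (8 / 100 : ℝ))
      rw [← hb] at h2
      have h3 : (1 : ℝ) ≤ b := by exact_mod_cast (le_trans ha1 hab)
      linarith
    have h4 : 8 / 100 * L - Real.log 2 = Real.log (X ^ (8 / 100 : ℝ) / 2) := by
      rw [Real.log_div (by positivity) (by norm_num), Real.log_rpow hXpos]
    rw [h4]
    exact Real.log_le_log (by positivity) h1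
  have hlog2 : Real.log 2 < 1 := by
    have := Real.log_two_lt_d9
    linarith
  have hlog4 : Real.log 4 < 2 := by
    have h1 : (4 : ℝ) = 2 ^ 2 := by norm_num
    rw [h1, Real.log_pow]
    push_cast
    linarith
  have hlbpos : 0 < Real.log b := by linarith
  have hsum := sqb_sum a b ha1 hab
  have hterm : ∀ q ∈ Qx X, Real.log q / q / Real.log b ≤ 1 / ((q : ℝ) - 1) := by
    intro q hq
    rw [Qx, Finset.mem_filter, Finset.mem_Ioc] at hq
    have hq2 : (2 : ℝ) ≤ q := by exact_mod_cast hq.2.two_le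
    have hqb : Real.log q ≤ Real.log b :=
      Real.log_le_log (by linarith) (by exact_mod_cast hq.1.2)
    rw [div_div, div_le_div_iff₀ (by positivity) (by linarith)]
    have hlq : 0 ≤ Real.log q := Real.log_nonneg (by linarith)
    nlinarith
  have h1 : (∑ q ∈ Qx X, Real.log q / q) / Real.log b ≤ Sq (Qx X) := by
    rw [Finset.sum_div]
    exact Finset.sum_le_sum hterm
  refine le_trans ?_ h1
  rw [le_div_iff₀ hlbpos]
  refine le_trans ?_ hsum
  linarith

lemma sqb_theta (x y : ℝ) (hxy : x ≤ y) :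
    ∑ n ∈ Ioc ⌊x⌋₊ ⌊y⌋₊, pl n = Chebyshev.theta y - Chebyshev.theta x := by
  have h : ∀ z : ℝ, Chebyshev.theta z = ∑ n ∈ Ioc 0 ⌊z⌋₊, pl n := by
    intro z
    unfold Chebyshev.theta pl
    rw [Finset.sum_filter]
  rw [h, h, ← Finset.sum_Ioc_consecutive pl (Nat.zero_le _) (Nat.floor_le_floor hxy)]
  ring

theorem theta_total : ∃ c : ℝ, 0 < c ∧ ∀ᶠ X : ℝ in atTop,
    c * X ≤ ∑ n ∈ Ioc ⌊5 * X / 4⌋₊ ⌊7 * X / 4⌋₊, pl n := by
  refine ⟨1 / 4, by norm_num, ?_⟩
  have h0 := Pool.Agent.H5.PNT.theta_tendsto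
  have h1 : ∀ᶠ x : ℝ in atTop, |Chebyshev.theta x / x - 1| < 1 / 100 := by
    have h2 : Tendsto (fun x : ℝ => |Chebyshev.theta x / x - 1|) atTop (nhds 0) := by
      have h3 := (h0.sub_const 1).abs
      rwa [sub_self, abs_zero] at h3
    exact h2.eventually (gt_mem_nhds (by norm_num))
  have t1 : Tendsto (fun X : ℝ => 5 * X / 4) atTop atTop := by
    have := tendsto_id.const_mul_atTop (show (0 : ℝ) < 5 / 4 by norm_num)
    refine this.congr fun x => ?_
    simp only [id]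
    ring
  have t2 : Tendsto (fun X : ℝ => 7 * X / 4) atTop atTop := by
    have := tendsto_id.const_mul_atTop (show (0 : ℝ) < 7 / 4 by norm_num)
    refine this.congr fun x => ?_
    simp only [id]
    ring
  filter_upwards [t1.eventually h1, t2.eventually h1, eventually_gt_atTop (0 : ℝ)]
    with X hX1 hX2 hX
  rw [sqb_theta _ _ (by linarith)]
  rw [abs_lt] at hX1 hX2
  have e1 : Chebyshev.theta (5 * X / 4) ≤ (1 + 1 / 100) * (5 * X / 4) := by
    rw [← div_le_iff₀ (by linarith)]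
    linarith [hX1.2]
  have e2 : (1 - 1 / 100) * (7 * X / 4) ≤ Chebyshev.theta (7 * X / 4) := by
    rw [← le_div_iff₀ (by linarith)]
    linarith [hX2.1]
  linarith

end Pool.Agent.H67.VS
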