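import Pool.Agent.H67.VS.Defs

/-!
[H67 VS COV]  The covariance: diagonal term and shifts.

Proof.  `PH H x * gH x = ∑_{h,h'} pl(x+h) bb(x, h')`.  For a pair `(h,h')` put `n = x + h`,
`bb ρ L Q x h' = bb ρ L Q n (h'-h)` (only `x + h' = n + (h'-h)` matters) and compare
`S = ∑_{x ∈ (A,B]} w(x) pl(x+h) bb(x,h') = ∑_{n ∈ (A+h,B+h]} w(n-h) pl(n) bb(n,h'-h)` with
`T = ∑_{n ∈ (A,B]} w(n) pl(n) bb(n,h'-h)`.  As `w` vanishes outside `(A,B]`,
`|S - T| ≤ ∑_{n ∈ (A,B+h]} |w(n-h) - w(n)| pl(n) |bb(n,h'-h)|` (`h ≤ H ≤ A`, so `n - h` is a true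
subtraction), `∑_n |w(n-h) - w(n)| ≤ 3h` (telescoping, `Wt.tv`), `pl(n) ≤ log(B+H)`,
`|FF| ≤ ∑|ρ_d| ≤ L^2`, `|GG| ≤ ∑_q (1+q)/(q-1) ≤ 3|Q|`.  So `|S - T| ≤ 9 H L^2 |Q| log(B+H)`, and
there are `H^2` pairs.
For `h = h'`: for a prime `n > A` the only divisor `≤ L ≤ A` is `1`, so `FF ρ L n 0 = ρ 1 = 1`, and no
`q ∈ Q` (`q ≤ A < n`) divides `n`, so `GG Q n 0 = Sq Q`; `T = Sq Q * theta`.
-/

namespace Pool.Agent.H67.VS

open Finset

theorem cov_pl_nonneg (n : ℕ) : 0 ≤ pl n := by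
  unfold pl
  split_ifs
  · exact Real.log_natCast_nonneg n
  · exact le_rfl

theorem cov_pl_le {n : ℕ} {M : ℝ} (hM : (n : ℝ) ≤ M) (hM1 : 1 ≤ M) : pl n ≤ Real.log M := by
  unfold pl
  split_ifs with h
  · exact Real.log_le_log (by exact_mod_cast h.pos) hM
  · exact Real.log_nonneg hM1

theorem cov_tv {A B : ℕ} {w : ℕ → ℝ} (hw : Wt A B w) (N : ℕ) (h : ℕ) (hA : h ≤ A) :
    ∑ n ∈ Ioc A N, |w (n - h) - w n| ≤ 3 * h := by
  induction h with
  | zero => simp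
  | succ h ih =>
    have ih' := ih (by omega)
    have e1 : ∑ n ∈ Ioc A N, |w (n - (h + 1)) - w (n - h)| ≤ 3 := by
      refine le_trans (le_of_eq ?_) (hw.tv (A - h) (N - h))
      refine Finset.sum_nbij' (fun n => n - (h + 1)) (fun k => k + (h + 1)) ?_ ?_ ?_ ?_ ?_
      · intro n hn
        rw [mem_Ioc] at hn
        rw [mem_Ico]
        omega
      · intro n hn
        rw [mem_Ico] at hn
        rw [mem_Ioc]
        omega
      · intro n hn
        rw [mem_Ioc] at hn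
        omega
      · intro n hn
        rw [mem_Ico] at hn
        omega
      · intro n hn
        rw [mem_Ioc] at hn
        have : n - (h + 1) + 1 = n - h := by omega
        rw [this, abs_sub_comm]
    have e2 : ∑ n ∈ Ioc A N, |w (n - (h + 1)) - w n| ≤
        ∑ n ∈ Ioc A N, (|w (n - (h + 1)) - w (n - h)| + |w (n - h) - w n|) := by
      refine Finset.sum_le_sum (fun n _ => ?_)
      exact abs_sub_le _ _ _
    rw [Finset.sum_add_distrib] at e2
    push_cast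
    linarith

theorem cov_FF_le {L : ℕ} {ρ : ℕ → ℝ} (hρ : SW L ρ) (n : ℕ) (k : ℤ) :
    |FF ρ L n k| ≤ (L : ℝ) ^ 2 := by
  unfold FF
  refine (Finset.abs_sum_le_sum_abs _ _).trans ?_
  refine (Finset.sum_le_card_nsmul _ _ (L : ℝ) ?_).trans ?_
  · intro d _
    split_ifs
    · exact hρ.bd d
    · rw [abs_zero]
      exact Nat.cast_nonneg _
  · rw [Nat.card_Icc, nsmul_eq_mul, Nat.add_sub_cancel, sq]

theorem cov_GG_le {Q : Finset ℕ} (hQ : ∀ q ∈ Q, q.Prime) (n : ℕ) (k : ℤ) :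
    |GG Q n k| ≤ Q.card := by
  unfold GG
  refine (Finset.abs_sum_le_sum_abs _ _).trans ?_
  refine (Finset.sum_le_card_nsmul _ _ (1 : ℝ) ?_).trans ?_
  · intro q hq
    have h2 : (2 : ℝ) ≤ q := by exact_mod_cast (hQ q hq).two_le
    rw [abs_div, abs_of_pos (by linarith : (0 : ℝ) < (q : ℝ) - 1), div_le_one (by linarith)]
    split_ifs
    · rw [abs_sub_comm, abs_of_nonneg (by linarith)]
    · rw [sub_zero, abs_one]
      linarith
  · rw [nsmul_eq_mul, mul_one]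

theorem cov_bb_le {L : ℕ} {ρ : ℕ → ℝ} (hρ : SW L ρ) {Q : Finset ℕ} (hQ : ∀ q ∈ Q, q.Prime)
    (n : ℕ) (k : ℤ) : |bb ρ L Q n k| ≤ (L : ℝ) ^ 2 * Q.card := by
  unfold bb
  rw [abs_mul]
  exact mul_le_mul (cov_FF_le hρ n k) (cov_GG_le hQ n k) (abs_nonneg _) (by positivity)

theorem cov_bb_shift (ρ : ℕ → ℝ) (L : ℕ) (Q : Finset ℕ) (x h : ℕ) (h' : ℤ) :
    bb ρ L Q x h' = bb ρ L Q (x + h) (h' - (h : ℤ)) := by
  have e : (x : ℤ) + h' = ((x + h : ℕ) : ℤ) + (h' - (h : ℤ)) := by push_cast; ring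
  unfold bb FF GG
  rw [e]

theorem cov_one {A B L H : ℕ} {w ρ : ℕ → ℝ} {Q : Finset ℕ} (hw : Wt A B w)
    (hρ : SW L ρ) (hHA : H ≤ A) (hQ : ∀ q ∈ Q, q.Prime) (h : ℕ) (hh : h ∈ Icc 1 H) (h' : ℤ) :
    |∑ x ∈ Ioc A B, w x * (pl (x + h) * bb ρ L Q x h') -
      ∑ n ∈ Ioc A B, w n * pl n * bb ρ L Q n (h' - (h : ℤ))| ≤
      3 * H * (Real.log (B + H) * ((L : ℝ) ^ 2 * Q.card)) := by
  rw [mem_Icc] at hh
  have hS : ∑ x ∈ Ioc A B, w x * (pl (x + h) * bb ρ L Q x h') =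
      ∑ n ∈ Ioc A (B + h), w (n - h) * (pl n * bb ρ L Q n (h' - (h : ℤ))) := by
    have e1 : ∑ x ∈ Ioc A B, w x * (pl (x + h) * bb ρ L Q x h') =
        ∑ n ∈ Ioc (A + h) (B + h), w (n - h) * (pl n * bb ρ L Q n (h' - (h : ℤ))) := by
      refine Finset.sum_nbij' (fun n => n + h) (fun k => k - h) ?_ ?_ ?_ ?_ ?_
      · intro n hn
        rw [mem_Ioc] at hn ⊢
        omega
      · intro n hn
        rw [mem_Ioc] at hn ⊢
        omega
      · intro n hn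
        rw [mem_Ioc] at hn
        omega
      · intro n hn
        rw [mem_Ioc] at hn
        omega
      · intro n hn
        rw [Nat.add_sub_cancel, cov_bb_shift ρ L Q n h h']
    rw [e1]
    refine Finset.sum_subset ?_ ?_
    · intro n hn
      rw [mem_Ioc] at hn ⊢
      omega
    · intro n hn hn'
      rw [mem_Ioc] at hn hn'
      rw [hw.zero (n - h) (by rw [mem_Ioc]; omega), zero_mul]
  have hT : ∑ n ∈ Ioc A B, w n * pl n * bb ρ L Q n (h' - (h : ℤ)) =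
      ∑ n ∈ Ioc A (B + h), w n * (pl n * bb ρ L Q n (h' - (h : ℤ))) := by
    rw [← Finset.sum_subset (s₁ := Ioc A B) (s₂ := Ioc A (B + h))]
    · exact Finset.sum_congr rfl (fun n _ => mul_assoc _ _ _)
    · intro n hn
      rw [mem_Ioc] at hn ⊢
      omega
    · intro n hn hn'
      rw [hw.zero n hn', zero_mul]
  rw [hS, hT, ← Finset.sum_sub_distrib]
  have hBH : (1 : ℝ) ≤ (B : ℝ) + H := by
    have : 1 ≤ B + H := by omega
    exact_mod_cast this
  have hlog : 0 ≤ Real.log ((B : ℝ) + H) := Real.log_nonneg hBH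
  have hC : 0 ≤ Real.log ((B : ℝ) + H) * ((L : ℝ) ^ 2 * Q.card) := by positivity
  refine (Finset.abs_sum_le_sum_abs _ _).trans ?_
  calc ∑ n ∈ Ioc A (B + h), |w (n - h) * (pl n * bb ρ L Q n (h' - (h : ℤ))) -
        w n * (pl n * bb ρ L Q n (h' - (h : ℤ)))|
      ≤ ∑ n ∈ Ioc A (B + h), |w (n - h) - w n| *
        (Real.log ((B : ℝ) + H) * ((L : ℝ) ^ 2 * Q.card)) := by
        refine Finset.sum_le_sum (fun n hn => ?_)
        rw [mem_Ioc] at hn
        rw [← sub_mul, abs_mul, abs_mul, abs_of_nonneg (cov_pl_nonneg n)]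
        apply mul_le_mul_of_nonneg_left _ (abs_nonneg _)
        apply mul_le_mul
        · apply cov_pl_le _ hBH
          have : n ≤ B + H := by omega
          exact_mod_cast this
        · exact cov_bb_le hρ hQ _ _
        · exact abs_nonneg _
        · exact hlog
    _ = (∑ n ∈ Ioc A (B + h), |w (n - h) - w n|) *
        (Real.log ((B : ℝ) + H) * ((L : ℝ) ^ 2 * Q.card)) := by rw [Finset.sum_mul]
    _ ≤ 3 * H * (Real.log ((B : ℝ) + H) * ((L : ℝ) ^ 2 * Q.card)) := by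
        apply mul_le_mul_of_nonneg_right _ hC
        refine (cov_tv hw (B + h) h (by omega)).trans ?_
        have : (h : ℝ) ≤ H := by exact_mod_cast hh.2
        linarith

theorem cov_diag {A B L : ℕ} {w ρ : ℕ → ℝ} {Q : Finset ℕ} (hρ : SW L ρ) (hLA : L ≤ A)
    (hL : 1 ≤ L) (hQ : ∀ q ∈ Q, q.Prime ∧ L < q ∧ q ≤ A) :
    ∑ n ∈ Ioc A B, w n * pl n * bb ρ L Q n 0 = Sq Q * theta A B w := by
  unfold theta
  rw [Finset.mul_sum]
  refine Finset.sum_congr rfl (fun n hn => ?_)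
  rw [mem_Ioc] at hn
  by_cases hp : n.Prime
  · have e1 : FF ρ L n 0 = 1 := by
      unfold FF
      rw [Finset.sum_eq_single_of_mem 1 (by rw [mem_Icc]; omega)]
      · rw [if_pos (by simp), hρ.one]
      · intro d hd hd1
        rw [mem_Icc] at hd
        rw [if_neg]
        intro hdn
        rw [add_zero, Int.natCast_dvd_natCast] at hdn
        rcases (Nat.dvd_prime hp).1 hdn with h | h
        · exact hd1 h
        · omega
    have e2 : GG Q n 0 = Sq Q := by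
      unfold GG Sq
      refine Finset.sum_congr rfl (fun q hq => ?_)
      rw [if_neg, sub_zero]
      intro hqn
      rw [add_zero, Int.natCast_dvd_natCast] at hqn
      obtain ⟨h1, h2, h3⟩ := hQ q hq
      rcases (Nat.dvd_prime hp).1 hqn with h | h
      · exact h1.one_lt.ne' h
      · omega
    unfold bb
    rw [e1, e2]
    ring
  · have : pl n = 0 := by unfold pl; rw [if_neg hp]
    rw [this]
    ring

theorem cov_split {A B L H : ℕ} {w ρ : ℕ → ℝ} {Q : Finset ℕ} (hw : Wt A B w) (hAB : A ≤ B)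
    (hρ : SW L ρ) (hLA : L ≤ A) (hHA : H ≤ A) (hL : 1 ≤ L)
    (hQ : ∀ q ∈ Q, q.Prime ∧ L < q ∧ q ≤ A) :
    |∑ x ∈ Ioc A B, w x * (PH H x * gH ρ L Q H x) -
      (H * Sq Q * theta A B w +
        ∑ p ∈ offd H, ∑ n ∈ Ioc A B, w n * pl n * bb ρ L Q n ((p.2 : ℤ) - (p.1 : ℤ)))| ≤
      9 * (H : ℝ) ^ 3 * (L : ℝ) ^ 2 * Q.card * Real.log (B + H) := by
  have hQ' : ∀ q ∈ Q, q.Prime := fun q hq => (hQ q hq).1
  rcases Nat.eq_zero_or_pos H with hH | hH
  · subst hH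
    simp [PH, offd]
  have hS : ∑ x ∈ Ioc A B, w x * (PH H x * gH ρ L Q H x) =
      ∑ p ∈ (Icc 1 H) ×ˢ (Icc 1 H), ∑ x ∈ Ioc A B,
        w x * (pl (x + p.1) * bb ρ L Q x ((p.2 : ℕ) : ℤ)) := by
    rw [Finset.sum_comm]
    refine Finset.sum_congr rfl (fun x _ => ?_)
    unfold PH gH
    rw [Finset.sum_mul_sum, ← Finset.sum_product', Finset.mul_sum]
  have hT : H * Sq Q * theta A B w +
        ∑ p ∈ offd H, ∑ n ∈ Ioc A B, w n * pl n * bb ρ L Q n ((p.2 : ℤ) - (p.1 : ℤ)) =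
      ∑ p ∈ (Icc 1 H) ×ˢ (Icc 1 H), ∑ n ∈ Ioc A B,
        w n * pl n * bb ρ L Q n ((p.2 : ℤ) - (p.1 : ℤ)) := by
    rw [← Finset.sum_filter_add_sum_filter_not ((Icc 1 H) ×ˢ (Icc 1 H)) (fun p => p.1 ≠ p.2),
      add_comm]
    unfold offd
    congr 1
    have e1 : ((Icc 1 H) ×ˢ (Icc 1 H)).filter (fun p : ℕ × ℕ => ¬ p.1 ≠ p.2) =
        (Icc 1 H).image (fun h => (h, h)) := by
      ext ⟨u, v⟩
      simp only [mem_filter, mem_product, mem_image, not_not, Prod.mk.injEq]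
      constructor
      · rintro ⟨⟨h1, h2⟩, h3⟩
        exact ⟨u, h1, rfl, h3⟩
      · rintro ⟨y, hy, rfl, rfl⟩
        exact ⟨⟨hy, hy⟩, rfl⟩
    rw [e1, Finset.sum_image (by intro a _ b _ h; exact (Prod.mk.inj h).1)]
    rw [Finset.sum_congr rfl (g := fun _ => Sq Q * theta A B w)]
    · rw [Finset.sum_const, Nat.card_Icc, nsmul_eq_mul, Nat.add_sub_cancel]
      ring
    · intro h _
      rw [← cov_diag hρ hLA hL hQ]
      refine Finset.sum_congr rfl (fun n _ => ?_)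
      rw [sub_self]
  rw [hS, hT, ← Finset.sum_sub_distrib]
  have hBH : (1 : ℝ) ≤ (B : ℝ) + H := by
    have : 1 ≤ B + H := by omega
    exact_mod_cast this
  have hlog : 0 ≤ Real.log ((B : ℝ) + H) := Real.log_nonneg hBH
  refine (Finset.abs_sum_le_sum_abs _ _).trans ?_
  refine (Finset.sum_le_card_nsmul _ _ (3 * H * (Real.log (B + H) * ((L : ℝ) ^ 2 * Q.card))) ?_).trans ?_
  · intro p hp
    rw [mem_product] at hp
    exact cov_one hw hρ hHA hQ' p.1 hp.1 (p.2 : ℤ)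
  · rw [card_product, Nat.card_Icc, nsmul_eq_mul, Nat.add_sub_cancel]
    push_cast
    have : 0 ≤ (H : ℝ) ^ 3 * (L : ℝ) ^ 2 * Q.card * Real.log ((B : ℝ) + H) := by positivity
    nlinarith

end Pool.Agent.H67.VS
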