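import Pool.Agent.H67.VS.CharB

/-!
[H67 VS CHARS]  Sum of the discrepancies over `q` and `d`.

Proof.  `char_bound` for each `q ∈ Q`, `d ≤ L` (`1/(q-1) ≤ 1/Y`).  For fixed `d` the sets
`{c ∈ PC R : c.md ∣ dq, q ∣ c.md}`, `q ∈ Q`, are pairwise disjoint: `q' ∣ c.md ∣ d q` with `q' ≠ q`
primes gives `q' ∣ d`, impossible as `0 < d ≤ L < q'`.  So the sum over `q` is at most the sum over
all `c ∈ PC R`.
-/

namespace Pool.Agent.H67.VS

open Finset Pool.Agent.H21.MT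

open Classical in
theorem chars_disj {R L : ℕ} (Q : Finset ℕ) (d : ℕ) (hd : 1 ≤ d) (hdL : d ≤ L)
    (hQ : ∀ q ∈ Q, q.Prime ∧ L < q) (f : Ch R → ℝ) (hf : ∀ c, 0 ≤ f c) :
    ∑ q ∈ Q, ∑ c ∈ (PC R).filter (fun c => c.md ∣ d * q ∧ q ∣ c.md), f c ≤ ∑ c ∈ PC R, f c := by
  rw [← Finset.sum_biUnion]
  · apply Finset.sum_le_sum_of_subset_of_nonneg
    · intro c hc
      rw [Finset.mem_biUnion] at hc
      obtain ⟨q, _, hq⟩ := hc
      exact (Finset.mem_filter.mp hq).1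
    · intro c _ _
      exact hf c
  · intro q hq q' hq' hne
    show Disjoint _ _
    rw [Finset.disjoint_left]
    intro c hc hc'
    rw [Finset.mem_filter] at hc hc'
    obtain ⟨_, h1, _⟩ := hc
    obtain ⟨_, _, h2⟩ := hc'
    have h3 : q' ∣ d * q := h2.trans h1
    have hq1 := hQ q (by simpa using hq)
    have hq2 := hQ q' (by simpa using hq')
    rcases (hq2.1.dvd_mul).mp h3 with h4 | h4
    · have := Nat.le_of_dvd (by omega) h4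
      omega
    · exact hne ((Nat.prime_dvd_prime_iff_eq hq2.1 hq1.1).mp h4).symm

theorem char_sum {A B L R H : ℕ} {w : ℕ → ℝ} {Q : Finset ℕ} (Y : ℝ) (hY : 0 < Y)
    (hQ : ∀ q ∈ Q, q.Prime ∧ L < q ∧ H ≤ q ∧ L * q ≤ R ∧ L * q ≤ A ∧ Y ≤ (q : ℝ) - 1) :
    ∑ q ∈ Q, ∑ d ∈ Icc 1 L, |∑ p ∈ offd H, EE A B w d q ((p.2 : ℤ) - (p.1 : ℤ))| ≤
      2 / Y * ∑ d ∈ Icc 1 L, ∑ c ∈ PC R, ‖ThC A B w c.2‖ * ‖KC H (kap H d) c.2‖ := by
  classical
  rw [Finset.sum_comm, Finset.mul_sum]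
  apply Finset.sum_le_sum
  intro d hd
  rw [Finset.mem_Icc] at hd
  have h1 : ∀ q ∈ Q, |∑ p ∈ offd H, EE A B w d q ((p.2 : ℤ) - (p.1 : ℤ))| ≤
      2 / Y * ∑ c ∈ (PC R).filter (fun c => c.md ∣ d * q ∧ q ∣ c.md),
        ‖ThC A B w c.2‖ * ‖KC H (kap H d) c.2‖ := by
    intro q hq
    obtain ⟨hp, hLq, hHq, hR, hA, hYq⟩ := hQ q hq
    have hdq : d * q ≤ L * q := Nat.mul_le_mul_right _ hd.2
    have h2 := char_bound (A := A) (B := B) (w := w) d q R H hd.1 (by omega) hp hHq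
      (hdq.trans hR) (hdq.trans hA)
    refine h2.trans ?_
    have h3 : (2 : ℝ) / ((q : ℝ) - 1) ≤ 2 / Y :=
      div_le_div_of_nonneg_left (by norm_num) hY hYq
    refine mul_le_mul_of_nonneg_right h3 ?_
    exact Finset.sum_nonneg fun c _ => by positivity
  calc ∑ q ∈ Q, |∑ p ∈ offd H, EE A B w d q ((p.2 : ℤ) - (p.1 : ℤ))|
      ≤ ∑ q ∈ Q, 2 / Y * ∑ c ∈ (PC R).filter (fun c => c.md ∣ d * q ∧ q ∣ c.md),
        ‖ThC A B w c.2‖ * ‖KC H (kap H d) c.2‖ := Finset.sum_le_sum h1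
    _ = 2 / Y * ∑ q ∈ Q, ∑ c ∈ (PC R).filter (fun c => c.md ∣ d * q ∧ q ∣ c.md),
        ‖ThC A B w c.2‖ * ‖KC H (kap H d) c.2‖ := by rw [Finset.mul_sum]
    _ ≤ 2 / Y * ∑ c ∈ PC R, ‖ThC A B w c.2‖ * ‖KC H (kap H d) c.2‖ := by
        apply mul_le_mul_of_nonneg_left _ (by positivity)
        exact chars_disj Q d hd.1 hd.2 (fun q hq => ⟨(hQ q hq).1, (hQ q hq).2.1⟩) _
          (fun c => by positivity)

end Pool.Agent.H67.VS
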