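import Pool.Agent.H67.VS.Defs

/-!
[H67 VS SPLIT]  Off-diagonal terms: reduction to the relative discrepancies `EE`.

Proof.  `bb ρ L Q n k = ∑_q ∑_d ρ_d/(q-1) ([d ∣ n+k] - q [d ∣ n+k][q ∣ n+k])` and
`[d ∣ .][q ∣ .] = [dq ∣ .]` (`q` prime, `d ≤ L < q`), so
`∑_n w pl bb(n,k) = ∑_q ∑_d ρ_d/(q-1) (th d k - q th (dq) k)`; with
`th (dq) k = EE d q k + th d k/(q-1)` and `1 - q/(q-1) = -1/(q-1)` this is
`- ∑_q ∑_d ρ_d/(q-1)^2 th d k - ∑_q ∑_d ρ_d q/(q-1) EE d q k`.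
Sum over the pairs (at most `H^2`): `0 ≤ th d k ≤ theta`, `∑|ρ_d| ≤ L^2`; `|ρ_d| ≤ L`, `q/(q-1) ≤ 2`.
-/

namespace Pool.Agent.H67.VS

open Finset

private theorem split_dvd {L : ℕ} {d q : ℕ} (hd : d ∈ Icc 1 L) (hq : q.Prime) (hLq : L < q)
    (m : ℤ) : (((d * q : ℕ) : ℤ) ∣ m) ↔ ((d : ℤ) ∣ m ∧ (q : ℤ) ∣ m) := by
  rw [mem_Icc] at hd
  have hcop : Nat.Coprime d q := by
    rw [Nat.coprime_comm, Nat.Prime.coprime_iff_not_dvd hq]
    intro h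
    have := Nat.le_of_dvd (by omega) h
    omega
  constructor
  · intro h
    rw [Nat.cast_mul] at h
    exact ⟨(Dvd.intro _ rfl).trans h, (Dvd.intro_left _ rfl).trans h⟩
  · rintro ⟨h1, h2⟩
    rw [Nat.cast_mul]
    exact IsCoprime.mul_dvd (Nat.isCoprime_iff_coprime.2 hcop) h1 h2

private theorem split_bb {L : ℕ} {ρ : ℕ → ℝ} {Q : Finset ℕ} (hQ : ∀ q ∈ Q, q.Prime ∧ L < q)
    (n : ℕ) (k : ℤ) :
    bb ρ L Q n k = ∑ q ∈ Q, ∑ d ∈ Icc 1 L, ρ d / ((q : ℝ) - 1) *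
      ((if (d : ℤ) ∣ (n : ℤ) + k then (1 : ℝ) else 0) -
        (q : ℝ) * (if ((d * q : ℕ) : ℤ) ∣ (n : ℤ) + k then (1 : ℝ) else 0)) := by
  unfold bb FF GG
  rw [mul_comm, sum_mul_sum]
  refine sum_congr rfl fun q hq => sum_congr rfl fun d hd => ?_
  have h1 := split_dvd hd (hQ q hq).1 (hQ q hq).2 ((n : ℤ) + k)
  by_cases hA : (d : ℤ) ∣ (n : ℤ) + k
  · by_cases hB : (q : ℤ) ∣ (n : ℤ) + k
    · rw [if_pos hA, if_pos hB, if_pos hA, if_pos (h1.2 ⟨hA, hB⟩)]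
      ring
    · rw [if_pos hA, if_neg hB, if_pos hA, if_neg (fun h => hB (h1.1 h).2)]
      ring
  · rw [if_neg hA, if_neg hA, if_neg (fun h => hA (h1.1 h).1)]
    ring

private theorem split_sum {A B L : ℕ} {w ρ : ℕ → ℝ} {Q : Finset ℕ}
    (hQ : ∀ q ∈ Q, q.Prime ∧ L < q) (k : ℤ) :
    ∑ n ∈ Ioc A B, w n * pl n * bb ρ L Q n k =
      -(∑ q ∈ Q, ∑ d ∈ Icc 1 L, ρ d / ((q : ℝ) - 1) ^ 2 * th A B w d k) -
      ∑ q ∈ Q, ∑ d ∈ Icc 1 L, ρ d * ((q : ℝ) / ((q : ℝ) - 1)) * EE A B w d q k := by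
  have h1 : ∑ n ∈ Ioc A B, w n * pl n * bb ρ L Q n k = ∑ q ∈ Q, ∑ d ∈ Icc 1 L,
      ρ d / ((q : ℝ) - 1) * (th A B w d k - (q : ℝ) * th A B w (d * q) k) := by
    simp only [split_bb hQ, mul_sum]
    rw [sum_comm]
    refine sum_congr rfl fun q _ => ?_
    rw [sum_comm]
    refine sum_congr rfl fun d _ => ?_
    unfold th
    rw [mul_sum, ← sum_sub_distrib, mul_sum]
    refine sum_congr rfl fun n _ => ?_
    split_ifs <;> ring
  rw [h1, ← sum_neg_distrib, ← sum_sub_distrib]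
  refine sum_congr rfl fun q hq => ?_
  rw [← sum_neg_distrib, ← sum_sub_distrib]
  refine sum_congr rfl fun d _ => ?_
  have hq' : (2 : ℝ) ≤ q := by exact_mod_cast (hQ q hq).1.two_le
  have hq1 : (q : ℝ) - 1 ≠ 0 := by linarith
  unfold EE
  field_simp
  ring

private theorem pl_nonneg (n : ℕ) : 0 ≤ pl n := by
  unfold pl
  split_ifs
  · exact Real.log_natCast_nonneg n
  · exact le_rfl

private theorem split_th {A B : ℕ} {w : ℕ → ℝ} (hw : Wt A B w) (m : ℕ) (k : ℤ) :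
    0 ≤ th A B w m k ∧ th A B w m k ≤ theta A B w := by
  have h0 : ∀ n, 0 ≤ w n * pl n := fun n => mul_nonneg (hw.nonneg n) (pl_nonneg n)
  unfold th theta
  constructor
  · refine sum_nonneg fun n _ => ?_
    split_ifs
    · exact h0 n
    · exact le_rfl
  · refine sum_le_sum fun n _ => ?_
    split_ifs
    · exact le_rfl
    · exact h0 n

theorem split_bound {A B L H : ℕ} {w ρ : ℕ → ℝ} {Q : Finset ℕ} (hw : Wt A B w)
    (hρ : SW L ρ) (hQ : ∀ q ∈ Q, q.Prime ∧ L < q) :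
    |∑ p ∈ offd H, ∑ n ∈ Ioc A B, w n * pl n * bb ρ L Q n ((p.2 : ℤ) - (p.1 : ℤ))| ≤
      (H : ℝ) ^ 2 * (L : ℝ) ^ 2 * theta A B w * ∑ q ∈ Q, 1 / ((q : ℝ) - 1) ^ 2 +
      2 * L * ∑ q ∈ Q, ∑ d ∈ Icc 1 L, |∑ p ∈ offd H, EE A B w d q ((p.2 : ℤ) - (p.1 : ℤ))| := by
  have hθ : 0 ≤ theta A B w := (split_th hw 1 0).1.trans (split_th hw 1 0).2
  have h1 : ∑ p ∈ offd H, ∑ n ∈ Ioc A B, w n * pl n * bb ρ L Q n ((p.2 : ℤ) - (p.1 : ℤ)) =
      -(∑ p ∈ offd H, ∑ q ∈ Q, ∑ d ∈ Icc 1 L, ρ d / ((q : ℝ) - 1) ^ 2 *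
        th A B w d ((p.2 : ℤ) - (p.1 : ℤ))) -
      ∑ q ∈ Q, ∑ d ∈ Icc 1 L, ρ d * ((q : ℝ) / ((q : ℝ) - 1)) *
        ∑ p ∈ offd H, EE A B w d q ((p.2 : ℤ) - (p.1 : ℤ)) := by
    rw [sum_congr rfl fun p _ => split_sum hQ ((p.2 : ℤ) - (p.1 : ℤ)), sum_sub_distrib,
      sum_neg_distrib]
    congr 1
    rw [sum_comm]
    refine sum_congr rfl fun q _ => ?_
    rw [sum_comm]
    refine sum_congr rfl fun d _ => ?_
    rw [mul_sum]
  rw [h1]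
  refine (abs_sub _ _).trans ?_
  rw [abs_neg]
  refine add_le_add ?_ ?_
  · refine (abs_sum_le_sum_abs _ _).trans ?_
    have h2 : ∀ p ∈ offd H, |∑ q ∈ Q, ∑ d ∈ Icc 1 L, ρ d / ((q : ℝ) - 1) ^ 2 *
        th A B w d ((p.2 : ℤ) - (p.1 : ℤ))| ≤
        (L : ℝ) ^ 2 * theta A B w * ∑ q ∈ Q, 1 / ((q : ℝ) - 1) ^ 2 := by
      intro p _
      rw [mul_sum]
      refine (abs_sum_le_sum_abs _ _).trans (sum_le_sum fun q hq => ?_)
      refine (abs_sum_le_sum_abs _ _).trans ?_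
      have h3 : ∀ d ∈ Icc 1 L, |ρ d / ((q : ℝ) - 1) ^ 2 * th A B w d ((p.2 : ℤ) - (p.1 : ℤ))| ≤
          L * (theta A B w * (1 / ((q : ℝ) - 1) ^ 2)) := by
        intro d _
        obtain ⟨h4, h5⟩ := split_th hw d ((p.2 : ℤ) - (p.1 : ℤ))
        rw [abs_mul, abs_div, abs_of_nonneg h4, abs_of_nonneg (sq_nonneg ((q : ℝ) - 1))]
        calc |ρ d| / ((q : ℝ) - 1) ^ 2 * th A B w d ((p.2 : ℤ) - (p.1 : ℤ))
            = |ρ d| * (th A B w d ((p.2 : ℤ) - (p.1 : ℤ)) * (1 / ((q : ℝ) - 1) ^ 2)) := by ring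
          _ ≤ L * (theta A B w * (1 / ((q : ℝ) - 1) ^ 2)) := by
              refine mul_le_mul (hρ.bd d) (mul_le_mul_of_nonneg_right h5 (by positivity)) ?_
                (Nat.cast_nonneg _)
              exact mul_nonneg h4 (by positivity)
      refine (sum_le_sum h3).trans ?_
      rw [sum_const, Nat.card_Icc, nsmul_eq_mul, Nat.add_sub_cancel]
      exact le_of_eq (by ring)
    refine (sum_le_sum h2).trans ?_
    rw [sum_const, nsmul_eq_mul]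
    have h6 : ((offd H).card : ℝ) ≤ (H : ℝ) ^ 2 := by
      have h7 : (offd H).card ≤ H ^ 2 := by
        unfold offd
        refine (card_filter_le _ _).trans (le_of_eq ?_)
        rw [card_product, Nat.card_Icc, Nat.add_sub_cancel, sq]
      exact_mod_cast h7
    have h8 : 0 ≤ (L : ℝ) ^ 2 * theta A B w * ∑ q ∈ Q, 1 / ((q : ℝ) - 1) ^ 2 :=
      mul_nonneg (mul_nonneg (by positivity) hθ) (sum_nonneg fun q _ => by positivity)
    refine (mul_le_mul_of_nonneg_right h6 h8).trans (le_of_eq (by ring))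
  · refine (abs_sum_le_sum_abs _ _).trans ?_
    rw [mul_sum]
    refine sum_le_sum fun q hq => ?_
    refine (abs_sum_le_sum_abs _ _).trans ?_
    rw [mul_sum]
    refine sum_le_sum fun d _ => ?_
    have hq' : (2 : ℝ) ≤ q := by exact_mod_cast (hQ q hq).1.two_le
    have hq1 : (0 : ℝ) < (q : ℝ) - 1 := by linarith
    rw [abs_mul]
    refine mul_le_mul_of_nonneg_right ?_ (abs_nonneg _)
    rw [abs_mul, abs_of_nonneg (div_nonneg (by linarith) hq1.le)]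
    have h9 : (q : ℝ) / ((q : ℝ) - 1) ≤ 2 := by
      rw [div_le_iff₀ hq1]
      linarith
    calc |ρ d| * ((q : ℝ) / ((q : ℝ) - 1)) ≤ L * 2 :=
          mul_le_mul (hρ.bd d) h9 (div_nonneg (by linarith) hq1.le) (Nat.cast_nonneg _)
      _ = 2 * L := by ring

end Pool.Agent.H67.VS
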