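import Pool.Agent.H67.VS.Defs
import Pool.Agent.H21.MT.Abel

/-!
[H67 VS FP]  Functions of bounded variation do not see the test function.

Proof.  Abel summation (`H21.MT.abel_le` with `a = gH`, `g = v`): it is enough that
`|∑_{A < x ≤ t} gH x| ≤ 3 H L^2 |Q|` for all `t`.  Expand:
`∑_h ∑_q ∑_d ρ_d/(q-1) ∑_x [d ∣ x+h] (1 - q [q ∣ x+h])`; `d ≤ L < q`, `q` prime, so
`[d ∣ .][q ∣ .] = [dq ∣ .]` and the inner sum is `N_d - q N_{dq}`, `N_m` = number of `x ∈ (A,t]` in a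
class mod `m`, `|N_m - N/m| ≤ 1` (`H21.MT.ap_count`): absolute value `≤ 1 + q ≤ 3 (q-1)`.
`∑_d |ρ_d| ≤ L^2`.
-/

namespace Pool.Agent.H67.VS

open Finset

private theorem fp_dvd {L : ℕ} {d q : ℕ} (hd : d ∈ Icc 1 L) (hq : q.Prime) (hLq : L < q) (m : ℤ) :
    (((d * q : ℕ) : ℤ) ∣ m) ↔ ((d : ℤ) ∣ m ∧ (q : ℤ) ∣ m) := by
  rw [mem_Icc] at hd
  have hcop : Nat.Coprime d q := by
    rw [Nat.coprime_comm, Nat.Prime.coprime_iff_not_dvd hq]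
    intro h
    have := Nat.le_of_dvd (by omega) h
    omega
  constructor
  · intro h
    rw [Nat.cast_mul] at h
    exact ⟨(Dvd.intro _ rfl).trans h, (Dvd.intro_left _ rfl).trans h⟩
  · rintro ⟨h1, h2⟩
    rw [Nat.cast_mul]
    exact IsCoprime.mul_dvd (Nat.isCoprime_iff_coprime.2 hcop) h1 h2

private theorem fp_bb {L : ℕ} {ρ : ℕ → ℝ} {Q : Finset ℕ} (hQ : ∀ q ∈ Q, q.Prime ∧ L < q)
    (n : ℕ) (k : ℤ) :
    bb ρ L Q n k = ∑ q ∈ Q, ∑ d ∈ Icc 1 L, ρ d / ((q : ℝ) - 1) *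
      ((if (d : ℤ) ∣ (n : ℤ) + k then (1 : ℝ) else 0) -
        (q : ℝ) * (if ((d * q : ℕ) : ℤ) ∣ (n : ℤ) + k then (1 : ℝ) else 0)) := by
  unfold bb FF GG
  rw [mul_comm, sum_mul_sum]
  refine sum_congr rfl fun q hq => sum_congr rfl fun d hd => ?_
  have h1 := fp_dvd hd (hQ q hq).1 (hQ q hq).2 ((n : ℤ) + k)
  by_cases hA : (d : ℤ) ∣ (n : ℤ) + k
  · by_cases hB : (q : ℤ) ∣ (n : ℤ) + k
    · rw [if_pos hA, if_pos hB, if_pos hA, if_pos (h1.2 ⟨hA, hB⟩)]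
      ring
    · rw [if_pos hA, if_neg hB, if_pos hA, if_neg (fun h => hB (h1.1 h).2)]
      ring
  · rw [if_neg hA, if_neg hA, if_neg (fun h => hA (h1.1 h).1)]
    ring

private theorem fp_count (A t m h : ℕ) (hm : 0 < m) :
    |(∑ x ∈ Ioc A t, if (m : ℤ) ∣ (x : ℤ) + (h : ℤ) then (1 : ℝ) else 0) -
      ((Ioc A t).card : ℝ) / m| ≤ 1 := by
  have h1 := Pool.Agent.H21.MT.ap_count A t m ((m - 1) * h) hm
  have h2 : (∑ x ∈ Ioc A t, if (m : ℤ) ∣ (x : ℤ) + (h : ℤ) then (1 : ℝ) else 0) =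
      (((Ioc A t).filter (fun j => j % m = ((m - 1) * h) % m)).card : ℝ) := by
    rw [← sum_filter, sum_const, nsmul_eq_mul, mul_one]
    congr 2
    ext x
    rw [mem_filter, mem_filter]
    refine and_congr_right fun _ => ?_
    have h3 : (m : ℤ) ∣ (x : ℤ) + (h : ℤ) ↔ m ∣ x + h := by
      rw [← Nat.cast_add]
      exact Int.natCast_dvd_natCast
    rw [h3]
    have h4 : (m - 1) * h + h = m * h := by
      obtain ⟨m', rfl⟩ := Nat.exists_eq_succ_of_ne_zero hm.ne'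
      simp
      ring
    constructor
    · intro h5
      have h6 : x + h ≡ (m - 1) * h + h [MOD m] := by
        rw [h4]
        exact ((Nat.modEq_zero_iff_dvd.2 h5).trans
          (Nat.modEq_zero_iff_dvd.2 (Dvd.intro _ rfl)).symm)
      exact Nat.ModEq.add_right_cancel' h h6
    · intro h5
      have h6 : x + h ≡ (m - 1) * h + h [MOD m] := Nat.ModEq.add_right h h5
      rw [h4] at h6
      exact Nat.modEq_zero_iff_dvd.1 (h6.trans (Nat.modEq_zero_iff_dvd.2 (Dvd.intro _ rfl)))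
  rw [h2]
  exact h1

private theorem fp_inner (A t h d q : ℕ) (hd : 0 < d) (hq : 2 ≤ q) :
    |∑ x ∈ Ioc A t, ((if (d : ℤ) ∣ (x : ℤ) + (h : ℤ) then (1 : ℝ) else 0) -
        (q : ℝ) * (if ((d * q : ℕ) : ℤ) ∣ (x : ℤ) + (h : ℤ) then (1 : ℝ) else 0))| ≤
      3 * ((q : ℝ) - 1) := by
  have hq0 : 0 < q := by omega
  have h1 := fp_count A t d h hd
  have h2 := fp_count A t (d * q) h (Nat.mul_pos hd hq0)
  have hq' : (2 : ℝ) ≤ q := by exact_mod_cast hq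
  have hd' : (0 : ℝ) < d := by exact_mod_cast hd
  rw [sum_sub_distrib, ← mul_sum]
  obtain ⟨N₁, hN₁⟩ : ∃ N : ℝ, N = ∑ x ∈ Ioc A t, if (d : ℤ) ∣ (x : ℤ) + (h : ℤ) then (1 : ℝ) else 0 :=
    ⟨_, rfl⟩
  obtain ⟨N₂, hN₂⟩ : ∃ N : ℝ, N = ∑ x ∈ Ioc A t,
    if ((d * q : ℕ) : ℤ) ∣ (x : ℤ) + (h : ℤ) then (1 : ℝ) else 0 := ⟨_, rfl⟩
  rw [← hN₁] at h1 ⊢
  rw [← hN₂] at h2 ⊢
  obtain ⟨c, hc⟩ : ∃ c : ℝ, c = ((Ioc A t).card : ℝ) / d := ⟨_, rfl⟩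
  have h3 : ((Ioc A t).card : ℝ) / ((d * q : ℕ) : ℝ) = c / q := by
    rw [hc]
    push_cast
    rw [div_div]
  rw [h3] at h2
  rw [← hc] at h1
  have h4 : N₁ - q * N₂ = (N₁ - c) - q * (N₂ - c / q) := by
    have : (q : ℝ) ≠ 0 := by linarith
    field_simp
    ring
  rw [h4]
  rw [abs_le] at h1 h2 ⊢
  constructor <;> nlinarith [h1.1, h1.2, h2.1, h2.2]

private theorem fp_partial {L H : ℕ} {ρ : ℕ → ℝ} {Q : Finset ℕ} (A t : ℕ)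
    (hρ : SW L ρ) (hQ : ∀ q ∈ Q, q.Prime ∧ L < q) :
    |∑ x ∈ Ioc A t, gH ρ L Q H x| ≤ 3 * H * (L : ℝ) ^ 2 * Q.card := by
  have h1 : ∑ x ∈ Ioc A t, gH ρ L Q H x = ∑ h ∈ Icc 1 H, ∑ q ∈ Q, ∑ d ∈ Icc 1 L,
      ρ d / ((q : ℝ) - 1) * ∑ x ∈ Ioc A t, ((if (d : ℤ) ∣ (x : ℤ) + (h : ℤ) then (1 : ℝ) else 0) -
        (q : ℝ) * (if ((d * q : ℕ) : ℤ) ∣ (x : ℤ) + (h : ℤ) then (1 : ℝ) else 0)) := by
    unfold gH
    rw [sum_comm]
    refine sum_congr rfl fun h _ => ?_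
    simp only [fp_bb hQ, mul_sum]
    rw [sum_comm]
    refine sum_congr rfl fun q _ => ?_
    rw [sum_comm]
  rw [h1]
  refine (abs_sum_le_sum_abs _ _).trans ?_
  have h2 : ∀ h ∈ Icc 1 H, |∑ q ∈ Q, ∑ d ∈ Icc 1 L,
      ρ d / ((q : ℝ) - 1) * ∑ x ∈ Ioc A t, ((if (d : ℤ) ∣ (x : ℤ) + (h : ℤ) then (1 : ℝ) else 0) -
        (q : ℝ) * (if ((d * q : ℕ) : ℤ) ∣ (x : ℤ) + (h : ℤ) then (1 : ℝ) else 0))| ≤
      3 * (L : ℝ) ^ 2 * Q.card := by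
    intro h _
    refine (abs_sum_le_sum_abs _ _).trans ?_
    have h3 : ∀ q ∈ Q, |∑ d ∈ Icc 1 L,
      ρ d / ((q : ℝ) - 1) * ∑ x ∈ Ioc A t, ((if (d : ℤ) ∣ (x : ℤ) + (h : ℤ) then (1 : ℝ) else 0) -
        (q : ℝ) * (if ((d * q : ℕ) : ℤ) ∣ (x : ℤ) + (h : ℤ) then (1 : ℝ) else 0))| ≤
      3 * (L : ℝ) ^ 2 := by
      intro q hq
      refine (abs_sum_le_sum_abs _ _).trans ?_
      have hq2 : 2 ≤ q := (hQ q hq).1.two_le
      have hq' : (2 : ℝ) ≤ q := by exact_mod_cast hq2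
      have hq1 : (0 : ℝ) < (q : ℝ) - 1 := by linarith
      have h4 : ∀ d ∈ Icc 1 L, |ρ d / ((q : ℝ) - 1) *
          ∑ x ∈ Ioc A t, ((if (d : ℤ) ∣ (x : ℤ) + (h : ℤ) then (1 : ℝ) else 0) -
        (q : ℝ) * (if ((d * q : ℕ) : ℤ) ∣ (x : ℤ) + (h : ℤ) then (1 : ℝ) else 0))| ≤ 3 * L := by
        intro d hd
        have hd1 : 0 < d := (mem_Icc.1 hd).1
        rw [abs_mul, abs_div, abs_of_pos hq1]
        have h5 := fp_inner A t h d q hd1 hq2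
        calc |ρ d| / ((q : ℝ) - 1) * _ ≤ |ρ d| / ((q : ℝ) - 1) * (3 * ((q : ℝ) - 1)) :=
              mul_le_mul_of_nonneg_left h5 (by positivity)
          _ = 3 * |ρ d| := by field_simp
          _ ≤ 3 * L := mul_le_mul_of_nonneg_left (hρ.bd d) (by norm_num)
      refine (sum_le_sum h4).trans ?_
      rw [sum_const, Nat.card_Icc, nsmul_eq_mul, Nat.add_sub_cancel]
      exact le_of_eq (by ring)
    refine (sum_le_sum h3).trans ?_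
    rw [sum_const, nsmul_eq_mul]
    exact le_of_eq (by ring)
  refine (sum_le_sum h2).trans ?_
  rw [sum_const, Nat.card_Icc, nsmul_eq_mul, Nat.add_sub_cancel]
  exact le_of_eq (by ring)

theorem f_part {A B L H : ℕ} {ρ : ℕ → ℝ} {Q : Finset ℕ} (v : ℕ → ℝ) (hAB : A ≤ B)
    (hρ : SW L ρ) (hQ : ∀ q ∈ Q, q.Prime ∧ L < q) :
    |∑ x ∈ Ioc A B, v x * gH ρ L Q H x| ≤
      3 * H * (L : ℝ) ^ 2 * Q.card * (|v B| + ∑ k ∈ Ioo A B, |v (k + 1) - v k|) := by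
  have h1 := Pool.Agent.H21.MT.abel_le (fun x => ((gH ρ L Q H x : ℝ) : ℂ)) v
    (3 * H * (L : ℝ) ^ 2 * Q.card) A B ?_ (by positivity) hAB
  · refine le_trans (le_of_eq ?_) h1
    have h2 : ∑ k ∈ Ioc A B, ((gH ρ L Q H k : ℝ) : ℂ) * (v k : ℂ) =
        ((∑ x ∈ Ioc A B, v x * gH ρ L Q H x : ℝ) : ℂ) := by
      push_cast
      exact sum_congr rfl fun x _ => mul_comm _ _
    rw [h2, Complex.norm_real, Real.norm_eq_abs]
  · intro k _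
    rw [← Complex.ofReal_sum, Complex.norm_real, Real.norm_eq_abs]
    exact fp_partial A k hρ hQ

end Pool.Agent.H67.VS
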