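import Pool.Agent.H67.VS.Defs
import Pool.Agent.H21.MT.Abel

/-!
[H67 VS AP]  Weighted sums over arithmetic progressions.

Proofs.
* `ap_wt`: Abel summation (`H21.MT.abel_le`) with `a n = [m ∣ n + c] - 1/m`, whose partial sums over
  `(A,k]` are `≤ 1` in absolute value (`H21.MT.ap_count`; `m ∣ n + c` iff `n % m = r` where `r` is the
  residue of `-c`), and `g = w`: `|w B| + ∑ |Δ w| ≤ 1 + 3`.
* `cong2`: Chinese remainder theorem in `ℤ`: two congruences are incompatible or equivalent to one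
  congruence modulo the lcm.
* `ap_wt2`: combine the two.
-/

namespace Pool.Agent.H67.VS

open Finset

theorem ap_res (m : ℕ) (hm : 0 < m) (c : ℤ) :
    ∃ r : ℕ, ∀ n : ℕ, ((m : ℤ) ∣ (n : ℤ) + c ↔ n % m = r % m) := by
  have hm0 : (m : ℤ) ≠ 0 := by exact_mod_cast hm.ne'
  refine ⟨((-c) % (m : ℤ)).toNat, fun n => ?_⟩
  have h1 : ((((-c) % (m : ℤ)).toNat : ℕ) : ℤ) = (-c) % (m : ℤ) :=
    Int.toNat_of_nonneg (Int.emod_nonneg _ hm0)
  have h2 : (m : ℤ) ∣ (n : ℤ) + c ↔ (-c) % (m : ℤ) = (n : ℤ) % (m : ℤ) := by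
    have h3 := (Int.modEq_iff_dvd (n := (m : ℤ)) (a := -c) (b := (n : ℤ)))
    rw [sub_neg_eq_add] at h3
    exact h3.symm
  rw [h2]
  constructor
  · intro h
    have h4 : ((n % m : ℕ) : ℤ) = (((((-c) % (m : ℤ)).toNat) % m : ℕ) : ℤ) := by
      rw [Int.natCast_mod, Int.natCast_mod, h1, Int.emod_emod_of_dvd _ dvd_rfl]
      exact h.symm
    exact_mod_cast h4
  · intro h
    have h4 : ((n % m : ℕ) : ℤ) = (((((-c) % (m : ℤ)).toNat) % m : ℕ) : ℤ) := by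
      exact_mod_cast h
    rw [Int.natCast_mod, Int.natCast_mod, h1, Int.emod_emod_of_dvd _ dvd_rfl] at h4
    exact h4.symm

theorem ap_wt {A B : ℕ} {w : ℕ → ℝ} (hw : Wt A B w) (hAB : A ≤ B) (m : ℕ) (hm : 0 < m) (c : ℤ) :
    |∑ n ∈ Ioc A B, (if (m : ℤ) ∣ (n : ℤ) + c then w n else 0) - mass A B w / m| ≤ 4 := by
  obtain ⟨r, hr⟩ := ap_res m hm c
  have hpart : ∀ k ≤ B, ‖∑ j ∈ Ioc A k, ((((if j % m = r % m then (1 : ℝ) else 0) - 1 / m) : ℝ) : ℂ)‖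
      ≤ 1 := by
    intro k _
    rw [← Complex.ofReal_sum, Complex.norm_real, Real.norm_eq_abs, sum_sub_distrib, sum_boole,
      sum_const, nsmul_eq_mul, mul_one_div]
    exact H21.MT.ap_count A k m r hm
  have h3 := H21.MT.abel_le (fun j => ((((if j % m = r % m then (1 : ℝ) else 0) - 1 / m) : ℝ) : ℂ))
    w 1 A B hpart zero_le_one hAB
  have h4 : ∑ k ∈ Ioc A B, ((((if k % m = r % m then (1 : ℝ) else 0) - 1 / m) : ℝ) : ℂ) *
      (w k : ℂ) = ((∑ n ∈ Ioc A B, (if (m : ℤ) ∣ (n : ℤ) + c then w n else 0) -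
        mass A B w / m : ℝ) : ℂ) := by
    unfold mass
    rw [sum_div, ← sum_sub_distrib, Complex.ofReal_sum]
    refine sum_congr rfl fun k _ => ?_
    rw [← Complex.ofReal_mul]
    congr 1
    by_cases hk : k % m = r % m
    · rw [if_pos hk, if_pos ((hr k).2 hk)]; ring
    · rw [if_neg hk, if_neg (fun h => hk ((hr k).1 h))]; ring
  rw [h4, Complex.norm_real, Real.norm_eq_abs, one_mul] at h3
  have h5 : ∑ k ∈ Ioo A B, |w (k + 1) - w k| ≤ 3 := by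
    refine le_trans ?_ (hw.tv A B)
    refine sum_le_sum_of_subset_of_nonneg ?_ fun k _ _ => abs_nonneg _
    intro k hk
    rw [mem_Ioo] at hk
    rw [mem_Ico]
    omega
  have h6 : |w B| ≤ 1 := by rw [abs_of_nonneg (hw.nonneg B)]; exact hw.le_one B
  linarith

theorem cong2 (d e : ℕ) (hd : 0 < d) (he : 0 < e) (c c' : ℤ) :
    (∀ n : ℤ, ¬ ((d : ℤ) ∣ n + c ∧ (e : ℤ) ∣ n + c')) ∨
    ∃ r : ℤ, ∀ n : ℤ, ((d : ℤ) ∣ n + c ∧ (e : ℤ) ∣ n + c') ↔ ((Nat.lcm d e : ℕ) : ℤ) ∣ n + r := by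
  by_cases h : ∃ n0 : ℤ, (d : ℤ) ∣ n0 + c ∧ (e : ℤ) ∣ n0 + c'
  · right
    obtain ⟨n0, h1, h2⟩ := h
    refine ⟨-n0, fun n => ?_⟩
    have e1 : n + c = (n + -n0) + (n0 + c) := by ring
    have e2 : n + c' = (n + -n0) + (n0 + c') := by ring
    rw [e1, e2, Int.dvd_add_left h1, Int.dvd_add_left h2, Int.natCast_dvd, Int.natCast_dvd,
      Int.natCast_dvd, Nat.lcm_dvd_iff]
  · left
    push Not at h
    intro n hn
    exact h n hn.1 hn.2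

/-- the sum over a class mod `lcm d e` that in addition lies in classes mod the primes `q`, `q'` -/
theorem ap_wt2 {A B : ℕ} {w : ℕ → ℝ} (hw : Wt A B w) (hAB : A ≤ B) (d e : ℕ) (hd : 0 < d)
    (he : 0 < e) (c c' : ℤ) :
    ∃ t : ℝ, 0 ≤ t ∧ t ≤ 1 ∧ ∀ (m : ℕ), 0 < m → m.Coprime (Nat.lcm d e) → ∀ c'' : ℤ,
    |∑ n ∈ Ioc A B, (if (d : ℤ) ∣ (n : ℤ) + c ∧ (e : ℤ) ∣ (n : ℤ) + c' ∧
        (m : ℤ) ∣ (n : ℤ) + c'' then w n else 0) -
      t * mass A B w / ((Nat.lcm d e : ℝ) * m)| ≤ 4 := by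
  rcases cong2 d e hd he c c' with h | ⟨r, hr⟩
  · refine ⟨0, le_rfl, zero_le_one, fun m _ _ c'' => ?_⟩
    have h1 : ∑ n ∈ Ioc A B, (if (d : ℤ) ∣ (n : ℤ) + c ∧ (e : ℤ) ∣ (n : ℤ) + c' ∧
        (m : ℤ) ∣ (n : ℤ) + c'' then w n else 0) = 0 := by
      refine sum_eq_zero fun n _ => ?_
      rw [if_neg]
      rintro ⟨h1, h2, _⟩
      exact h n ⟨h1, h2⟩
    rw [h1]
    simp
  · refine ⟨1, zero_le_one, le_rfl, fun m hm hco c'' => ?_⟩
    have hl : 0 < Nat.lcm d e := Nat.lcm_pos hd he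
    rcases cong2 (Nat.lcm d e) m hl hm r c'' with h2 | ⟨r2, hr2⟩
    · exfalso
      have hic : IsCoprime ((Nat.lcm d e : ℕ) : ℤ) (m : ℤ) :=
        Nat.isCoprime_iff_coprime.2 hco.symm
      obtain ⟨a, b, hab⟩ := hic
      refine h2 (-r * (b * m) - c'' * (a * (Nat.lcm d e : ℕ))) ⟨?_, ?_⟩
      · refine ⟨(r - c'') * a, ?_⟩
        linear_combination (-r) * hab
      · refine ⟨(c'' - r) * b, ?_⟩
        linear_combination (-c'') * hab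
    · have h3 := ap_wt hw hAB (Nat.lcm (Nat.lcm d e) m) (Nat.lcm_pos hl hm) r2
      have h4 : Nat.lcm (Nat.lcm d e) m = Nat.lcm d e * m := Nat.Coprime.lcm_eq_mul hco.symm
      have h5 : ∑ n ∈ Ioc A B, (if (d : ℤ) ∣ (n : ℤ) + c ∧ (e : ℤ) ∣ (n : ℤ) + c' ∧
          (m : ℤ) ∣ (n : ℤ) + c'' then w n else 0) = ∑ n ∈ Ioc A B,
          (if ((Nat.lcm (Nat.lcm d e) m : ℕ) : ℤ) ∣ (n : ℤ) + r2 then w n else 0) := by
        refine sum_congr rfl fun n _ => ?_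
        have h6 : ((d : ℤ) ∣ (n : ℤ) + c ∧ (e : ℤ) ∣ (n : ℤ) + c' ∧ (m : ℤ) ∣ (n : ℤ) + c'') ↔
            ((Nat.lcm (Nat.lcm d e) m : ℕ) : ℤ) ∣ (n : ℤ) + r2 := by
          rw [← hr2, ← hr, and_assoc]
        by_cases h7 : ((Nat.lcm (Nat.lcm d e) m : ℕ) : ℤ) ∣ (n : ℤ) + r2
        · rw [if_pos h7, if_pos (h6.2 h7)]
        · rw [if_neg h7, if_neg (fun h => h7 (h6.1 h))]
      rw [h5, one_mul]
      rw [h4] at h3 ⊢
      push_cast at h3 ⊢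
      exact h3

end Pool.Agent.H67.VS
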