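import Pool.Agent.H67.VS.Ap

/-!
[H67 VS GSQA]  Second moments of `F` and orthogonality of different primes.

Notation `gq q x = ∑_{h ≤ H} F(x+h) (1 - q [q ∣ x+h])/(q-1)`, so `gH = ∑_{q ∈ Q} gq q`.
Proofs.
* `F_sq`: `F(x+h)^2 = ∑_{d,e} ρ_d ρ_e [d ∣ x+h][e ∣ x+h]`, `[d ∣ .][e ∣ .] = [lcm ∣ .]`; with
  `[q ∣ x+h]` in addition: `[q lcm ∣ x+h]` (`q` prime `> L ≥ d,e`, hence coprime to the lcm).
  `ap_wt`: main term `mass/(q lcm)`, error `≤ 4`, `∑ |ρ_d| |ρ_e| ≤ L^4`; then `SW.diag`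
  (`mass ≥ 0`).
* `gq_orth`: expand; for fixed `h,h',d,e` the inner sum is
  `∑ w [d ∣ x+h][e ∣ x+h'] (1 - q[q ∣ x+h])(1 - q'[q' ∣ x+h'])`; by `ap_wt2` (with `m = 1, q, q', q q'`
  and `cong2` for the two classes mod `q`, `q'`) the main terms cancel:
  `t mass/lcm * (1 - 1 - 1 + 1) = 0` and the error is `≤ 4 (1 + q)(1 + q')`;
  `(1+q)/(q-1) ≤ 3`, `∑_{h,h'} ∑_{d,e} |ρ_d ρ_e| ≤ H^2 L^4`: total `≤ 36 H^2 L^4`.
-/

namespace Pool.Agent.H67.VS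

open Finset

/-- the part of `gH` belonging to the prime `q` -/
noncomputable def gq (ρ : ℕ → ℝ) (L H q x : ℕ) : ℝ :=
  ∑ h ∈ Icc 1 H, FF ρ L x (h : ℤ) *
    ((1 - if (q : ℤ) ∣ (x : ℤ) + (h : ℤ) then (q : ℝ) else 0) / ((q : ℝ) - 1))

theorem gH_eq (ρ : ℕ → ℝ) (L : ℕ) (Q : Finset ℕ) (H x : ℕ) :
    gH ρ L Q H x = ∑ q ∈ Q, gq ρ L H q x := by
  simp only [gH, bb, GG, gq, Finset.mul_sum]
  rw [Finset.sum_comm]

theorem sum_abs_rho {L : ℕ} {ρ : ℕ → ℝ} (hρ : SW L ρ) : ∑ d ∈ Icc 1 L, |ρ d| ≤ (L : ℝ) ^ 2 := by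
  refine (Finset.sum_le_sum (fun d _ => hρ.bd d)).trans ?_
  rw [Finset.sum_const, Nat.card_Icc, nsmul_eq_mul]
  simp only [Nat.add_sub_cancel]
  nlinarith

theorem gsqA_lcm_iff (d e : ℕ) (n : ℤ) :
    ((Nat.lcm d e : ℕ) : ℤ) ∣ n ↔ (d : ℤ) ∣ n ∧ (e : ℤ) ∣ n := by
  rw [Int.natCast_dvd, Int.natCast_dvd, Int.natCast_dvd, Nat.lcm_dvd_iff]

theorem gsqA_mul_iff (m n : ℕ) (h : m.Coprime n) (z : ℤ) :
    ((m * n : ℕ) : ℤ) ∣ z ↔ (m : ℤ) ∣ z ∧ (n : ℤ) ∣ z := by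
  rw [Int.natCast_dvd, Int.natCast_dvd, Int.natCast_dvd]
  exact ⟨fun h' => ⟨dvd_of_mul_right_dvd h', dvd_of_mul_left_dvd h'⟩,
    fun h' => h.mul_dvd_of_dvd_of_dvd h'.1 h'.2⟩

theorem gsqA_sq_expand (ρ : ℕ → ℝ) (L n : ℕ) (k : ℤ) :
    FF ρ L n k ^ 2 = ∑ d ∈ Icc 1 L, ∑ e ∈ Icc 1 L,
      (if ((Nat.lcm d e : ℕ) : ℤ) ∣ (n : ℤ) + k then ρ d * ρ e else 0) := by
  rw [sq, FF, Finset.sum_mul_sum]
  refine Finset.sum_congr rfl (fun d _ => Finset.sum_congr rfl (fun e _ => ?_))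
  by_cases hd : (d : ℤ) ∣ (n : ℤ) + k
  · by_cases he : (e : ℤ) ∣ (n : ℤ) + k
    · rw [if_pos hd, if_pos he, if_pos ((gsqA_lcm_iff d e _).2 ⟨hd, he⟩)]
    · rw [if_pos hd, if_neg he, if_neg (fun h => he ((gsqA_lcm_iff d e _).1 h).2), mul_zero]
  · rw [if_neg hd, if_neg (fun h => hd ((gsqA_lcm_iff d e _).1 h).1), zero_mul]

theorem gsqA_mass_nonneg {A B : ℕ} {w : ℕ → ℝ} (hw : Wt A B w) : 0 ≤ mass A B w :=
  Finset.sum_nonneg (fun n _ => hw.nonneg n)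

theorem gsqA_rho_sum {L : ℕ} {ρ : ℕ → ℝ} (hρ : SW L ρ) :
    ∑ d ∈ Icc 1 L, ∑ e ∈ Icc 1 L, |ρ d| * |ρ e| ≤ (L : ℝ) ^ 4 := by
  have h := sum_abs_rho hρ
  have h0 : 0 ≤ ∑ d ∈ Icc 1 L, |ρ d| := Finset.sum_nonneg (fun d _ => abs_nonneg _)
  rw [← Finset.sum_mul_sum]
  calc (∑ d ∈ Icc 1 L, |ρ d|) * ∑ e ∈ Icc 1 L, |ρ e| ≤ (L : ℝ) ^ 2 * (L : ℝ) ^ 2 :=
        mul_le_mul h h h0 (by positivity)
    _ = (L : ℝ) ^ 4 := by ring

theorem gsqA_gen {A B L m₀ : ℕ} {w ρ : ℕ → ℝ} (hw : Wt A B w) (hAB : A ≤ B) (hρ : SW L ρ)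
    (hm₀ : 0 < m₀) (hcop : ∀ d ∈ Icc 1 L, ∀ e ∈ Icc 1 L, m₀.Coprime (Nat.lcm d e)) (h : ℤ) :
    ∑ x ∈ Ioc A B, (if (m₀ : ℤ) ∣ (x : ℤ) + h then w x * FF ρ L x h ^ 2 else 0) ≤
      mass A B w / ((m₀ : ℝ) * Real.log L) + 4 * (L : ℝ) ^ 4 := by
  have hm₀' : (0 : ℝ) < m₀ := by exact_mod_cast hm₀
  have hmass := gsqA_mass_nonneg hw
  have e1 : ∑ x ∈ Ioc A B, (if (m₀ : ℤ) ∣ (x : ℤ) + h then w x * FF ρ L x h ^ 2 else 0) =
      ∑ d ∈ Icc 1 L, ∑ e ∈ Icc 1 L, ρ d * ρ e * ∑ x ∈ Ioc A B,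
        (if ((m₀ * Nat.lcm d e : ℕ) : ℤ) ∣ (x : ℤ) + h then w x else 0) := by
    have e2 : ∀ x ∈ Ioc A B, (if (m₀ : ℤ) ∣ (x : ℤ) + h then w x * FF ρ L x h ^ 2 else 0) =
        ∑ d ∈ Icc 1 L, ∑ e ∈ Icc 1 L, ρ d * ρ e *
          (if ((m₀ * Nat.lcm d e : ℕ) : ℤ) ∣ (x : ℤ) + h then w x else 0) := by
      intro x _
      by_cases hx : (m₀ : ℤ) ∣ (x : ℤ) + h
      · rw [if_pos hx, gsqA_sq_expand, Finset.mul_sum]
        refine Finset.sum_congr rfl (fun d hd => ?_)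
        rw [Finset.mul_sum]
        refine Finset.sum_congr rfl (fun e he => ?_)
        by_cases hl : ((Nat.lcm d e : ℕ) : ℤ) ∣ (x : ℤ) + h
        · rw [if_pos hl, if_pos ((gsqA_mul_iff _ _ (hcop d hd e he) _).2 ⟨hx, hl⟩)]
          ring
        · rw [if_neg hl, if_neg (fun h' => hl ((gsqA_mul_iff _ _ (hcop d hd e he) _).1 h').2)]
          ring
      · rw [if_neg hx]
        symm
        refine Finset.sum_eq_zero (fun d hd => Finset.sum_eq_zero (fun e he => ?_))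
        rw [if_neg (fun h' => hx ((gsqA_mul_iff _ _ (hcop d hd e he) _).1 h').1), mul_zero]
    rw [Finset.sum_congr rfl e2, Finset.sum_comm]
    refine Finset.sum_congr rfl (fun d _ => ?_)
    rw [Finset.sum_comm]
    refine Finset.sum_congr rfl (fun e _ => ?_)
    rw [Finset.mul_sum]
  rw [e1]
  have e3 : ∀ d ∈ Icc 1 L, ∀ e ∈ Icc 1 L, ρ d * ρ e * ∑ x ∈ Ioc A B,
        (if ((m₀ * Nat.lcm d e : ℕ) : ℤ) ∣ (x : ℤ) + h then w x else 0) ≤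
      mass A B w / m₀ * (ρ d * ρ e / (Nat.lcm d e : ℝ)) + 4 * (|ρ d| * |ρ e|) := by
    intro d hd e he
    have hd0 : 0 < d := (Finset.mem_Icc.1 hd).1
    have he0 : 0 < e := (Finset.mem_Icc.1 he).1
    have hl0 : 0 < Nat.lcm d e := Nat.lcm_pos hd0 he0
    have hl0' : (0 : ℝ) < (Nat.lcm d e : ℝ) := by exact_mod_cast hl0
    have h1 := ap_wt hw hAB (m₀ * Nat.lcm d e) (Nat.mul_pos hm₀ hl0) h
    set Sx := ∑ x ∈ Ioc A B,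
        (if ((m₀ * Nat.lcm d e : ℕ) : ℤ) ∣ (x : ℤ) + h then w x else 0) with hSx
    have h2 : ρ d * ρ e * Sx = ρ d * ρ e * (mass A B w / ((m₀ * Nat.lcm d e : ℕ) : ℝ)) +
        ρ d * ρ e * (Sx - mass A B w / ((m₀ * Nat.lcm d e : ℕ) : ℝ)) := by ring
    have h3 : ρ d * ρ e * (Sx - mass A B w / ((m₀ * Nat.lcm d e : ℕ) : ℝ)) ≤
        4 * (|ρ d| * |ρ e|) := by
      refine (le_abs_self _).trans ?_
      rw [abs_mul, abs_mul]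
      have := mul_le_mul_of_nonneg_left h1 (mul_nonneg (abs_nonneg (ρ d)) (abs_nonneg (ρ e)))
      linarith
    have h4 : ρ d * ρ e * (mass A B w / ((m₀ * Nat.lcm d e : ℕ) : ℝ)) =
        mass A B w / m₀ * (ρ d * ρ e / (Nat.lcm d e : ℝ)) := by
      push_cast
      field_simp
    rw [h2, h4]
    linarith
  refine (Finset.sum_le_sum (fun d hd => Finset.sum_le_sum (fun e he => e3 d hd e he))).trans ?_
  have e4 : ∑ d ∈ Icc 1 L, ∑ e ∈ Icc 1 L, (mass A B w / m₀ * (ρ d * ρ e / (Nat.lcm d e : ℝ)) +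
      4 * (|ρ d| * |ρ e|)) = mass A B w / m₀ * (∑ d ∈ Icc 1 L, ∑ e ∈ Icc 1 L,
        ρ d * ρ e / (Nat.lcm d e : ℝ)) + 4 * ∑ d ∈ Icc 1 L, ∑ e ∈ Icc 1 L, |ρ d| * |ρ e| := by
    simp only [Finset.sum_add_distrib, Finset.mul_sum]
  rw [e4]
  have h5 := gsqA_rho_sum hρ
  have h6 : mass A B w / m₀ * (∑ d ∈ Icc 1 L, ∑ e ∈ Icc 1 L,
        ρ d * ρ e / (Nat.lcm d e : ℝ)) ≤ mass A B w / m₀ * (1 / Real.log L) :=
    mul_le_mul_of_nonneg_left hρ.diag (div_nonneg hmass hm₀'.le)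
  have h7 : mass A B w / m₀ * (1 / Real.log L) = mass A B w / ((m₀ : ℝ) * Real.log L) := by
    rw [div_mul_div_comm, mul_one]
  rw [h7] at h6
  linarith

theorem F_sq {A B L : ℕ} {w ρ : ℕ → ℝ} (hw : Wt A B w) (hAB : A ≤ B) (hρ : SW L ρ) (hL : 2 ≤ L)
    (h : ℤ) : ∑ x ∈ Ioc A B, w x * FF ρ L x h ^ 2 ≤
      mass A B w / Real.log L + 4 * (L : ℝ) ^ 4 := by
  have h1 := gsqA_gen (m₀ := 1) hw hAB hρ one_pos (fun d _ e _ => Nat.coprime_one_left _) h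
  simpa using h1

theorem gsqA_coprime {L q d e : ℕ} (hq : q.Prime) (hLq : L < q) (hd : d ∈ Icc 1 L)
    (he : e ∈ Icc 1 L) : q.Coprime (Nat.lcm d e) := by
  rw [Finset.mem_Icc] at hd he
  have h1 : q.Coprime d :=
    (Nat.Prime.coprime_iff_not_dvd hq).2 (Nat.not_dvd_of_pos_of_lt hd.1 (by omega))
  have h2 : q.Coprime e :=
    (Nat.Prime.coprime_iff_not_dvd hq).2 (Nat.not_dvd_of_pos_of_lt he.1 (by omega))
  exact (Nat.Coprime.mul_right h1 h2).coprime_dvd_right (Nat.lcm_dvd_mul d e)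

theorem F_sq_q {A B L q : ℕ} {w ρ : ℕ → ℝ} (hw : Wt A B w) (hAB : A ≤ B) (hρ : SW L ρ)
    (hL : 2 ≤ L) (hq : q.Prime) (hLq : L < q) (h : ℤ) :
    ∑ x ∈ Ioc A B, (if (q : ℤ) ∣ (x : ℤ) + h then w x * FF ρ L x h ^ 2 else 0) ≤
      mass A B w / ((q : ℝ) * Real.log L) + 4 * (L : ℝ) ^ 4 :=
  gsqA_gen hw hAB hρ hq.pos (fun _ hd _ he => gsqA_coprime hq hLq hd he) h

/-- the inner sum for fixed `h, h', d, e` -/
theorem gsqA_inner {A B L q q' d e : ℕ} {w : ℕ → ℝ} (hw : Wt A B w) (hAB : A ≤ B)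
    (hq : q.Prime) (hLq : L < q) (hq' : q'.Prime) (hLq' : L < q') (hne : q ≠ q')
    (hd : d ∈ Icc 1 L) (he : e ∈ Icc 1 L) (c c' : ℤ) :
    |∑ x ∈ Ioc A B, w x * ((if (d : ℤ) ∣ (x : ℤ) + c then (1 : ℝ) else 0) *
        (1 - if (q : ℤ) ∣ (x : ℤ) + c then (q : ℝ) else 0)) *
        ((if (e : ℤ) ∣ (x : ℤ) + c' then (1 : ℝ) else 0) *
        (1 - if (q' : ℤ) ∣ (x : ℤ) + c' then (q' : ℝ) else 0))| ≤
      4 * ((1 + q) * (1 + q')) := by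
  have hd0 : 0 < d := (Finset.mem_Icc.1 hd).1
  have he0 : 0 < e := (Finset.mem_Icc.1 he).1
  obtain ⟨t, ht0, ht1, ht⟩ := ap_wt2 hw hAB d e hd0 he0 c c'
  have hcq := gsqA_coprime hq hLq hd he
  have hcq' := gsqA_coprime hq' hLq' hd he
  have hqq' : q.Coprime q' := (Nat.coprime_primes hq hq').2 hne
  -- Chinese remainder theorem
  obtain ⟨r, hr1, hr2⟩ : ∃ r : ℤ, (q : ℤ) ∣ r - c ∧ (q' : ℤ) ∣ r - c' := by
    obtain ⟨a, b, hab⟩ := (Nat.isCoprime_iff_coprime.2 hqq' : IsCoprime (q : ℤ) (q' : ℤ))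
    refine ⟨c * (b * q') + c' * (a * q), ?_, ?_⟩
    · refine ⟨a * (c' - c), ?_⟩
      linear_combination c * hab
    · refine ⟨b * (c - c'), ?_⟩
      linear_combination c' * hab
  have hiff : ∀ n : ℤ, ((q : ℤ) ∣ n + c ∧ (q' : ℤ) ∣ n + c') ↔ ((q * q' : ℕ) : ℤ) ∣ n + r := by
    intro n
    rw [gsqA_mul_iff q q' hqq']
    have h1 : n + r = (n + c) + (r - c) := by ring
    have h2 : n + r = (n + c') + (r - c') := by ring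
    constructor
    · rintro ⟨h3, h4⟩
      exact ⟨by rw [h1]; exact dvd_add h3 hr1, by rw [h2]; exact dvd_add h4 hr2⟩
    · rintro ⟨h3, h4⟩
      rw [h1] at h3
      rw [h2] at h4
      exact ⟨(Int.dvd_add_left hr1).1 h3, (Int.dvd_add_left hr2).1 h4⟩
  set Λ : ℝ := (Nat.lcm d e : ℝ) with hΛ
  have hΛ0 : 0 < Λ := by
    rw [hΛ]
    exact_mod_cast Nat.lcm_pos hd0 he0
  have hq0 : (0 : ℝ) < q := by exact_mod_cast hq.pos
  have hq0' : (0 : ℝ) < q' := by exact_mod_cast hq'.pos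
  have t1 := ht 1 one_pos (Nat.coprime_one_left _) 0
  have t2 := ht q hq.pos hcq c
  have t3 := ht q' hq'.pos hcq' c'
  have t4 := ht (q * q') (Nat.mul_pos hq.pos hq'.pos) (Nat.Coprime.mul_left hcq hcq') r
  set s1 := ∑ n ∈ Ioc A B, (if (d : ℤ) ∣ (n : ℤ) + c ∧ (e : ℤ) ∣ (n : ℤ) + c' ∧
        ((1 : ℕ) : ℤ) ∣ (n : ℤ) + 0 then w n else 0) with hs1
  set s2 := ∑ n ∈ Ioc A B, (if (d : ℤ) ∣ (n : ℤ) + c ∧ (e : ℤ) ∣ (n : ℤ) + c' ∧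
        (q : ℤ) ∣ (n : ℤ) + c then w n else 0) with hs2
  set s3 := ∑ n ∈ Ioc A B, (if (d : ℤ) ∣ (n : ℤ) + c ∧ (e : ℤ) ∣ (n : ℤ) + c' ∧
        (q' : ℤ) ∣ (n : ℤ) + c' then w n else 0) with hs3
  set s4 := ∑ n ∈ Ioc A B, (if (d : ℤ) ∣ (n : ℤ) + c ∧ (e : ℤ) ∣ (n : ℤ) + c' ∧
        ((q * q' : ℕ) : ℤ) ∣ (n : ℤ) + r then w n else 0) with hs4
  have hsum : ∑ x ∈ Ioc A B, w x * ((if (d : ℤ) ∣ (x : ℤ) + c then (1 : ℝ) else 0) *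
        (1 - if (q : ℤ) ∣ (x : ℤ) + c then (q : ℝ) else 0)) *
        ((if (e : ℤ) ∣ (x : ℤ) + c' then (1 : ℝ) else 0) *
        (1 - if (q' : ℤ) ∣ (x : ℤ) + c' then (q' : ℝ) else 0)) =
      s1 - q * s2 - q' * s3 + q * q' * s4 := by
    rw [hs1, hs2, hs3, hs4, Finset.mul_sum, Finset.mul_sum, Finset.mul_sum,
      ← Finset.sum_sub_distrib, ← Finset.sum_sub_distrib, ← Finset.sum_add_distrib]
    refine Finset.sum_congr rfl (fun x _ => ?_)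
    have h4 := hiff (x : ℤ)
    have h1 : ((1 : ℕ) : ℤ) ∣ (x : ℤ) + 0 := by simp
    by_cases hdx : (d : ℤ) ∣ (x : ℤ) + c
    · by_cases hex : (e : ℤ) ∣ (x : ℤ) + c'
      · by_cases hqx : (q : ℤ) ∣ (x : ℤ) + c
        · by_cases hqx' : (q' : ℤ) ∣ (x : ℤ) + c'
          · have h5 := h4.1 ⟨hqx, hqx'⟩
            simp only [if_pos hdx, if_pos hex, if_pos hqx, if_pos hqx',
              if_pos (⟨hdx, hex, h1⟩ : _ ∧ _ ∧ _), if_pos (⟨hdx, hex, hqx⟩ : _ ∧ _ ∧ _),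
              if_pos (⟨hdx, hex, hqx'⟩ : _ ∧ _ ∧ _), if_pos (⟨hdx, hex, h5⟩ : _ ∧ _ ∧ _)]
            ring
          · have h5 : ¬ ((q * q' : ℕ) : ℤ) ∣ (x : ℤ) + r := fun h6 => hqx' (h4.2 h6).2
            have n3 : ¬ ((d : ℤ) ∣ (x : ℤ) + c ∧ (e : ℤ) ∣ (x : ℤ) + c' ∧
              (q' : ℤ) ∣ (x : ℤ) + c') := fun h6 => hqx' h6.2.2
            have n4 : ¬ ((d : ℤ) ∣ (x : ℤ) + c ∧ (e : ℤ) ∣ (x : ℤ) + c' ∧
              ((q * q' : ℕ) : ℤ) ∣ (x : ℤ) + r) := fun h6 => h5 h6.2.2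
            simp only [if_pos hdx, if_pos hex, if_pos hqx, if_neg hqx',
              if_pos (⟨hdx, hex, h1⟩ : _ ∧ _ ∧ _), if_pos (⟨hdx, hex, hqx⟩ : _ ∧ _ ∧ _),
              if_neg n3, if_neg n4]
            ring
        · have h5 : ¬ ((q * q' : ℕ) : ℤ) ∣ (x : ℤ) + r := fun h6 => hqx (h4.2 h6).1
          have n2 : ¬ ((d : ℤ) ∣ (x : ℤ) + c ∧ (e : ℤ) ∣ (x : ℤ) + c' ∧
              (q : ℤ) ∣ (x : ℤ) + c) := fun h6 => hqx h6.2.2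
          have n4 : ¬ ((d : ℤ) ∣ (x : ℤ) + c ∧ (e : ℤ) ∣ (x : ℤ) + c' ∧
              ((q * q' : ℕ) : ℤ) ∣ (x : ℤ) + r) := fun h6 => h5 h6.2.2
          by_cases hqx' : (q' : ℤ) ∣ (x : ℤ) + c'
          · simp only [if_pos hdx, if_pos hex, if_neg hqx, if_pos hqx',
              if_pos (⟨hdx, hex, h1⟩ : _ ∧ _ ∧ _), if_neg n2,
              if_pos (⟨hdx, hex, hqx'⟩ : _ ∧ _ ∧ _), if_neg n4]
            ring
          · have n3 : ¬ ((d : ℤ) ∣ (x : ℤ) + c ∧ (e : ℤ) ∣ (x : ℤ) + c' ∧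
              (q' : ℤ) ∣ (x : ℤ) + c') := fun h6 => hqx' h6.2.2
            simp only [if_pos hdx, if_pos hex, if_neg hqx, if_neg hqx',
              if_pos (⟨hdx, hex, h1⟩ : _ ∧ _ ∧ _), if_neg n2, if_neg n3, if_neg n4]
            ring
      · have nn : ∀ R : Prop, ¬ ((d : ℤ) ∣ (x : ℤ) + c ∧ (e : ℤ) ∣ (x : ℤ) + c' ∧ R) :=
          fun R h6 => hex h6.2.1
        simp only [if_neg hex, if_neg (nn _)]
        ring
    · have nn : ∀ R : Prop, ¬ ((d : ℤ) ∣ (x : ℤ) + c ∧ R) := fun R h6 => hdx h6.1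
      simp only [if_neg hdx, if_neg (nn _)]
      ring
  rw [hsum]
  have hW := gsqA_mass_nonneg hw
  set W := mass A B w with hWdef
  have hmain : s1 - q * s2 - q' * s3 + q * q' * s4 =
      (s1 - t * W / (Λ * ((1 : ℕ) : ℝ))) - q * (s2 - t * W / (Λ * q)) -
        q' * (s3 - t * W / (Λ * q')) + q * q' * (s4 - t * W / (Λ * ((q * q' : ℕ) : ℝ))) := by
    push_cast
    field_simp
    ring
  rw [hmain]
  have a1 := abs_le.1 t1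
  have a2 := abs_le.1 t2
  have a3 := abs_le.1 t3
  have a4 := abs_le.1 t4
  have b2 : |(q : ℝ) * (s2 - t * W / (Λ * q))| ≤ q * 4 := by
    rw [abs_mul, abs_of_pos hq0]
    exact mul_le_mul_of_nonneg_left t2 hq0.le
  have b3 : |(q' : ℝ) * (s3 - t * W / (Λ * q'))| ≤ q' * 4 := by
    rw [abs_mul, abs_of_pos hq0']
    exact mul_le_mul_of_nonneg_left t3 hq0'.le
  have b4 : |(q : ℝ) * q' * (s4 - t * W / (Λ * ((q * q' : ℕ) : ℝ)))| ≤ q * q' * 4 := by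
    rw [abs_mul, abs_of_pos (mul_pos hq0 hq0')]
    exact mul_le_mul_of_nonneg_left t4 (mul_pos hq0 hq0').le
  have c2 := abs_le.1 b2
  have c3 := abs_le.1 b3
  have c4 := abs_le.1 b4
  rw [abs_le]
  constructor
  · linarith [a1.1, c2.2, c3.2, c4.1]
  · linarith [a1.2, c2.1, c3.1, c4.2]

theorem gsqA_gq_expand (ρ : ℕ → ℝ) (L H q x : ℕ) :
    gq ρ L H q x = ∑ h ∈ Icc 1 H, ∑ d ∈ Icc 1 L, ρ d / ((q : ℝ) - 1) *
      ((if (d : ℤ) ∣ (x : ℤ) + (h : ℤ) then (1 : ℝ) else 0) *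
        (1 - if (q : ℤ) ∣ (x : ℤ) + (h : ℤ) then (q : ℝ) else 0)) := by
  rw [gq]
  refine Finset.sum_congr rfl (fun h _ => ?_)
  rw [FF, Finset.sum_mul]
  refine Finset.sum_congr rfl (fun d _ => ?_)
  by_cases hd : (d : ℤ) ∣ (x : ℤ) + (h : ℤ)
  · rw [if_pos hd, if_pos hd]
    ring
  · rw [if_neg hd, if_neg hd]
    ring

theorem gq_orth {A B L H q q' : ℕ} {w ρ : ℕ → ℝ} (hw : Wt A B w) (hAB : A ≤ B) (hρ : SW L ρ)
    (hq : q.Prime) (hLq : L < q) (hq' : q'.Prime) (hLq' : L < q') (hne : q ≠ q') :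
    |∑ x ∈ Ioc A B, w x * (gq ρ L H q x * gq ρ L H q' x)| ≤ 36 * (H : ℝ) ^ 2 * (L : ℝ) ^ 4 := by
  have hq2 : (2 : ℝ) ≤ q := by exact_mod_cast hq.two_le
  have hq2' : (2 : ℝ) ≤ q' := by exact_mod_cast hq'.two_le
  have hexp : ∑ x ∈ Ioc A B, w x * (gq ρ L H q x * gq ρ L H q' x) =
      ∑ h ∈ Icc 1 H, ∑ h' ∈ Icc 1 H, ∑ d ∈ Icc 1 L, ∑ e ∈ Icc 1 L,
        (ρ d / ((q : ℝ) - 1)) * (ρ e / ((q' : ℝ) - 1)) *
        ∑ x ∈ Ioc A B, w x * ((if (d : ℤ) ∣ (x : ℤ) + (h : ℤ) then (1 : ℝ) else 0) *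
        (1 - if (q : ℤ) ∣ (x : ℤ) + (h : ℤ) then (q : ℝ) else 0)) *
        ((if (e : ℤ) ∣ (x : ℤ) + (h' : ℤ) then (1 : ℝ) else 0) *
        (1 - if (q' : ℤ) ∣ (x : ℤ) + (h' : ℤ) then (q' : ℝ) else 0)) := by
    have e1 : ∀ x ∈ Ioc A B, w x * (gq ρ L H q x * gq ρ L H q' x) =
        ∑ h ∈ Icc 1 H, ∑ h' ∈ Icc 1 H, ∑ d ∈ Icc 1 L, ∑ e ∈ Icc 1 L,
        (ρ d / ((q : ℝ) - 1)) * (ρ e / ((q' : ℝ) - 1)) *
        (w x * ((if (d : ℤ) ∣ (x : ℤ) + (h : ℤ) then (1 : ℝ) else 0) *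
        (1 - if (q : ℤ) ∣ (x : ℤ) + (h : ℤ) then (q : ℝ) else 0)) *
        ((if (e : ℤ) ∣ (x : ℤ) + (h' : ℤ) then (1 : ℝ) else 0) *
        (1 - if (q' : ℤ) ∣ (x : ℤ) + (h' : ℤ) then (q' : ℝ) else 0))) := by
      intro x _
      rw [gsqA_gq_expand, gsqA_gq_expand, Finset.sum_mul_sum, Finset.mul_sum]
      refine Finset.sum_congr rfl (fun h _ => ?_)
      rw [Finset.mul_sum]
      refine Finset.sum_congr rfl (fun h' _ => ?_)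
      rw [Finset.sum_mul_sum, Finset.mul_sum]
      refine Finset.sum_congr rfl (fun d _ => ?_)
      rw [Finset.mul_sum]
      refine Finset.sum_congr rfl (fun e _ => ?_)
      ring
    rw [Finset.sum_congr rfl e1, Finset.sum_comm]
    refine Finset.sum_congr rfl (fun h _ => ?_)
    rw [Finset.sum_comm]
    refine Finset.sum_congr rfl (fun h' _ => ?_)
    rw [Finset.sum_comm]
    refine Finset.sum_congr rfl (fun d _ => ?_)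
    rw [Finset.sum_comm]
    refine Finset.sum_congr rfl (fun e _ => ?_)
    rw [Finset.mul_sum]
  rw [hexp]
  have hterm : ∀ h h' : ℕ, |∑ d ∈ Icc 1 L, ∑ e ∈ Icc 1 L,
        (ρ d / ((q : ℝ) - 1)) * (ρ e / ((q' : ℝ) - 1)) *
        ∑ x ∈ Ioc A B, w x * ((if (d : ℤ) ∣ (x : ℤ) + (h : ℤ) then (1 : ℝ) else 0) *
        (1 - if (q : ℤ) ∣ (x : ℤ) + (h : ℤ) then (q : ℝ) else 0)) *
        ((if (e : ℤ) ∣ (x : ℤ) + (h' : ℤ) then (1 : ℝ) else 0) *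
        (1 - if (q' : ℤ) ∣ (x : ℤ) + (h' : ℤ) then (q' : ℝ) else 0))| ≤ 36 * (L : ℝ) ^ 4 := by
    intro h h'
    have h5 := gsqA_rho_sum hρ
    have h6 : ∀ d ∈ Icc 1 L, ∀ e ∈ Icc 1 L, |(ρ d / ((q : ℝ) - 1)) * (ρ e / ((q' : ℝ) - 1)) *
        ∑ x ∈ Ioc A B, w x * ((if (d : ℤ) ∣ (x : ℤ) + (h : ℤ) then (1 : ℝ) else 0) *
        (1 - if (q : ℤ) ∣ (x : ℤ) + (h : ℤ) then (q : ℝ) else 0)) *
        ((if (e : ℤ) ∣ (x : ℤ) + (h' : ℤ) then (1 : ℝ) else 0) *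
        (1 - if (q' : ℤ) ∣ (x : ℤ) + (h' : ℤ) then (q' : ℝ) else 0))| ≤
          36 * (|ρ d| * |ρ e|) := by
      intro d hd e he
      have h7 := gsqA_inner hw hAB hq hLq hq' hLq' hne hd he (h : ℤ) (h' : ℤ)
      rw [abs_mul, abs_mul, abs_div, abs_div, abs_of_pos (show (0 : ℝ) < (q : ℝ) - 1 by linarith),
        abs_of_pos (show (0 : ℝ) < (q' : ℝ) - 1 by linarith)]
      have h8 : 0 ≤ |ρ d| / ((q : ℝ) - 1) * (|ρ e| / ((q' : ℝ) - 1)) := by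
        apply mul_nonneg <;> apply div_nonneg (abs_nonneg _) <;> linarith
      refine (mul_le_mul_of_nonneg_left h7 h8).trans ?_
      have h9 : |ρ d| / ((q : ℝ) - 1) * (|ρ e| / ((q' : ℝ) - 1)) * (4 * ((1 + q) * (1 + q'))) =
          4 * (|ρ d| * |ρ e|) * (((1 + q) / ((q : ℝ) - 1)) * ((1 + q') / ((q' : ℝ) - 1))) := by
        ring
      rw [h9]
      have h10 : (1 + (q : ℝ)) / ((q : ℝ) - 1) ≤ 3 := by
        rw [div_le_iff₀ (by linarith)]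
        linarith
      have h11 : (1 + (q' : ℝ)) / ((q' : ℝ) - 1) ≤ 3 := by
        rw [div_le_iff₀ (by linarith)]
        linarith
      have h12 : ((1 + (q : ℝ)) / ((q : ℝ) - 1)) * ((1 + (q' : ℝ)) / ((q' : ℝ) - 1)) ≤ 3 * 3 := by
        refine mul_le_mul h10 h11 ?_ (by norm_num)
        apply div_nonneg <;> linarith
      have h13 : 0 ≤ 4 * (|ρ d| * |ρ e|) := by positivity
      have := mul_le_mul_of_nonneg_left h12 h13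
      linarith
    refine (Finset.abs_sum_le_sum_abs _ _).trans ?_
    refine (Finset.sum_le_sum (fun d hd => (Finset.abs_sum_le_sum_abs _ _).trans
      (Finset.sum_le_sum (fun e he => h6 d hd e he)))).trans ?_
    simp only [← Finset.mul_sum]
    simp only [Finset.mul_sum] at h5 ⊢
    calc ∑ d ∈ Icc 1 L, ∑ e ∈ Icc 1 L, 36 * (|ρ d| * |ρ e|)
        = 36 * ∑ d ∈ Icc 1 L, ∑ e ∈ Icc 1 L, |ρ d| * |ρ e| := by
          simp only [Finset.mul_sum]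
      _ ≤ 36 * (L : ℝ) ^ 4 := by linarith
  refine (Finset.abs_sum_le_sum_abs _ _).trans ?_
  refine (Finset.sum_le_sum (fun h _ => (Finset.abs_sum_le_sum_abs _ _).trans
      (Finset.sum_le_sum (fun h' _ => hterm h h')))).trans ?_
  simp only [Finset.sum_const, Nat.card_Icc, nsmul_eq_mul, Nat.add_sub_cancel]
  apply le_of_eq
  ring

end Pool.Agent.H67.VS
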