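import Pool.Agent.H67.VS.Defs
import Pool.Agent.H21.MT.Abel

/-!
[H67 VS HAT]  The hat functions.

Proofs.
* `hat_wt`: if `n ≤ X/2` then `n/y ≤ 1/2`, `|log(n/y)| ≥ log 2 > δ`; if `n > 4X ≥ 2y` then
  `log(n/y) ≥ log 2 > δ` (`n = 0` by definition).  Total variation: `n ↦ hat y δ n` is nondecreasing
  for `n ≤ y` and nonincreasing for `n ≥ y`, values in `[0,1]` (`H21.MT.tv_unimodal`,
  `mono_tv`, `anti_tv` in `Pool/Agent/H21/MT/Abel.lean`; the sum over `Ico m n` may be split at
  `⌊y⌋₊`).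
* `hat_mass`: the integers `n` in `(y, y exp(δ/2)]` are at least `y δ/2 - 1` and have weight `≥ 1/2`;
  `y δ/4 - 1/2 ≥ X^(98/100)/4 - 1/2 ≥ X^(9/10)` for large `X`.
* `hat_sum_le`, `hat_sum_eq`: with `t = log(n/X)/δ` the sum is `∑_j (1 - |t - j|)_+`; at most two
  terms are nonzero (`j = ⌊t⌋, ⌊t⌋+1`) and these two add up to `1` when both are in the range.
-/

namespace Pool.Agent.H67.VS

open Finset Filter

private theorem hat_apply (y δ : ℝ) {n : ℕ} (hn : n ≠ 0) :
    hat y δ n = max 0 (1 - |Real.log ((n : ℝ) / y)| / δ) := by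
  unfold hat
  rw [if_neg hn]

private theorem hat_nonneg (y δ : ℝ) (n : ℕ) : 0 ≤ hat y δ n := by
  unfold hat
  split_ifs
  · exact le_rfl
  · exact le_max_left _ _

private theorem hat_le_one (y δ : ℝ) (hδ : 0 < δ) (n : ℕ) : hat y δ n ≤ 1 := by
  unfold hat
  split_ifs
  · exact zero_le_one
  · apply max_le zero_le_one
    have : 0 ≤ |Real.log ((n : ℝ) / y)| / δ := by positivity
    linarith

private theorem hat_le_of_abs (y δ : ℝ) (hδ : 0 < δ) {m n : ℕ} (hn : n ≠ 0) (hm : m ≠ 0)
    (h : |Real.log ((n : ℝ) / y)| ≤ |Real.log ((m : ℝ) / y)|) : hat y δ m ≤ hat y δ n := by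
  rw [hat_apply y δ hn, hat_apply y δ hm]
  apply max_le_max le_rfl
  have : |Real.log ((n : ℝ) / y)| / δ ≤ |Real.log ((m : ℝ) / y)| / δ := by gcongr
  linarith

private theorem hat_zero_of_abs (y δ : ℝ) (hδ : 0 < δ) {n : ℕ} (hn : n ≠ 0)
    (h : δ ≤ |Real.log ((n : ℝ) / y)|) : hat y δ n = 0 := by
  rw [hat_apply y δ hn]
  apply max_eq_left
  have : 1 ≤ |Real.log ((n : ℝ) / y)| / δ := by
    rw [le_div_iff₀ hδ]
    linarith
  linarith

theorem hat_wt (X y δ : ℝ) (hX : 2 ≤ X) (hy1 : X ≤ y) (hy2 : y ≤ 2 * X) (hδ : 0 < δ)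
    (hδ2 : δ ≤ 1 / 2) : Wt (Ax X) (Bx X) (hat y δ) := by
  have hy0 : 0 < y := by linarith
  have hlog2 : 1 / 2 ≤ Real.log 2 := by
    have := Real.log_two_gt_d9
    linarith
  refine ⟨hat_nonneg y δ, hat_le_one y δ hδ, ?_, ?_⟩
  · intro n hn
    by_cases h0 : n = 0
    · rw [h0]
      unfold hat
      rw [if_pos rfl]
    · have hn0 : (0 : ℝ) < n := by
        have : 0 < n := Nat.pos_of_ne_zero h0
        exact_mod_cast this
      apply hat_zero_of_abs y δ hδ h0
      refine le_trans (hδ2.trans hlog2) ?_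
      rw [mem_Ioc, not_and_or, not_lt, not_le] at hn
      rcases hn with h1 | h1
      · have h2 : (n : ℝ) ≤ X / 2 := by
          unfold Ax at h1
          exact (Nat.le_floor_iff (by linarith)).1 h1
        have h3 : Real.log ((n : ℝ) / y) ≤ - Real.log 2 := by
          rw [← Real.log_inv]
          apply Real.log_le_log (by positivity)
          rw [div_le_iff₀ hy0]
          linarith
        have h4 := neg_le_abs (Real.log ((n : ℝ) / y))
        linarith
      · have h2 : 4 * X < n := by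
          unfold Bx at h1
          exact (Nat.floor_lt (by linarith)).1 h1
        have h3 : Real.log 2 ≤ Real.log ((n : ℝ) / y) := by
          apply Real.log_le_log (by norm_num)
          rw [le_div_iff₀ hy0]
          linarith
        exact h3.trans (le_abs_self _)
  · intro m n
    obtain ⟨t, ht⟩ : ∃ t : ℕ, t = ⌊y⌋₊ := ⟨_, rfl⟩
    obtain ⟨N, hN⟩ : ∃ N : ℕ, N = max n (t + 1) := ⟨_, rfl⟩
    have h1 : ∑ k ∈ Ico m n, |hat y δ (k + 1) - hat y δ k| ≤
        ∑ k ∈ Ico 0 N, |hat y δ (k + 1) - hat y δ k| := by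
      apply sum_le_sum_of_subset_of_nonneg
      · apply Ico_subset_Ico (Nat.zero_le _)
        rw [hN]
        exact le_max_left _ _
      · intro i _ _
        positivity
    have htN : t < N := by
      rw [hN]
      exact lt_of_lt_of_le (Nat.lt_succ_self t) (le_max_right _ _)
    rw [← sum_Ico_consecutive _ (Nat.zero_le t) htN.le, sum_eq_sum_Ico_succ_bot htN] at h1
    have h2 : ∑ k ∈ Ico 0 t, |hat y δ (k + 1) - hat y δ k| ≤ 1 := by
      apply H21.MT.mono_tv _ 1 (hat_nonneg y δ) (hat_le_one y δ hδ) 0 t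
      intro k _ hk
      rcases Nat.eq_zero_or_pos k with rfl | hk0
      · have : hat y δ 0 = 0 := by
          unfold hat
          rw [if_pos rfl]
        rw [this]
        exact hat_nonneg y δ _
      · have hk0' : (0 : ℝ) < k := by exact_mod_cast hk0
        have hky : ((k : ℝ) + 1) ≤ y := by
          have h3 : k + 1 ≤ ⌊y⌋₊ := by omega
          have h4 := (Nat.le_floor_iff hy0.le).1 h3
          push_cast at h4
          exact h4
        apply hat_le_of_abs y δ hδ (by omega) (by omega)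
        have h5 : Real.log (((k + 1 : ℕ) : ℝ) / y) ≤ 0 := by
          apply Real.log_nonpos (by positivity)
          rw [div_le_one hy0]
          push_cast
          exact hky
        have h6 : Real.log ((k : ℝ) / y) ≤ Real.log (((k + 1 : ℕ) : ℝ) / y) := by
          apply Real.log_le_log (by positivity)
          push_cast
          gcongr
          linarith
        rw [abs_of_nonpos h5, abs_of_nonpos (h6.trans h5)]
        linarith
    have h3 : |hat y δ (t + 1) - hat y δ t| ≤ 1 := by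
      rw [abs_le]
      have e1 := hat_nonneg y δ (t + 1)
      have e2 := hat_nonneg y δ t
      have e3 := hat_le_one y δ hδ (t + 1)
      have e4 := hat_le_one y δ hδ t
      constructor <;> linarith
    have h4 : ∑ k ∈ Ico (t + 1) N, |hat y δ (k + 1) - hat y δ k| ≤ 1 := by
      apply H21.MT.anti_tv _ 1 (hat_nonneg y δ) (hat_le_one y δ hδ) (t + 1) N
      intro k hk _
      have hky : y < k := by
        have h5 : ⌊y⌋₊ < k := by omega
        exact (Nat.floor_lt hy0.le).1 h5
      have hk0' : (0 : ℝ) < k := by linarith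
      apply hat_le_of_abs y δ hδ (by omega) (by omega)
      have h5 : 0 ≤ Real.log ((k : ℝ) / y) := by
        apply Real.log_nonneg
        rw [le_div_iff₀ hy0]
        linarith
      have h6 : Real.log ((k : ℝ) / y) ≤ Real.log (((k + 1 : ℕ) : ℝ) / y) := by
        apply Real.log_le_log (by positivity)
        push_cast
        gcongr
        linarith
      rw [abs_of_nonneg h5, abs_of_nonneg (h5.trans h6)]
      exact h6
    linarith

private theorem hat_mass_aux (X y δ : ℝ) (hX : 1 ≤ X) (hy1 : X ≤ y) (hy2 : y ≤ 2 * X) (hδ : 0 < δ)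
    (hδ2 : δ ≤ 1 / 2) : y * δ / 4 - 1 / 2 ≤ mass (Ax X) (Bx X) (hat y δ) := by
  have hy0 : 0 < y := by linarith
  have hexp : 1 + δ / 2 ≤ Real.exp (δ / 2) := by
    have := Real.add_one_le_exp (δ / 2)
    linarith
  have hexp2 : Real.exp (δ / 2) ≤ 2 := by
    have h1 : Real.exp (δ / 2) ≤ Real.exp (Real.log 2) := by
      rw [Real.exp_le_exp]
      have := Real.log_two_gt_d9
      linarith
    rwa [Real.exp_log (by norm_num)] at h1
  have hz0 : 0 ≤ y * Real.exp (δ / 2) := by positivity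
  have hyz : y ≤ y * Real.exp (δ / 2) := by nlinarith
  obtain ⟨p, hp⟩ : ∃ p : ℕ, p = ⌊y⌋₊ := ⟨_, rfl⟩
  obtain ⟨r, hr⟩ : ∃ r : ℕ, r = ⌊y * Real.exp (δ / 2)⌋₊ := ⟨_, rfl⟩
  have hpr : p ≤ r := by
    rw [hp, hr]
    exact Nat.floor_le_floor hyz
  have hsub : Ioc p r ⊆ Ioc (Ax X) (Bx X) := by
    apply Ioc_subset_Ioc
    · rw [hp]
      unfold Ax
      exact Nat.floor_le_floor (by linarith)
    · rw [hr]
      unfold Bx
      exact Nat.floor_le_floor (by nlinarith)
  unfold mass
  have h1 : ∑ n ∈ Ioc p r, hat y δ n ≤ ∑ n ∈ Ioc (Ax X) (Bx X), hat y δ n :=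
    sum_le_sum_of_subset_of_nonneg hsub (fun i _ _ => hat_nonneg y δ i)
  have h2 : ∑ n ∈ Ioc p r, (1 / 2 : ℝ) ≤ ∑ n ∈ Ioc p r, hat y δ n := by
    apply sum_le_sum
    intro n hn
    rw [mem_Ioc, hp, hr] at hn
    have hny : y < n := (Nat.floor_lt hy0.le).1 hn.1
    have hnz : (n : ℝ) ≤ y * Real.exp (δ / 2) := (Nat.le_floor_iff hz0).1 hn.2
    have hn0 : (0 : ℝ) < n := by linarith
    have hnn : n ≠ 0 := by
      intro h
      rw [h] at hn0
      simp at hn0
    rw [hat_apply y δ hnn]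
    refine le_trans ?_ (le_max_right _ _)
    have h3 : 0 ≤ Real.log ((n : ℝ) / y) := by
      apply Real.log_nonneg
      rw [le_div_iff₀ hy0]
      linarith
    have h4 : Real.log ((n : ℝ) / y) ≤ δ / 2 := by
      rw [← Real.log_exp (δ / 2)]
      apply Real.log_le_log (by positivity)
      rw [div_le_iff₀ hy0]
      linarith
    rw [abs_of_nonneg h3]
    have h5 : Real.log ((n : ℝ) / y) / δ ≤ 1 / 2 := by
      rw [div_le_iff₀ hδ]
      linarith
    linarith
  rw [sum_const, Nat.card_Ioc, nsmul_eq_mul, Nat.cast_sub hpr] at h2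
  have h3 : (p : ℝ) ≤ y := by
    rw [hp]
    exact Nat.floor_le hy0.le
  have h4 : y * Real.exp (δ / 2) < (r : ℝ) + 1 := by
    rw [hr]
    exact Nat.lt_floor_add_one _
  have h5 : y * (1 + δ / 2) ≤ y * Real.exp (δ / 2) := mul_le_mul_of_nonneg_left hexp hy0.le
  linarith

theorem hat_mass : ∀ᶠ X : ℝ in atTop, ∀ y δ : ℝ, X ≤ y → y ≤ 2 * X →
    X ^ (-1 / 50 : ℝ) ≤ δ → δ ≤ 1 / 2 → X ^ (9 / 10 : ℝ) ≤ mass (Ax X) (Bx X) (hat y δ) := by
  have h1 := (tendsto_rpow_atTop (show (0 : ℝ) < 2 / 25 by norm_num)).eventually_ge_atTop 6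
  filter_upwards [h1, eventually_ge_atTop (1 : ℝ)] with X hX6 hX1 y δ hy1 hy2 hδ1 hδ2
  have hX0 : 0 < X := by linarith
  have hδ0 : 0 < δ := lt_of_lt_of_le (Real.rpow_pos_of_pos hX0 _) hδ1
  refine le_trans ?_ (hat_mass_aux X y δ hX1 hy1 hy2 hδ0 hδ2)
  have h2 : X * X ^ (-1 / 50 : ℝ) ≤ y * δ :=
    mul_le_mul hy1 hδ1 (Real.rpow_nonneg hX0.le _) (by linarith)
  have h3 : X * X ^ (-1 / 50 : ℝ) = X ^ (9 / 10 : ℝ) * X ^ (2 / 25 : ℝ) := by
    rw [← Real.rpow_one_add' hX0.le (by norm_num), ← Real.rpow_add hX0]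
    norm_num
  have h4 : 1 ≤ X ^ (9 / 10 : ℝ) := Real.one_le_rpow hX1 (by norm_num)
  rw [h3] at h2
  nlinarith

/-- the truncation to `[0,1]` -/
private noncomputable def hatClamp (x : ℝ) : ℝ := max 0 (min 1 x)

private theorem hatClamp_sub (x : ℝ) : max 0 (1 - |x|) = hatClamp (x + 1) - hatClamp x := by
  unfold hatClamp
  rcases le_total x 0 with h | h
  · rw [abs_of_nonpos h]
    rcases le_total x (-1) with h' | h'
    · rw [max_eq_left (by linarith), min_eq_right (by linarith), max_eq_left (by linarith),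
        min_eq_right (by linarith), max_eq_left (by linarith)]
      ring
    · rw [max_eq_right (by linarith), min_eq_right (by linarith), max_eq_right (by linarith),
        min_eq_right (by linarith), max_eq_left (by linarith)]
      ring
  · rw [abs_of_nonneg h]
    rcases le_total x 1 with h' | h'
    · rw [max_eq_right (by linarith), min_eq_left (by linarith), max_eq_right (by linarith),
        min_eq_right (by linarith), max_eq_right (by linarith)]
    · rw [max_eq_left (by linarith), min_eq_left (by linarith), max_eq_right (by linarith),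
        min_eq_left (by linarith), max_eq_right (by linarith)]
      ring

private theorem hat_tele (X δ : ℝ) (hX : 0 < X) (hδ : 0 < δ) (J n : ℕ) (hn : n ≠ 0) :
    ∑ j ∈ range J, hat (X * Real.exp (j * δ)) δ n =
      hatClamp (Real.log ((n : ℝ) / X) / δ + 1) - hatClamp (Real.log ((n : ℝ) / X) / δ - J + 1) := by
  have hn0 : (0 : ℝ) < n := by
    have : 0 < n := Nat.pos_of_ne_zero hn
    exact_mod_cast this
  obtain ⟨t, ht⟩ : ∃ t : ℝ, t = Real.log ((n : ℝ) / X) / δ := ⟨_, rfl⟩
  rw [← ht]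
  have h1 : ∀ j ∈ range J, hat (X * Real.exp (j * δ)) δ n =
      (fun i : ℕ => hatClamp (t - i + 1)) j - (fun i : ℕ => hatClamp (t - i + 1)) (j + 1) := by
    intro j _
    rw [hat_apply _ _ hn]
    have h2 : Real.log ((n : ℝ) / (X * Real.exp (j * δ))) = δ * (t - j) := by
      rw [← div_div, Real.log_div (by positivity) (Real.exp_pos _).ne', Real.log_exp, ht]
      field_simp
    rw [h2, abs_mul, abs_of_pos hδ, mul_div_cancel_left₀ _ hδ.ne', hatClamp_sub]
    have e : t - ((j + 1 : ℕ) : ℝ) + 1 = t - j := by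
      push_cast
      ring
    simp only [e]
  rw [sum_congr rfl h1, sum_range_sub']
  simp

theorem hat_sum_le (X δ : ℝ) (hX : 0 < X) (hδ : 0 < δ) (J n : ℕ) :
    ∑ j ∈ range J, hat (X * Real.exp (j * δ)) δ n ≤ 1 := by
  by_cases hn : n = 0
  · rw [hn]
    have : ∀ j ∈ range J, hat (X * Real.exp (j * δ)) δ 0 = 0 := by
      intro j _
      unfold hat
      rw [if_pos rfl]
    rw [sum_congr rfl this, sum_const_zero]
    exact zero_le_one
  · rw [hat_tele X δ hX hδ J n hn]
    have h1 : ∀ x, hatClamp x ≤ 1 := fun x => max_le zero_le_one (min_le_left _ _)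
    have h2 : ∀ x, 0 ≤ hatClamp x := fun x => le_max_left _ _
    have h3 := h1 (Real.log ((n : ℝ) / X) / δ + 1)
    have h4 := h2 (Real.log ((n : ℝ) / X) / δ - J + 1)
    linarith

theorem hat_sum_eq (X δ : ℝ) (hX : 0 < X) (hδ : 0 < δ) (J n : ℕ) (hn : X ≤ n)
    (hn2 : (n : ℝ) ≤ X * Real.exp (J * δ)) :
    ∑ j ∈ range (J + 1), hat (X * Real.exp (j * δ)) δ n = 1 := by
  have hn0 : (0 : ℝ) < n := by linarith
  have hnn : n ≠ 0 := by
    intro h
    rw [h] at hn0
    simp at hn0
  rw [hat_tele X δ hX hδ (J + 1) n hnn]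
  have h1 : 0 ≤ Real.log ((n : ℝ) / X) / δ := by
    apply div_nonneg _ hδ.le
    apply Real.log_nonneg
    rw [le_div_iff₀ hX]
    linarith
  have h2 : Real.log ((n : ℝ) / X) / δ ≤ J := by
    rw [div_le_iff₀ hδ, ← Real.log_exp (J * δ)]
    apply Real.log_le_log (by positivity)
    rw [div_le_iff₀ hX]
    linarith
  have h3 : hatClamp (Real.log ((n : ℝ) / X) / δ + 1) = 1 := by
    unfold hatClamp
    rw [min_eq_left (by linarith)]
    exact max_eq_right zero_le_one
  have h4 : hatClamp (Real.log ((n : ℝ) / X) / δ - ((J + 1 : ℕ) : ℝ) + 1) = 0 := by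
    unfold hatClamp
    apply max_eq_left
    refine (min_le_right _ _).trans ?_
    push_cast
    linarith
  rw [h3, h4, sub_zero]

end Pool.Agent.H67.VS
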