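import Pool.Agent.H67.VS.Defs
import Pool.Agent.H21.MT.Cls

/-!
[H67 VS BIL]  The large sieve for a product of three polynomials.

Proof.  Cauchy-Schwarz over `c ∈ PC R`.  Second factor: `H21.MT.cls` with `M = N1`, `N = N2 - N1`,
`∑ |b|^2 ≤ (N2-N1) b0^2`.  First factor: the product of the `m`-sum and `KC H κ` is
`∑_{l ∈ Ioc 0 (H M2)} z_l χ(l)`, `z_l = ∑_{m k = l, m ∈ (M1,M2], 1 ≤ k < H} a_m κ_k`
(`χ` multiplicative); at most `H` representations (one for each `k`), so by Cauchy-Schwarz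
`|z_l|^2 ≤ H ∑ |a_m|^2 |κ_k|^2`, `∑_l |z_l|^2 ≤ H * (M2-M1) a0^2 * H * H^2 = H^4 (M2-M1) a0^2`;
`cls` with `M = 0`, `N = H M2`.
-/

namespace Pool.Agent.H67.VS

open Finset Pool.Agent.H21.MT

/-- the coefficients of the product of two short sums -/
noncomputable def bil_z (M1 M2 H : ℕ) (a : ℕ → ℂ) (κ : ℕ → ℝ) (l : ℕ) : ℂ :=
  ∑ p ∈ ((Ioc M1 M2) ×ˢ (Ico 1 H)).filter (fun p => p.1 * p.2 = l), a p.1 * ((κ p.2 : ℝ) : ℂ)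

theorem bil_mem {M1 M2 H : ℕ} {p : ℕ × ℕ} (hp : p ∈ (Ioc M1 M2) ×ˢ (Ico 1 H)) :
    p.1 * p.2 ∈ Ioc 0 (0 + H * M2) := by
  simp only [mem_product, mem_Ioc, mem_Ico] at hp ⊢
  obtain ⟨⟨h1, h2⟩, h3, h4⟩ := hp
  refine ⟨Nat.mul_pos (by omega) (by omega), ?_⟩
  rw [Nat.zero_add, mul_comm H M2]
  exact Nat.mul_le_mul h2 h4.le

theorem bil_prod (M1 M2 H : ℕ) (a : ℕ → ℂ) (κ : ℕ → ℝ) {q : ℕ} (χ : DirichletCharacter ℂ q) :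
    (∑ m ∈ Ioc M1 M2, a m * χ (m : ZMod q)) * KC H κ χ =
      ∑ l ∈ Ioc 0 (0 + H * M2), bil_z M1 M2 H a κ l * χ (l : ZMod q) := by
  unfold KC bil_z
  rw [Finset.sum_mul_sum, ← Finset.sum_product',
    ← Finset.sum_fiberwise_of_maps_to (g := fun p : ℕ × ℕ => p.1 * p.2)
      (fun p hp => bil_mem hp)]
  refine Finset.sum_congr rfl fun l _ => ?_
  rw [Finset.sum_mul]
  refine Finset.sum_congr rfl fun p hp => ?_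
  rw [Finset.mem_filter] at hp
  rw [← hp.2, Nat.cast_mul, map_mul]
  ring

theorem bil_card (M1 M2 H l : ℕ) :
    (((Ioc M1 M2) ×ˢ (Ico 1 H)).filter (fun p : ℕ × ℕ => p.1 * p.2 = l)).card ≤ H := by
  calc _ ≤ (Ico 1 H).card := by
        refine Finset.card_le_card_of_injOn (fun p => p.2) ?_ ?_
        · intro p hp
          have := (Finset.mem_filter.1 (Finset.mem_coe.1 hp)).1
          exact Finset.mem_coe.2 (Finset.mem_product.1 this).2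
        · intro p hp p' hp' h
          have h1 := Finset.mem_filter.1 (Finset.mem_coe.1 hp)
          have h2 := Finset.mem_filter.1 (Finset.mem_coe.1 hp')
          simp only at h
          have h3 := (Finset.mem_Ico.1 (Finset.mem_product.1 h1.1).2).1
          have h4 : p.1 * p.2 = p'.1 * p.2 := by
            rw [h1.2, h, h2.2]
          have h5 : p.1 = p'.1 := Nat.eq_of_mul_eq_mul_right (by omega) h4
          exact Prod.ext h5 h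
    _ ≤ H := by
        rw [Nat.card_Ico]
        omega

theorem bil_z_sq (M1 M2 H : ℕ) (hM : M1 ≤ M2) (a : ℕ → ℂ) (κ : ℕ → ℝ)
    (a0 : ℝ) (ha0 : 0 ≤ a0) (ha : ∀ m ∈ Ioc M1 M2, ‖a m‖ ≤ a0) (hκ : ∀ k, |κ k| ≤ H) :
    ∑ l ∈ Ioc 0 (0 + H * M2), ‖bil_z M1 M2 H a κ l‖ ^ 2 ≤
      a0 ^ 2 * ((H : ℝ) ^ 4 * ((M2 : ℝ) - M1)) := by
  have h1 : ∀ l, ‖bil_z M1 M2 H a κ l‖ ^ 2 ≤ (H : ℝ) *
      ∑ p ∈ ((Ioc M1 M2) ×ˢ (Ico 1 H)).filter (fun p => p.1 * p.2 = l),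
        (a0 * (H : ℝ)) ^ 2 := by
    intro l
    have h2 : ‖bil_z M1 M2 H a κ l‖ ≤
        ∑ p ∈ ((Ioc M1 M2) ×ˢ (Ico 1 H)).filter (fun p => p.1 * p.2 = l), a0 * (H : ℝ) := by
      refine (norm_sum_le _ _).trans (Finset.sum_le_sum fun p hp => ?_)
      rw [norm_mul, Complex.norm_real, Real.norm_eq_abs]
      exact mul_le_mul (ha _ (Finset.mem_product.1 (Finset.mem_filter.1 hp).1).1) (hκ _)
        (abs_nonneg _) ha0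
    calc ‖bil_z M1 M2 H a κ l‖ ^ 2 ≤
        (∑ p ∈ ((Ioc M1 M2) ×ˢ (Ico 1 H)).filter (fun p => p.1 * p.2 = l),
          a0 * (H : ℝ)) ^ 2 := pow_le_pow_left₀ (norm_nonneg _) h2 2
      _ ≤ _ := sq_sum_le_card_mul_sum_sq
      _ ≤ _ := by
        refine mul_le_mul_of_nonneg_right ?_ (Finset.sum_nonneg fun _ _ => sq_nonneg _)
        exact_mod_cast bil_card M1 M2 H l
  calc ∑ l ∈ Ioc 0 (0 + H * M2), ‖bil_z M1 M2 H a κ l‖ ^ 2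
      ≤ ∑ l ∈ Ioc 0 (0 + H * M2), (H : ℝ) *
        ∑ p ∈ ((Ioc M1 M2) ×ˢ (Ico 1 H)).filter (fun p => p.1 * p.2 = l),
        (a0 * (H : ℝ)) ^ 2 := Finset.sum_le_sum fun l _ => h1 l
    _ = (H : ℝ) * ∑ p ∈ (Ioc M1 M2) ×ˢ (Ico 1 H), (a0 * (H : ℝ)) ^ 2 := by
        rw [← Finset.mul_sum, Finset.sum_fiberwise_of_maps_to (fun p hp => bil_mem hp)]
    _ = (H : ℝ) * ((((M2 : ℝ) - M1) * ((H - 1 : ℕ) : ℝ)) * (a0 * (H : ℝ)) ^ 2) := by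
        rw [Finset.sum_const, Finset.card_product, Nat.card_Ioc, Nat.card_Ico, nsmul_eq_mul,
          Nat.cast_mul, Nat.cast_sub hM]
    _ ≤ (H : ℝ) * ((((M2 : ℝ) - M1) * (H : ℝ)) * (a0 * (H : ℝ)) ^ 2) := by
        have h3 : ((H - 1 : ℕ) : ℝ) ≤ (H : ℝ) := by exact_mod_cast Nat.sub_le _ _
        have h4 : (0 : ℝ) ≤ (M2 : ℝ) - M1 := by
          have : (M1 : ℝ) ≤ M2 := by exact_mod_cast hM
          linarith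
        gcongr
    _ = a0 ^ 2 * ((H : ℝ) ^ 4 * ((M2 : ℝ) - M1)) := by ring

theorem bil (R M1 M2 N1 N2 H : ℕ) (hM : M1 ≤ M2) (hN : N1 ≤ N2) (a b : ℕ → ℂ) (κ : ℕ → ℝ)
    (a0 b0 : ℝ) (ha0 : 0 ≤ a0) (hb0 : 0 ≤ b0) (ha : ∀ m ∈ Ioc M1 M2, ‖a m‖ ≤ a0)
    (hb : ∀ k ∈ Ioc N1 N2, ‖b k‖ ≤ b0) (hκ : ∀ k, |κ k| ≤ H) :
    ∑ c ∈ PC R, ‖∑ m ∈ Ioc M1 M2, a m * c.2 (m : ZMod (c.1.val + 1))‖ *
        ‖∑ k ∈ Ioc N1 N2, b k * c.2 (k : ZMod (c.1.val + 1))‖ * ‖KC H κ c.2‖ ≤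
      a0 * b0 * Real.sqrt (((H : ℝ) * M2 + (R : ℝ) ^ 4) * ((H : ℝ) ^ 4 * ((M2 : ℝ) - M1))) *
        Real.sqrt (((N2 : ℝ) - N1 + (R : ℝ) ^ 4) * ((N2 : ℝ) - N1)) := by
  have hM' : (0 : ℝ) ≤ (M2 : ℝ) - M1 := by
    have : (M1 : ℝ) ≤ M2 := by exact_mod_cast hM
    linarith
  have hN' : (0 : ℝ) ≤ (N2 : ℝ) - N1 := by
    have : (N1 : ℝ) ≤ N2 := by exact_mod_cast hN
    linarith
  have h1 : ∑ c ∈ PC R, ‖(∑ m ∈ Ioc M1 M2, a m * c.2 (m : ZMod (c.1.val + 1))) *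
      KC H κ c.2‖ ^ 2 ≤
      a0 ^ 2 * (((H : ℝ) * M2 + (R : ℝ) ^ 4) * ((H : ℝ) ^ 4 * ((M2 : ℝ) - M1))) := by
    have h2 := cls R 0 (H * M2) (bil_z M1 M2 H a κ)
    have h3 : ∀ c ∈ PC R, ‖(∑ m ∈ Ioc M1 M2, a m * c.2 (m : ZMod (c.1.val + 1))) *
        KC H κ c.2‖ ^ 2 =
        ‖∑ l ∈ Ioc 0 (0 + H * M2), bil_z M1 M2 H a κ l * c.2 (l : ZMod (c.1.val + 1))‖ ^ 2 := by
      intro c _
      rw [bil_prod]
    rw [Finset.sum_congr rfl h3]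
    refine h2.trans ?_
    have h4 := bil_z_sq M1 M2 H hM a κ a0 ha0 ha hκ
    calc (((H * M2 : ℕ) : ℝ) + (R : ℝ) ^ 4) * ∑ l ∈ Ioc 0 (0 + H * M2),
          ‖bil_z M1 M2 H a κ l‖ ^ 2
        ≤ (((H * M2 : ℕ) : ℝ) + (R : ℝ) ^ 4) * (a0 ^ 2 * ((H : ℝ) ^ 4 * ((M2 : ℝ) - M1))) :=
          mul_le_mul_of_nonneg_left h4 (by positivity)
      _ = _ := by
          push_cast
          ring
  have h5 : ∑ c ∈ PC R, ‖∑ k ∈ Ioc N1 N2, b k * c.2 (k : ZMod (c.1.val + 1))‖ ^ 2 ≤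
      b0 ^ 2 * (((N2 : ℝ) - N1 + (R : ℝ) ^ 4) * ((N2 : ℝ) - N1)) := by
    have h2 := cls R N1 (N2 - N1) b
    rw [Nat.add_sub_cancel' hN] at h2
    refine h2.trans ?_
    have h4 : ∑ m ∈ Ioc N1 N2, ‖b m‖ ^ 2 ≤ ((N2 : ℝ) - N1) * b0 ^ 2 := by
      calc ∑ m ∈ Ioc N1 N2, ‖b m‖ ^ 2 ≤ ∑ m ∈ Ioc N1 N2, b0 ^ 2 :=
            Finset.sum_le_sum fun m hm => pow_le_pow_left₀ (norm_nonneg _) (hb m hm) 2
        _ = ((N2 : ℝ) - N1) * b0 ^ 2 := by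
            rw [Finset.sum_const, Nat.card_Ioc, nsmul_eq_mul, Nat.cast_sub hN]
    rw [Nat.cast_sub hN]
    calc ((N2 : ℝ) - N1 + (R : ℝ) ^ 4) * ∑ m ∈ Ioc N1 N2, ‖b m‖ ^ 2
        ≤ ((N2 : ℝ) - N1 + (R : ℝ) ^ 4) * (((N2 : ℝ) - N1) * b0 ^ 2) :=
          mul_le_mul_of_nonneg_left h4 (by positivity)
      _ = _ := by ring
  have hCS := Real.sum_mul_le_sqrt_mul_sqrt (PC R)
    (fun c => ‖(∑ m ∈ Ioc M1 M2, a m * c.2 (m : ZMod (c.1.val + 1))) * KC H κ c.2‖)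
    (fun c => ‖∑ k ∈ Ioc N1 N2, b k * c.2 (k : ZMod (c.1.val + 1))‖)
  calc ∑ c ∈ PC R, ‖∑ m ∈ Ioc M1 M2, a m * c.2 (m : ZMod (c.1.val + 1))‖ *
        ‖∑ k ∈ Ioc N1 N2, b k * c.2 (k : ZMod (c.1.val + 1))‖ * ‖KC H κ c.2‖
      = ∑ c ∈ PC R, ‖(∑ m ∈ Ioc M1 M2, a m * c.2 (m : ZMod (c.1.val + 1))) * KC H κ c.2‖ *
        ‖∑ k ∈ Ioc N1 N2, b k * c.2 (k : ZMod (c.1.val + 1))‖ := by
        refine Finset.sum_congr rfl fun c _ => ?_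
        rw [norm_mul]
        ring
    _ ≤ _ := hCS
    _ ≤ Real.sqrt (a0 ^ 2 * (((H : ℝ) * M2 + (R : ℝ) ^ 4) * ((H : ℝ) ^ 4 * ((M2 : ℝ) - M1)))) *
        Real.sqrt (b0 ^ 2 * (((N2 : ℝ) - N1 + (R : ℝ) ^ 4) * ((N2 : ℝ) - N1))) :=
        mul_le_mul (Real.sqrt_le_sqrt h1) (Real.sqrt_le_sqrt h5) (Real.sqrt_nonneg _)
          (Real.sqrt_nonneg _)
    _ = _ := by
        rw [Real.sqrt_mul (sq_nonneg a0), Real.sqrt_mul (sq_nonneg b0), Real.sqrt_sq ha0,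
          Real.sqrt_sq hb0]
        ring

end Pool.Agent.H67.VS
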