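import Pool.Agent.H67.VS.Defs

/-!
[H67 VS SEP]  The hat function separates the variables.

Proofs.
* `hat_sep`: the intersection of `[α, α+δ)` and `[β, β+δ)` has length `(δ - |α-β|)_+`,
  `α = log m`, `β = log(y/k)`, `α - β = log(mk/y)`.
* `sep_norm`: insert `hat_sep`, exchange the finite sums with the integral; the integrand is the
  product of the two finite sums (the indicator conditions `log m ≤ s < log m + δ`, i.e.
  `s - δ < log m ≤ s`, and `log(y/k) ≤ s < log(y/k) + δ`); norm of the integral `≤` integral of the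
  norms; for `s` outside `[S1,S2]` one of the two sums is empty by `hI`, `hJ`.  All functions of `s`
  are finite combinations of indicators of intervals, hence integrable.
-/

namespace Pool.Agent.H67.VS

open Finset MeasureTheory

/-- the indicator of `[α, α + δ)` -/
private noncomputable def sepI (α δ s : ℝ) : ℝ := if α ≤ s ∧ s < α + δ then 1 else 0

private theorem sepI_mul (α β δ s : ℝ) : sepI α δ s * sepI β δ s =
    (Set.Ico (max α β) (min α β + δ)).indicator (fun _ => (1 : ℝ)) s := by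
  unfold sepI
  by_cases h : s ∈ Set.Ico (max α β) (min α β + δ)
  · rw [Set.indicator_of_mem h]
    obtain ⟨h1, h2⟩ := h
    have h3 := le_max_left α β
    have h4 := le_max_right α β
    have h5 := min_le_left α β
    have h6 := min_le_right α β
    rw [if_pos ⟨by linarith, by linarith⟩, if_pos ⟨by linarith, by linarith⟩, mul_one]
  · rw [Set.indicator_of_notMem h]
    by_cases h1 : α ≤ s ∧ s < α + δ
    · by_cases h2 : β ≤ s ∧ s < β + δ
      · exfalso
        apply h
        refine ⟨max_le h1.1 h2.1, ?_⟩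
        rcases min_choice α β with h3 | h3
        · rw [h3]; exact h1.2
        · rw [h3]; exact h2.2
      · rw [if_neg h2, mul_zero]
    · rw [if_neg h1, zero_mul]

private theorem sepI_integrable (α β δ : ℝ) : Integrable (fun s => sepI α δ s * sepI β δ s) := by
  have h : (fun s => sepI α δ s * sepI β δ s) =
      (Set.Ico (max α β) (min α β + δ)).indicator (fun _ => (1 : ℝ)) := by
    funext s
    exact sepI_mul α β δ s
  rw [h]
  refine (integrable_indicator_iff measurableSet_Ico).2 (integrableOn_const (hs := ?_))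
  rw [Real.volume_Ico]
  exact ENNReal.ofReal_ne_top

private theorem sepI_integral (α β δ : ℝ) :
    ∫ s, sepI α δ s * sepI β δ s = max 0 (δ - |α - β|) := by
  have h : (fun s => sepI α δ s * sepI β δ s) =
      (Set.Ico (max α β) (min α β + δ)).indicator (fun _ => (1 : ℝ)) := by
    funext s
    exact sepI_mul α β δ s
  rw [h, integral_indicator_const _ measurableSet_Ico, smul_eq_mul, mul_one, measureReal_def,
    Real.volume_Ico]
  have e : min α β + δ - max α β = δ - |α - β| := by
    rcases le_total α β with h1 | h1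
    · rw [min_eq_left h1, max_eq_right h1, abs_of_nonpos (by linarith)]; ring
    · rw [min_eq_right h1, max_eq_left h1, abs_of_nonneg (by linarith)]; ring
  rw [e]
  rcases le_total 0 (δ - |α - β|) with h2 | h2
  · rw [ENNReal.toReal_ofReal h2, max_eq_right h2]
  · rw [ENNReal.ofReal_of_nonpos h2, max_eq_left h2]
    rfl

theorem hat_sep (y δ : ℝ) (hy : 0 < y) (hδ : 0 < δ) (m k : ℕ) (hm : 1 ≤ m) (hk : 1 ≤ k) :
    hat y δ (m * k) = (1 / δ) * ∫ s : ℝ,
      (if Real.log m ≤ s ∧ s < Real.log m + δ then (1 : ℝ) else 0) *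
      (if Real.log (y / k) ≤ s ∧ s < Real.log (y / k) + δ then (1 : ℝ) else 0) := by
  have h1 := sepI_integral (Real.log m) (Real.log (y / k)) δ
  unfold sepI at h1
  rw [h1]
  have hm' : (0 : ℝ) < m := by exact_mod_cast hm
  have hk' : (0 : ℝ) < k := by exact_mod_cast hk
  have e : Real.log (((m * k : ℕ) : ℝ) / y) = Real.log m - Real.log (y / k) := by
    rw [Real.log_div (by push_cast; positivity) hy.ne', Real.log_div hy.ne' hk'.ne']
    push_cast
    rw [Real.log_mul hm'.ne' hk'.ne']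
    ring
  unfold hat
  rw [if_neg (Nat.mul_ne_zero (by omega) (by omega)), e,
    mul_max_of_nonneg _ _ (by positivity), mul_zero]
  congr 1
  field_simp

private theorem sepI_ite (α δ s : ℝ) (c : ℂ) :
    (if α ≤ s ∧ s < α + δ then c else 0) = c * ((sepI α δ s : ℝ) : ℂ) := by
  unfold sepI
  split_ifs <;> simp

private theorem sep_prod (y δ : ℝ) (I J : Finset ℕ) (a b : ℕ → ℂ) (s : ℝ) :
    (∑ m ∈ I, if Real.log m ≤ s ∧ s < Real.log m + δ then a m else 0) *
      (∑ k ∈ J, if Real.log (y / k) ≤ s ∧ s < Real.log (y / k) + δ then b k else 0) =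
    ∑ m ∈ I, ∑ k ∈ J, a m * b k *
      ((sepI (Real.log m) δ s * sepI (Real.log (y / k)) δ s : ℝ) : ℂ) := by
  rw [Finset.sum_mul_sum]
  apply Finset.sum_congr rfl
  intro m _
  apply Finset.sum_congr rfl
  intro k _
  rw [sepI_ite, sepI_ite]
  push_cast
  ring

private theorem sep_prod_integrable (y δ : ℝ) (I J : Finset ℕ) (a b : ℕ → ℂ) :
    Integrable (fun s : ℝ =>
      (∑ m ∈ I, if Real.log m ≤ s ∧ s < Real.log m + δ then a m else 0) *
      (∑ k ∈ J, if Real.log (y / k) ≤ s ∧ s < Real.log (y / k) + δ then b k else 0)) := by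
  simp only [sep_prod]
  apply integrable_finsetSum
  intro m _
  apply integrable_finsetSum
  intro k _
  exact (sepI_integrable _ _ _).ofReal.const_mul _

private theorem sep_norm_integrable (y δ : ℝ) (I J : Finset ℕ) (a b : ℕ → ℂ) :
    Integrable (fun s : ℝ =>
      ‖∑ m ∈ I, if Real.log m ≤ s ∧ s < Real.log m + δ then a m else 0‖ *
      ‖∑ k ∈ J, if Real.log (y / k) ≤ s ∧ s < Real.log (y / k) + δ then b k else 0‖) := by
  have h := (sep_prod_integrable y δ I J a b).norm
  simp only [norm_mul] at h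
  exact h

theorem sep_norm (y δ S1 S2 : ℝ) (hy : 0 < y) (hδ : 0 < δ) (hS : S1 ≤ S2) (I J : Finset ℕ)
    (hI : ∀ m ∈ I, 1 ≤ m ∧ S1 ≤ Real.log m) (hJ : ∀ k ∈ J, 1 ≤ k ∧ Real.log (y / k) + δ ≤ S2)
    (a b : ℕ → ℂ) :
    ‖∑ m ∈ I, ∑ k ∈ J, a m * b k * ((hat y δ (m * k) : ℝ) : ℂ)‖ ≤
      (1 / δ) * ∫ s in Set.Icc S1 S2,
        ‖∑ m ∈ I, if Real.log m ≤ s ∧ s < Real.log m + δ then a m else 0‖ *
        ‖∑ k ∈ J, if Real.log (y / k) ≤ s ∧ s < Real.log (y / k) + δ then b k else 0‖ := by
  have e1 : ∑ m ∈ I, ∑ k ∈ J, a m * b k * ((hat y δ (m * k) : ℝ) : ℂ) =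
      ((1 / δ : ℝ) : ℂ) * ∫ s : ℝ,
      (∑ m ∈ I, if Real.log m ≤ s ∧ s < Real.log m + δ then a m else 0) *
      (∑ k ∈ J, if Real.log (y / k) ≤ s ∧ s < Real.log (y / k) + δ then b k else 0) := by
    simp only [sep_prod]
    rw [integral_finsetSum _ (fun m _ => integrable_finsetSum _ (fun k _ =>
      (sepI_integrable _ _ _).ofReal.const_mul _)), Finset.mul_sum]
    apply Finset.sum_congr rfl
    intro m hm
    rw [integral_finsetSum _ (fun k _ => (sepI_integrable _ _ _).ofReal.const_mul _),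
      Finset.mul_sum]
    apply Finset.sum_congr rfl
    intro k hk
    rw [integral_const_mul, integral_complex_ofReal]
    have h1 := hat_sep y δ hy hδ m k (hI m hm).1 (hJ k hk).1
    rw [h1]
    unfold sepI
    push_cast
    ring
  rw [e1, norm_mul, Complex.norm_real, Real.norm_eq_abs, abs_of_pos (by positivity)]
  apply mul_le_mul_of_nonneg_left _ (by positivity)
  refine (norm_integral_le_integral_norm _).trans (le_of_eq ?_)
  simp only [norm_mul]
  rw [setIntegral_eq_integral_of_forall_compl_eq_zero]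
  intro s hs
  rw [Set.mem_Icc, not_and_or, not_le, not_le] at hs
  rcases hs with hs | hs
  · rw [Finset.sum_eq_zero (s := I), norm_zero, zero_mul]
    intro m hm
    rw [if_neg]
    rintro ⟨h1, -⟩
    have := (hI m hm).2
    linarith
  · rw [Finset.sum_eq_zero (s := J), norm_zero, mul_zero]
    intro k hk
    rw [if_neg]
    rintro ⟨-, h1⟩
    have := (hJ k hk).2
    linarith

/-- a sum of such integrals with nonnegative factors is bounded by a uniform bound -/
theorem sep_sum {ι : Type} (T : Finset ι) (y δ S1 S2 K : ℝ) (hy : 0 < y) (hδ : 0 < δ)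
    (hS : S1 ≤ S2) (I J : Finset ℕ)
    (hI : ∀ m ∈ I, 1 ≤ m ∧ S1 ≤ Real.log m) (hJ : ∀ k ∈ J, 1 ≤ k ∧ Real.log (y / k) + δ ≤ S2)
    (a b : ι → ℕ → ℂ) (v : ι → ℝ) (hv : ∀ c ∈ T, 0 ≤ v c)
    (hK : ∀ s ∈ Set.Icc S1 S2, ∑ c ∈ T,
      ‖∑ m ∈ I, if Real.log m ≤ s ∧ s < Real.log m + δ then a c m else 0‖ *
      ‖∑ k ∈ J, if Real.log (y / k) ≤ s ∧ s < Real.log (y / k) + δ then b c k else 0‖ * v c ≤ K) :
    ∑ c ∈ T, ‖∑ m ∈ I, ∑ k ∈ J, a c m * b c k * ((hat y δ (m * k) : ℝ) : ℂ)‖ * v c ≤
      (1 / δ) * (S2 - S1) * K := by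
  have hint : ∀ c, IntegrableOn (fun s : ℝ =>
      ‖∑ m ∈ I, if Real.log m ≤ s ∧ s < Real.log m + δ then a c m else 0‖ *
      ‖∑ k ∈ J, if Real.log (y / k) ≤ s ∧ s < Real.log (y / k) + δ then b c k else 0‖ * v c)
      (Set.Icc S1 S2) := fun c =>
    ((sep_norm_integrable y δ I J (a c) (b c)).mul_const (v c)).integrableOn
  have h1 : ∀ c ∈ T, ‖∑ m ∈ I, ∑ k ∈ J, a c m * b c k * ((hat y δ (m * k) : ℝ) : ℂ)‖ * v c ≤
      (1 / δ) * ∫ s in Set.Icc S1 S2,
        ‖∑ m ∈ I, if Real.log m ≤ s ∧ s < Real.log m + δ then a c m else 0‖ *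
        ‖∑ k ∈ J, if Real.log (y / k) ≤ s ∧ s < Real.log (y / k) + δ then b c k else 0‖ * v c := by
    intro c hc
    rw [integral_mul_const, ← mul_assoc]
    exact mul_le_mul_of_nonneg_right (sep_norm y δ S1 S2 hy hδ hS I J hI hJ (a c) (b c)) (hv c hc)
  refine (Finset.sum_le_sum h1).trans ?_
  rw [← Finset.mul_sum, ← integral_finsetSum T (fun c _ => hint c), mul_assoc]
  apply mul_le_mul_of_nonneg_left _ (by positivity)
  calc ∫ s in Set.Icc S1 S2, ∑ c ∈ T,
        ‖∑ m ∈ I, if Real.log m ≤ s ∧ s < Real.log m + δ then a c m else 0‖ *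
        ‖∑ k ∈ J, if Real.log (y / k) ≤ s ∧ s < Real.log (y / k) + δ then b c k else 0‖ * v c
      ≤ ∫ _ in Set.Icc S1 S2, K :=
        setIntegral_mono_on (integrable_finsetSum T (fun c _ => hint c))
          (integrableOn_const (hs := by rw [Real.volume_Icc]; exact ENNReal.ofReal_ne_top))
          measurableSet_Icc hK
    _ = (S2 - S1) * K := by
        rw [setIntegral_const, smul_eq_mul, measureReal_def, Real.volume_Icc,
          ENNReal.toReal_ofReal (by linarith)]

end Pool.Agent.H67.VS
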