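import Pool.Agent.H67.VS.Hat
import Pool.Agent.H67.VS.Bil
import Pool.Agent.H67.VS.Sep

/-!
[H67 VS TY2]  The type II sum over all primitive characters.

Proof.  `u = ux X`, `B = Bx X`, `R = Rx X`.  For `k > B/m`, i.e. `mk > B`, `hat y δ (mk) = 0`
(`hat_wt`), so the inner sum may be taken over `k ∈ Ioc u B`.  `χ(mk) = χ(m) χ(k)`.  Apply `sep_sum`
with `I = J = Ioc u B`, `a c m = a m χ(m)`, `b c k = b k χ(k)`, `v c = ‖KC H κ χ‖`,
`S1 = log u`, `S2 = log(y/u) + δ` (so `S2 - S1 ≤ 2 log X`; for `k > u`: `log(y/k) + δ ≤ S2`).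
Fix `s ∈ [S1,S2]`.  The `m` with `s - δ < log m ≤ s`, `m > u` form the interval
`Ioc (max u ⌊exp(s-δ)⌋) (min B ⌊exp s⌋)` (or nothing), of length `≤ δ exp s + 1 ≤ 2 δ exp s`
(`exp s ≥ u`, `δ u ≥ 1`); with `z = y exp(-s)` the `k` with `z ≤ k < z exp δ`, `k > u`, form an
interval in which there are at most `2 δ z + 1 ≤ 4 δ z` integers (`z exp δ ≥ u`, so `z ≥ u/2`,
`δ u/2 ≥ 1`).  `bil` with `a0 = 1`, `b0 = log B` gives
`log B sqrt((H exp s + R^4) H^4 2 δ exp s) sqrt((4 δ z + R^4) 4 δ z)` and `R^4 ≤ u ≤ exp s`,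
`R^4 ≤ u ≤ 2 z`, so `≤ log B sqrt(4 δ H^5 exp(2s)) sqrt(24 δ z^2) ≤ 10 δ H^(5/2) y log B =: K`.
Total `(1/δ) (2 log X) K ≤ 20 H^(5/2) (2X) log(4X) log X * 2 ≤ H^2 X^(1007/1000)` as
`H^(1/2) ≤ X^(1/200)`.
-/

namespace Pool.Agent.H67.VS

open Finset Filter Pool.Agent.H21.MT

/-- the `m` seen at height `s` -/
theorem ty2_mset (u B : ℕ) (s δ : ℝ) :
    (Ioc u B).filter (fun m : ℕ => Real.log m ≤ s ∧ s < Real.log m + δ) =
      Ioc (max u ⌊Real.exp (s - δ)⌋₊)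
        (max (max u ⌊Real.exp (s - δ)⌋₊) (min B ⌊Real.exp s⌋₊)) := by
  ext m
  simp only [mem_filter, mem_Ioc, le_max_iff, max_lt_iff, le_min_iff]
  by_cases hm : m = 0
  · subst hm
    constructor
    · rintro ⟨⟨h1, _⟩, _⟩
      exact absurd h1 (Nat.not_lt_zero _)
    · rintro ⟨⟨h1, _⟩, _⟩
      exact absurd h1 (Nat.not_lt_zero _)
  have hm0 : (0 : ℝ) < m := by exact_mod_cast Nat.pos_of_ne_zero hm
  have e1 : Real.log m ≤ s ↔ m ≤ ⌊Real.exp s⌋₊ := by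
    rw [Nat.le_floor_iff (Real.exp_pos s).le, Real.log_le_iff_le_exp hm0]
  have e2 : s < Real.log m + δ ↔ ⌊Real.exp (s - δ)⌋₊ < m := by
    rw [Nat.floor_lt (Real.exp_pos _).le, ← Real.lt_log_iff_exp_lt hm0]
    constructor <;> intro h <;> linarith
  rw [e1, e2]
  constructor
  · rintro ⟨⟨h1, h2⟩, h3, h4⟩
    exact ⟨⟨h1, h4⟩, Or.inr ⟨h2, h3⟩⟩
  · rintro ⟨⟨h1, h2⟩, h3⟩
    rcases h3 with h3 | ⟨h3, h4⟩
    · rcases h3 with h3 | h3 <;> omega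
    · exact ⟨⟨h1, h3⟩, h4, h2⟩

/-- the `k` seen at height `s` -/
theorem ty2_kset (u B : ℕ) (y s δ : ℝ) (hy : 0 < y) :
    (Ioc u B).filter (fun k : ℕ => Real.log (y / k) ≤ s ∧ s < Real.log (y / k) + δ) =
      Ioc (max u (⌈y * Real.exp (-s)⌉₊ - 1))
        (max (max u (⌈y * Real.exp (-s)⌉₊ - 1))
          (min B (⌈y * Real.exp (-s) * Real.exp δ⌉₊ - 1))) := by
  have hz : 0 < y * Real.exp (-s) := mul_pos hy (Real.exp_pos _)
  have hz2 : 0 < y * Real.exp (-s) * Real.exp δ := mul_pos hz (Real.exp_pos _)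
  have c1 : 0 < ⌈y * Real.exp (-s)⌉₊ := Nat.ceil_pos.2 hz
  have c2 : 0 < ⌈y * Real.exp (-s) * Real.exp δ⌉₊ := Nat.ceil_pos.2 hz2
  ext k
  simp only [mem_filter, mem_Ioc, le_max_iff, max_lt_iff, le_min_iff]
  by_cases hk : k = 0
  · subst hk
    constructor
    · rintro ⟨⟨h1, _⟩, _⟩
      exact absurd h1 (Nat.not_lt_zero _)
    · rintro ⟨⟨h1, _⟩, _⟩
      exact absurd h1 (Nat.not_lt_zero _)
  have hk0 : (0 : ℝ) < k := by exact_mod_cast Nat.pos_of_ne_zero hk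
  have e1 : Real.log (y / k) ≤ s ↔ ⌈y * Real.exp (-s)⌉₊ ≤ k := by
    rw [Nat.ceil_le, Real.log_le_iff_le_exp (div_pos hy hk0), div_le_iff₀ hk0, Real.exp_neg,
      ← div_eq_mul_inv, div_le_iff₀ (Real.exp_pos s), mul_comm]
  have e2 : s < Real.log (y / k) + δ ↔ k < ⌈y * Real.exp (-s) * Real.exp δ⌉₊ := by
    rw [Nat.lt_ceil, mul_assoc, ← Real.exp_add]
    have h1 : s < Real.log (y / k) + δ ↔ s - δ < Real.log (y / k) := by
      constructor <;> intro h <;> linarith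
    rw [h1, Real.lt_log_iff_exp_lt (div_pos hy hk0), lt_div_iff₀ hk0]
    have h2 : Real.exp (-s + δ) = (Real.exp (s - δ))⁻¹ := by
      rw [← Real.exp_neg]
      congr 1
      ring
    rw [h2, ← div_eq_mul_inv, lt_div_iff₀ (Real.exp_pos _), mul_comm]
  rw [e1, e2]
  constructor
  · rintro ⟨⟨h1, h2⟩, h3, h4⟩
    exact ⟨⟨h1, by omega⟩, Or.inr ⟨h2, by omega⟩⟩
  · rintro ⟨⟨h1, h2⟩, h3⟩
    rcases h3 with h3 | ⟨h3, h4⟩
    · rcases h3 with h3 | h3 <;> omega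
    · exact ⟨⟨h1, h3⟩, by omega, by omega⟩

theorem ty2_mlen (u B : ℕ) (s δ : ℝ) (hu : 1 ≤ u) (hδ : 0 < δ) (hδu : 1 ≤ δ * u)
    (hs : Real.log u ≤ s) :
    ((max (max u ⌊Real.exp (s - δ)⌋₊) (min B ⌊Real.exp s⌋₊) : ℕ) : ℝ) ≤ Real.exp s ∧
    ((max (max u ⌊Real.exp (s - δ)⌋₊) (min B ⌊Real.exp s⌋₊) : ℕ) : ℝ) -
      ((max u ⌊Real.exp (s - δ)⌋₊ : ℕ) : ℝ) ≤ 2 * δ * Real.exp s := by
  have hu0 : (0 : ℝ) < u := by exact_mod_cast hu
  have hE : (u : ℝ) ≤ Real.exp s := (Real.log_le_iff_le_exp hu0).1 hs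
  have hEp := Real.exp_pos s
  have h1 : ((⌊Real.exp (s - δ)⌋₊ : ℕ) : ℝ) ≤ Real.exp (s - δ) :=
    Nat.floor_le (Real.exp_pos _).le
  have h2 : Real.exp (s - δ) ≤ Real.exp s := Real.exp_le_exp.2 (by linarith)
  have h3 : ((⌊Real.exp s⌋₊ : ℕ) : ℝ) ≤ Real.exp s := Nat.floor_le (Real.exp_pos _).le
  have h4 : Real.exp (s - δ) - 1 < ((⌊Real.exp (s - δ)⌋₊ : ℕ) : ℝ) := Nat.sub_one_lt_floor _
  have h5 : (1 - δ) * Real.exp s ≤ Real.exp (s - δ) := by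
    rw [sub_eq_add_neg s δ, Real.exp_add, mul_comm]
    exact mul_le_mul_of_nonneg_left (by linarith [Real.add_one_le_exp (-δ)]) hEp.le
  have h6 : 1 ≤ δ * Real.exp s := hδu.trans (mul_le_mul_of_nonneg_left hE hδ.le)
  constructor
  · rw [Nat.cast_max, Nat.cast_max, Nat.cast_min]
    exact max_le (max_le hE (h1.trans h2)) ((min_le_right _ _).trans h3)
  · rw [Nat.cast_max (m := max u ⌊Real.exp (s - δ)⌋₊)]
    rcases le_total (((min B ⌊Real.exp s⌋₊ : ℕ) : ℝ)) (((max u ⌊Real.exp (s - δ)⌋₊ : ℕ) : ℝ))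
      with h | h
    · rw [max_eq_left h, sub_self]
      positivity
    · rw [max_eq_right h]
      have h7 : (((min B ⌊Real.exp s⌋₊ : ℕ) : ℝ)) ≤ Real.exp s := by
        rw [Nat.cast_min]
        exact (min_le_right _ _).trans h3
      have h8 : ((⌊Real.exp (s - δ)⌋₊ : ℕ) : ℝ) ≤ ((max u ⌊Real.exp (s - δ)⌋₊ : ℕ) : ℝ) := by
        exact_mod_cast le_max_right _ _
      linarith

theorem ty2_klen (u B : ℕ) (y s δ : ℝ) (hy : 0 < y) (hu : 1 ≤ u) (hδ : 0 < δ) (hδ2 : δ ≤ 1 / 2)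
    (hδu : 1 ≤ δ * u) (hs : s ≤ Real.log (y / u) + δ) :
    (u : ℝ) ≤ 2 * (y * Real.exp (-s)) ∧
    ((max (max u (⌈y * Real.exp (-s)⌉₊ - 1))
          (min B (⌈y * Real.exp (-s) * Real.exp δ⌉₊ - 1)) : ℕ) : ℝ) -
      ((max u (⌈y * Real.exp (-s)⌉₊ - 1) : ℕ) : ℝ) ≤ 4 * δ * (y * Real.exp (-s)) := by
  have hu0 : (0 : ℝ) < u := by exact_mod_cast hu
  set z := y * Real.exp (-s) with hz
  have hz0 : 0 < z := mul_pos hy (Real.exp_pos _)
  have hed : Real.exp δ ≤ 1 + 2 * δ := by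
    have h := Real.abs_exp_sub_one_sub_id_le (x := δ) (by rw [abs_of_pos hδ]; linarith)
    have h1 := (abs_le.1 h).2
    nlinarith
  have huz : (u : ℝ) ≤ z * Real.exp δ := by
    have h1 : s - δ ≤ Real.log (y / u) := by linarith
    rw [Real.le_log_iff_exp_le (div_pos hy hu0), le_div_iff₀ hu0] at h1
    have h2 : z * Real.exp δ = y * (Real.exp (s - δ))⁻¹ := by
      rw [hz, mul_assoc, ← Real.exp_add, ← Real.exp_neg]
      congr 2
      ring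
    rw [h2, ← div_eq_mul_inv, le_div_iff₀ (Real.exp_pos _), mul_comm]
    exact h1
  have huz2 : (u : ℝ) ≤ 2 * z := by
    have : z * Real.exp δ ≤ z * 2 := mul_le_mul_of_nonneg_left (by linarith) hz0.le
    linarith
  refine ⟨huz2, ?_⟩
  have h1 : 1 ≤ δ * (2 * z) := hδu.trans (mul_le_mul_of_nonneg_left huz2 hδ.le)
  rw [Nat.cast_max (m := max u (⌈z⌉₊ - 1))]
  rcases le_total (((min B (⌈z * Real.exp δ⌉₊ - 1) : ℕ) : ℝ)) (((max u (⌈z⌉₊ - 1) : ℕ) : ℝ))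
    with h | h
  · rw [max_eq_left h, sub_self]
    positivity
  · rw [max_eq_right h]
    have h2 : ((⌈z * Real.exp δ⌉₊ : ℕ) : ℝ) < z * Real.exp δ + 1 :=
      Nat.ceil_lt_add_one (mul_pos hz0 (Real.exp_pos _)).le
    have h3 : z ≤ ((⌈z⌉₊ : ℕ) : ℝ) := Nat.le_ceil z
    have c2 : 1 ≤ ⌈z * Real.exp δ⌉₊ := Nat.ceil_pos.2 (mul_pos hz0 (Real.exp_pos _))
    have c1 : 1 ≤ ⌈z⌉₊ := Nat.ceil_pos.2 hz0
    have h4 : (((min B (⌈z * Real.exp δ⌉₊ - 1) : ℕ) : ℝ)) ≤ z * Real.exp δ := by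
      have h5 : (((⌈z * Real.exp δ⌉₊ - 1 : ℕ) : ℝ)) ≤ z * Real.exp δ := by
        rw [Nat.cast_sub c2, Nat.cast_one]
        linarith
      rw [Nat.cast_min]
      exact (min_le_right _ _).trans h5
    have h5 : z - 1 ≤ ((max u (⌈z⌉₊ - 1) : ℕ) : ℝ) := by
      have h6 : z - 1 ≤ ((⌈z⌉₊ - 1 : ℕ) : ℝ) := by
        rw [Nat.cast_sub c1, Nat.cast_one]
        linarith
      rw [Nat.cast_max]
      exact h6.trans (le_max_right _ _)
    have h6 : z * Real.exp δ ≤ z * (1 + 2 * δ) := mul_le_mul_of_nonneg_left hed hz0.le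
    linarith

/-- the sum at one height -/
theorem ty2_height (R u B H : ℕ) (y s δ : ℝ) (hy : 0 < y) (hu : 1 ≤ u) (hδ : 0 < δ)
    (hδ2 : δ ≤ 1 / 2) (hH : 1 ≤ H) (hB : 1 ≤ B)
    (hδu : 1 ≤ δ * u) (hRu : (R : ℝ) ^ 4 ≤ u) (hs1 : Real.log u ≤ s)
    (hs2 : s ≤ Real.log (y / u) + δ) (κ : ℕ → ℝ) (hκ : ∀ k, |κ k| ≤ H)
    (a b : ℕ → ℝ) (ha : ∀ m, |a m| ≤ 1) (hb : ∀ k : ℕ, |b k| ≤ Real.log k) :
    ∑ c ∈ PC R,
      ‖∑ m ∈ Ioc u B, if Real.log m ≤ s ∧ s < Real.log m + δ then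
        ((a m : ℝ) : ℂ) * c.2 (m : ZMod (c.1.val + 1)) else 0‖ *
      ‖∑ k ∈ Ioc u B, if Real.log (y / k) ≤ s ∧ s < Real.log (y / k) + δ then
        ((b k : ℝ) : ℂ) * c.2 (k : ZMod (c.1.val + 1)) else 0‖ * ‖KC H κ c.2‖ ≤
      8 * δ * y * (H : ℝ) ^ 2 * Real.sqrt H * Real.log B := by
  set M1 := max u ⌊Real.exp (s - δ)⌋₊ with hM1
  set M2 := max M1 (min B ⌊Real.exp s⌋₊) with hM2
  set N1 := max u (⌈y * Real.exp (-s)⌉₊ - 1) with hN1
  set N2 := max N1 (min B (⌈y * Real.exp (-s) * Real.exp δ⌉₊ - 1)) with hN2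
  have e1 : (Ioc u B).filter (fun m : ℕ => Real.log m ≤ s ∧ s < Real.log m + δ) = Ioc M1 M2 :=
    ty2_mset u B s δ
  have e2 : (Ioc u B).filter
      (fun k : ℕ => Real.log (y / k) ≤ s ∧ s < Real.log (y / k) + δ) = Ioc N1 N2 :=
    ty2_kset u B y s δ hy
  have hM : M1 ≤ M2 := le_max_left _ _
  have hN : N1 ≤ N2 := le_max_left _ _
  have hlogB : 0 ≤ Real.log B := Real.log_nonneg (by exact_mod_cast hB)
  have hb2 : ∀ k ∈ Ioc N1 N2, ‖((b k : ℝ) : ℂ)‖ ≤ Real.log B := by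
    intro k hk
    rw [← e2, mem_filter, mem_Ioc] at hk
    rw [Complex.norm_real, Real.norm_eq_abs]
    refine (hb k).trans (Real.log_le_log ?_ ?_)
    · exact_mod_cast (by omega : 0 < k)
    · exact_mod_cast hk.1.2
  have ha2 : ∀ m ∈ Ioc M1 M2, ‖((a m : ℝ) : ℂ)‖ ≤ 1 := by
    intro m _
    rw [Complex.norm_real, Real.norm_eq_abs]
    exact ha m
  have key := bil R M1 M2 N1 N2 H hM hN (fun m => ((a m : ℝ) : ℂ)) (fun k => ((b k : ℝ) : ℂ)) κ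
    1 (Real.log B) zero_le_one hlogB ha2 hb2 hκ
  obtain ⟨l1, l2⟩ := ty2_mlen u B s δ hu hδ hδu hs1
  obtain ⟨l3, l4⟩ := ty2_klen u B y s δ hy hu hδ hδ2 hδu hs2
  rw [← hM1] at l1 l2
  rw [← hM2] at l1 l2
  rw [← hN1] at l4
  rw [← hN2] at l4
  set E := Real.exp s with hE
  set z := y * Real.exp (-s) with hz
  have hu0 : (0 : ℝ) < u := by exact_mod_cast hu
  have huE : (u : ℝ) ≤ E := (Real.log_le_iff_le_exp hu0).1 hs1
  have hE0 : 0 < E := Real.exp_pos _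
  have hz0 : 0 < z := mul_pos hy (Real.exp_pos _)
  have hEz : E * z = y := by
    rw [hE, hz, mul_comm y, ← mul_assoc, ← Real.exp_add]
    simp
  have hH1 : (1 : ℝ) ≤ H := by exact_mod_cast hH
  have hMM : (0 : ℝ) ≤ (M2 : ℝ) - M1 := by
    have : (M1 : ℝ) ≤ M2 := by exact_mod_cast hM
    linarith
  have hNN : (0 : ℝ) ≤ (N2 : ℝ) - N1 := by
    have : (N1 : ℝ) ≤ N2 := by exact_mod_cast hN
    linarith
  have b1 : ((H : ℝ) * M2 + (R : ℝ) ^ 4) * ((H : ℝ) ^ 4 * ((M2 : ℝ) - M1)) ≤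
      (2 * H * E) * ((H : ℝ) ^ 4 * (2 * δ * E)) := by
    apply mul_le_mul
    · have : (H : ℝ) * M2 ≤ H * E := mul_le_mul_of_nonneg_left l1 (by positivity)
      have h2 : E ≤ H * E := by nlinarith
      linarith
    · exact mul_le_mul_of_nonneg_left l2 (by positivity)
    · positivity
    · positivity
  have b2 : ((N2 : ℝ) - N1 + (R : ℝ) ^ 4) * ((N2 : ℝ) - N1) ≤ (4 * z) * (4 * δ * z) := by
    apply mul_le_mul
    · have : 4 * δ * z ≤ 2 * z := by nlinarith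
      linarith
    · exact l4
    · exact hNN
    · positivity
  have b3 : Real.sqrt ((2 * H * E) * ((H : ℝ) ^ 4 * (2 * δ * E))) *
      Real.sqrt ((4 * z) * (4 * δ * z)) = 8 * δ * y * (H : ℝ) ^ 2 * Real.sqrt H := by
    rw [← Real.sqrt_mul (by positivity)]
    have h1 : (2 * H * E) * ((H : ℝ) ^ 4 * (2 * δ * E)) * ((4 * z) * (4 * δ * z)) =
        (8 * δ * (E * z) * (H : ℝ) ^ 2) ^ 2 * H := by ring
    rw [h1, Real.sqrt_mul (sq_nonneg _), hEz, Real.sqrt_sq (by positivity)]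
  have e3 : ∀ c : Ch R,
      (∑ m ∈ Ioc u B, if Real.log m ≤ s ∧ s < Real.log m + δ then
        ((a m : ℝ) : ℂ) * c.2 (m : ZMod (c.1.val + 1)) else 0) =
      ∑ m ∈ Ioc M1 M2, ((a m : ℝ) : ℂ) * c.2 (m : ZMod (c.1.val + 1)) := by
    intro c
    rw [← e1, Finset.sum_filter]
  have e4 : ∀ c : Ch R,
      (∑ k ∈ Ioc u B, if Real.log (y / k) ≤ s ∧ s < Real.log (y / k) + δ then
        ((b k : ℝ) : ℂ) * c.2 (k : ZMod (c.1.val + 1)) else 0) =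
      ∑ k ∈ Ioc N1 N2, ((b k : ℝ) : ℂ) * c.2 (k : ZMod (c.1.val + 1)) := by
    intro c
    rw [← e2, Finset.sum_filter]
  simp only [e3, e4]
  refine key.trans ?_
  calc 1 * Real.log B * Real.sqrt (((H : ℝ) * M2 + (R : ℝ) ^ 4) * ((H : ℝ) ^ 4 *
        ((M2 : ℝ) - M1))) * Real.sqrt (((N2 : ℝ) - N1 + (R : ℝ) ^ 4) * ((N2 : ℝ) - N1))
      ≤ 1 * Real.log B * Real.sqrt ((2 * H * E) * ((H : ℝ) ^ 4 * (2 * δ * E))) *
        Real.sqrt ((4 * z) * (4 * δ * z)) := by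
        have s1 := Real.sqrt_le_sqrt b1
        have s2 := Real.sqrt_le_sqrt b2
        have t1 := Real.sqrt_nonneg
          (((H : ℝ) * M2 + (R : ℝ) ^ 4) * ((H : ℝ) ^ 4 * ((M2 : ℝ) - M1)))
        have t2 := Real.sqrt_nonneg (((N2 : ℝ) - N1 + (R : ℝ) ^ 4) * ((N2 : ℝ) - N1))
        gcongr
    _ = Real.log B * (Real.sqrt ((2 * H * E) * ((H : ℝ) ^ 4 * (2 * δ * E))) *
        Real.sqrt ((4 * z) * (4 * δ * z))) := by ring
    _ = _ := by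
        rw [b3]
        ring

/-- the shape of the double sum -/
theorem ty2_shape (X y δ : ℝ) (hX : 2 ≤ X) (hy1 : X ≤ y) (hy2 : y ≤ 2 * X) (hδ : 0 < δ)
    (hδ2 : δ ≤ 1 / 2) (u : ℕ) (a b : ℕ → ℝ) {q : ℕ} (χ : DirichletCharacter ℂ q) :
    ∑ m ∈ Ioc u (Bx X), ((a m : ℝ) : ℂ) *
        ∑ k ∈ Ioc u (Bx X / m), ((b k : ℝ) : ℂ) *
          (((hat y δ (m * k) : ℝ) : ℂ) * χ ((m * k : ℕ) : ZMod q)) =
    ∑ m ∈ Ioc u (Bx X), ∑ k ∈ Ioc u (Bx X), (((a m : ℝ) : ℂ) * χ (m : ZMod q)) *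
      (((b k : ℝ) : ℂ) * χ (k : ZMod q)) * ((hat y δ (m * k) : ℝ) : ℂ) := by
  have hw := hat_wt X y δ hX hy1 hy2 hδ hδ2
  refine Finset.sum_congr rfl fun m hm => ?_
  rw [mem_Ioc] at hm
  have hm0 : 0 < m := by omega
  rw [Finset.mul_sum]
  have hsub : Ioc u (Bx X / m) ⊆ Ioc u (Bx X) := by
    apply Finset.Ioc_subset_Ioc_right
    exact Nat.div_le_self _ _
  rw [← Finset.sum_subset hsub]
  · refine Finset.sum_congr rfl fun k _ => ?_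
    rw [Nat.cast_mul, map_mul]
    ring
  · intro k hk hk2
    rw [mem_Ioc] at hk hk2
    have h1 : Bx X / m < k := by omega
    have h2 : Bx X < m * k := by
      rw [mul_comm]
      exact (Nat.div_lt_iff_lt_mul hm0).1 h1
    rw [hw.zero (m * k) (by rw [mem_Ioc]; omega)]
    simp

theorem ty2_ev : ∀ᶠ X : ℝ in atTop, 2 ≤ X ∧ X ^ (34 / 100 : ℝ) + 1 ≤ X ^ (7 / 20 : ℝ) ∧
    12 * Real.log X ≤ X ^ (1 / 1000 : ℝ) := by
  have h1 : ∀ᶠ X : ℝ in atTop, X ^ (34 / 100 : ℝ) + 1 ≤ X ^ (7 / 20 : ℝ) := by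
    have h2 : Tendsto (fun X : ℝ => X ^ (1 / 100 : ℝ)) atTop atTop :=
      tendsto_rpow_atTop (by norm_num)
    filter_upwards [h2.eventually_ge_atTop 2, eventually_ge_atTop (1 : ℝ)] with X hX hX1
    have h3 : X ^ (7 / 20 : ℝ) = X ^ (34 / 100 : ℝ) * X ^ (1 / 100 : ℝ) := by
      rw [← Real.rpow_add (by linarith)]
      norm_num
    have h4 : (1 : ℝ) ≤ X ^ (34 / 100 : ℝ) := Real.one_le_rpow hX1 (by norm_num)
    rw [h3]
    nlinarith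
  have h2 : ∀ᶠ X : ℝ in atTop, 12 * Real.log X ≤ X ^ (1 / 1000 : ℝ) := by
    have h3 := (isLittleO_log_rpow_atTop (r := (1 / 1000 : ℝ)) (by norm_num)).bound
      (c := 1 / 12) (by norm_num)
    filter_upwards [h3, eventually_ge_atTop (1 : ℝ)] with X hX hX1
    rw [Real.norm_of_nonneg (Real.log_nonneg hX1),
      Real.norm_of_nonneg (Real.rpow_nonneg (by linarith) _)] at hX
    linarith
  filter_upwards [h1, h2, eventually_ge_atTop (2 : ℝ)] with X a1 a2 a3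
  exact ⟨a3, a1, a2⟩

theorem ty2 : ∀ᶠ X : ℝ in atTop, ∀ y δ : ℝ, X ≤ y → y ≤ 2 * X → X ^ (-1 / 50 : ℝ) ≤ δ →
    δ ≤ 1 / 2 → ∀ H : ℕ, 1 ≤ H → (H : ℝ) ≤ X ^ (1 / 100 : ℝ) → ∀ κ : ℕ → ℝ, (∀ k, |κ k| ≤ H) →
    ∀ a b : ℕ → ℝ, (∀ m, |a m| ≤ 1) → (∀ k, |b k| ≤ Real.log k) →
    ∑ c ∈ PC (Rx X), ‖∑ m ∈ Ioc (ux X) (Bx X), ((a m : ℝ) : ℂ) *
        ∑ k ∈ Ioc (ux X) (Bx X / m), ((b k : ℝ) : ℂ) *
          (((hat y δ (m * k) : ℝ) : ℂ) * c.2 ((m * k : ℕ) : ZMod (c.1.val + 1)))‖ *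
        ‖KC H κ c.2‖ ≤ (H : ℝ) ^ 2 * X ^ (1007 / 1000 : ℝ) := by
  filter_upwards [ty2_ev] with X hX y δ hy1 hy2 hδ1 hδ2 H hH hHX κ hκ a b ha hb
  obtain ⟨hX2, hXu, hXlog⟩ := hX
  have hX0 : 0 < X := by linarith
  have hy : 0 < y := by linarith
  have hδ : 0 < δ := lt_of_lt_of_le (Real.rpow_pos_of_pos hX0 _) hδ1
  set u := ux X with hu
  set B := Bx X with hB
  set R := Rx X with hR
  -- sizes
  have hu_le : (u : ℝ) ≤ X ^ (7 / 20 : ℝ) := Nat.floor_le (Real.rpow_nonneg hX0.le _)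
  have hu_ge : X ^ (34 / 100 : ℝ) ≤ u := by
    have h1 : X ^ (7 / 20 : ℝ) - 1 < (u : ℝ) := Nat.sub_one_lt_floor _
    linarith
  have hp1 : (1 : ℝ) ≤ X ^ (34 / 100 : ℝ) := Real.one_le_rpow (by linarith) (by norm_num)
  have hu1 : 1 ≤ u := by exact_mod_cast hp1.trans hu_ge
  have hu0 : (0 : ℝ) < u := by exact_mod_cast hu1
  have hRu : (R : ℝ) ^ 4 ≤ u := by
    have h1 : (R : ℝ) ≤ X ^ (17 / 200 : ℝ) := Nat.floor_le (Real.rpow_nonneg hX0.le _)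
    have h2 : (R : ℝ) ^ 4 ≤ (X ^ (17 / 200 : ℝ)) ^ 4 :=
      pow_le_pow_left₀ (Nat.cast_nonneg _) h1 4
    have h3 : (X ^ (17 / 200 : ℝ)) ^ 4 = X ^ (34 / 100 : ℝ) := by
      rw [← Real.rpow_natCast, ← Real.rpow_mul hX0.le]
      norm_num
    linarith
  have hδu : 1 ≤ δ * u := by
    have h1 : X ^ (-1 / 50 : ℝ) * X ^ (34 / 100 : ℝ) ≤ δ * u :=
      mul_le_mul hδ1 hu_ge (Real.rpow_nonneg hX0.le _) hδ.le
    rw [← Real.rpow_add hX0] at h1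
    exact (Real.one_le_rpow (by linarith) (by norm_num)).trans h1
  have hBle : (B : ℝ) ≤ 4 * X := Nat.floor_le (by linarith)
  have hB1 : 1 ≤ B := by
    have : (1 : ℝ) ≤ 4 * X := by linarith
    exact (Nat.one_le_floor_iff _).2 this
  have hS : Real.log u ≤ Real.log (y / u) + δ := by
    have h1 : Real.log u ≤ Real.log (y / u) := by
      apply Real.log_le_log hu0
      rw [le_div_iff₀ hu0]
      calc (u : ℝ) * u ≤ X ^ (7 / 20 : ℝ) * X ^ (7 / 20 : ℝ) :=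
            mul_le_mul hu_le hu_le hu0.le (Real.rpow_nonneg hX0.le _)
        _ = X ^ (7 / 10 : ℝ) := by
            rw [← Real.rpow_add hX0]
            norm_num
        _ ≤ X ^ (1 : ℝ) := Real.rpow_le_rpow_of_exponent_le (by linarith) (by norm_num)
        _ = X := Real.rpow_one X
        _ ≤ y := hy1
    linarith
  have key := sep_sum (PC R) y δ (Real.log u) (Real.log (y / u) + δ)
    (8 * δ * y * (H : ℝ) ^ 2 * Real.sqrt H * Real.log B) hy hδ hS (Ioc u B) (Ioc u B)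
    (by
      intro m hm
      rw [mem_Ioc] at hm
      refine ⟨by omega, Real.log_le_log hu0 ?_⟩
      exact_mod_cast hm.1.le)
    (by
      intro k hk
      rw [mem_Ioc] at hk
      refine ⟨by omega, ?_⟩
      have hk0 : (0 : ℝ) < k := by exact_mod_cast (by omega : 0 < k)
      have h1 : Real.log (y / k) ≤ Real.log (y / u) := by
        apply Real.log_le_log (div_pos hy hk0)
        apply div_le_div_of_nonneg_left hy.le hu0
        exact_mod_cast hk.1.le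
      linarith)
    (fun c m => ((a m : ℝ) : ℂ) * c.2 (m : ZMod (c.1.val + 1)))
    (fun c k => ((b k : ℝ) : ℂ) * c.2 (k : ZMod (c.1.val + 1)))
    (fun c => ‖KC H κ c.2‖) (fun c _ => norm_nonneg _)
    (by
      intro s hs
      exact ty2_height R u B H y s δ hy hu1 hδ hδ2 hH hB1 hδu hRu hs.1 hs.2 κ hκ a b ha hb)
  have e1 : ∀ c ∈ PC R, ‖∑ m ∈ Ioc u B, ((a m : ℝ) : ℂ) *
        ∑ k ∈ Ioc u (B / m), ((b k : ℝ) : ℂ) *
          (((hat y δ (m * k) : ℝ) : ℂ) * c.2 ((m * k : ℕ) : ZMod (c.1.val + 1)))‖ *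
        ‖KC H κ c.2‖ =
      ‖∑ m ∈ Ioc u B, ∑ k ∈ Ioc u B, (((a m : ℝ) : ℂ) * c.2 (m : ZMod (c.1.val + 1))) *
      (((b k : ℝ) : ℂ) * c.2 (k : ZMod (c.1.val + 1))) * ((hat y δ (m * k) : ℝ) : ℂ)‖ *
        ‖KC H κ c.2‖ := by
    intro c _
    rw [hB, ty2_shape X y δ hX2 hy1 hy2 hδ hδ2 u a b c.2]
  rw [Finset.sum_congr rfl e1]
  refine key.trans ?_
  have hlogX : 0 ≤ Real.log X := Real.log_nonneg (by linarith)
  have hlog2 : Real.log 2 ≤ Real.log X := Real.log_le_log (by norm_num) hX2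
  have hl2 : (0.6931471803 : ℝ) < Real.log 2 := Real.log_two_gt_d9
  have hH0 : (0 : ℝ) ≤ H := Nat.cast_nonneg _
  have hlogB : Real.log B ≤ 3 * Real.log X := by
    have h1 : Real.log B ≤ Real.log (4 * X) := by
      apply Real.log_le_log _ hBle
      exact_mod_cast hB1
    have h2 : Real.log (4 * X) = 2 * Real.log 2 + Real.log X := by
      rw [Real.log_mul (by norm_num) hX0.ne', show (4 : ℝ) = 2 ^ 2 by norm_num, Real.log_pow]
      norm_num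
    linarith
  have hlogB0 : 0 ≤ Real.log B := Real.log_nonneg (by exact_mod_cast hB1)
  have hdiff : Real.log (y / u) + δ - Real.log u ≤ 3 * Real.log X := by
    have h1 : Real.log (y / u) ≤ Real.log (2 * X) := by
      apply Real.log_le_log (div_pos hy hu0)
      rw [div_le_iff₀ hu0]
      have : (1 : ℝ) ≤ u := by exact_mod_cast hu1
      nlinarith
    have h2 : Real.log (2 * X) = Real.log 2 + Real.log X := Real.log_mul (by norm_num) hX0.ne'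
    have h3 : 0 ≤ Real.log u := Real.log_nonneg (by exact_mod_cast hu1)
    linarith
  have hdiff0 : 0 ≤ Real.log (y / u) + δ - Real.log u := by linarith
  have hsH : Real.sqrt H ≤ X ^ (1 / 200 : ℝ) := by
    have h1 : Real.sqrt H ≤ Real.sqrt (X ^ (1 / 100 : ℝ)) := Real.sqrt_le_sqrt hHX
    rw [Real.sqrt_eq_rpow, Real.sqrt_eq_rpow, ← Real.rpow_mul hX0.le] at h1
    rw [Real.sqrt_eq_rpow]
    refine h1.trans (le_of_eq ?_)
    norm_num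
  have hsH0 := Real.sqrt_nonneg (H : ℝ)
  have hp0 : 0 ≤ X ^ (1 / 200 : ℝ) := Real.rpow_nonneg hX0.le _
  calc 1 / δ * (Real.log (y / u) + δ - Real.log u) *
        (8 * δ * y * (H : ℝ) ^ 2 * Real.sqrt H * Real.log B)
      = (Real.log (y / u) + δ - Real.log u) * (8 * y * (H : ℝ) ^ 2 * Real.sqrt H * Real.log B) := by
        field_simp
    _ ≤ (3 * Real.log X) * (8 * (2 * X) * (H : ℝ) ^ 2 * X ^ (1 / 200 : ℝ) *
        (3 * Real.log X)) := by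
        gcongr
    _ = (12 * Real.log X) ^ 2 * X * X ^ (1 / 200 : ℝ) * (H : ℝ) ^ 2 := by ring
    _ ≤ (X ^ (1 / 1000 : ℝ)) ^ 2 * X * X ^ (1 / 200 : ℝ) * (H : ℝ) ^ 2 := by
        gcongr
    _ = (H : ℝ) ^ 2 * X ^ (1007 / 1000 : ℝ) := by
        have h1 : (X ^ (1 / 1000 : ℝ)) ^ 2 * X * X ^ (1 / 200 : ℝ) = X ^ (1007 / 1000 : ℝ) := by
          nth_rewrite 2 [← Real.rpow_one X]
          rw [← Real.rpow_natCast, ← Real.rpow_mul hX0.le, ← Real.rpow_add hX0,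
            ← Real.rpow_add hX0]
          norm_num
        rw [h1]
        ring

end Pool.Agent.H67.VS
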