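import Pool.Agent.H67.VS.Vc
import Pool.Agent.H67.VS.Ty2

/-!
[H67 VS LS]  The mean value over all primitive characters.

Proof.  `vau_bound` (with `w = hat y δ`, `hat_wt`) and `ty2` (`a = μ`): the sum is at most
`H^2 X^(1007/1000) + X^(8/10) ∑_c ‖KC H κ c‖`, `‖KC‖ ≤ H * H`, `|PC R| ≤ R^2 ≤ X^(17/100)`
(`H21.MT.card_PC`), and `0.8 + 0.17 < 1.007`.
-/

namespace Pool.Agent.H67.VS

open Finset Filter Pool.Agent.H21.MT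

private theorem ls_KC_le (H : ℕ) (κ : ℕ → ℝ) (hκ : ∀ k, |κ k| ≤ H) {q : ℕ}
    (χ : DirichletCharacter ℂ q) : ‖KC H κ χ‖ ≤ (H : ℝ) ^ 2 := by
  unfold KC
  calc ‖∑ k ∈ Ico 1 H, ((κ k : ℝ) : ℂ) * χ (k : ZMod q)‖
      ≤ ∑ k ∈ Ico 1 H, ‖((κ k : ℝ) : ℂ) * χ (k : ZMod q)‖ := norm_sum_le _ _
    _ ≤ ∑ k ∈ Ico 1 H, (H : ℝ) := by
        apply sum_le_sum
        intro k _
        rw [norm_mul, Complex.norm_real, Real.norm_eq_abs]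
        calc |κ k| * ‖χ (k : ZMod q)‖ ≤ H * 1 := by
              gcongr
              · exact hκ k
              · exact DirichletCharacter.norm_le_one χ _
          _ = H := mul_one _
    _ = ((H - 1 : ℕ) : ℝ) * H := by
        rw [sum_const, Nat.card_Ico, nsmul_eq_mul]
    _ ≤ (H : ℝ) * H := by
        gcongr
        omega
    _ = (H : ℝ) ^ 2 := by ring

theorem ls : ∀ᶠ X : ℝ in atTop, ∀ y δ : ℝ, X ≤ y → y ≤ 2 * X → X ^ (-1 / 50 : ℝ) ≤ δ →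
    δ ≤ 1 / 2 → ∀ H : ℕ, 1 ≤ H → (H : ℝ) ≤ X ^ (1 / 100 : ℝ) → ∀ κ : ℕ → ℝ, (∀ k, |κ k| ≤ H) →
    ∑ c ∈ PC (Rx X), ‖ThC (Ax X) (Bx X) (hat y δ) c.2‖ * ‖KC H κ c.2‖ ≤
      (H : ℝ) ^ 2 * X ^ (101 / 100 : ℝ) := by
  have h1 := (tendsto_rpow_atTop (show (0 : ℝ) < 3 / 1000 by norm_num)).eventually_ge_atTop 2
  filter_upwards [h1, eventually_ge_atTop (2 : ℝ), vau_bound, ty2] with X hX3 hX2 hvau hty2
  intro y δ hy1 hy2 hδ1 hδ2 H hH1 hHX κ hκ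
  obtain ⟨b, hb, hvau⟩ := hvau
  have hX0 : 0 < X := by linarith
  have hX1 : 1 ≤ X := by linarith
  have hδ0 : 0 < δ := lt_of_lt_of_le (Real.rpow_pos_of_pos hX0 _) hδ1
  have hwt := hat_wt X y δ hX2 hy1 hy2 hδ0 hδ2
  have hmu : ∀ m : ℕ, |((ArithmeticFunction.moebius m : ℤ) : ℝ)| ≤ 1 := by
    intro m
    have := ArithmeticFunction.abs_moebius_le_one (n := m)
    exact_mod_cast this
  have e1 := hty2 y δ hy1 hy2 hδ1 hδ2 H hH1 hHX κ hκ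
    (fun m => ((ArithmeticFunction.moebius m : ℤ) : ℝ)) b hmu hb
  have e2 : ∑ c ∈ PC (Rx X), ‖ThC (Ax X) (Bx X) (hat y δ) c.2‖ * ‖KC H κ c.2‖ ≤
      (∑ c ∈ PC (Rx X), ‖∑ m ∈ Ioc (ux X) (Bx X),
        (((ArithmeticFunction.moebius m : ℤ) : ℝ) : ℂ) *
        ∑ k ∈ Ioc (ux X) (Bx X / m), ((b k : ℝ) : ℂ) *
          (((hat y δ (m * k) : ℝ) : ℂ) * c.2 ((m * k : ℕ) : ZMod (c.1.val + 1)))‖ *
        ‖KC H κ c.2‖) + ∑ c ∈ PC (Rx X), X ^ (8 / 10 : ℝ) * (H : ℝ) ^ 2 := by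
    rw [← sum_add_distrib]
    apply sum_le_sum
    intro c hc
    have h2 := hvau (hat y δ) hwt c hc
    have h3 := ls_KC_le H κ hκ c.2
    have h4 : 0 ≤ ‖KC H κ c.2‖ := norm_nonneg _
    have h5 : (0 : ℝ) ≤ X ^ (8 / 10 : ℝ) := Real.rpow_nonneg hX0.le _
    calc ‖ThC (Ax X) (Bx X) (hat y δ) c.2‖ * ‖KC H κ c.2‖
        ≤ (‖∑ m ∈ Ioc (ux X) (Bx X),
        (((ArithmeticFunction.moebius m : ℤ) : ℝ) : ℂ) *
        ∑ k ∈ Ioc (ux X) (Bx X / m), ((b k : ℝ) : ℂ) *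
          (((hat y δ (m * k) : ℝ) : ℂ) * c.2 ((m * k : ℕ) : ZMod (c.1.val + 1)))‖ +
          X ^ (8 / 10 : ℝ)) * ‖KC H κ c.2‖ := mul_le_mul_of_nonneg_right h2 h4
      _ = ‖∑ m ∈ Ioc (ux X) (Bx X),
        (((ArithmeticFunction.moebius m : ℤ) : ℝ) : ℂ) *
        ∑ k ∈ Ioc (ux X) (Bx X / m), ((b k : ℝ) : ℂ) *
          (((hat y δ (m * k) : ℝ) : ℂ) * c.2 ((m * k : ℕ) : ZMod (c.1.val + 1)))‖ *
          ‖KC H κ c.2‖ + X ^ (8 / 10 : ℝ) * ‖KC H κ c.2‖ := add_mul _ _ _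
      _ ≤ _ := by
        have := mul_le_mul_of_nonneg_left h3 h5
        linarith
  have e3 : ∑ c ∈ PC (Rx X), X ^ (8 / 10 : ℝ) * (H : ℝ) ^ 2 ≤
      X ^ (97 / 100 : ℝ) * (H : ℝ) ^ 2 := by
    rw [sum_const, nsmul_eq_mul]
    have h2 : (Rx X : ℝ) ≤ X ^ (17 / 200 : ℝ) := by
      unfold Rx
      exact Nat.floor_le (Real.rpow_nonneg hX0.le _)
    have h3 : ((Rx X : ℝ)) ^ 2 ≤ X ^ (17 / 100 : ℝ) := by
      calc ((Rx X : ℝ)) ^ 2 ≤ (X ^ (17 / 200 : ℝ)) ^ 2 := by gcongr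
        _ = X ^ (17 / 100 : ℝ) := by
          rw [← Real.rpow_natCast, ← Real.rpow_mul hX0.le]
          norm_num
    have h4 := (card_PC (Rx X)).trans h3
    calc ((PC (Rx X)).card : ℝ) * (X ^ (8 / 10 : ℝ) * (H : ℝ) ^ 2)
        ≤ X ^ (17 / 100 : ℝ) * (X ^ (8 / 10 : ℝ) * (H : ℝ) ^ 2) := by gcongr
      _ = X ^ (97 / 100 : ℝ) * (H : ℝ) ^ 2 := by
        rw [← mul_assoc, ← Real.rpow_add hX0]
        norm_num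
  have e4 : X ^ (97 / 100 : ℝ) ≤ X ^ (1007 / 1000 : ℝ) :=
    Real.rpow_le_rpow_of_exponent_le hX1 (by norm_num)
  have e5 : X ^ (101 / 100 : ℝ) = X ^ (3 / 1000 : ℝ) * X ^ (1007 / 1000 : ℝ) := by
    rw [← Real.rpow_add hX0]
    norm_num
  have e6 : 0 ≤ X ^ (1007 / 1000 : ℝ) := Real.rpow_nonneg hX0.le _
  have e7 : 0 ≤ (H : ℝ) ^ 2 := sq_nonneg _
  calc ∑ c ∈ PC (Rx X), ‖ThC (Ax X) (Bx X) (hat y δ) c.2‖ * ‖KC H κ c.2‖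
      ≤ (H : ℝ) ^ 2 * X ^ (1007 / 1000 : ℝ) + X ^ (97 / 100 : ℝ) * (H : ℝ) ^ 2 := by
        linarith
    _ ≤ (H : ℝ) ^ 2 * X ^ (1007 / 1000 : ℝ) + X ^ (1007 / 1000 : ℝ) * (H : ℝ) ^ 2 := by
        gcongr
    _ = (H : ℝ) ^ 2 * (2 * X ^ (1007 / 1000 : ℝ)) := by ring
    _ ≤ (H : ℝ) ^ 2 * X ^ (101 / 100 : ℝ) := by
        rw [e5]
        gcongr

end Pool.Agent.H67.VS
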