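import Pool.Agent.H67.VS.Defs
import Pool.Agent.H21.MT.Cond

/-!
[H67 VS CHARB]  Relative discrepancies and primitive characters.

Notation: `k = p.2 - p.1`, `-k = p.1 - p.2`, `0 < |k| < H ≤ q`.
Proof.
(1) If `gcd(k,d) > 1` then `th d k = th (dq) k = 0`: a prime `n > A ≥ dq` with `d ∣ n + k` would have
    `gcd(n,d) = gcd(k,d) > 1`.  So `EE = 0`; also `χ(-k) = 0` for all `χ` mod `dq`.
(2) If `gcd(k,d) = 1` then `gcd(k,dq) = 1` and by orthogonality
    (`DirichletCharacter.sum_char_inv_mul_char_eq`, see `Pool/Agent/H21/MT/Orth.lean`)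
    `th (dq) k = (1/φ(dq)) ∑_{χ mod dq} χ(-k)⁻¹ ThC χ`, `th d k = (1/φ(d)) ∑_{ψ mod d} ψ(-k)⁻¹ ThC ψ`.
    For `ψ` mod `d`, `χ = changeLevel ψ` mod `dq` one has `ThC χ = ThC ψ` (the primes `n > A ≥ dq` are
    coprime to `dq`) and `χ(-k) = ψ(-k)`; `changeLevel` is injective and `φ(dq) = φ(d)(q-1)`, so
    `EE = (1/φ(dq)) ∑ χ(-k)⁻¹ ThC χ` over the `χ` mod `dq` that do not come from mod `d`.
(3) `∑_{p ∈ offd H} χ(p.1 - p.2)⁻¹ = (1 + χ(-1)⁻¹) ∑_{1 ≤ k < H} (H-k) χ(k)⁻¹` (number of pairs with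
    difference `k` is `H - k`), absolute value `≤ 2 ‖∑_{1 ≤ k < H} (H-k) χ(k)‖` (complex conjugate).
(4) Let `χ` mod `dq` be induced by the primitive `χ'` of conductor `m ∣ dq`.  If `χ` does not come
    from mod `d` then `q ∣ m` (otherwise `m ∣ d`), in particular `m ≥ 2`, so `χ'` is in `PC R`
    (`m ≤ dq ≤ R`).  `χ(k) = χ'(k)` for `k` coprime to `dq`, and for `1 ≤ k < H ≤ q` that means
    coprime to `d`, otherwise `χ(k) = 0`: so `∑ (H-k) χ(k) = KC H (kap H d) χ'`.  `ThC χ = ThC χ'`.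
    `χ ↦ χ'` is injective (cf. `sum_char_le` in `Pool/Agent/H21/MT/Cond.lean`).
(5) `1/φ(dq) ≤ 1/(q-1)`.
-/

namespace Pool.Agent.H67.VS

open Finset Pool.Agent.H21.MT

/-- orthogonality -/
theorem charb_orth {A B : ℕ} {w : ℕ → ℝ} (m : ℕ) [NeZero m] (a : ℤ)
    (ha : IsUnit ((a : ℤ) : ZMod m)) :
    (m.totient : ℂ) * ((th A B w m (-a) : ℝ) : ℂ) =
      ∑ χ : DirichletCharacter ℂ m, χ⁻¹ ((a : ℤ) : ZMod m) * ThC A B w χ := by
  classical
  have hmem : ∀ n : ℕ, ((m : ℤ) ∣ (n : ℤ) + (-a)) ↔ ((a : ℤ) : ZMod m) = ((n : ℕ) : ZMod m) := by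
    intro n
    rw [← ZMod.intCast_zmod_eq_zero_iff_dvd]
    push_cast
    rw [← sub_eq_add_neg, sub_eq_zero, eq_comm]
  have hinv : ∀ χ : DirichletCharacter ℂ m, χ⁻¹ ((a : ℤ) : ZMod m) =
      χ (((a : ℤ) : ZMod m)⁻¹) := by
    intro χ
    rw [MulChar.inv_apply_eq_inv']
    refine (eq_inv_of_mul_eq_one_left ?_).symm
    rw [← map_mul, ZMod.inv_mul_of_unit _ ha, map_one]
  have hkey : ∀ n : ℕ, (m.totient : ℂ) * (if (m : ℤ) ∣ (n : ℤ) + (-a) then 1 else 0) =
      ∑ χ : DirichletCharacter ℂ m, χ⁻¹ ((a : ℤ) : ZMod m) * χ (n : ZMod m) := by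
    intro n
    simp_rw [hinv]
    rw [DirichletCharacter.sum_char_inv_mul_char_eq ℂ ha]
    by_cases h : (m : ℤ) ∣ (n : ℤ) + (-a)
    · rw [if_pos h, if_pos ((hmem n).mp h), mul_one]
    · rw [if_neg h, if_neg (fun h' => h ((hmem n).mpr h')), mul_zero]
  unfold th ThC
  rw [Complex.ofReal_sum, Finset.mul_sum]
  simp_rw [Finset.mul_sum]
  rw [Finset.sum_comm]
  refine Finset.sum_congr rfl fun n _ => ?_
  have h1 : ∑ χ : DirichletCharacter ℂ m, χ⁻¹ ((a : ℤ) : ZMod m) *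
      (((w n * pl n : ℝ) : ℂ) * χ (n : ZMod m)) =
      (∑ χ : DirichletCharacter ℂ m, χ⁻¹ ((a : ℤ) : ZMod m) * χ (n : ZMod m)) *
        ((w n * pl n : ℝ) : ℂ) := by
    rw [Finset.sum_mul]
    refine Finset.sum_congr rfl fun χ _ => ?_
    ring
  rw [h1, ← hkey n]
  split_ifs with h
  · ring
  · push_cast; ring

/-- values of a lifted character -/
theorem charb_lift {d N : ℕ} (h : d ∣ N) (ψ : DirichletCharacter ℂ d) (n : ℕ) (hn : n.Coprime N) :
    (DirichletCharacter.changeLevel h ψ) (n : ZMod N) = ψ (n : ZMod d) := by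
  have h1 := DirichletCharacter.changeLevel_eq_cast_of_dvd ψ h (ZMod.unitOfCoprime n hn)
  rw [ZMod.coe_unitOfCoprime, ZMod.cast_natCast h] at h1
  exact h1

theorem charb_lift_zero {d N : ℕ} (h : d ∣ N) (ψ : DirichletCharacter ℂ d) (n : ℕ)
    (hn : ¬ n.Coprime N) : (DirichletCharacter.changeLevel h ψ) (n : ZMod N) = 0 := by
  apply MulChar.map_nonunit
  rw [ZMod.isUnit_iff_coprime]
  exact hn

theorem charb_lift_int {d N : ℕ} (h : d ∣ N) (ψ : DirichletCharacter ℂ d) (a : ℤ)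
    (ha : IsUnit ((a : ℤ) : ZMod N)) :
    (DirichletCharacter.changeLevel h ψ) ((a : ℤ) : ZMod N) = ψ ((a : ℤ) : ZMod d) := by
  have h1 := DirichletCharacter.changeLevel_eq_cast_of_dvd ψ h ha.unit
  rw [IsUnit.unit_spec, ZMod.cast_intCast h] at h1
  exact h1

/-- primes above `A ≥ N` do not see the level -/
theorem charb_ThC {A B : ℕ} {w : ℕ → ℝ} {d N : ℕ} (h : d ∣ N) (hN : 0 < N) (hA : N ≤ A)
    (ψ : DirichletCharacter ℂ d) :
    ThC A B w (DirichletCharacter.changeLevel h ψ) = ThC A B w ψ := by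
  unfold ThC
  refine Finset.sum_congr rfl fun n hn => ?_
  rw [Finset.mem_Ioc] at hn
  by_cases hp : n.Prime
  · have hc : n.Coprime N := by
      rw [Nat.Prime.coprime_iff_not_dvd hp]
      intro hd
      have := Nat.le_of_dvd hN hd
      omega
    rw [charb_lift h ψ n hc]
  · have : pl n = 0 := by unfold pl; rw [if_neg hp]
    rw [this]
    simp

/-- no primes in a non-reduced class -/
theorem charb_th_zero {A B : ℕ} {w : ℕ → ℝ} (m g : ℕ) (a : ℤ) (hm : 0 < m) (hmA : m ≤ A)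
    (hg : 1 < g) (hgm : g ∣ m) (hga : (g : ℤ) ∣ a) : th A B w m (-a) = 0 := by
  unfold th
  refine Finset.sum_eq_zero fun n hn => ?_
  rw [Finset.mem_Ioc] at hn
  split_ifs with h
  · by_cases hp : n.Prime
    · exfalso
      have h1 : (g : ℤ) ∣ (n : ℤ) + (-a) := (Int.natCast_dvd_natCast.2 hgm).trans h
      have h2 : (g : ℤ) ∣ (n : ℤ) := by
        have := dvd_add h1 hga
        rwa [neg_add_cancel_right] at this
      have h3 : g ∣ n := Int.natCast_dvd_natCast.1 h2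
      rcases (Nat.dvd_prime hp).1 h3 with h4 | h4
      · omega
      · have := Nat.le_of_dvd hm (h4 ▸ hgm)
        omega
    · have : pl n = 0 := by unfold pl; rw [if_neg hp]
      rw [this]
      simp
  · rfl

/-- sums over differences -/
theorem charb_diff (H : ℕ) (F : ℕ → ℂ) :
    ∑ p ∈ ((Icc 1 H) ×ˢ (Icc 1 H)).filter (fun p => p.2 < p.1), F (p.1 - p.2) =
      ∑ k ∈ Ico 1 H, ((H : ℂ) - k) * F k := by
  have h1 : ∀ k ∈ Ico 1 H, ((H : ℂ) - k) * F k = ∑ _i ∈ Icc 1 (H - k), F k := by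
    intro k hk
    rw [Finset.mem_Ico] at hk
    rw [Finset.sum_const, Nat.card_Icc, nsmul_eq_mul]
    congr 1
    rw [Nat.add_sub_cancel, Nat.cast_sub (by omega)]
  rw [Finset.sum_congr rfl h1, Finset.sum_sigma']
  refine Finset.sum_nbij' (fun p => ⟨p.1 - p.2, p.2⟩) (fun x => (x.1 + x.2, x.2)) ?_ ?_ ?_ ?_ ?_
  · rintro ⟨h, h'⟩ hp
    simp only [Finset.mem_filter, Finset.mem_product, Finset.mem_Icc, Finset.mem_sigma,
      Finset.mem_Ico] at hp ⊢
    omega
  · rintro ⟨k, i⟩ hx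
    simp only [Finset.mem_filter, Finset.mem_product, Finset.mem_Icc, Finset.mem_sigma,
      Finset.mem_Ico] at hx ⊢
    omega
  · rintro ⟨h, h'⟩ hp
    simp only [Finset.mem_filter, Finset.mem_product, Finset.mem_Icc] at hp
    simp only [Prod.mk.injEq, and_true]
    omega
  · rintro ⟨k, i⟩ hx
    simp
  · rintro ⟨h, h'⟩ hp
    rfl

/-- the sum of a character over the pairs -/
theorem charb_pairs (H N : ℕ) [NeZero N] (χ : DirichletCharacter ℂ N) :
    ‖∑ p ∈ offd H, χ⁻¹ (((p.1 : ℤ) - (p.2 : ℤ) : ℤ) : ZMod N)‖ ≤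
      2 * ‖∑ k ∈ Ico 1 H, ((H : ℂ) - k) * χ (k : ZMod N)‖ := by
  have hsplit : offd H = (((Icc 1 H) ×ˢ (Icc 1 H)).filter (fun p => p.2 < p.1)) ∪
      (((Icc 1 H) ×ˢ (Icc 1 H)).filter (fun p => p.1 < p.2)) := by
    unfold offd
    ext p
    simp only [mem_filter, mem_union]
    constructor
    · rintro ⟨h1, h2⟩
      rcases lt_or_gt_of_ne h2 with h | h
      · exact Or.inr ⟨h1, h⟩
      · exact Or.inl ⟨h1, h⟩
    · rintro (⟨h1, h2⟩ | ⟨h1, h2⟩)
      · exact ⟨h1, by omega⟩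
      · exact ⟨h1, by omega⟩
  have hdisj : Disjoint (((Icc 1 H) ×ˢ (Icc 1 H)).filter (fun p => p.2 < p.1))
      (((Icc 1 H) ×ˢ (Icc 1 H)).filter (fun p => p.1 < p.2)) := by
    rw [Finset.disjoint_left]
    intro p hp hp'
    rw [mem_filter] at hp hp'
    omega
  have hA : ∑ p ∈ ((Icc 1 H) ×ˢ (Icc 1 H)).filter (fun p => p.2 < p.1),
      χ⁻¹ (((p.1 : ℤ) - (p.2 : ℤ) : ℤ) : ZMod N) =
      ∑ k ∈ Ico 1 H, ((H : ℂ) - k) * χ⁻¹ (k : ZMod N) := by
    rw [← charb_diff H (fun k => χ⁻¹ (k : ZMod N))]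
    refine Finset.sum_congr rfl fun p hp => ?_
    rw [mem_filter] at hp
    congr 1
    rw [Nat.cast_sub hp.2.le]
    push_cast
    ring
  have hB : ∑ p ∈ ((Icc 1 H) ×ˢ (Icc 1 H)).filter (fun p => p.1 < p.2),
      χ⁻¹ (((p.1 : ℤ) - (p.2 : ℤ) : ℤ) : ZMod N) =
      χ⁻¹ (-1) * ∑ k ∈ Ico 1 H, ((H : ℂ) - k) * χ⁻¹ (k : ZMod N) := by
    rw [← charb_diff H (fun k => χ⁻¹ (k : ZMod N)), Finset.mul_sum]
    refine Finset.sum_nbij' (fun p => (p.2, p.1)) (fun p => (p.2, p.1)) ?_ ?_ ?_ ?_ ?_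
    · rintro ⟨h, h'⟩ hp
      simp only [Finset.mem_filter, Finset.mem_product, Finset.mem_Icc] at hp ⊢
      omega
    · rintro ⟨h, h'⟩ hp
      simp only [Finset.mem_filter, Finset.mem_product, Finset.mem_Icc] at hp ⊢
      omega
    · rintro ⟨h, h'⟩ hp; rfl
    · rintro ⟨h, h'⟩ hp; rfl
    · rintro ⟨h, h'⟩ hp
      simp only [Finset.mem_filter, Finset.mem_product, Finset.mem_Icc] at hp
      simp only
      rw [← map_mul]
      congr 1
      rw [Nat.cast_sub hp.2.le]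
      push_cast
      ring
  have hconj : ‖∑ k ∈ Ico 1 H, ((H : ℂ) - k) * χ⁻¹ (k : ZMod N)‖ =
      ‖∑ k ∈ Ico 1 H, ((H : ℂ) - k) * χ (k : ZMod N)‖ := by
    rw [← RCLike.norm_conj, map_sum]
    congr 1
    refine Finset.sum_congr rfl fun k _ => ?_
    rw [map_mul]
    congr 1
    · simp
    · have : (starRingEnd ℂ) (χ (k : ZMod N)) = χ⁻¹ (k : ZMod N) := MulChar.star_apply' χ _
      rw [← this]
      simp
  rw [hsplit, Finset.sum_union hdisj, hA, hB]
  have hm1 : ‖χ⁻¹ (-1 : ZMod N)‖ ≤ 1 := DirichletCharacter.norm_le_one _ _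
  refine (norm_add_le _ _).trans ?_
  rw [norm_mul, hconj]
  have h0 := norm_nonneg (∑ k ∈ Ico 1 H, ((H : ℂ) - k) * χ (k : ZMod N))
  nlinarith

/-- a difference that is not a unit mod `dq` shares a prime with `d` -/
theorem charb_nonunit (d q H : ℕ) (hq : q.Prime) (hHq : H ≤ q) (p : ℕ × ℕ) (hp : p ∈ offd H)
    (hu : ¬ IsUnit ((((p.1 : ℤ) - (p.2 : ℤ) : ℤ)) : ZMod (d * q))) :
    ∃ g : ℕ, 1 < g ∧ g ∣ d ∧ (g : ℤ) ∣ (p.1 : ℤ) - (p.2 : ℤ) := by
  unfold offd at hp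
  rw [mem_filter, mem_product, mem_Icc, mem_Icc] at hp
  obtain ⟨⟨⟨h1, h2⟩, h3, h4⟩, h5⟩ := hp
  rw [ZMod.coe_int_isUnit_iff_isCoprime] at hu
  have hg : Int.gcd ((d * q : ℕ) : ℤ) ((p.1 : ℤ) - p.2) ≠ 1 := by
    intro h
    exact hu (Int.isCoprime_iff_gcd_eq_one.2 h)
  obtain ⟨l, hl, hl2⟩ := Nat.exists_prime_and_dvd hg
  have hl3 : (l : ℤ) ∣ ((d * q : ℕ) : ℤ) :=
    (Int.natCast_dvd_natCast.2 hl2).trans (Int.gcd_dvd_left _ _)
  have hl4 : (l : ℤ) ∣ (p.1 : ℤ) - p.2 :=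
    (Int.natCast_dvd_natCast.2 hl2).trans (Int.gcd_dvd_right _ _)
  have hl5 : l ∣ d * q := Int.natCast_dvd_natCast.1 hl3
  rcases (Nat.Prime.dvd_mul hl).1 hl5 with h | h
  · exact ⟨l, hl.one_lt, h, hl4⟩
  · exfalso
    have hlq : l = q := (Nat.prime_dvd_prime_iff_eq hl hq).1 h
    subst hlq
    have h6 : (p.1 : ℤ) - p.2 ≠ 0 := by omega
    have h7 := Int.le_of_dvd (a := (l : ℤ)) (b := |(p.1 : ℤ) - p.2|) (abs_pos.2 h6)
      ((dvd_abs _ _).2 hl4)
    have h8 : |(p.1 : ℤ) - p.2| < l := by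
      rw [abs_lt]
      constructor <;> omega
    omega

open Classical in
/-- the pointwise formula for the relative discrepancy -/
theorem charb_EE {A B : ℕ} {w : ℕ → ℝ} (d q H : ℕ) [NeZero (d * q)] (hd : 1 ≤ d) (hdq : d < q)
    (hq : q.Prime) (hHq : H ≤ q) (hA : d * q ≤ A) (p : ℕ × ℕ) (hp : p ∈ offd H) :
    ((d * q).totient : ℂ) * ((EE A B w d q ((p.2 : ℤ) - (p.1 : ℤ)) : ℝ) : ℂ) =
      ∑ χ ∈ (univ : Finset (DirichletCharacter ℂ (d * q))).filter
        (fun χ => ∀ ψ : DirichletCharacter ℂ d,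
          DirichletCharacter.changeLevel (dvd_mul_right d q) ψ ≠ χ),
        χ⁻¹ (((p.1 : ℤ) - (p.2 : ℤ) : ℤ) : ZMod (d * q)) * ThC A B w χ := by
  have hd0 : NeZero d := ⟨by omega⟩
  have hN : 0 < d * q := Nat.pos_of_ne_zero (NeZero.ne _)
  have hdN : d ∣ d * q := dvd_mul_right d q
  have hdA : d ≤ A := le_trans (Nat.le_of_dvd hN hdN) hA
  have hneg : (p.2 : ℤ) - (p.1 : ℤ) = -((p.1 : ℤ) - (p.2 : ℤ)) := by ring
  set a : ℤ := (p.1 : ℤ) - (p.2 : ℤ) with ha
  rw [hneg]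
  unfold EE
  by_cases hu : IsUnit ((a : ℤ) : ZMod (d * q))
  · have hud : IsUnit ((a : ℤ) : ZMod d) := by
      rw [ZMod.coe_int_isUnit_iff_isCoprime] at hu ⊢
      push_cast at hu
      exact hu.of_mul_left_left
    have h1 := charb_orth (A := A) (B := B) (w := w) (d * q) a hu
    have h2 := charb_orth (A := A) (B := B) (w := w) d a hud
    have htot : ((d * q).totient : ℂ) = (d.totient : ℂ) * ((q : ℂ) - 1) := by
      have hc : Nat.Coprime d q := ((Nat.Prime.coprime_iff_not_dvd hq).2 (fun h => by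
        have := Nat.le_of_dvd (by omega) h
        omega)).symm
      rw [Nat.totient_mul hc, Nat.totient_prime hq]
      push_cast [Nat.cast_sub hq.one_lt.le]
      ring
    have hq1 : ((q : ℂ) - 1) ≠ 0 := by
      have : (1 : ℝ) < q := by exact_mod_cast hq.one_lt
      have h3 : ((q : ℝ) - 1) ≠ 0 := by linarith
      intro h4
      apply h3
      exact_mod_cast h4
    have hL : ((d * q).totient : ℂ) * ((th A B w (d * q) (-a) -
        th A B w d (-a) / ((q : ℝ) - 1) : ℝ) : ℂ) =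
        ((d * q).totient : ℂ) * ((th A B w (d * q) (-a) : ℝ) : ℂ) -
          (d.totient : ℂ) * ((th A B w d (-a) : ℝ) : ℂ) := by
      push_cast
      rw [mul_sub, htot]
      congr 1
      field_simp
    rw [hL, h1, h2]
    have himg : ∑ ψ : DirichletCharacter ℂ d, ψ⁻¹ ((a : ℤ) : ZMod d) * ThC A B w ψ =
        ∑ χ ∈ (univ : Finset (DirichletCharacter ℂ (d * q))).filter
          (fun χ => ¬ ∀ ψ : DirichletCharacter ℂ d,
            DirichletCharacter.changeLevel hdN ψ ≠ χ),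
          χ⁻¹ ((a : ℤ) : ZMod (d * q)) * ThC A B w χ := by
      have hset : (univ : Finset (DirichletCharacter ℂ (d * q))).filter
          (fun χ => ¬ ∀ ψ : DirichletCharacter ℂ d,
            DirichletCharacter.changeLevel hdN ψ ≠ χ) =
          (univ : Finset (DirichletCharacter ℂ d)).image
            (fun ψ => DirichletCharacter.changeLevel hdN ψ) := by
        ext χ
        simp only [mem_filter, mem_univ, true_and, mem_image, not_forall, ne_eq, not_not]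
      rw [hset, Finset.sum_image]
      · refine Finset.sum_congr rfl fun ψ _ => ?_
        rw [charb_ThC hdN hN hA ψ, ← map_inv, charb_lift_int hdN ψ⁻¹ a hu]
      · intro ψ _ ψ' _ h
        exact DirichletCharacter.changeLevel_injective hdN h
    rw [himg, ← Finset.sum_filter_add_sum_filter_not
      (univ : Finset (DirichletCharacter ℂ (d * q)))
      (fun χ => ∀ ψ : DirichletCharacter ℂ d, DirichletCharacter.changeLevel hdN ψ ≠ χ),
      add_sub_cancel_right]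
  · obtain ⟨g, hg1, hg2, hg3⟩ := charb_nonunit d q H hq hHq p hp hu
    have h1 := charb_th_zero (A := A) (B := B) (w := w) (d * q) g a hN hA hg1
      (hg2.trans hdN) hg3
    have h2 := charb_th_zero (A := A) (B := B) (w := w) d g a (by omega) hdA hg1 hg2 hg3
    rw [h1, h2]
    symm
    simp only [zero_div, sub_zero, Complex.ofReal_zero, mul_zero]
    refine Finset.sum_eq_zero fun χ _ => ?_
    rw [MulChar.map_nonunit _ hu, zero_mul]

/-- the short sum of a lifted character -/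
theorem charb_KC (d q H : ℕ) [NeZero (d * q)] (hq : q.Prime) (hHq : H ≤ q) {r : ℕ}
    (hr : r ∣ d * q) (ψ : DirichletCharacter ℂ r) :
    ∑ k ∈ Ico 1 H, ((H : ℂ) - k) * (DirichletCharacter.changeLevel hr ψ) (k : ZMod (d * q)) =
      KC H (kap H d) ψ := by
  unfold KC kap
  refine Finset.sum_congr rfl fun k hk => ?_
  rw [Finset.mem_Ico] at hk
  have hkq : k.Coprime q := ((Nat.Prime.coprime_iff_not_dvd hq).2 (fun h => by
    have := Nat.le_of_dvd (by omega) h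
    omega)).symm
  by_cases hc : k.Coprime d
  · rw [if_pos hc, charb_lift hr ψ k (Nat.Coprime.mul_right hc hkq)]
    push_cast
    ring
  · rw [if_neg hc, charb_lift_zero hr ψ k (fun h => hc (Nat.Coprime.coprime_mul_right_right h))]
    simp

open Classical in
theorem char_bound {A B : ℕ} {w : ℕ → ℝ} (d q R H : ℕ) (hd : 1 ≤ d) (hdq : d < q)
    (hq : q.Prime) (hHq : H ≤ q) (hR : d * q ≤ R) (hA : d * q ≤ A) :
    |∑ p ∈ offd H, EE A B w d q ((p.2 : ℤ) - (p.1 : ℤ))| ≤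
      2 / ((q : ℝ) - 1) * ∑ c ∈ (PC R).filter (fun c => c.md ∣ d * q ∧ q ∣ c.md),
        ‖ThC A B w c.2‖ * ‖KC H (kap H d) c.2‖ := by
  have hN : 0 < d * q := Nat.mul_pos hd hq.pos
  have hN0 : NeZero (d * q) := ⟨hN.ne'⟩
  have hdN : d ∣ d * q := dvd_mul_right d q
  set T := (univ : Finset (DirichletCharacter ℂ (d * q))).filter
        (fun χ => ∀ ψ : DirichletCharacter ℂ d,
          DirichletCharacter.changeLevel (dvd_mul_right d q) ψ ≠ χ) with hT
  set S := (PC R).filter (fun c => c.md ∣ d * q ∧ q ∣ c.md) with hS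
  set g : DirichletCharacter ℂ (d * q) → ℝ := fun χ =>
    (2 * ‖∑ k ∈ Ico 1 H, ((H : ℂ) - k) * χ (k : ZMod (d * q))‖) * ‖ThC A B w χ‖ with hg
  have hg0 : ∀ χ, 0 ≤ g χ := fun χ => by rw [hg]; positivity
  -- first step
  have h1 : ((d * q).totient : ℝ) * |∑ p ∈ offd H, EE A B w d q ((p.2 : ℤ) - (p.1 : ℤ))| ≤
      ∑ χ ∈ T, g χ := by
    have h2 : ((d * q).totient : ℂ) *
        ((∑ p ∈ offd H, EE A B w d q ((p.2 : ℤ) - (p.1 : ℤ)) : ℝ) : ℂ) =
        ∑ χ ∈ T, (∑ p ∈ offd H, χ⁻¹ (((p.1 : ℤ) - (p.2 : ℤ) : ℤ) : ZMod (d * q))) *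
          ThC A B w χ := by
      rw [Complex.ofReal_sum, Finset.mul_sum]
      simp_rw [Finset.sum_mul]
      rw [Finset.sum_comm]
      refine Finset.sum_congr rfl fun p hp => ?_
      exact charb_EE d q H hd hdq hq hHq hA p hp
    have h3 : ((d * q).totient : ℝ) * |∑ p ∈ offd H, EE A B w d q ((p.2 : ℤ) - (p.1 : ℤ))| =
        ‖((d * q).totient : ℂ) *
        ((∑ p ∈ offd H, EE A B w d q ((p.2 : ℤ) - (p.1 : ℤ)) : ℝ) : ℂ)‖ := by
      rw [norm_mul, Complex.norm_natCast, Complex.norm_real, Real.norm_eq_abs]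
    rw [h3, h2]
    refine (norm_sum_le _ _).trans (Finset.sum_le_sum fun χ _ => ?_)
    rw [norm_mul]
    exact mul_le_mul_of_nonneg_right (charb_pairs H (d * q) χ) (norm_nonneg _)
  -- second step
  let f : Ch R → DirichletCharacter ℂ (d * q) := fun c =>
    if h : c.md ∣ d * q then DirichletCharacter.changeLevel h c.2 else 1
  have hsub : T ⊆ S.image f := by
    intro χ hχ
    rw [mem_image]
    have key : ∀ r (hr : r ∣ d * q) (χ' : DirichletCharacter ℂ r), χ'.IsPrimitive → q ∣ r →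
        DirichletCharacter.changeLevel hr χ' = χ →
        ∃ c ∈ S, f c = χ := by
      intro r hr χ' hp h2 hch
      have hr0 : 0 < r := Nat.pos_of_dvd_of_pos hr hN
      have hqr := Nat.le_of_dvd hr0 h2
      have hq2 := hq.two_le
      obtain ⟨m, rfl⟩ : ∃ m, r = m + 1 := ⟨r - 1, by omega⟩
      have hmR : m < R := by
        have := Nat.le_of_dvd hN hr
        omega
      refine ⟨⟨⟨m, hmR⟩, χ'⟩, ?_, ?_⟩
      · rw [hS, mem_filter, PC, mem_filter]
        refine ⟨⟨mem_univ _, hp, ?_⟩, hr, h2⟩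
        show 2 ≤ m + 1
        omega
      · show (if h : (Ch.md (⟨⟨m, hmR⟩, χ'⟩ : Ch R)) ∣ d * q then
          DirichletCharacter.changeLevel h χ' else 1) = χ
        rw [dif_pos (show (Ch.md (⟨⟨m, hmR⟩, χ'⟩ : Ch R)) ∣ d * q from hr)]
        exact hch
    refine key χ.conductor χ.conductor_dvd_level χ.primitiveCharacter
      χ.primitiveCharacter_isPrimitive ?_ χ.changeLevel_primitiveCharacter
    by_contra hqc
    rw [hT, mem_filter] at hχ
    have hc : Nat.Coprime χ.conductor q := ((Nat.Prime.coprime_iff_not_dvd hq).2 hqc).symm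
    have hcd : χ.conductor ∣ d := hc.dvd_of_dvd_mul_right χ.conductor_dvd_level
    apply hχ.2 (DirichletCharacter.changeLevel hcd χ.primitiveCharacter)
    rw [← DirichletCharacter.changeLevel_trans]
    exact χ.changeLevel_primitiveCharacter
  have h4 : ∑ χ ∈ T, g χ ≤ ∑ c ∈ S, g (f c) :=
    (sum_le_sum_of_subset_of_nonneg hsub fun _ _ _ => hg0 _).trans
      (sum_image_le_of_nonneg fun _ _ => hg0 _)
  have h5 : ∑ c ∈ S, g (f c) = 2 * ∑ c ∈ S, ‖ThC A B w c.2‖ * ‖KC H (kap H d) c.2‖ := by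
    rw [Finset.mul_sum]
    refine Finset.sum_congr rfl fun c hc => ?_
    rw [hS, mem_filter] at hc
    have hfc : f c = DirichletCharacter.changeLevel hc.2.1 c.2 := dif_pos hc.2.1
    have e1 : ∑ k ∈ Ico 1 H, ((H : ℂ) - k) *
        (DirichletCharacter.changeLevel hc.2.1 c.2) (k : ZMod (d * q)) =
        KC H (kap H d) c.2 := charb_KC d q H hq hHq hc.2.1 c.2
    have e2 : ThC A B w (DirichletCharacter.changeLevel hc.2.1 c.2) = ThC A B w c.2 :=
      charb_ThC (A := A) (B := B) (w := w) hc.2.1 hN hA c.2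
    rw [hfc]
    have e3 : g (DirichletCharacter.changeLevel hc.2.1 c.2) =
        (2 * ‖KC H (kap H d) c.2‖) * ‖ThC A B w c.2‖ := by
      rw [← e1, ← e2]
    rw [e3, mul_assoc, mul_comm ‖KC H (kap H d) c.2‖]
  have htot : ((q : ℝ) - 1) ≤ ((d * q).totient : ℝ) := by
    have hc : Nat.Coprime d q := ((Nat.Prime.coprime_iff_not_dvd hq).2 (fun h => by
      have := Nat.le_of_dvd (by omega) h
      omega)).symm
    rw [Nat.totient_mul hc, Nat.totient_prime hq]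
    push_cast [Nat.cast_sub hq.one_lt.le]
    have h6 : (1 : ℝ) ≤ d.totient := by
      have := Nat.totient_pos.mpr (by omega : 0 < d)
      exact_mod_cast this
    have h7 : (1 : ℝ) < q := by exact_mod_cast hq.one_lt
    nlinarith
  have hq1 : (0 : ℝ) < (q : ℝ) - 1 := by
    have h7 : (1 : ℝ) < q := by exact_mod_cast hq.one_lt
    linarith
  have h8 : ((q : ℝ) - 1) * |∑ p ∈ offd H, EE A B w d q ((p.2 : ℤ) - (p.1 : ℤ))| ≤
      2 * ∑ c ∈ S, ‖ThC A B w c.2‖ * ‖KC H (kap H d) c.2‖ := by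
    calc ((q : ℝ) - 1) * |∑ p ∈ offd H, EE A B w d q ((p.2 : ℤ) - (p.1 : ℤ))|
        ≤ ((d * q).totient : ℝ) * |∑ p ∈ offd H, EE A B w d q ((p.2 : ℤ) - (p.1 : ℤ))| :=
          mul_le_mul_of_nonneg_right htot (abs_nonneg _)
      _ ≤ _ := h1
      _ ≤ _ := h4
      _ = _ := h5
  rw [div_mul_eq_mul_div, le_div_iff₀ hq1, mul_comm]
  exact h8

end Pool.Agent.H67.VS
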