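import Pool.Agent.H67.VS.GsqA

/-!
[H67 VS GSQ]  The mean square of the test function.

Proof.  `gH = ∑_q gq q`.  Off-diagonal pairs: `gq_orth`, at most `|Q|^2` of them.
Diagonal: `gq q x = (Φ - q Φ_q)/(q-1)` with `Φ = ∑_h F(x+h)`, `Φ_q = ∑_h F(x+h)[q ∣ x+h]`, so
`gq^2 ≤ 2/(q-1)^2 (Φ^2 + q^2 Φ_q^2)`; `Φ^2 ≤ H ∑_h F(x+h)^2` (Cauchy-Schwarz) and, as `H < q`, at
most one `h ≤ H` has `q ∣ x+h`, so `Φ_q^2 = ∑_h F(x+h)^2 [q ∣ x+h]`.  By `F_sq`, `F_sq_q`: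
`∑ w gq^2 ≤ 2/(q-1)^2 (H^2 (W/log L + 4L^4) + q^2 H (W/(q log L) + 4 L^4))`, `W = mass`,
`≤ 6 H W/((q-1) log L) + 40 H^2 L^4` (`H ≤ q-1`, `q/(q-1) ≤ 2`).
Total: `6 H Sq W/log L + 40 H^2 L^4 |Q| + 36 H^2 L^4 |Q|^2`.
-/

namespace Pool.Agent.H67.VS

open Finset

/-- pointwise bound for `gq` -/
private theorem gsq_pt (ρ : ℕ → ℝ) (L H q x : ℕ) (hq : 2 ≤ q) (hHq : H < q) :
    gq ρ L H q x ^ 2 ≤ 2 / ((q : ℝ) - 1) ^ 2 * (H * ∑ h ∈ Icc 1 H, FF ρ L x (h : ℤ) ^ 2 +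
      (q : ℝ) ^ 2 * ∑ h ∈ Icc 1 H,
        (if (q : ℤ) ∣ (x : ℤ) + (h : ℤ) then FF ρ L x (h : ℤ) ^ 2 else 0)) := by
  have hq2 : (2 : ℝ) ≤ q := by exact_mod_cast hq
  have hq1 : (0 : ℝ) < (q : ℝ) - 1 := by linarith
  set Φ : ℝ := ∑ h ∈ Icc 1 H, FF ρ L x (h : ℤ) with hΦ
  set Φq : ℝ := ∑ h ∈ Icc 1 H, (if (q : ℤ) ∣ (x : ℤ) + (h : ℤ) then FF ρ L x (h : ℤ) else 0)
    with hΦq
  have e1 : gq ρ L H q x = (Φ - q * Φq) / ((q : ℝ) - 1) := by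
    unfold gq
    rw [hΦ, hΦq, mul_sum, ← sum_sub_distrib, sum_div]
    refine sum_congr rfl fun h _ => ?_
    split_ifs
    · field_simp
    · rw [sub_zero, mul_zero, sub_zero, mul_one_div]
  have e2 : Φ ^ 2 ≤ H * ∑ h ∈ Icc 1 H, FF ρ L x (h : ℤ) ^ 2 := by
    have := sq_sum_le_card_mul_sum_sq (s := Icc 1 H) (f := fun h : ℕ => FF ρ L x (h : ℤ))
    rw [Nat.card_Icc, Nat.add_sub_cancel] at this
    exact this
  have e3 : Φq ^ 2 = ∑ h ∈ Icc 1 H,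
      (if (q : ℤ) ∣ (x : ℤ) + (h : ℤ) then FF ρ L x (h : ℤ) ^ 2 else 0) := by
    by_cases hex : ∃ h₀ ∈ Icc 1 H, (q : ℤ) ∣ (x : ℤ) + (h₀ : ℤ)
    · obtain ⟨h₀, hh₀, hd₀⟩ := hex
      have huniq : ∀ h ∈ Icc 1 H, h ≠ h₀ → ¬ (q : ℤ) ∣ (x : ℤ) + (h : ℤ) := by
        intro h hh hne hd
        have h1 : (q : ℤ) ∣ (h : ℤ) - (h₀ : ℤ) := by
          have := dvd_sub hd hd₀
          have e : (x : ℤ) + (h : ℤ) - ((x : ℤ) + (h₀ : ℤ)) = (h : ℤ) - (h₀ : ℤ) := by ring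
          rwa [e] at this
        rw [mem_Icc] at hh hh₀
        have h2 : (h : ℤ) - (h₀ : ℤ) = 0 := by
          apply Int.eq_zero_of_abs_lt_dvd h1
          rw [abs_lt]
          constructor <;> omega
        apply hne
        omega
      rw [hΦq, sum_eq_single h₀, sum_eq_single h₀]
      · rw [if_pos hd₀, if_pos hd₀]
      · intro h hh hne
        rw [if_neg (huniq h hh hne)]
      · intro hh
        exact absurd hh₀ hh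
      · intro h hh hne
        rw [if_neg (huniq h hh hne)]
      · intro hh
        exact absurd hh₀ hh
    · push Not at hex
      rw [hΦq, sum_eq_zero, sum_eq_zero]
      · norm_num
      · intro h hh
        rw [if_neg (hex h hh)]
      · intro h hh
        rw [if_neg (hex h hh)]
  rw [e1, div_pow, ← e3, div_mul_eq_mul_div]
  refine div_le_div_of_nonneg_right ?_ (by positivity)
  have e4 : (Φ - q * Φq) ^ 2 ≤ 2 * (Φ ^ 2 + (q : ℝ) ^ 2 * Φq ^ 2) := by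
    nlinarith [sq_nonneg (Φ + q * Φq)]
  linarith

/-- diagonal terms -/
private theorem gsq_diag {A B L H q : ℕ} {w ρ : ℕ → ℝ} (hw : Wt A B w) (hAB : A ≤ B)
    (hρ : SW L ρ) (hL : 2 ≤ L) (hH : 1 ≤ H) (hq : q.Prime) (hLq : L < q) (hHq : H < q) :
    ∑ x ∈ Ioc A B, w x * gq ρ L H q x ^ 2 ≤
      6 * H * (1 / ((q : ℝ) - 1)) * mass A B w / Real.log L + 40 * (H : ℝ) ^ 2 * (L : ℝ) ^ 4 := by
  have hq3 : (3 : ℝ) ≤ q := by
    have : 3 ≤ q := by omega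
    exact_mod_cast this
  have hq1 : (0 : ℝ) < (q : ℝ) - 1 := by linarith
  have hH1 : (1 : ℝ) ≤ H := by exact_mod_cast hH
  have hHq' : (H : ℝ) ≤ (q : ℝ) - 1 := by
    have : H + 1 ≤ q := hHq
    have h2 : (H : ℝ) + 1 ≤ q := by exact_mod_cast this
    linarith
  have hL2 : (2 : ℝ) ≤ L := by exact_mod_cast hL
  have hlog : 0 < Real.log L := Real.log_pos (by linarith)
  have hW : 0 ≤ mass A B w := sum_nonneg fun n _ => hw.nonneg n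
  have h1 : ∑ x ∈ Ioc A B, w x * gq ρ L H q x ^ 2 ≤
      2 / ((q : ℝ) - 1) ^ 2 * (H * ∑ h ∈ Icc 1 H, ∑ x ∈ Ioc A B, w x * FF ρ L x (h : ℤ) ^ 2 +
      (q : ℝ) ^ 2 * ∑ h ∈ Icc 1 H, ∑ x ∈ Ioc A B,
        (if (q : ℤ) ∣ (x : ℤ) + (h : ℤ) then w x * FF ρ L x (h : ℤ) ^ 2 else 0)) := by
    have h2 : ∀ x ∈ Ioc A B, w x * gq ρ L H q x ^ 2 ≤
        w x * (2 / ((q : ℝ) - 1) ^ 2 * (H * ∑ h ∈ Icc 1 H, FF ρ L x (h : ℤ) ^ 2 +
          (q : ℝ) ^ 2 * ∑ h ∈ Icc 1 H,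
            (if (q : ℤ) ∣ (x : ℤ) + (h : ℤ) then FF ρ L x (h : ℤ) ^ 2 else 0))) := by
      intro x _
      exact mul_le_mul_of_nonneg_left (gsq_pt ρ L H q x hq.two_le hHq) (hw.nonneg x)
    refine (sum_le_sum h2).trans (le_of_eq ?_)
    rw [sum_comm (s := Icc 1 H), sum_comm (s := Icc 1 H) (t := Ioc A B)
      (f := fun h x => if (q : ℤ) ∣ (x : ℤ) + (h : ℤ) then w x * FF ρ L x (h : ℤ) ^ 2 else 0),
      mul_sum, mul_sum, ← sum_add_distrib, mul_sum]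
    refine sum_congr rfl fun x _ => ?_
    have e1 : ∑ h ∈ Icc 1 H, w x * FF ρ L x (h : ℤ) ^ 2 =
        w x * ∑ h ∈ Icc 1 H, FF ρ L x (h : ℤ) ^ 2 := by rw [mul_sum]
    have e2 : ∑ h ∈ Icc 1 H,
        (if (q : ℤ) ∣ (x : ℤ) + (h : ℤ) then w x * FF ρ L x (h : ℤ) ^ 2 else 0) =
        w x * ∑ h ∈ Icc 1 H,
          (if (q : ℤ) ∣ (x : ℤ) + (h : ℤ) then FF ρ L x (h : ℤ) ^ 2 else 0) := by
      rw [mul_sum]
      refine sum_congr rfl fun h _ => ?_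
      split_ifs
      · rfl
      · rw [mul_zero]
    rw [e1, e2]
    ring
  have h2 : ∑ h ∈ Icc 1 H, ∑ x ∈ Ioc A B, w x * FF ρ L x (h : ℤ) ^ 2 ≤
      H * (mass A B w / Real.log L + 4 * (L : ℝ) ^ 4) := by
    have h0 : ∀ h ∈ Icc 1 H, ∑ x ∈ Ioc A B, w x * FF ρ L x (h : ℤ) ^ 2 ≤
        mass A B w / Real.log L + 4 * (L : ℝ) ^ 4 := fun h _ => F_sq hw hAB hρ hL (h : ℤ)
    refine (sum_le_sum h0).trans (le_of_eq ?_)
    rw [sum_const, Nat.card_Icc, Nat.add_sub_cancel, nsmul_eq_mul]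
  have h3 : ∑ h ∈ Icc 1 H, ∑ x ∈ Ioc A B,
        (if (q : ℤ) ∣ (x : ℤ) + (h : ℤ) then w x * FF ρ L x (h : ℤ) ^ 2 else 0) ≤
      H * (mass A B w / ((q : ℝ) * Real.log L) + 4 * (L : ℝ) ^ 4) := by
    have h0 : ∀ h ∈ Icc 1 H, ∑ x ∈ Ioc A B,
        (if (q : ℤ) ∣ (x : ℤ) + (h : ℤ) then w x * FF ρ L x (h : ℤ) ^ 2 else 0) ≤
        mass A B w / ((q : ℝ) * Real.log L) + 4 * (L : ℝ) ^ 4 :=
      fun h _ => F_sq_q hw hAB hρ hL hq hLq (h : ℤ)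
    refine (sum_le_sum h0).trans (le_of_eq ?_)
    rw [sum_const, Nat.card_Icc, Nat.add_sub_cancel, nsmul_eq_mul]
  refine h1.trans ?_
  have h4 : 2 / ((q : ℝ) - 1) ^ 2 *
      (H * ∑ h ∈ Icc 1 H, ∑ x ∈ Ioc A B, w x * FF ρ L x (h : ℤ) ^ 2 +
      (q : ℝ) ^ 2 * ∑ h ∈ Icc 1 H, ∑ x ∈ Ioc A B,
        (if (q : ℤ) ∣ (x : ℤ) + (h : ℤ) then w x * FF ρ L x (h : ℤ) ^ 2 else 0)) ≤
      2 / ((q : ℝ) - 1) ^ 2 * (H * (H * (mass A B w / Real.log L + 4 * (L : ℝ) ^ 4)) +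
      (q : ℝ) ^ 2 * (H * (mass A B w / ((q : ℝ) * Real.log L) + 4 * (L : ℝ) ^ 4))) := by
    gcongr
  refine h4.trans ?_
  -- the numbers
  set W : ℝ := mass A B w / Real.log L with hWd
  have hW0 : 0 ≤ W := div_nonneg hW hlog.le
  set Λ : ℝ := (L : ℝ) ^ 4 with hΛ
  have hΛ0 : 0 ≤ Λ := by positivity
  have e1 : mass A B w / ((q : ℝ) * Real.log L) = W / q := by
    rw [hWd, div_div, mul_comm]
  have e2 : 6 * (H : ℝ) * (1 / ((q : ℝ) - 1)) * mass A B w / Real.log L =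
      6 * H * W / ((q : ℝ) - 1) := by
    rw [hWd]
    field_simp
  rw [e1, e2]
  -- `u = H/(q-1) ≤ 1`, `v = q/(q-1) ≤ 2`
  set u : ℝ := (H : ℝ) / ((q : ℝ) - 1) with hu
  set v : ℝ := (q : ℝ) / ((q : ℝ) - 1) with hv
  have hu0 : 0 ≤ u := by positivity
  have hu1 : u ≤ 1 := by rw [hu, div_le_one hq1]; exact hHq'
  have hv0 : 0 ≤ v := by positivity
  have hv2 : v ≤ 2 := by rw [hv, div_le_iff₀ hq1]; linarith
  have e3 : 2 / ((q : ℝ) - 1) ^ 2 * (H * (H * (W + 4 * Λ)) +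
      (q : ℝ) ^ 2 * (H * (W / q + 4 * Λ))) =
      2 * u * (u * W) + 8 * u ^ 2 * Λ + 2 * v * (u * W) + 8 * v ^ 2 * H * Λ := by
    rw [hu, hv]
    have hq0 : (q : ℝ) ≠ 0 := by linarith
    field_simp
    ring
  have e4 : 6 * (H : ℝ) * W / ((q : ℝ) - 1) = 6 * (u * W) := by
    rw [hu]
    field_simp
  rw [e3, e4]
  have huW : 0 ≤ u * W := mul_nonneg hu0 hW0
  have f1 : 2 * u * (u * W) ≤ 2 * (u * W) := by nlinarith
  have f2 : 2 * v * (u * W) ≤ 4 * (u * W) := by nlinarith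
  have f3 : 8 * u ^ 2 * Λ ≤ 8 * (H : ℝ) ^ 2 * Λ := by
    have : u ^ 2 ≤ (H : ℝ) ^ 2 := pow_le_pow_left₀ hu0 (hu1.trans hH1) 2
    nlinarith
  have f4 : 8 * v ^ 2 * H * Λ ≤ 32 * (H : ℝ) ^ 2 * Λ := by
    have h5 : v ^ 2 ≤ 4 := by nlinarith
    have h6 : (H : ℝ) ≤ (H : ℝ) ^ 2 := by nlinarith
    have h7 : 0 ≤ (H : ℝ) * Λ := by positivity
    calc 8 * v ^ 2 * H * Λ = 8 * v ^ 2 * (H * Λ) := by ring
      _ ≤ 8 * 4 * (H * Λ) := by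
          refine mul_le_mul_of_nonneg_right ?_ h7
          linarith
      _ = 32 * (H * Λ) := by ring
      _ ≤ 32 * ((H : ℝ) ^ 2 * Λ) := by
          have := mul_le_mul_of_nonneg_right h6 hΛ0
          linarith
      _ = 32 * (H : ℝ) ^ 2 * Λ := by ring
  linarith

theorem g_sq {A B L H : ℕ} {w ρ : ℕ → ℝ} {Q : Finset ℕ} (hw : Wt A B w) (hAB : A ≤ B)
    (hρ : SW L ρ) (hL : 2 ≤ L) (hH : 1 ≤ H) (hQ : ∀ q ∈ Q, q.Prime ∧ L < q ∧ H < q) :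
    ∑ x ∈ Ioc A B, w x * gH ρ L Q H x ^ 2 ≤
      6 * H * Sq Q * mass A B w / Real.log L + 100 * (H : ℝ) ^ 2 * (L : ℝ) ^ 4 * (Q.card : ℝ) ^ 2 := by
  have e1 : ∑ x ∈ Ioc A B, w x * gH ρ L Q H x ^ 2 =
      ∑ q ∈ Q, ∑ q' ∈ Q, ∑ x ∈ Ioc A B, w x * (gq ρ L H q x * gq ρ L H q' x) := by
    have e2 : ∀ x ∈ Ioc A B, w x * gH ρ L Q H x ^ 2 =
        ∑ q ∈ Q, ∑ q' ∈ Q, w x * (gq ρ L H q x * gq ρ L H q' x) := by
      intro x _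
      rw [gH_eq, sq, sum_mul_sum, mul_sum]
      refine sum_congr rfl fun q _ => ?_
      rw [mul_sum]
    rw [sum_congr rfl e2, sum_comm]
    refine sum_congr rfl fun q _ => ?_
    rw [sum_comm]
  have e2 : ∀ q ∈ Q, ∀ q' ∈ Q, ∑ x ∈ Ioc A B, w x * (gq ρ L H q x * gq ρ L H q' x) ≤
      (if q = q' then 6 * H * (1 / ((q : ℝ) - 1)) * mass A B w / Real.log L +
        40 * (H : ℝ) ^ 2 * (L : ℝ) ^ 4 else 0) + 36 * (H : ℝ) ^ 2 * (L : ℝ) ^ 4 := by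
    intro q hq q' hq'
    by_cases hqq : q = q'
    · subst hqq
      rw [if_pos rfl]
      have h1 := gsq_diag hw hAB hρ hL hH (hQ q hq).1 (hQ q hq).2.1 (hQ q hq).2.2
      have h2 : ∑ x ∈ Ioc A B, w x * (gq ρ L H q x * gq ρ L H q x) =
          ∑ x ∈ Ioc A B, w x * gq ρ L H q x ^ 2 := by
        refine sum_congr rfl fun x _ => ?_
        rw [sq]
      rw [h2]
      have h3 : 0 ≤ 36 * (H : ℝ) ^ 2 * (L : ℝ) ^ 4 := by positivity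
      linarith
    · rw [if_neg hqq, zero_add]
      exact (le_abs_self _).trans (gq_orth hw hAB hρ (hQ q hq).1 (hQ q hq).2.1 (hQ q' hq').1
        (hQ q' hq').2.1 hqq)
  rw [e1]
  refine (sum_le_sum fun q hq => sum_le_sum fun q' hq' => e2 q hq q' hq').trans ?_
  have e3 : ∑ q ∈ Q, ∑ q' ∈ Q,
      ((if q = q' then 6 * H * (1 / ((q : ℝ) - 1)) * mass A B w / Real.log L +
        40 * (H : ℝ) ^ 2 * (L : ℝ) ^ 4 else 0) + 36 * (H : ℝ) ^ 2 * (L : ℝ) ^ 4) =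
      6 * H * Sq Q * mass A B w / Real.log L + (Q.card : ℝ) * (40 * (H : ℝ) ^ 2 * (L : ℝ) ^ 4) +
        (Q.card : ℝ) * ((Q.card : ℝ) * (36 * (H : ℝ) ^ 2 * (L : ℝ) ^ 4)) := by
    have h1 : ∀ q ∈ Q, ∑ q' ∈ Q,
        ((if q = q' then 6 * H * (1 / ((q : ℝ) - 1)) * mass A B w / Real.log L +
          40 * (H : ℝ) ^ 2 * (L : ℝ) ^ 4 else 0) + 36 * (H : ℝ) ^ 2 * (L : ℝ) ^ 4) =
        6 * H * (1 / ((q : ℝ) - 1)) * mass A B w / Real.log L +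
          (40 * (H : ℝ) ^ 2 * (L : ℝ) ^ 4 +
            (Q.card : ℝ) * (36 * (H : ℝ) ^ 2 * (L : ℝ) ^ 4)) := by
      intro q hq
      rw [sum_add_distrib, sum_ite_eq, if_pos hq, sum_const, nsmul_eq_mul]
      ring
    rw [sum_congr rfl h1, sum_add_distrib, sum_const, nsmul_eq_mul]
    have h2 : ∑ q ∈ Q, 6 * H * (1 / ((q : ℝ) - 1)) * mass A B w / Real.log L =
        6 * H * Sq Q * mass A B w / Real.log L := by
      unfold Sq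
      rw [mul_sum, sum_mul, sum_div]
    rw [h2]
    ring
  rw [e3]
  have h1 : (Q.card : ℝ) ≤ (Q.card : ℝ) ^ 2 := by
    have h2 : Q.card ≤ Q.card ^ 2 := by
      rcases Nat.eq_zero_or_pos Q.card with h0 | h0
      · rw [h0]
        norm_num
      · nlinarith
    exact_mod_cast h2
  have h2 : 0 ≤ (H : ℝ) ^ 2 * (L : ℝ) ^ 4 := by positivity
  have h3 := mul_le_mul_of_nonneg_right h1 h2
  have h4 : 0 ≤ (Q.card : ℝ) ^ 2 * ((H : ℝ) ^ 2 * (L : ℝ) ^ 4) := by positivity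
  nlinarith

end Pool.Agent.H67.VS
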