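import Pool.Agent.H21.MT.Ch

/-!
[H67 VS DEFS]  MP_31d0eb_nt: the variance of primes in short intervals of length x^eps from below.

Definitions.  All sums over n run over `Ioc A B`, outside which the weight `w` vanishes.
Parameters of the final choice (X real, large):
`A = floor (X/2)`, `B = floor (4X)`, `w = hat y δ`, `X ≤ y ≤ 2X`, `X^(-1/50) ≤ δ ≤ 1/2`,
`H ≤ X^(1/100)`, `L = floor (X^(1/200))`, `Q = primes in (X^(7/100), X^(8/100)]`,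
`R = floor (X^(17/200))`, `u = floor (X^(7/20))`.
-/

namespace Pool.Agent.H67.VS

open Finset

/-- the hat function in the logarithm: `(1 - |log(n/y)|/δ)_+` (and `0` at `n = 0`) -/
noncomputable def hat (y δ : ℝ) (n : ℕ) : ℝ :=
  if n = 0 then 0 else max 0 (1 - |Real.log ((n : ℝ) / y)| / δ)

/-- `log n` at primes, `0` elsewhere -/
noncomputable def pl (n : ℕ) : ℝ := if n.Prime then Real.log n else 0

/-- the sum of `pl` over `(n, n+H]` -/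
noncomputable def PH (H n : ℕ) : ℝ := ∑ h ∈ Icc 1 H, pl (n + h)

/-- admissible weight functions: values in `[0,1]`, zero outside `(A,B]`, total variation `≤ 3` -/
structure Wt (A B : ℕ) (w : ℕ → ℝ) : Prop where
  nonneg : ∀ n, 0 ≤ w n
  le_one : ∀ n, w n ≤ 1
  zero : ∀ n, n ∉ Ioc A B → w n = 0
  tv : ∀ m n : ℕ, ∑ k ∈ Ico m n, |w (k + 1) - w k| ≤ 3

/-- the mass of a weight -/
noncomputable def mass (A B : ℕ) (w : ℕ → ℝ) : ℝ := ∑ n ∈ Ioc A B, w n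

/-- the number of primes (with logarithmic weight) seen by `w` -/
noncomputable def theta (A B : ℕ) (w : ℕ → ℝ) : ℝ := ∑ n ∈ Ioc A B, w n * pl n

/-- Selberg weights of level `L` -/
structure SW (L : ℕ) (ρ : ℕ → ℝ) : Prop where
  one : ρ 1 = 1
  bd : ∀ d, |ρ d| ≤ L
  zero : ∀ d, d ∉ Icc 1 L → ρ d = 0
  diag : ∑ d ∈ Icc 1 L, ∑ e ∈ Icc 1 L, ρ d * ρ e / (Nat.lcm d e : ℝ) ≤ 1 / Real.log L

/-- `F(n+k) = ∑_{d | n+k} ρ_d`  (`k` an integer) -/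
noncomputable def FF (ρ : ℕ → ℝ) (L n : ℕ) (k : ℤ) : ℝ :=
  ∑ d ∈ Icc 1 L, if (d : ℤ) ∣ (n : ℤ) + k then ρ d else 0

/-- `G(n+k) = ∑_{q ∈ Q} (1 - q 1_{q | n+k})/(q-1)` -/
noncomputable def GG (Q : Finset ℕ) (n : ℕ) (k : ℤ) : ℝ :=
  ∑ q ∈ Q, (1 - if (q : ℤ) ∣ (n : ℤ) + k then (q : ℝ) else 0) / ((q : ℝ) - 1)

/-- the test function `b(n+k) = F(n+k) G(n+k)` -/
noncomputable def bb (ρ : ℕ → ℝ) (L : ℕ) (Q : Finset ℕ) (n : ℕ) (k : ℤ) : ℝ :=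
  FF ρ L n k * GG Q n k

/-- `g(x) = ∑_{h ≤ H} b(x+h)` -/
noncomputable def gH (ρ : ℕ → ℝ) (L : ℕ) (Q : Finset ℕ) (H x : ℕ) : ℝ :=
  ∑ h ∈ Icc 1 H, bb ρ L Q x (h : ℤ)

/-- `S' = ∑_{q ∈ Q} 1/(q-1)` -/
noncomputable def Sq (Q : Finset ℕ) : ℝ := ∑ q ∈ Q, 1 / ((q : ℝ) - 1)

/-- `θ(m,k) = ∑_{n ≡ -k (m)} w(n) pl(n)` -/
noncomputable def th (A B : ℕ) (w : ℕ → ℝ) (m : ℕ) (k : ℤ) : ℝ :=
  ∑ n ∈ Ioc A B, if (m : ℤ) ∣ (n : ℤ) + k then w n * pl n else 0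

/-- `E(d,q,k) = θ(dq,k) - θ(d,k)/(q-1)` -/
noncomputable def EE (A B : ℕ) (w : ℕ → ℝ) (d q : ℕ) (k : ℤ) : ℝ :=
  th A B w (d * q) k - th A B w d k / ((q : ℝ) - 1)

/-- the pairs `(h,h')`, `h ≠ h'`, in `[1,H]^2` -/
def offd (H : ℕ) : Finset (ℕ × ℕ) := ((Icc 1 H) ×ˢ (Icc 1 H)).filter (fun p => p.1 ≠ p.2)

/-- the coefficients of the short polynomial: `(H - k)` for `k` coprime to `d` -/
noncomputable def kap (H d k : ℕ) : ℝ := if k.Coprime d then (H : ℝ) - k else 0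

/-- character sum over primes -/
noncomputable def ThC (A B : ℕ) (w : ℕ → ℝ) {q : ℕ} (χ : DirichletCharacter ℂ q) : ℂ :=
  ∑ n ∈ Ioc A B, ((w n * pl n : ℝ) : ℂ) * χ (n : ZMod q)

/-- short character sum -/
noncomputable def KC (H : ℕ) (κ : ℕ → ℝ) {q : ℕ} (χ : DirichletCharacter ℂ q) : ℂ :=
  ∑ k ∈ Ico 1 H, ((κ k : ℝ) : ℂ) * χ (k : ZMod q)

/-- lower end of the range -/
noncomputable def Ax (X : ℝ) : ℕ := ⌊X / 2⌋₊
/-- upper end of the range -/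
noncomputable def Bx (X : ℝ) : ℕ := ⌊4 * X⌋₊
/-- level of the Selberg weights -/
noncomputable def Lx (X : ℝ) : ℕ := ⌊X ^ (1 / 200 : ℝ)⌋₊
/-- the large primes -/
noncomputable def Qx (X : ℝ) : Finset ℕ :=
  (Ioc ⌊X ^ (7 / 100 : ℝ)⌋₊ ⌊X ^ (8 / 100 : ℝ)⌋₊).filter Nat.Prime
/-- bound of the conductors -/
noncomputable def Rx (X : ℝ) : ℕ := ⌊X ^ (17 / 200 : ℝ)⌋₊
/-- parameter of Vaughan's identity -/
noncomputable def ux (X : ℝ) : ℕ := ⌊X ^ (7 / 20 : ℝ)⌋₊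

end Pool.Agent.H67.VS
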