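import Pool.Agent.H67.VS.Win
import Pool.Agent.H67.VS.FinA

/-!
[H67 VS FIN]  Final assembly.

Proof.  `X` a large natural number.  `J = ⌊X^(3/200) log 2⌋₊`, `δ = log 2/J`, so
`X^(-1/50) ≤ X^(-3/200) ≤ δ ≤ 2 X^(-3/200)`; `y_j = X exp(jδ)`, `w_j = hat y_j δ`, `1 ≤ j < J`; the
support of `w_j` lies in `(X exp((j-1)δ), X exp((j+1)δ)) ⊆ (X, 2X)` (`hat_supp`).
Call `j` good if `H` is constant (`= H_j ≥ H(X)`) on the integers of this interval; at most
`2 (H(2X) - H(X)) ≤ 2 X^(1/100)` of the `j` are bad (`jumps`).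
`f n = log(cl n) * clip(M (cl n))`, `cl n = max X (min n (2X))`, `clip t = max 0 (min t (2 H(X)))`
(monotone or antitone in `n`); `|f| ≤ log(2X) 2 H(X) ≤ X^(1/10)`, and `tv_prod` gives the variation.
`window` for the good `j` (`H = H_j`): with `Θ_j = theta w_j`, `W_j = mass w_j`, `e = X^(98/100)`,
`V_j = ∑ w_j (PH H_j - f)^2`:  `c H(X) log X (Θ_j - e)_+^2 ≤ W_j V_j`.
`∑_{good} W_j ≤ ∑_n ∑_j w_j(n) ≤ 4X` (`hat_sum_le`); Cauchy-Schwarz
`(∑_{good} (Θ_j - e)_+)^2 ≤ (∑ W_j) (∑ (Θ_j - e)_+^2/W_j)` (or directly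
`∑ sqrt(W_j) sqrt(V_j)`), so `∑_{good} V_j ≥ c H(X) log X (∑_{good} (Θ_j - e))^2/(4X)`.
`∑_{1 ≤ j < J} Θ_j ≥ ∑_{n ∈ (5X/4, 7X/4]} pl n ≥ c' X` (`hat_sum_eq`: for such `n` the terms `j = 0`
and `j = J` vanish; `theta_total`); the bad `j` contribute at most
`2 X^(1/100) log(4X)(6 δ X + 1) ≤ X^(997/1000)` (`theta_le`), and `J e ≤ X^(3/200 + 98/100)`.
So `∑_{good} V_j ≥ c'' H(X) X log X`.
On the other hand `w_j(n) <> 0` implies `X < n < 2X` and `H_j = H n`, and `∑_j w_j(n) ≤ 1`, so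
`∑_{good} V_j ≤ ∑_{n ∈ (X,2X]} (PH (H n) n - f n)^2`.  For such `n`, with `π = #primes in (n,n+H n]`,
`0 ≤ π ≤ H n ≤ 2 H(X)`, so `|π - clip(M n)| ≤ |π - M n|`, and by `PH_near`
`|PH (H n) n - f n| ≤ log(2X) |π - M n| + (H n)^2/n`, `(..)^2 ≤ 2 log(2X)^2 (π - M n)^2 + 2/X`
(as `(H n)^4 ≤ X`).  Hence `∑ (π - M n)^2 ≥ (c'' H(X) X log X - 2)/(2 log(2X)^2) ≥ c''' X H(X)/log X`.
-/

namespace Pool.Agent.H67.VS

open Finset Filter

private theorem fin_cs {ι : Type*} (s : Finset ι) (K : ℝ) (hK : 0 ≤ K) (a W V : ι → ℝ)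
    (ha : ∀ i ∈ s, 0 ≤ a i) (hW : ∀ i ∈ s, 0 ≤ W i) (hV : ∀ i ∈ s, 0 ≤ V i)
    (h : ∀ i ∈ s, K * a i ^ 2 ≤ W i * V i) :
    K * (∑ i ∈ s, a i) ^ 2 ≤ (∑ i ∈ s, W i) * ∑ i ∈ s, V i := by
  have h1 := Finset.sum_sq_le_sum_mul_sum_of_sq_le_mul s (r := fun i => √(W i * V i)) hW hV
    (fun i hi => (Real.sq_sqrt (mul_nonneg (hW i hi) (hV i hi))).le)
  have h2 : ∀ i ∈ s, √K * a i ≤ √(W i * V i) := by
    intro i hi
    apply Real.le_sqrt_of_sq_le
    rw [mul_pow, Real.sq_sqrt hK]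
    exact h i hi
  have h3 : √K * ∑ i ∈ s, a i ≤ ∑ i ∈ s, √(W i * V i) := by
    rw [Finset.mul_sum]; exact Finset.sum_le_sum h2
  have h4 : 0 ≤ √K * ∑ i ∈ s, a i := mul_nonneg (Real.sqrt_nonneg _) (Finset.sum_nonneg ha)
  calc K * (∑ i ∈ s, a i) ^ 2 = (√K * ∑ i ∈ s, a i) ^ 2 := by rw [mul_pow, Real.sq_sqrt hK]
    _ ≤ (∑ i ∈ s, √(W i * V i)) ^ 2 := pow_le_pow_left₀ h4 h3 2
    _ ≤ _ := h1

private theorem fin_hat_nonneg (y δ : ℝ) (n : ℕ) : 0 ≤ hat y δ n := by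
  unfold hat
  split_ifs
  · exact le_rfl
  · exact le_max_left _ _

private theorem fin_pl_nonneg (n : ℕ) : 0 ≤ pl n := by
  unfold pl
  split_ifs with h
  · exact Real.log_nonneg (by exact_mod_cast h.one_lt.le)
  · exact le_rfl

private theorem fin_T (X : ℕ) (c c' : ℝ) (hc : 0 < c) (hc' : 0 < c') (hX : 2 ≤ X) (J : ℕ) (δ : ℝ)
    (hJ : 1 ≤ J) (hJδ : J * δ = Real.log 2) (hδ0 : 0 < δ) (hδ1 : (X : ℝ) ^ (-1 / 50 : ℝ) ≤ δ)
    (hδ8 : δ ≤ 1 / 8) (hXδ : 4 ≤ (X : ℝ) * δ)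
    (hwin : ∀ y δ : ℝ, (X : ℝ) ≤ y → y ≤ 2 * X →
      (X : ℝ) ^ (-1 / 50 : ℝ) ≤ δ → δ ≤ 1 / 2 → ∀ H : ℕ, 1 ≤ H →
      (H : ℝ) ≤ (X : ℝ) ^ (1 / 100 : ℝ) →
      ∀ f : ℕ → ℝ, (∀ n, |f n| ≤ (X : ℝ) ^ (1 / 10 : ℝ)) →
      (∀ m n : ℕ, ∑ k ∈ Ico m n, |f (k + 1) - f k| ≤ (X : ℝ) ^ (1 / 10 : ℝ)) →
      c * H * Real.log X *
          (max 0 (theta (Ax X) (Bx X) (hat y δ) - (X : ℝ) ^ (98 / 100 : ℝ))) ^ 2 ≤
        mass (Ax X) (Bx X) (hat y δ) *
          ∑ n ∈ Ioc (Ax X) (Bx X), hat y δ n * (PH H n - f n) ^ 2)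
    (htot : c' * X ≤ ∑ n ∈ Ioc ⌊5 * (X : ℝ) / 4⌋₊ ⌊7 * (X : ℝ) / 4⌋₊, pl n)
    (hnum : 2 * (X : ℝ) ^ (1 / 100 : ℝ) * (Real.log (4 * X) * (6 * δ * X + 1)) +
      J * (X : ℝ) ^ (98 / 100 : ℝ) ≤ c' * X / 2)
    (H : ℕ → ℕ) (hH : MonotoneOn H (Set.Icc X (2 * X))) (hH1 : 1 ≤ H X)
    (hH3 : (H (2 * X) : ℝ) ≤ (X : ℝ) ^ (1 / 100 : ℝ)) (f : ℕ → ℝ)
    (hf : ∀ n, |f n| ≤ (X : ℝ) ^ (1 / 10 : ℝ))
    (hftv : ∀ m n : ℕ, ∑ k ∈ Ico m n, |f (k + 1) - f k| ≤ (X : ℝ) ^ (1 / 10 : ℝ)) :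
    c * H X * Real.log X * (c' * X / 2) ^ 2 ≤
      4 * X * ∑ n ∈ Ioc X (2 * X), (PH (H n) n - f n) ^ 2 := by
  classical
  have hx : (2 : ℝ) ≤ X := by exact_mod_cast hX
  have hx0 : (0 : ℝ) < X := by linarith
  have hexp : Real.exp (J * δ) = 2 := by rw [hJδ, Real.exp_log (by norm_num)]
  set y : ℕ → ℝ := fun j => (X : ℝ) * Real.exp (j * δ) with hy
  have hy1 : ∀ j, (X : ℝ) ≤ y j := by
    intro j
    have h1 : 1 ≤ Real.exp (j * δ) := Real.one_le_exp (by positivity)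
    have : (X : ℝ) * 1 ≤ X * Real.exp (j * δ) := mul_le_mul_of_nonneg_left h1 hx0.le
    simpa [hy] using this
  have hexpmono : ∀ s t : ℝ, s ≤ t → (X : ℝ) * Real.exp (s * δ) ≤ X * Real.exp (t * δ) := by
    intro s t hst
    exact mul_le_mul_of_nonneg_left
      (Real.exp_le_exp.2 (mul_le_mul_of_nonneg_right hst hδ0.le)) hx0.le
  have hyJ : (X : ℝ) * Real.exp (J * δ) = 2 * X := by rw [hexp]; ring
  have hy2 : ∀ j, j ≤ J → y j ≤ 2 * X := by
    intro j hj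
    rw [← hyJ]
    exact hexpmono _ _ (by exact_mod_cast hj)
  set P : ℕ → Prop := fun j : ℕ => ∃ n n' : ℕ,
      ((X : ℝ) * Real.exp ((j - 1) * δ) < n ∧ (n : ℝ) < X * Real.exp ((j + 1) * δ)) ∧
      ((X : ℝ) * Real.exp ((j - 1) * δ) < n' ∧ (n' : ℝ) < X * Real.exp ((j + 1) * δ)) ∧
      H n ≠ H n' with hP
  have hbad : ((Ico 1 J).filter P).card ≤ 2 * (H (2 * X) - H X) :=
    jumps X J (by omega) hJ δ hJδ H hH
  have hsupp : ∀ j n : ℕ, hat (y j) δ n ≠ 0 →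
      (X : ℝ) * Real.exp ((j - 1) * δ) < n ∧ (n : ℝ) < X * Real.exp ((j + 1) * δ) := by
    intro j n hn
    have hyj : 0 < y j := lt_of_lt_of_le hx0 (hy1 j)
    obtain ⟨h1, h2⟩ := hat_supp (y j) δ hyj hδ0 n hn
    have e1 : y j * Real.exp (-δ) = (X : ℝ) * Real.exp ((j - 1) * δ) := by
      simp only [hy]
      rw [mul_assoc, ← Real.exp_add]
      congr 2
      ring
    have e2 : y j * Real.exp δ = (X : ℝ) * Real.exp ((j + 1) * δ) := by
      simp only [hy]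
      rw [mul_assoc, ← Real.exp_add]
      congr 2
      ring
    rw [e1] at h1
    rw [e2] at h2
    exact ⟨h1, h2⟩
  have hrange : ∀ j ∈ Ico 1 J, ∀ n : ℕ, hat (y j) δ n ≠ 0 → n ∈ Ioc X (2 * X) := by
    intro j hj n hn
    rw [mem_Ico] at hj
    obtain ⟨h1, h2⟩ := hsupp j n hn
    have hj1 : (1 : ℝ) ≤ j := by exact_mod_cast hj.1
    have hj2 : (j : ℝ) + 1 ≤ J := by exact_mod_cast hj.2
    have h3 : (X : ℝ) ≤ X * Real.exp ((j - 1) * δ) := by
      have := hexpmono 0 ((j : ℝ) - 1) (by linarith)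
      simpa using this
    have h4 : (X : ℝ) * Real.exp ((j + 1) * δ) ≤ 2 * X := by
      rw [← hyJ]
      exact hexpmono _ _ hj2
    rw [mem_Ioc]
    constructor
    · have : (X : ℝ) < n := lt_of_le_of_lt h3 h1
      exact_mod_cast this
    · have : (n : ℝ) < 2 * X := lt_of_lt_of_le h2 h4
      have h5 : (n : ℝ) < ((2 * X : ℕ) : ℝ) := by push_cast; exact this
      exact (Nat.cast_lt.1 h5).le
  -- the floor of y j
  have hfl : ∀ j ∈ Ico 1 J, ⌊y j⌋₊ ∈ Set.Icc X (2 * X) ∧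
      (X : ℝ) * Real.exp ((j - 1) * δ) < (⌊y j⌋₊ : ℕ) ∧
      ((⌊y j⌋₊ : ℕ) : ℝ) < X * Real.exp ((j + 1) * δ) := by
    intro j hj
    rw [mem_Ico] at hj
    have hyj0 : 0 ≤ y j := hx0.le.trans (hy1 j)
    have hfle : ((⌊y j⌋₊ : ℕ) : ℝ) ≤ y j := Nat.floor_le hyj0
    refine ⟨⟨Nat.le_floor (hy1 j), ?_⟩, ?_, ?_⟩
    · have h1 := hy2 j hj.2.le
      have h2 : ((⌊y j⌋₊ : ℕ) : ℝ) ≤ ((2 * X : ℕ) : ℝ) := by push_cast; linarith
      exact_mod_cast h2
    · have e1 : (X : ℝ) * Real.exp ((j - 1) * δ) = y j * Real.exp (-δ) := by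
        simp only [hy]
        rw [mul_assoc, ← Real.exp_add]
        congr 2
        ring
      rw [e1]
      have h3 := Nat.lt_floor_add_one (y j)
      have h4 : Real.exp (-δ) ≤ 1 - δ / 2 := by
        have h5 := Real.add_one_le_exp δ
        have h6 : Real.exp (-δ) * Real.exp δ = 1 := by rw [← Real.exp_add]; simp
        have h7 : 0 < Real.exp (-δ) := Real.exp_pos _
        have h8 : Real.exp (-δ) * (δ + 1) ≤ 1 := by
          have h11 := mul_le_mul_of_nonneg_left h5 h7.le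
          rw [h6] at h11
          exact h11
        nlinarith
      have h9 : y j * Real.exp (-δ) ≤ y j * (1 - δ / 2) := mul_le_mul_of_nonneg_left h4 hyj0
      have h10 : (4 : ℝ) ≤ y j * δ := hXδ.trans (mul_le_mul_of_nonneg_right (hy1 j) hδ0.le)
      nlinarith
    · refine lt_of_le_of_lt hfle ?_
      simp only [hy]
      apply mul_lt_mul_of_pos_left _ hx0
      apply Real.exp_lt_exp.2
      nlinarith
  -- good windows
  set good := (Ico 1 J).filter (fun j => ¬ P j) with hgood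
  have hgoodsub : good ⊆ Ico 1 J := filter_subset _ _
  have hconst : ∀ j ∈ good, ∀ n : ℕ, hat (y j) δ n ≠ 0 → H n = H ⌊y j⌋₊ := by
    intro j hj n hn
    rw [hgood, mem_filter] at hj
    by_contra hne
    apply hj.2
    exact ⟨n, ⌊y j⌋₊, hsupp j n hn, (hfl j hj.1).2, hne⟩
  have hHj1 : ∀ j ∈ good, H X ≤ H ⌊y j⌋₊ ∧ H ⌊y j⌋₊ ≤ H (2 * X) := by
    intro j hj
    have h1 := (hfl j (hgoodsub hj)).1
    have hXX : X ≤ 2 * X := by omega
    exact ⟨hH ⟨le_rfl, hXX⟩ h1 h1.1, hH h1 ⟨hXX, le_rfl⟩ h1.2⟩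
  set D : ℕ → ℝ := fun n => (PH (H n) n - f n) ^ 2 with hD
  have hD0 : ∀ n, 0 ≤ D n := fun n => sq_nonneg _
  set Θ : ℕ → ℝ := fun j => theta (Ax X) (Bx X) (hat (y j) δ) with hΘ
  set W : ℕ → ℝ := fun j => mass (Ax X) (Bx X) (hat (y j) δ) with hW
  set V : ℕ → ℝ := fun j => ∑ n ∈ Ioc (Ax X) (Bx X),
    hat (y j) δ n * (PH (H ⌊y j⌋₊) n - f n) ^ 2 with hV
  set E : ℝ := (X : ℝ) ^ (98 / 100 : ℝ) with hE
  have hlogx : 0 < Real.log X := Real.log_pos (by linarith)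
  have hHX : (0 : ℝ) < H X := by exact_mod_cast hH1
  -- window inequality
  have hw1 : ∀ j ∈ good, c * H X * Real.log X * (max 0 (Θ j - E)) ^ 2 ≤ W j * V j := by
    intro j hj
    have hj' := mem_Ico.1 (hgoodsub hj)
    obtain ⟨h1, h2⟩ := hHj1 j hj
    have h3 : (H ⌊y j⌋₊ : ℝ) ≤ (X : ℝ) ^ (1 / 100 : ℝ) := by
      refine le_trans ?_ hH3
      exact_mod_cast h2
    have h4 := hwin (y j) δ (hy1 j) (hy2 j hj'.2.le) hδ1 (by linarith) (H ⌊y j⌋₊)
      (hH1.trans h1) h3 f hf hftv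
    refine le_trans ?_ h4
    have h5 : (H X : ℝ) ≤ H ⌊y j⌋₊ := by exact_mod_cast h1
    gcongr
  have hWnn : ∀ j, 0 ≤ W j := fun j => Finset.sum_nonneg fun n _ => fin_hat_nonneg _ _ _
  have hVnn : ∀ j, 0 ≤ V j := fun j => Finset.sum_nonneg fun n _ =>
    mul_nonneg (fin_hat_nonneg _ _ _) (sq_nonneg _)
  have hcs := fin_cs good (c * H X * Real.log X) (by positivity)
    (fun j => max 0 (Θ j - E)) W V (fun j _ => le_max_left _ _) (fun j _ => hWnn j)
    (fun j _ => hVnn j) hw1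
  -- sum of hats over good
  have hhat1 : ∀ n : ℕ, ∑ j ∈ good, hat (y j) δ n ≤ 1 := by
    intro n
    refine le_trans ?_ (hat_sum_le (X : ℝ) δ hx0 hδ0 J n)
    refine Finset.sum_le_sum_of_subset_of_nonneg ?_ (fun j _ _ => fin_hat_nonneg _ _ _)
    intro j hj
    have := mem_Ico.1 (hgoodsub hj)
    exact mem_range.2 this.2
  -- total mass
  have hWsum : ∑ j ∈ good, W j ≤ 4 * X := by
    simp only [hW]
    unfold mass
    rw [Finset.sum_comm]
    calc ∑ n ∈ Ioc (Ax X) (Bx X), ∑ j ∈ good, hat (y j) δ n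
        ≤ ∑ n ∈ Ioc (Ax X) (Bx X), (1 : ℝ) := Finset.sum_le_sum fun n _ => hhat1 n
      _ = ((Bx X - Ax X : ℕ) : ℝ) := by
          rw [Finset.sum_const, Nat.card_Ioc, nsmul_eq_mul, mul_one]
      _ ≤ (Bx X : ℝ) := by exact_mod_cast Nat.sub_le _ _
      _ ≤ 4 * X := Nat.floor_le (by positivity)
  -- total V
  have hVsum : ∑ j ∈ good, V j ≤ ∑ n ∈ Ioc X (2 * X), D n := by
    have h1 : ∀ j ∈ good, V j ≤ ∑ n ∈ Ioc X (2 * X), hat (y j) δ n * D n := by
      intro j hj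
      have h2 : V j = ∑ n ∈ (Ioc (Ax X) (Bx X)).filter (fun n => n ∈ Ioc X (2 * X)),
          hat (y j) δ n * D n := by
        rw [Finset.sum_filter]
        simp only [hV]
        refine Finset.sum_congr rfl fun n _ => ?_
        by_cases h3 : hat (y j) δ n = 0
        · rw [h3, zero_mul, zero_mul, ite_self]
        · rw [if_pos (hrange j (hgoodsub hj) n h3)]
          simp only [hD]
          rw [hconst j hj n h3]
      rw [h2]
      refine Finset.sum_le_sum_of_subset_of_nonneg ?_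
        (fun n _ _ => mul_nonneg (fin_hat_nonneg _ _ _) (hD0 n))
      intro n hn
      exact (mem_filter.1 hn).2
    calc ∑ j ∈ good, V j ≤ ∑ j ∈ good, ∑ n ∈ Ioc X (2 * X), hat (y j) δ n * D n :=
          Finset.sum_le_sum h1
      _ = ∑ n ∈ Ioc X (2 * X), (∑ j ∈ good, hat (y j) δ n) * D n := by
          rw [Finset.sum_comm]
          refine Finset.sum_congr rfl fun n _ => ?_
          rw [Finset.sum_mul]
      _ ≤ ∑ n ∈ Ioc X (2 * X), 1 * D n :=
          Finset.sum_le_sum fun n _ => mul_le_mul_of_nonneg_right (hhat1 n) (hD0 n)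
      _ = _ := by simp
  have hVsum0 : 0 ≤ ∑ j ∈ good, V j := Finset.sum_nonneg fun j _ => hVnn j
  have hcs2 : c * H X * Real.log X * (∑ j ∈ good, max 0 (Θ j - E)) ^ 2 ≤
      4 * X * ∑ n ∈ Ioc X (2 * X), D n := by
    refine hcs.trans ?_
    exact mul_le_mul hWsum hVsum hVsum0 (by positivity)
  refine le_trans ?_ hcs2
  -- lower bound for the sum of theta
  have hΘnn : ∀ j, 0 ≤ Θ j := fun j => Finset.sum_nonneg fun n _ =>
    mul_nonneg (fin_hat_nonneg _ _ _) (fin_pl_nonneg n)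
  have hone : ∀ n ∈ Ioc ⌊5 * (X : ℝ) / 4⌋₊ ⌊7 * (X : ℝ) / 4⌋₊,
      ∑ j ∈ Ico 1 J, hat (y j) δ n = 1 := by
    intro n hn
    rw [mem_Ioc] at hn
    have h1 : 5 * (X : ℝ) / 4 < n := (Nat.floor_lt (by positivity)).1 hn.1
    have h2 : (n : ℝ) ≤ 7 * (X : ℝ) / 4 := (Nat.le_floor_iff (by positivity)).1 hn.2
    have h3 := hat_sum_eq (X : ℝ) δ hx0 hδ0 J n (by linarith) (by rw [hyJ]; linarith)
    have h4 : hat (y 0) δ n = 0 := by
      by_contra hne
      have h5 := (hat_supp (y 0) δ (lt_of_lt_of_le hx0 (hy1 0)) hδ0 n hne).2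
      have h6 : y 0 = X := by simp [hy]
      rw [h6] at h5
      have h7 : Real.exp δ ≤ 5 / 4 := by
        have h8 : Real.exp δ ≤ Real.exp (1 / 8) := Real.exp_le_exp.2 hδ8
        have h9 : Real.exp (1 / 8) ≤ 5 / 4 := by
          have h10 := Real.add_one_le_exp (-(1 / 8 : ℝ))
          have h11 : Real.exp (-(1 / 8 : ℝ)) * Real.exp (1 / 8) = 1 := by
            rw [← Real.exp_add]; simp
          have h12 : 0 < Real.exp (1 / 8 : ℝ) := Real.exp_pos _
          nlinarith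
        exact h8.trans h9
      have h13 : (X : ℝ) * Real.exp δ ≤ X * (5 / 4) := mul_le_mul_of_nonneg_left h7 hx0.le
      linarith
    have h5 : hat (y J) δ n = 0 := by
      by_contra hne
      have h6 := (hat_supp (y J) δ (lt_of_lt_of_le hx0 (hy1 J)) hδ0 n hne).1
      have h7 : y J = 2 * X := hyJ
      rw [h7] at h6
      have h8 : 7 / 8 ≤ Real.exp (-δ) := by
        have := Real.add_one_le_exp (-δ)
        linarith
      have h9 : 2 * (X : ℝ) * (7 / 8) ≤ 2 * X * Real.exp (-δ) :=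
        mul_le_mul_of_nonneg_left h8 (by positivity)
      linarith
    rw [Finset.sum_range_succ, Finset.range_eq_Ico, Finset.sum_eq_sum_Ico_succ_bot (by omega)] at h3
    have h4' : hat ((X : ℝ) * Real.exp (((0 : ℕ) : ℝ) * δ)) δ n = 0 := h4
    have h5' : hat ((X : ℝ) * Real.exp ((J : ℝ) * δ)) δ n = 0 := h5
    rw [h4', h5', zero_add, add_zero] at h3
    exact h3
  have hsub : Ioc ⌊5 * (X : ℝ) / 4⌋₊ ⌊7 * (X : ℝ) / 4⌋₊ ⊆ Ioc (Ax X) (Bx X) := by
    intro n hn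
    rw [mem_Ioc] at hn ⊢
    have h1 : 5 * (X : ℝ) / 4 < n := (Nat.floor_lt (by positivity)).1 hn.1
    have h2 : (n : ℝ) ≤ 7 * (X : ℝ) / 4 := (Nat.le_floor_iff (by positivity)).1 hn.2
    constructor
    · exact (Nat.floor_lt (by positivity)).2 (by linarith)
    · exact (Nat.le_floor_iff (by positivity)).2 (by linarith)
  have hΘsum : c' * X ≤ ∑ j ∈ Ico 1 J, Θ j := by
    refine htot.trans ?_
    simp only [hΘ]
    unfold theta
    rw [Finset.sum_comm]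
    calc ∑ n ∈ Ioc ⌊5 * (X : ℝ) / 4⌋₊ ⌊7 * (X : ℝ) / 4⌋₊, pl n
        = ∑ n ∈ Ioc ⌊5 * (X : ℝ) / 4⌋₊ ⌊7 * (X : ℝ) / 4⌋₊,
            ∑ j ∈ Ico 1 J, hat (y j) δ n * pl n := by
          refine Finset.sum_congr rfl fun n hn => ?_
          rw [← Finset.sum_mul, hone n hn, one_mul]
      _ ≤ _ := Finset.sum_le_sum_of_subset_of_nonneg hsub fun n _ _ =>
          Finset.sum_nonneg fun j _ => mul_nonneg (fin_hat_nonneg _ _ _) (fin_pl_nonneg n)
  -- the bad windows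
  have hlog4 : 0 ≤ Real.log (4 * X) * (6 * δ * X + 1) :=
    mul_nonneg (Real.log_nonneg (by linarith)) (by positivity)
  have hbadsum : ∑ j ∈ (Ico 1 J).filter P, Θ j ≤
      2 * (X : ℝ) ^ (1 / 100 : ℝ) * (Real.log (4 * X) * (6 * δ * X + 1)) := by
    have h1 : ∀ j ∈ (Ico 1 J).filter P, Θ j ≤ Real.log (4 * X) * (6 * δ * X + 1) := by
      intro j hj
      have hj' := mem_Ico.1 (mem_filter.1 hj).1
      exact theta_le (X : ℝ) (y j) δ hx (hy1 j) (hy2 j hj'.2.le) hδ0 (by linarith)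
    calc ∑ j ∈ (Ico 1 J).filter P, Θ j
        ≤ ∑ j ∈ (Ico 1 J).filter P, Real.log (4 * X) * (6 * δ * X + 1) :=
          Finset.sum_le_sum h1
      _ = (((Ico 1 J).filter P).card : ℝ) * (Real.log (4 * X) * (6 * δ * X + 1)) := by
          rw [Finset.sum_const, nsmul_eq_mul]
      _ ≤ _ := by
          refine mul_le_mul_of_nonneg_right ?_ hlog4
          have h2 : ((Ico 1 J).filter P).card ≤ 2 * H (2 * X) :=
            hbad.trans (Nat.mul_le_mul_left 2 (Nat.sub_le _ _))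
          have h3 : ((((Ico 1 J).filter P).card : ℕ) : ℝ) ≤ 2 * H (2 * X) := by
            exact_mod_cast h2
          linarith
  have hsplit : ∑ j ∈ (Ico 1 J).filter P, Θ j + ∑ j ∈ good, Θ j = ∑ j ∈ Ico 1 J, Θ j :=
    Finset.sum_filter_add_sum_filter_not _ _ _
  have hE0 : 0 ≤ E := by positivity
  have hgoodcard : (good.card : ℝ) ≤ J := by
    have h1 : good.card ≤ (Ico 1 J).card := Finset.card_le_card hgoodsub
    rw [Nat.card_Ico] at h1
    exact_mod_cast h1.trans (Nat.sub_le _ _)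
  have hlow : c' * X / 2 ≤ ∑ j ∈ good, max 0 (Θ j - E) := by
    have h1 : ∑ j ∈ good, (Θ j - E) ≤ ∑ j ∈ good, max 0 (Θ j - E) :=
      Finset.sum_le_sum fun j _ => le_max_right _ _
    rw [Finset.sum_sub_distrib, Finset.sum_const, nsmul_eq_mul] at h1
    have h2 : (good.card : ℝ) * E ≤ J * E := mul_le_mul_of_nonneg_right hgoodcard hE0
    linarith
  have h0 : 0 ≤ c' * X / 2 := by positivity
  have h1 := pow_le_pow_left₀ h0 hlow 2
  exact mul_le_mul_of_nonneg_left h1 (by positivity)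

/-- number of windows -/
private noncomputable def finJ (x : ℝ) : ℕ := ⌊x ^ (3 / 200 : ℝ) * Real.log 2⌋₊

private theorem fin_par : ∀ᶠ x : ℝ in atTop, 1 ≤ finJ x ∧ (finJ x : ℝ) ≤ x ^ (3 / 200 : ℝ) ∧
    x ^ (-1 / 50 : ℝ) ≤ Real.log 2 / finJ x ∧ Real.log 2 / finJ x ≤ 2 * x ^ (-(3 / 200) : ℝ) ∧
    Real.log 2 / finJ x ≤ 1 / 8 ∧ 4 ≤ x * (Real.log 2 / finJ x) := by
  have h1 : Tendsto (fun x : ℝ => x ^ (3 / 200 : ℝ)) atTop atTop :=
    tendsto_rpow_atTop (by norm_num)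
  have h2 : Tendsto (fun x : ℝ => x ^ (49 / 50 : ℝ)) atTop atTop :=
    tendsto_rpow_atTop (by norm_num)
  filter_upwards [h1.eventually_ge_atTop 100, eventually_ge_atTop 4,
    h2.eventually_ge_atTop 4] with x hx hx4 hx5
  have hx0 : 0 < x := by linarith
  have hl1 := Real.log_two_gt_d9
  have hl2 := Real.log_two_lt_d9
  set s : ℝ := x ^ (3 / 200 : ℝ) with hs
  have hs0 : 0 < s := by linarith
  have ht : 69 ≤ s * Real.log 2 := by nlinarith
  have hJle : (finJ x : ℝ) ≤ s * Real.log 2 := Nat.floor_le (by linarith)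
  have hJgt : s * Real.log 2 < finJ x + 1 := Nat.lt_floor_add_one _
  have hJhalf : s * Real.log 2 / 2 ≤ finJ x := by linarith
  have hJpos : 0 < (finJ x : ℝ) := by linarith
  have hl0 : 0 < Real.log 2 := by linarith
  have hsinv : x ^ (-(3 / 200) : ℝ) = s⁻¹ := by rw [Real.rpow_neg hx0.le]
  have hlow : s⁻¹ ≤ Real.log 2 / finJ x := by
    rw [le_div_iff₀ hJpos, inv_mul_le_iff₀ hs0]
    exact hJle
  have hup : Real.log 2 / finJ x ≤ 2 * s⁻¹ := by
    rw [div_le_iff₀ hJpos]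
    have h3 : 2 * s⁻¹ * (s * Real.log 2 / 2) = Real.log 2 := by field_simp
    have h4 : 0 ≤ 2 * s⁻¹ := by positivity
    nlinarith [mul_le_mul_of_nonneg_left hJhalf h4]
  have hpow : x ^ (-1 / 50 : ℝ) ≤ s⁻¹ := by
    rw [← hsinv]
    exact Real.rpow_le_rpow_of_exponent_le (by linarith) (by norm_num)
  refine ⟨?_, ?_, hpow.trans hlow, ?_, ?_, ?_⟩
  · have : (1 : ℝ) ≤ finJ x := by linarith
    exact_mod_cast this
  · refine hJle.trans ?_
    nlinarith
  · rw [hsinv]; exact hup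
  · have h5 : s⁻¹ ≤ 100⁻¹ := by
      rw [inv_le_inv₀ hs0 (by norm_num)]
      exact hx
    norm_num at h5 ⊢
    linarith
  · have h6 : x * x ^ (-1 / 50 : ℝ) = x ^ (49 / 50 : ℝ) := by
      nth_rewrite 1 [← Real.rpow_one x]
      rw [← Real.rpow_add hx0]
      norm_num
    have h7 : x * x ^ (-1 / 50 : ℝ) ≤ x * (Real.log 2 / finJ x) :=
      mul_le_mul_of_nonneg_left (hpow.trans hlow) hx0.le
    linarith

private theorem fin_log (x : ℝ) (hx : 1 ≤ x) : Real.log (4 * x) ≤ 4000 * x ^ (1 / 1000 : ℝ) := by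
  have h1 := Real.log_le_rpow_div (x := 4 * x) (by linarith) (ε := 1 / 1000) (by norm_num)
  have h2 : (4 * x) ^ (1 / 1000 : ℝ) = 4 ^ (1 / 1000 : ℝ) * x ^ (1 / 1000 : ℝ) :=
    Real.mul_rpow (by norm_num) (by linarith)
  have h3 : (4 : ℝ) ^ (1 / 1000 : ℝ) ≤ 4 := by
    calc (4 : ℝ) ^ (1 / 1000 : ℝ) ≤ 4 ^ (1 : ℝ) :=
          Real.rpow_le_rpow_of_exponent_le (by norm_num) (by norm_num)
      _ = 4 := Real.rpow_one 4
  have h4 : 0 ≤ x ^ (1 / 1000 : ℝ) := by positivity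
  rw [h2] at h1
  have h5 : (4 : ℝ) ^ (1 / 1000 : ℝ) * x ^ (1 / 1000 : ℝ) ≤ 4 * x ^ (1 / 1000 : ℝ) :=
    mul_le_mul_of_nonneg_right h3 h4
  calc Real.log (4 * x) ≤ 4 ^ (1 / 1000 : ℝ) * x ^ (1 / 1000 : ℝ) / (1 / 1000) := h1
    _ ≤ 4 * x ^ (1 / 1000 : ℝ) / (1 / 1000) := by gcongr
    _ = 4000 * x ^ (1 / 1000 : ℝ) := by ring

private theorem fin_num (c' : ℝ) (hc' : 0 < c') : ∀ᶠ x : ℝ in atTop, ∀ δ J : ℝ, 0 ≤ δ →
    δ ≤ 2 * x ^ (-(3 / 200) : ℝ) → J ≤ x ^ (3 / 200 : ℝ) →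
    2 * x ^ (1 / 100 : ℝ) * (Real.log (4 * x) * (6 * δ * x + 1)) + J * x ^ (98 / 100 : ℝ) ≤
      c' * x / 2 := by
  have h1 : Tendsto (fun x : ℝ => x ^ (4 / 1000 : ℝ)) atTop atTop :=
    tendsto_rpow_atTop (by norm_num)
  filter_upwards [h1.eventually_ge_atTop (208002 / c'), eventually_ge_atTop 1] with x hx hx1
  intro δ J hδ0 hδ hJ
  have hx0 : 0 < x := by linarith
  have e1 : x ^ (-(3 / 200) : ℝ) * x = x ^ (197 / 200 : ℝ) := by
    nth_rewrite 2 [← Real.rpow_one x]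
    rw [← Real.rpow_add hx0]
    norm_num
  have h2 : 6 * δ * x + 1 ≤ 13 * x ^ (197 / 200 : ℝ) := by
    have h3 : δ * x ≤ 2 * x ^ (197 / 200 : ℝ) := by
      rw [← e1]
      calc δ * x ≤ 2 * x ^ (-(3 / 200) : ℝ) * x := mul_le_mul_of_nonneg_right hδ hx0.le
        _ = _ := by ring
    have h4 : 1 ≤ x ^ (197 / 200 : ℝ) := Real.one_le_rpow hx1 (by norm_num)
    linarith
  have h5 := fin_log x hx1
  have h6 : Real.log (4 * x) * (6 * δ * x + 1) ≤
      4000 * x ^ (1 / 1000 : ℝ) * (13 * x ^ (197 / 200 : ℝ)) :=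
    mul_le_mul h5 h2 (by positivity) (by positivity)
  have h7 : 2 * x ^ (1 / 100 : ℝ) * (Real.log (4 * x) * (6 * δ * x + 1)) ≤
      104000 * x ^ (996 / 1000 : ℝ) := by
    calc 2 * x ^ (1 / 100 : ℝ) * (Real.log (4 * x) * (6 * δ * x + 1))
        ≤ 2 * x ^ (1 / 100 : ℝ) * (4000 * x ^ (1 / 1000 : ℝ) * (13 * x ^ (197 / 200 : ℝ))) :=
          mul_le_mul_of_nonneg_left h6 (by positivity)
      _ = 104000 * (x ^ (1 / 100 : ℝ) * x ^ (1 / 1000 : ℝ) * x ^ (197 / 200 : ℝ)) := by ring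
      _ = 104000 * x ^ (996 / 1000 : ℝ) := by
          rw [← Real.rpow_add hx0, ← Real.rpow_add hx0]
          norm_num
  have h8 : J * x ^ (98 / 100 : ℝ) ≤ x ^ (996 / 1000 : ℝ) := by
    calc J * x ^ (98 / 100 : ℝ) ≤ x ^ (3 / 200 : ℝ) * x ^ (98 / 100 : ℝ) :=
          mul_le_mul_of_nonneg_right hJ (by positivity)
      _ = x ^ (3 / 200 + 98 / 100 : ℝ) := by rw [← Real.rpow_add hx0]
      _ ≤ x ^ (996 / 1000 : ℝ) := Real.rpow_le_rpow_of_exponent_le hx1 (by norm_num)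
  have h9 : x = x ^ (996 / 1000 : ℝ) * x ^ (4 / 1000 : ℝ) := by
    rw [← Real.rpow_add hx0]
    norm_num
  have h10 : 208002 ≤ x ^ (4 / 1000 : ℝ) * c' := (div_le_iff₀ hc').1 hx
  have h11 : 0 < x ^ (996 / 1000 : ℝ) := by positivity
  have h12 : 104001 * x ^ (996 / 1000 : ℝ) ≤ c' * x / 2 := by
    have h13 : c' * x / 2 = x ^ (996 / 1000 : ℝ) * (x ^ (4 / 1000 : ℝ) * c') / 2 := by
      nth_rewrite 1 [h9]
      ring
    rw [h13]
    nlinarith [mul_le_mul_of_nonneg_left h10 h11.le]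
  linarith

private theorem fin_num2 : ∀ᶠ x : ℝ in atTop, ∀ h : ℝ, 0 ≤ h → h ≤ x ^ (1 / 100 : ℝ) →
    2 * Real.log (2 * x) * (2 * h) ≤ x ^ (1 / 10 : ℝ) := by
  have h1 : Tendsto (fun x : ℝ => x ^ (89 / 1000 : ℝ)) atTop atTop :=
    tendsto_rpow_atTop (by norm_num)
  filter_upwards [h1.eventually_ge_atTop 16000, eventually_ge_atTop 1] with x hx hx1
  intro h hh0 hh
  have hx0 : 0 < x := by linarith
  have h5 := fin_log x hx1
  have h6 : Real.log (2 * x) ≤ 4000 * x ^ (1 / 1000 : ℝ) :=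
    (Real.log_le_log (by linarith) (by linarith)).trans h5
  have h7 : 2 * Real.log (2 * x) * (2 * h) ≤
      2 * (4000 * x ^ (1 / 1000 : ℝ)) * (2 * x ^ (1 / 100 : ℝ)) := by
    apply mul_le_mul
    · linarith
    · linarith
    · linarith
    · positivity
  refine h7.trans ?_
  have h8 : x ^ (1 / 10 : ℝ) = x ^ (1 / 1000 : ℝ) * x ^ (1 / 100 : ℝ) * x ^ (89 / 1000 : ℝ) := by
    rw [← Real.rpow_add hx0, ← Real.rpow_add hx0]
    norm_num
  rw [h8]
  have h9 : 0 ≤ x ^ (1 / 1000 : ℝ) * x ^ (1 / 100 : ℝ) := by positivity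
  nlinarith [mul_le_mul_of_nonneg_left hx h9]

private theorem fin_clip (p q t : ℝ) (hp0 : 0 ≤ p) (hp : p ≤ q) :
    |p - max 0 (min t q)| ≤ |p - t| := by
  rcases le_total t 0 with h | h
  · have h1 : min t q = t := min_eq_left (h.trans (hp0.trans hp))
    rw [h1, max_eq_left h, sub_zero, abs_of_nonneg hp0, abs_of_nonneg (by linarith)]
    linarith
  · rcases le_total t q with h2 | h2
    · rw [min_eq_left h2, max_eq_right h]
    · rw [min_eq_right h2, max_eq_right (hp0.trans hp),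
        abs_of_nonpos (by linarith), abs_of_nonpos (by linarith)]
      linarith


theorem final : ∃ c : ℝ, 0 < c ∧ ∃ X₀ : ℕ, ∀ X : ℕ, X₀ ≤ X → ∀ H : ℕ → ℕ,
    MonotoneOn H (Set.Icc X (2 * X)) → 1 ≤ H X → H (2 * X) ≤ 2 * H X →
    (H (2 * X) : ℝ) ≤ (X : ℝ) ^ (1 / 100 : ℝ) → ∀ M : ℕ → ℝ,
    (MonotoneOn M (Set.Icc X (2 * X)) ∨ AntitoneOn M (Set.Icc X (2 * X))) →
    c * X * H X / Real.log X ≤ ∑ n ∈ Finset.Ioc X (2 * X),
      ((((Finset.Ioc n (n + H n)).filter Nat.Prime).card : ℝ) - M n) ^ 2 := by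
  obtain ⟨c, hc, hwin⟩ := window
  obtain ⟨c', hc', htot⟩ := theta_total
  set c₃ : ℝ := c * c' ^ 2 / 16 with hc₃
  have hc₃pos : 0 < c₃ := by positivity
  refine ⟨c₃ / 16, by positivity, ?_⟩
  have hev : ∀ᶠ X : ℕ in atTop, ∀ H : ℕ → ℕ,
      MonotoneOn H (Set.Icc X (2 * X)) → 1 ≤ H X → H (2 * X) ≤ 2 * H X →
      (H (2 * X) : ℝ) ≤ (X : ℝ) ^ (1 / 100 : ℝ) → ∀ M : ℕ → ℝ,
      (MonotoneOn M (Set.Icc X (2 * X)) ∨ AntitoneOn M (Set.Icc X (2 * X))) →
      c₃ / 16 * X * H X / Real.log X ≤ ∑ n ∈ Finset.Ioc X (2 * X),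
        ((((Finset.Ioc n (n + H n)).filter Nat.Prime).card : ℝ) - M n) ^ 2 := by
    have hnat := tendsto_natCast_atTop_atTop (R := ℝ)
    filter_upwards [hnat.eventually hwin, hnat.eventually htot, hnat.eventually fin_par,
      hnat.eventually (fin_num c' hc'), hnat.eventually fin_num2,
      hnat.eventually (eventually_ge_atTop (4 / c₃)), eventually_ge_atTop 10] with
      X hwX htX hpX hnX hn2X hcX hX10
    intro H hH hH1 hH2 hH3 M hM
    obtain ⟨hJ1, hJ2, hd1, hd2, hd3, hd4⟩ := hpX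
    set x : ℝ := (X : ℝ) with hx
    have hx10 : (10 : ℝ) ≤ x := by rw [hx]; exact_mod_cast hX10
    have hx0 : 0 < x := by linarith
    set J : ℕ := finJ x with hJ
    set δ : ℝ := Real.log 2 / J with hδ
    have hJpos : (0 : ℝ) < J := by exact_mod_cast hJ1
    have hJδ : (J : ℝ) * δ = Real.log 2 := by rw [hδ]; field_simp
    have hδ0 : 0 < δ := div_pos (Real.log_pos (by norm_num)) hJpos
    -- the clipped function
    set cl : ℕ → ℕ := fun n => max X (min n (2 * X)) with hcl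
    have hclmono : Monotone cl := by
      intro m n hmn
      exact max_le_max le_rfl (min_le_min hmn le_rfl)
    have hclmem : ∀ n, cl n ∈ Set.Icc X (2 * X) := by
      intro n
      refine ⟨le_max_left _ _, max_le (by omega) (min_le_right _ _)⟩
    have hclid : ∀ n ∈ Ioc X (2 * X), cl n = n := by
      intro n hn
      rw [mem_Ioc] at hn
      simp only [hcl]
      rw [min_eq_left hn.2, max_eq_right hn.1.le]
    set fl : ℕ → ℝ := fun n => Real.log (cl n) with hfl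
    set fg : ℕ → ℝ := fun n => max 0 (min (M (cl n)) (2 * H X)) with hfg
    have hclx : ∀ n, x ≤ (cl n : ℝ) ∧ (cl n : ℝ) ≤ 2 * x := by
      intro n
      obtain ⟨h1, h2⟩ := hclmem n
      constructor
      · rw [hx]; exact_mod_cast h1
      · rw [hx]; exact_mod_cast h2
    have hflmono : Monotone fl := by
      intro m n hmn
      apply Real.log_le_log
      · exact lt_of_lt_of_le hx0 (hclx m).1
      · exact_mod_cast hclmono hmn
    have hfl0 : ∀ n, 0 ≤ fl n := fun n => Real.log_nonneg (by linarith [(hclx n).1])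
    have hflF : ∀ n, fl n ≤ Real.log (2 * x) := fun n =>
      Real.log_le_log (lt_of_lt_of_le hx0 (hclx n).1) (hclx n).2
    have hfg0 : ∀ n, 0 ≤ fg n := fun n => le_max_left _ _
    have hHX0 : (0 : ℝ) ≤ H X := Nat.cast_nonneg _
    have hfgG : ∀ n, fg n ≤ 2 * H X := fun n =>
      max_le (by positivity) (min_le_right _ _)
    have hfgm : Monotone fg ∨ Antitone fg := by
      rcases hM with hM | hM
      · left
        intro m n hmn
        exact max_le_max le_rfl (min_le_min (hM (hclmem m) (hclmem n) (hclmono hmn)) le_rfl)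
      · right
        intro m n hmn
        exact max_le_max le_rfl (min_le_min (hM (hclmem m) (hclmem n) (hclmono hmn)) le_rfl)
    have hHXx : (H X : ℝ) ≤ x ^ (1 / 100 : ℝ) := by
      have h1 : H X ≤ H (2 * X) := hH ⟨le_rfl, by omega⟩ ⟨by omega, le_rfl⟩ (by omega)
      refine le_trans ?_ hH3
      exact_mod_cast h1
    have hFG := hn2X (H X) hHX0 hHXx
    have hlog2x : 0 ≤ Real.log (2 * x) := Real.log_nonneg (by linarith)
    set f : ℕ → ℝ := fun n => fl n * fg n with hf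
    have hfbd : ∀ n, |f n| ≤ x ^ (1 / 10 : ℝ) := by
      intro n
      rw [abs_of_nonneg (mul_nonneg (hfl0 n) (hfg0 n))]
      have h1 : fl n * fg n ≤ Real.log (2 * x) * (2 * H X) :=
        mul_le_mul (hflF n) (hfgG n) (hfg0 n) hlog2x
      have h2 : 0 ≤ Real.log (2 * x) * (2 * H X) := by positivity
      linarith
    have hftv : ∀ m n : ℕ, ∑ k ∈ Ico m n, |f (k + 1) - f k| ≤ x ^ (1 / 10 : ℝ) := by
      intro m n
      exact (tv_prod fl fg (Real.log (2 * x)) (2 * H X) hflmono hfgm hfl0 hflF hfg0 hfgG m n).trans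
        hFG
    have hT := fin_T X c c' hc hc' (by omega) J δ hJ1 hJδ hδ0 hd1 hd3 hd4 hwX htX
      (hnX δ J hδ0.le hd2 hJ2) H hH hH1 hH3 f hfbd hftv
    set T : ℝ := ∑ n ∈ Ioc X (2 * X), (PH (H n) n - f n) ^ 2 with hTdef
    set S : ℝ := ∑ n ∈ Finset.Ioc X (2 * X),
        ((((Finset.Ioc n (n + H n)).filter Nat.Prime).card : ℝ) - M n) ^ 2 with hS
    have hlogpos : 1 ≤ Real.log x := by
      rw [Real.le_log_iff_exp_le hx0]
      have := Real.exp_one_lt_d9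
      linarith
    have hHX1 : (1 : ℝ) ≤ H X := by exact_mod_cast hH1
    -- T is large
    have hT2 : c₃ * H X * x * Real.log x ≤ T := by
      have h1 : 4 * x * (c₃ * H X * x * Real.log x) ≤ 4 * x * T := by
        refine le_trans (le_of_eq ?_) hT
        rw [hc₃]
        ring
      exact le_of_mul_le_mul_left h1 (by positivity)
    -- T against S
    have hlog2 : Real.log (2 * x) ≤ 2 * Real.log x := by
      rw [Real.log_mul (by norm_num) hx0.ne']
      have : Real.log 2 ≤ Real.log x := Real.log_le_log (by norm_num) (by linarith)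
      linarith
    have hterm : ∀ n ∈ Ioc X (2 * X), (PH (H n) n - f n) ^ 2 ≤
        2 / x + 2 * Real.log (2 * x) ^ 2 *
          ((((Finset.Ioc n (n + H n)).filter Nat.Prime).card : ℝ) - M n) ^ 2 := by
      intro n hn
      have hn' := mem_Ioc.1 hn
      have hXn : x < n := by rw [hx]; exact_mod_cast hn'.1
      have hn0 : (0 : ℝ) < n := by linarith
      have hnIcc : n ∈ Set.Icc X (2 * X) := ⟨hn'.1.le, hn'.2⟩
      have hHn : H n ≤ H (2 * X) := hH hnIcc ⟨by omega, le_rfl⟩ hn'.2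
      set π : ℝ := (((Finset.Ioc n (n + H n)).filter Nat.Prime).card : ℝ) with hπ
      have hπ0 : 0 ≤ π := Nat.cast_nonneg _
      have hπH : π ≤ 2 * H X := by
        have h1 : ((Finset.Ioc n (n + H n)).filter Nat.Prime).card ≤ H n := by
          refine (Finset.card_filter_le _ _).trans ?_
          rw [Nat.card_Ioc]
          omega
        rw [hπ]
        have h2 : ((Finset.Ioc n (n + H n)).filter Nat.Prime).card ≤ 2 * H X :=
          h1.trans (hHn.trans hH2)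
        exact_mod_cast h2
      have hfn : f n = Real.log n * max 0 (min (M n) (2 * H X)) := by
        simp only [hf, hfl, hfg]
        rw [hclid n hn]
      have h1 := PH_near (H n) n (by omega)
      have h2 := fin_clip π (2 * H X) (M n) hπ0 hπH
      have hlogn0 : 0 ≤ Real.log n := Real.log_nonneg (by linarith)
      have hlogn : Real.log n ≤ Real.log (2 * x) := by
        apply Real.log_le_log hn0
        rw [hx]
        exact_mod_cast hn'.2
      have h3 : |PH (H n) n - f n| ≤ (H n : ℝ) ^ 2 / n + Real.log (2 * x) * |π - M n| := by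
        have e : PH (H n) n - f n = (PH (H n) n - Real.log n * π) +
            Real.log n * (π - max 0 (min (M n) (2 * H X))) := by
          rw [hfn]; ring
        rw [e]
        refine (abs_add_le _ _).trans ?_
        rw [abs_mul, abs_of_nonneg hlogn0]
        refine add_le_add h1 ?_
        exact mul_le_mul hlogn h2 (abs_nonneg _) hlog2x
      have h4 : ((H n : ℝ) ^ 2 / n) ^ 2 ≤ 1 / x := by
        have h5 : (H n : ℝ) ≤ x ^ (1 / 100 : ℝ) := by
          refine le_trans ?_ hH3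
          exact_mod_cast hHn
        have h6 : (H n : ℝ) ^ 4 ≤ x := by
          calc (H n : ℝ) ^ 4 ≤ (x ^ (1 / 100 : ℝ)) ^ 4 :=
                pow_le_pow_left₀ (Nat.cast_nonneg _) h5 4
            _ = x ^ (4 / 100 : ℝ) := by
                rw [← Real.rpow_natCast, ← Real.rpow_mul hx0.le]
                norm_num
            _ ≤ x ^ (1 : ℝ) :=
                Real.rpow_le_rpow_of_exponent_le (by linarith) (by norm_num)
            _ = x := Real.rpow_one x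
        have h7 : ((H n : ℝ) ^ 2 / n) ^ 2 = (H n : ℝ) ^ 4 / (n : ℝ) ^ 2 := by
          rw [div_pow]; ring
        rw [h7, div_le_div_iff₀ (by positivity) hx0, one_mul]
        have h8 : x * x ≤ (n : ℝ) ^ 2 := by nlinarith
        have h9 : (H n : ℝ) ^ 4 * x ≤ x * x := mul_le_mul_of_nonneg_right h6 hx0.le
        linarith
      have h5 : (PH (H n) n - f n) ^ 2 ≤
          ((H n : ℝ) ^ 2 / n + Real.log (2 * x) * |π - M n|) ^ 2 := by
        rw [← sq_abs]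
        exact pow_le_pow_left₀ (abs_nonneg _) h3 2
      have h6 : ((H n : ℝ) ^ 2 / n + Real.log (2 * x) * |π - M n|) ^ 2 ≤
          2 * ((H n : ℝ) ^ 2 / n) ^ 2 + 2 * (Real.log (2 * x) * |π - M n|) ^ 2 := by
        nlinarith [sq_nonneg ((H n : ℝ) ^ 2 / n - Real.log (2 * x) * |π - M n|)]
      have h7 : (Real.log (2 * x) * |π - M n|) ^ 2 = Real.log (2 * x) ^ 2 * (π - M n) ^ 2 := by
        rw [mul_pow, sq_abs]
      rw [h7] at h6
      have h8 : 2 / x = 2 * (1 / x) := by ring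
      rw [h8]
      linarith
    have hT3 : T ≤ 2 + 2 * Real.log (2 * x) ^ 2 * S := by
      rw [hTdef]
      refine (Finset.sum_le_sum hterm).trans ?_
      rw [Finset.sum_add_distrib, Finset.sum_const, Nat.card_Ioc, nsmul_eq_mul, ← Finset.mul_sum]
      have h1 : ((2 * X - X : ℕ) : ℝ) * (2 / x) = 2 := by
        have : 2 * X - X = X := by omega
        rw [this, ← hx]
        field_simp
      rw [h1]
    have hS0 : 0 ≤ S := Finset.sum_nonneg fun n _ => sq_nonneg _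
    have h1 : Real.log (2 * x) ^ 2 ≤ 4 * Real.log x ^ 2 := by
      have := pow_le_pow_left₀ hlog2x hlog2 2
      linarith [this, (by ring : (2 * Real.log x) ^ 2 = 4 * Real.log x ^ 2)]
    have h2 : 2 * Real.log (2 * x) ^ 2 * S ≤ 8 * Real.log x ^ 2 * S := by
      have := mul_le_mul_of_nonneg_right h1 hS0
      linarith
    have h3 : 2 ≤ c₃ * H X * x * Real.log x / 2 := by
      have h4 : 4 ≤ x * c₃ := (div_le_iff₀ hc₃pos).1 hcX
      have h5 : x * c₃ ≤ c₃ * H X * x * Real.log x := by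
        have h6 : 1 ≤ (H X : ℝ) * Real.log x := by nlinarith
        calc x * c₃ = c₃ * x * 1 := by ring
          _ ≤ c₃ * x * (H X * Real.log x) := mul_le_mul_of_nonneg_left h6 (by positivity)
          _ = _ := by ring
      linarith
    have h4 : c₃ * H X * x * Real.log x / 2 ≤ 8 * Real.log x ^ 2 * S := by linarith
    have hl0 : 0 < Real.log x := by linarith
    rw [div_le_iff₀ hl0]
    have h5 : Real.log x * (c₃ / 16 * x * H X) ≤ Real.log x * (S * Real.log x) := by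
      nlinarith
    exact le_of_mul_le_mul_left h5 hl0
  obtain ⟨X₀, hX₀⟩ := eventually_atTop.1 hev
  exact ⟨X₀, hX₀⟩

end Pool.Agent.H67.VS
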