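import Pool.Agent.H67.VS.Ls
import Pool.Agent.H67.VS.CharS
import Pool.Agent.H67.VS.Split
import Pool.Agent.H67.VS.Hat

/-!
[H67 VS KEY]  The off-diagonal part of the covariance is negligible.

Proof.  `split_bound`, `char_sum` with `Y = X^(7/100)/2` (for `q ∈ Qx X`: `q > X^(7/100) - 1`,
`q - 1 ≥ Y`; `L q ≤ X^(1/200 + 8/100) = X^(17/200)`, so `L q ≤ Rx X ≤ Ax X`; `H ≤ q`, `L < q`).
First term of `split_bound`: `theta ≤ ∑_{n ≤ 4X} log n ≤ 4X log(4X)`,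
`∑_q 1/(q-1)^2 ≤ |Q|/Y^2 ≤ 4 X^(8/100 - 14/100)`, so it is `≤ H * H L^2 4X log(4X) 4 X^(-6/100)
≤ H * 16 log(4X) X^(96/100)`.
Second term: `2 L (2/Y) L H^2 X^(101/100)` by `ls` (`κ = kap H d`, `|kap| ≤ H`)
`≤ H * 8 X^(1/100 + 1/100 + 101/100 - 7/100) = H * 8 X^(96/100)`.
-/

namespace Pool.Agent.H67.VS

open Finset Filter Pool.Agent.H21.MT

theorem key_log : ∀ᶠ X : ℝ in atTop, 8 + 16 * Real.log (4 * X) ≤ X ^ (1 / 100 : ℝ) := by
  have h1 := (isLittleO_log_rpow_atTop (show (0 : ℝ) < 1 / 100 by norm_num)).bound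
    (show (0 : ℝ) < 1 / 32 by norm_num)
  have h2 := (tendsto_rpow_atTop (show (0 : ℝ) < 1 / 100 by norm_num)).eventually_ge_atTop
    (2 * (8 + 16 * Real.log 4))
  filter_upwards [h1, h2, eventually_ge_atTop (1 : ℝ)] with X h1 h2 hX
  have hX0 : 0 < X := by linarith
  rw [Real.norm_eq_abs, Real.norm_eq_abs, abs_of_nonneg (Real.log_nonneg hX),
    abs_of_nonneg (Real.rpow_nonneg hX0.le _)] at h1
  rw [Real.log_mul (by norm_num) hX0.ne']
  linarith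

theorem key_theta (X y δ : ℝ) (hX : 2 ≤ X) (hw : Wt (Ax X) (Bx X) (hat y δ)) :
    theta (Ax X) (Bx X) (hat y δ) ≤ 4 * X * Real.log (4 * X) := by
  have hB : ((Bx X : ℕ) : ℝ) ≤ 4 * X := Nat.floor_le (by linarith)
  have hlog : 0 ≤ Real.log (4 * X) := Real.log_nonneg (by linarith)
  unfold theta
  have h1 : ∀ n ∈ Ioc (Ax X) (Bx X), hat y δ n * pl n ≤ Real.log (4 * X) := by
    intro n hn
    rw [Finset.mem_Ioc] at hn
    have hn4 : (n : ℝ) ≤ 4 * X := le_trans (by exact_mod_cast hn.2) hB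
    have hn0 : (1 : ℝ) ≤ n := by
      have : 1 ≤ n := by omega
      exact_mod_cast this
    have hpl0 : 0 ≤ pl n := by
      unfold pl
      split_ifs
      · exact Real.log_nonneg hn0
      · exact le_rfl
    have hpl : pl n ≤ Real.log (4 * X) := by
      unfold pl
      split_ifs
      · exact Real.log_le_log (by linarith) hn4
      · exact hlog
    calc hat y δ n * pl n ≤ 1 * pl n := mul_le_mul_of_nonneg_right (hw.le_one n) hpl0
      _ = pl n := one_mul _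
      _ ≤ _ := hpl
  refine (Finset.sum_le_sum h1).trans ?_
  rw [Finset.sum_const, Nat.card_Ioc, nsmul_eq_mul]
  have h2 : ((Bx X - Ax X : ℕ) : ℝ) ≤ 4 * X := by
    have : ((Bx X - Ax X : ℕ) : ℝ) ≤ (Bx X : ℝ) := by exact_mod_cast Nat.sub_le _ _
    linarith
  exact mul_le_mul_of_nonneg_right h2 hlog

theorem key : ∀ᶠ X : ℝ in atTop, ∀ y δ : ℝ, X ≤ y → y ≤ 2 * X → X ^ (-1 / 50 : ℝ) ≤ δ →
    δ ≤ 1 / 2 → ∀ H : ℕ, 1 ≤ H → (H : ℝ) ≤ X ^ (1 / 100 : ℝ) → ∀ ρ : ℕ → ℝ, SW (Lx X) ρ →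
    |∑ p ∈ offd H, ∑ n ∈ Ioc (Ax X) (Bx X), hat y δ n * pl n *
        bb ρ (Lx X) (Qx X) n ((p.2 : ℤ) - (p.1 : ℤ))| ≤ H * X ^ (97 / 100 : ℝ) := by
  have e1 := (tendsto_rpow_atTop (show (0 : ℝ) < 7 / 100 by norm_num)).eventually_ge_atTop 2
  have e2 := (tendsto_rpow_atTop (show (0 : ℝ) < 183 / 200 by norm_num)).eventually_ge_atTop 2
  filter_upwards [ls, key_log, e1, e2, eventually_ge_atTop (2 : ℝ)] with X hls hlog he1 he2 hX
  intro y δ hy1 hy2 hδ hδ2 H hH hHX ρ hρ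
  have hX0 : (0 : ℝ) < X := by linarith
  have hX1 : (1 : ℝ) ≤ X := by linarith
  have hδ0 : 0 < δ := lt_of_lt_of_le (Real.rpow_pos_of_pos hX0 _) hδ
  have hw := hat_wt X y δ hX hy1 hy2 hδ0 hδ2
  have hLle : ((Lx X : ℕ) : ℝ) ≤ X ^ (1 / 200 : ℝ) := Nat.floor_le (Real.rpow_nonneg hX0.le _)
  -- the primes
  have hQlow : ∀ q ∈ Qx X, q.Prime ∧ X ^ (7 / 100 : ℝ) < q ∧ (q : ℝ) ≤ X ^ (8 / 100 : ℝ) := by
    intro q hq
    rw [Qx, Finset.mem_filter, Finset.mem_Ioc] at hq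
    refine ⟨hq.2, (Nat.floor_lt (Real.rpow_nonneg hX0.le _)).1 hq.1.1, ?_⟩
    exact (Nat.le_floor_iff (Real.rpow_nonneg hX0.le _)).1 hq.1.2
  have hmono : ∀ a b : ℝ, a ≤ b → X ^ a ≤ X ^ b := fun a b hab =>
    Real.rpow_le_rpow_of_exponent_le hX1 hab
  have hLq : ∀ q ∈ Qx X, Lx X < q := by
    intro q hq
    have h1 := (hQlow q hq).2.1
    have h2 := hmono (1 / 200) (7 / 100) (by norm_num)
    have : ((Lx X : ℕ) : ℝ) < q := by linarith
    exact_mod_cast this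
  set Y : ℝ := X ^ (7 / 100 : ℝ) / 2 with hYdef
  have hY0 : 0 < Y := by positivity
  have hQY : ∀ q ∈ Qx X, Y ≤ (q : ℝ) - 1 := by
    intro q hq
    have h1 := (hQlow q hq).2.1
    linarith
  have hLqR : ∀ q ∈ Qx X, ((Lx X * q : ℕ) : ℝ) ≤ X ^ (17 / 200 : ℝ) := by
    intro q hq
    push_cast
    calc ((Lx X : ℕ) : ℝ) * q ≤ X ^ (1 / 200 : ℝ) * X ^ (8 / 100 : ℝ) :=
          mul_le_mul hLle (hQlow q hq).2.2 (Nat.cast_nonneg _) (Real.rpow_nonneg hX0.le _)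
      _ = X ^ (17 / 200 : ℝ) := by
          rw [← Real.rpow_add hX0]
          norm_num
  have h17 : X ^ (17 / 200 : ℝ) ≤ X / 2 := by
    have h1 : X ^ (17 / 200 : ℝ) * X ^ (183 / 200 : ℝ) = X := by
      rw [← Real.rpow_add hX0]
      norm_num
    have h2 : 0 ≤ X ^ (17 / 200 : ℝ) := Real.rpow_nonneg hX0.le _
    nlinarith
  have hsplit := split_bound (A := Ax X) (B := Bx X) (L := Lx X) (H := H) (Q := Qx X) hw hρ
    (fun q hq => ⟨(hQlow q hq).1, hLq q hq⟩)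
  have hchar := char_sum (A := Ax X) (B := Bx X) (L := Lx X) (R := Rx X) (H := H)
    (w := hat y δ) (Q := Qx X) Y hY0 (by
      intro q hq
      refine ⟨(hQlow q hq).1, hLq q hq, ?_, ?_, ?_, hQY q hq⟩
      · have h1 := (hQlow q hq).2.1
        have h2 := hmono (1 / 100) (7 / 100) (by norm_num)
        have : (H : ℝ) ≤ q := by linarith
        exact_mod_cast this
      · exact Nat.le_floor (hLqR q hq)
      · exact Nat.le_floor ((hLqR q hq).trans h17))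
  -- the mean value for each `d`
  have hd : ∀ d ∈ Icc 1 (Lx X), ∑ c ∈ PC (Rx X),
      ‖ThC (Ax X) (Bx X) (hat y δ) c.2‖ * ‖KC H (kap H d) c.2‖ ≤
      (H : ℝ) ^ 2 * X ^ (101 / 100 : ℝ) := by
    intro d _
    have h1 := hls y δ hy1 hy2 hδ hδ2 H hH hHX (fun k => if k < H then kap H d k else 0) (by
      intro k
      show |(if k < H then kap H d k else 0)| ≤ (H : ℝ)
      by_cases hk : k < H
      · rw [if_pos hk]
        unfold kap
        have hk' : (k : ℝ) < H := by exact_mod_cast hk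
        have hk0 : (0 : ℝ) ≤ k := Nat.cast_nonneg k
        split_ifs
        · rw [abs_le]
          constructor <;> linarith
        · rw [abs_zero]
          linarith
      · rw [if_neg hk, abs_zero]
        exact Nat.cast_nonneg H)
    refine le_trans (le_of_eq ?_) h1
    refine Finset.sum_congr rfl (fun c _ => ?_)
    congr 2
    unfold KC
    refine Finset.sum_congr rfl (fun k hk => ?_)
    simp only [if_pos (Finset.mem_Ico.1 hk).2]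
  have hsum2 : ∑ d ∈ Icc 1 (Lx X), ∑ c ∈ PC (Rx X),
      ‖ThC (Ax X) (Bx X) (hat y δ) c.2‖ * ‖KC H (kap H d) c.2‖ ≤
      (Lx X : ℝ) * ((H : ℝ) ^ 2 * X ^ (101 / 100 : ℝ)) := by
    refine (Finset.sum_le_sum hd).trans ?_
    rw [Finset.sum_const, Nat.card_Icc, nsmul_eq_mul, Nat.add_sub_cancel]
  -- numbers
  have hH0 : (0 : ℝ) ≤ H := Nat.cast_nonneg H
  have hL0 : (0 : ℝ) ≤ (Lx X : ℝ) := Nat.cast_nonneg _
  have hL2 : ((Lx X : ℕ) : ℝ) ^ 2 ≤ X ^ (1 / 100 : ℝ) := by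
    calc ((Lx X : ℕ) : ℝ) ^ 2 ≤ (X ^ (1 / 200 : ℝ)) ^ 2 := pow_le_pow_left₀ hL0 hLle 2
      _ = X ^ (1 / 100 : ℝ) := by
          rw [sq, ← Real.rpow_add hX0]
          norm_num
  have hHH : (H : ℝ) ^ 2 ≤ H * X ^ (1 / 100 : ℝ) := by
    rw [sq]
    exact mul_le_mul_of_nonneg_left hHX hH0
  have hHHLL : (H : ℝ) ^ 2 * ((Lx X : ℕ) : ℝ) ^ 2 ≤ H * X ^ (2 / 100 : ℝ) := by
    calc (H : ℝ) ^ 2 * ((Lx X : ℕ) : ℝ) ^ 2 ≤ (H * X ^ (1 / 100 : ℝ)) * X ^ (1 / 100 : ℝ) :=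
          mul_le_mul hHH hL2 (by positivity) (by positivity)
      _ = H * (X ^ (1 / 100 : ℝ) * X ^ (1 / 100 : ℝ)) := by ring
      _ = H * X ^ (2 / 100 : ℝ) := by
          rw [← Real.rpow_add hX0]
          norm_num
  have hcard : ((Qx X).card : ℝ) ≤ X ^ (8 / 100 : ℝ) := by
    have h1 : (Qx X).card ≤ ⌊X ^ (8 / 100 : ℝ)⌋₊ := by
      unfold Qx
      refine (Finset.card_filter_le _ _).trans ?_
      rw [Nat.card_Ioc]
      exact Nat.sub_le _ _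
    have h2 : ((Qx X).card : ℝ) ≤ (⌊X ^ (8 / 100 : ℝ)⌋₊ : ℝ) := by exact_mod_cast h1
    exact h2.trans (Nat.floor_le (Real.rpow_nonneg hX0.le _))
  have hsq : ∑ q ∈ Qx X, 1 / ((q : ℝ) - 1) ^ 2 ≤ 4 * X ^ (-6 / 100 : ℝ) := by
    have h1 : ∀ q ∈ Qx X, 1 / ((q : ℝ) - 1) ^ 2 ≤ 1 / Y ^ 2 := by
      intro q hq
      exact one_div_le_one_div_of_le (by positivity) (pow_le_pow_left₀ hY0.le (hQY q hq) 2)
    refine (Finset.sum_le_sum h1).trans ?_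
    rw [Finset.sum_const, nsmul_eq_mul]
    have h2 : 1 / Y ^ 2 = 4 * X ^ (-14 / 100 : ℝ) := by
      have h3 : X ^ (-14 / 100 : ℝ) = (X ^ (14 / 100 : ℝ))⁻¹ := by
        rw [← Real.rpow_neg hX0.le]
        norm_num
      have h4 : X ^ (14 / 100 : ℝ) = (X ^ (7 / 100 : ℝ)) ^ 2 := by
        rw [sq, ← Real.rpow_add hX0]
        norm_num
      rw [h3, h4, hYdef]
      field_simp
      norm_num
    rw [h2]
    calc ((Qx X).card : ℝ) * (4 * X ^ (-14 / 100 : ℝ)) ≤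
          X ^ (8 / 100 : ℝ) * (4 * X ^ (-14 / 100 : ℝ)) :=
          mul_le_mul_of_nonneg_right hcard (by positivity)
      _ = 4 * (X ^ (8 / 100 : ℝ) * X ^ (-14 / 100 : ℝ)) := by ring
      _ = 4 * X ^ (-6 / 100 : ℝ) := by
          rw [← Real.rpow_add hX0]
          norm_num
  have hlog0 : 0 ≤ Real.log (4 * X) := Real.log_nonneg (by linarith)
  have hsq0 : 0 ≤ ∑ q ∈ Qx X, 1 / ((q : ℝ) - 1) ^ 2 :=
    Finset.sum_nonneg (fun q _ => by positivity)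
  have hfirst : (H : ℝ) ^ 2 * ((Lx X : ℕ) : ℝ) ^ 2 * theta (Ax X) (Bx X) (hat y δ) *
      ∑ q ∈ Qx X, 1 / ((q : ℝ) - 1) ^ 2 ≤ H * (16 * Real.log (4 * X) * X ^ (96 / 100 : ℝ)) := by
    have h1 : (H : ℝ) ^ 2 * ((Lx X : ℕ) : ℝ) ^ 2 * theta (Ax X) (Bx X) (hat y δ) ≤
        H * X ^ (2 / 100 : ℝ) * (4 * X * Real.log (4 * X)) := by
      calc _ ≤ (H : ℝ) ^ 2 * ((Lx X : ℕ) : ℝ) ^ 2 * (4 * X * Real.log (4 * X)) :=
            mul_le_mul_of_nonneg_left (key_theta X y δ hX hw) (by positivity)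
        _ ≤ _ := mul_le_mul_of_nonneg_right hHHLL (by positivity)
    calc _ ≤ H * X ^ (2 / 100 : ℝ) * (4 * X * Real.log (4 * X)) * (4 * X ^ (-6 / 100 : ℝ)) :=
          mul_le_mul h1 hsq hsq0 (by positivity)
      _ = H * (16 * Real.log (4 * X) * (X ^ (2 / 100 : ℝ) * X ^ (1 : ℝ) * X ^ (-6 / 100 : ℝ))) := by
          rw [Real.rpow_one]
          ring
      _ = _ := by
          rw [← Real.rpow_add hX0, ← Real.rpow_add hX0]
          norm_num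
  have hsecond : 2 * ((Lx X : ℕ) : ℝ) * ∑ q ∈ Qx X, ∑ d ∈ Icc 1 (Lx X),
      |∑ p ∈ offd H, EE (Ax X) (Bx X) (hat y δ) d q ((p.2 : ℤ) - (p.1 : ℤ))| ≤
      H * (8 * X ^ (96 / 100 : ℝ)) := by
    have h1 : ∑ q ∈ Qx X, ∑ d ∈ Icc 1 (Lx X),
        |∑ p ∈ offd H, EE (Ax X) (Bx X) (hat y δ) d q ((p.2 : ℤ) - (p.1 : ℤ))| ≤
        2 / Y * ((Lx X : ℝ) * ((H : ℝ) ^ 2 * X ^ (101 / 100 : ℝ))) :=
      hchar.trans (mul_le_mul_of_nonneg_left hsum2 (by positivity))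
    calc _ ≤ 2 * ((Lx X : ℕ) : ℝ) * (2 / Y * ((Lx X : ℝ) * ((H : ℝ) ^ 2 * X ^ (101 / 100 : ℝ)))) :=
          mul_le_mul_of_nonneg_left h1 (by positivity)
      _ = ((H : ℝ) ^ 2 * ((Lx X : ℕ) : ℝ) ^ 2) * (4 / Y * X ^ (101 / 100 : ℝ)) := by ring
      _ ≤ (H * X ^ (2 / 100 : ℝ)) * (4 / Y * X ^ (101 / 100 : ℝ)) :=
          mul_le_mul_of_nonneg_right hHHLL (by positivity)
      _ = H * (8 * (X ^ (2 / 100 : ℝ) * X ^ (-7 / 100 : ℝ) * X ^ (101 / 100 : ℝ))) := by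
          have h3 : X ^ (-7 / 100 : ℝ) = (X ^ (7 / 100 : ℝ))⁻¹ := by
            rw [← Real.rpow_neg hX0.le]
            norm_num
          rw [h3, hYdef]
          field_simp
          norm_num
      _ = _ := by
          rw [← Real.rpow_add hX0, ← Real.rpow_add hX0]
          norm_num
  refine hsplit.trans ((add_le_add hfirst hsecond).trans ?_)
  have hfin : X ^ (97 / 100 : ℝ) = X ^ (1 / 100 : ℝ) * X ^ (96 / 100 : ℝ) := by
    rw [← Real.rpow_add hX0]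
    norm_num
  rw [hfin]
  calc H * (16 * Real.log (4 * X) * X ^ (96 / 100 : ℝ)) + H * (8 * X ^ (96 / 100 : ℝ))
      = (8 + 16 * Real.log (4 * X)) * (H * X ^ (96 / 100 : ℝ)) := by ring
    _ ≤ X ^ (1 / 100 : ℝ) * (H * X ^ (96 / 100 : ℝ)) :=
        mul_le_mul_of_nonneg_right hlog (by positivity)
    _ = _ := by ring

end Pool.Agent.H67.VS
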