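import Pool.Agent.H67.VS.Defs
import Pool.Agent.H21.MT.Abel

/-!
[H67 VS TY1]  Type I sums for one character.

Proof.  `H21.MT.abel_le` on `Ioc 0 n` with `a k = χ k` (partial sums `≤ q`, `H21.MT.char_sum_le`) and
`g k = w (m k)`, resp. `g k = log k * w (m k)`.  `∑_{k ∈ Ioo 0 n} |w(m(k+1)) - w(m k)| ≤ 3`: each
difference is at most the variation of `w` over `[mk, m(k+1)]` (triangle inequality), add up and use
`Wt.tv`.  `g n ≤ 1`, resp. `≤ log n`; second case `|g(k+1) - g k| ≤ log n |Δ w| + (log(k+1) - log k)`.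
Totals: `q (1 + 3)` and `q (log n + 3 log n + log n)`.
-/

namespace Pool.Agent.H67.VS

open Finset

theorem ty1_tel (w : ℕ → ℝ) (p q : ℕ) (hpq : p ≤ q) :
    |w q - w p| ≤ ∑ j ∈ Ico p q, |w (j + 1) - w j| := by
  induction q, hpq using Nat.le_induction with
  | base => simp
  | succ q hpq ih =>
    rw [sum_Ico_succ_top hpq]
    have h1 : w (q + 1) - w p = (w q - w p) + (w (q + 1) - w q) := by ring
    rw [h1]
    exact (abs_add_le _ _).trans (add_le_add ih le_rfl)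

theorem ty1_tvm {A B : ℕ} {w : ℕ → ℝ} (hw : Wt A B w) (m a b : ℕ) :
    ∑ k ∈ Ico a b, |w (m * (k + 1)) - w (m * k)| ≤ 3 := by
  rcases le_total b a with hba | hab
  · rw [Ico_eq_empty_of_le hba, sum_empty]
    norm_num
  · refine le_trans ?_ (hw.tv (m * a) (m * b))
    induction b, hab using Nat.le_induction with
    | base => simp
    | succ b hab ih =>
      rw [sum_Ico_succ_top hab]
      rw [← sum_Ico_consecutive _ (Nat.mul_le_mul_left m hab)
        (Nat.mul_le_mul_left m (Nat.le_succ b))]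
      refine add_le_add ih ?_
      exact ty1_tel w (m * b) (m * (b + 1)) (Nat.mul_le_mul_left m (Nat.le_succ b))

theorem ty1_Icc (n : ℕ) : Icc 1 n = Ioc 0 n := by
  ext k
  simp only [mem_Icc, mem_Ioc]
  omega

theorem ty1_Ioo (n : ℕ) : Ioo 0 n = Ico 1 n := by
  ext k
  simp only [mem_Ioo, mem_Ico]
  omega

theorem ty1a {A B : ℕ} {w : ℕ → ℝ} (hw : Wt A B w) (m n q : ℕ) [NeZero q] (hm : 1 ≤ m)
    (χ : DirichletCharacter ℂ q) (hχ : χ ≠ 1) :
    ‖∑ k ∈ Icc 1 n, ((w (m * k) : ℝ) : ℂ) * χ (k : ZMod q)‖ ≤ 4 * q := by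
  have hq0 : (0 : ℝ) ≤ q := by positivity
  have h := H21.MT.abel_le (fun k : ℕ => χ (k : ZMod q)) (fun k => w (m * k)) q 0 n
    (fun k _ => H21.MT.char_sum_le χ hχ 0 k) hq0 (Nat.zero_le n)
  have h1 : ∑ k ∈ Icc 1 n, ((w (m * k) : ℝ) : ℂ) * χ (k : ZMod q)
      = ∑ k ∈ Ioc 0 n, χ (k : ZMod q) * ((w (m * k) : ℝ) : ℂ) := by
    rw [ty1_Icc]
    exact sum_congr rfl fun k _ => mul_comm _ _
  rw [h1]
  refine h.trans ?_
  rw [ty1_Ioo]
  have h2 := ty1_tvm hw m 1 n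
  have h3 : |w (m * n)| ≤ 1 := by
    rw [abs_of_nonneg (hw.nonneg _)]; exact hw.le_one _
  calc (q : ℝ) * (|w (m * n)| + ∑ k ∈ Ico 1 n, |w (m * (k + 1)) - w (m * k)|)
      ≤ q * (1 + 3) := mul_le_mul_of_nonneg_left (add_le_add h3 h2) hq0
    _ = 4 * q := by ring

theorem ty1b {A B : ℕ} {w : ℕ → ℝ} (hw : Wt A B w) (m n q : ℕ) [NeZero q] (hm : 1 ≤ m)
    (χ : DirichletCharacter ℂ q) (hχ : χ ≠ 1) :
    ‖∑ k ∈ Icc 1 n, ((Real.log k * w (m * k) : ℝ) : ℂ) * χ (k : ZMod q)‖ ≤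
      5 * q * Real.log n := by
  have hq0 : (0 : ℝ) ≤ q := by positivity
  rcases Nat.eq_zero_or_pos n with rfl | hn
  · simp
  have h := H21.MT.abel_le (fun k : ℕ => χ (k : ZMod q)) (fun k => Real.log k * w (m * k)) q 0 n
    (fun k _ => H21.MT.char_sum_le χ hχ 0 k) hq0 (Nat.zero_le n)
  have h1 : ∑ k ∈ Icc 1 n, ((Real.log k * w (m * k) : ℝ) : ℂ) * χ (k : ZMod q)
      = ∑ k ∈ Ioc 0 n, χ (k : ZMod q) * ((Real.log k * w (m * k) : ℝ) : ℂ) := by
    rw [ty1_Icc]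
    exact sum_congr rfl fun k _ => mul_comm _ _
  rw [h1]
  refine h.trans ?_
  rw [ty1_Ioo]
  have hL : 0 ≤ Real.log n := Real.log_nonneg (by exact_mod_cast hn)
  have h2 := ty1_tvm hw m 1 n
  have h3 : |Real.log n * w (m * n)| ≤ Real.log n := by
    rw [abs_of_nonneg (mul_nonneg hL (hw.nonneg _))]
    exact mul_le_of_le_one_right hL (hw.le_one _)
  have hstep : ∀ k ∈ Ico 1 n, |Real.log ((k + 1 : ℕ) : ℝ) * w (m * (k + 1)) -
      Real.log (k : ℝ) * w (m * k)| ≤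
      Real.log n * |w (m * (k + 1)) - w (m * k)| +
        (Real.log ((k + 1 : ℕ) : ℝ) - Real.log (k : ℝ)) := by
    intro k hk
    rw [mem_Ico] at hk
    have hk0 : (0 : ℝ) < k := by exact_mod_cast hk.1
    have e1 : Real.log ((k + 1 : ℕ) : ℝ) * w (m * (k + 1)) - Real.log (k : ℝ) * w (m * k)
        = Real.log ((k + 1 : ℕ) : ℝ) * (w (m * (k + 1)) - w (m * k)) +
          (Real.log ((k + 1 : ℕ) : ℝ) - Real.log (k : ℝ)) * w (m * k) := by ring
    have e2 : 0 ≤ Real.log ((k + 1 : ℕ) : ℝ) := Real.log_nonneg (by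
      push_cast; linarith)
    have e3 : Real.log ((k + 1 : ℕ) : ℝ) ≤ Real.log n :=
      Real.log_le_log (by positivity) (by exact_mod_cast hk.2)
    have e4 : 0 ≤ Real.log ((k + 1 : ℕ) : ℝ) - Real.log (k : ℝ) := by
      rw [sub_nonneg]
      exact Real.log_le_log hk0 (by push_cast; linarith)
    rw [e1]
    refine (abs_add_le _ _).trans (add_le_add ?_ ?_)
    · rw [abs_mul, abs_of_nonneg e2]
      exact mul_le_mul_of_nonneg_right e3 (abs_nonneg _)
    · rw [abs_of_nonneg (mul_nonneg e4 (hw.nonneg _))]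
      exact mul_le_of_le_one_right e4 (hw.le_one _)
  have hsum := sum_le_sum hstep
  rw [sum_add_distrib, ← mul_sum] at hsum
  have htel : ∑ k ∈ Ico 1 n, (Real.log ((k + 1 : ℕ) : ℝ) - Real.log (k : ℝ)) = Real.log n := by
    have := Finset.sum_Ico_eq_sub (fun k : ℕ => Real.log ((k + 1 : ℕ) : ℝ) - Real.log (k : ℝ)) hn
    rw [this, Finset.sum_range_sub (fun k : ℕ => Real.log (k : ℝ)),
      Finset.sum_range_sub (fun k : ℕ => Real.log (k : ℝ))]
    simp
  rw [htel] at hsum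
  have h5 : Real.log n * ∑ k ∈ Ico 1 n, |w (m * (k + 1)) - w (m * k)| ≤ Real.log n * 3 :=
    mul_le_mul_of_nonneg_left h2 hL
  calc (q : ℝ) * (|Real.log n * w (m * n)| + ∑ k ∈ Ico 1 n,
        |Real.log ((k + 1 : ℕ) : ℝ) * w (m * (k + 1)) - Real.log (k : ℝ) * w (m * k)|)
      ≤ q * (Real.log n + (Real.log n * 3 + Real.log n)) :=
        mul_le_mul_of_nonneg_left (add_le_add h3 (hsum.trans (add_le_add h5 le_rfl))) hq0
    _ = 5 * q * Real.log n := by ring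

end Pool.Agent.H67.VS
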