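import Pool.Agent.H67.VS.Ty1
import Pool.Agent.H21.MT.Vau

/-!
[H67 VS VC]  Vaughan's identity for the character sums over primes.

Proof.  `u = ux X = ⌊X^(7/20)⌋₊ ≥ 1`, `B = Bx X`, `b` from `H21.MT.vaughan u`.
`ThC χ = ∑_{n ≤ B} Λ(n) w(n) χ(n) - ∑_{n ∈ (A,B], n not prime} Λ(n) w(n) χ(n)` (`w = 0` outside
`(A,B]`); the second sum is at most `ψ(B) - θ(B) ≤ 2 √B log B`
(`Chebyshev.psi_sub_theta_eq_sum_not_prime`, `Chebyshev.psi_sub_theta_le`).
`vaughan` with `Y = B`, `F n = w n χ n`: the first sum vanishes (`w n = 0` for `n ≤ u ≤ A`), the second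
is `≤ u * 5 R log B` (`ty1b`; `F(mk) = w(mk) χ(m) χ(k)`), the third `≤ u^2 log(u^2) * 4 R` (`ty1a`),
the fourth is the sum in the statement.  `χ ≠ 1` by `H21.MT.ch_ne_one`, `q = c.md ≤ R = Rx X`.
Exponents: `7/20 + 17/200`, `14/20 + 17/200 = 0.785`, `1/2`: total `≤ X^(8/10)` for large `X`.
-/

namespace Pool.Agent.H67.VS

open Finset Filter Pool.Agent.H21.MT

/-- prime powers that are not primes -/
private theorem vc_nonprime (A B : ℕ) (hB : 1 ≤ B) :
    ∑ n ∈ (Ioc A B).filter (fun n => ¬ n.Prime), ArithmeticFunction.vonMangoldt n ≤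
      2 * Real.sqrt B * Real.log B := by
  have hB1 : (1 : ℝ) ≤ B := by exact_mod_cast hB
  refine le_trans ?_ (Chebyshev.psi_sub_theta_le hB1)
  rw [Chebyshev.psi_sub_theta_eq_sum_not_prime, Nat.floor_natCast]
  apply sum_le_sum_of_subset_of_nonneg
  · apply filter_subset_filter
    exact Ioc_subset_Ioc (Nat.zero_le _) le_rfl
  · intro i _ _
    exact ArithmeticFunction.vonMangoldt_nonneg

private theorem vc_norm_le {q : ℕ} (χ : DirichletCharacter ℂ q) (x : ZMod q) : ‖χ x‖ ≤ 1 :=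
  DirichletCharacter.norm_le_one χ x

private theorem vc_det {A B u q R : ℕ} [NeZero q] {w : ℕ → ℝ} (hw : Wt A B w) (hu : 1 ≤ u)
    (huA : u ≤ A) (hAB : A ≤ B) (χ : DirichletCharacter ℂ q) (hχ : χ ≠ 1) (hq : q ≤ R)
    (c b : ℕ → ℝ) (hc : ∀ m, |c m| ≤ Real.log m)
    (hV : ∀ (Y : ℕ) (F : ℕ → ℂ),
    ∑ n ∈ Icc 1 Y, ((ArithmeticFunction.vonMangoldt n : ℝ) : ℂ) * F n =
      ∑ n ∈ (Icc 1 Y).filter (fun n => n ≤ u), ((ArithmeticFunction.vonMangoldt n : ℝ) : ℂ) * F n +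
      ∑ m ∈ Icc 1 u, ((ArithmeticFunction.moebius m : ℤ) : ℂ) *
        ∑ k ∈ Icc 1 (Y / m), ((Real.log k : ℝ) : ℂ) * F (m * k) -
      ∑ m ∈ Icc 1 (u * u), ((c m : ℝ) : ℂ) * ∑ k ∈ Icc 1 (Y / m), F (m * k) +
      ∑ m ∈ Ioc u Y, ((ArithmeticFunction.moebius m : ℤ) : ℂ) *
        ∑ k ∈ Ioc u (Y / m), ((b k : ℝ) : ℂ) * F (m * k)) :
    ‖ThC A B w χ‖ ≤
      ‖∑ m ∈ Ioc u B, (((ArithmeticFunction.moebius m : ℤ) : ℝ) : ℂ) *
        ∑ k ∈ Ioc u (B / m), ((b k : ℝ) : ℂ) *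
          (((w (m * k) : ℝ) : ℂ) * χ ((m * k : ℕ) : ZMod q))‖ +
      (5 * u * R * Real.log B + 4 * (u * u) * R * Real.log (u * u) +
        2 * Real.sqrt B * Real.log B) := by
  obtain ⟨F, hF⟩ : ∃ F : ℕ → ℂ, F = fun n => ((w n : ℝ) : ℂ) * χ (n : ZMod q) := ⟨_, rfl⟩
  have hqR : (q : ℝ) ≤ R := by exact_mod_cast hq
  have hB1 : 1 ≤ B := by omega
  have hBr : (1 : ℝ) ≤ B := by exact_mod_cast hB1
  have hFm : ∀ m k : ℕ, F (m * k) = χ (m : ZMod q) * (((w (m * k) : ℝ) : ℂ) * χ (k : ZMod q)) := by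
    intro m k
    rw [hF]
    simp only
    rw [Nat.cast_mul, map_mul]
    ring
  have h1 := hV B F
  -- the terms `n ≤ u` vanish
  have h2 : ∑ n ∈ (Icc 1 B).filter (fun n => n ≤ u),
      ((ArithmeticFunction.vonMangoldt n : ℝ) : ℂ) * F n = 0 := by
    apply sum_eq_zero
    intro n hn
    rw [mem_filter] at hn
    rw [hF]
    simp only
    rw [hw.zero n (by rw [mem_Ioc]; omega)]
    simp
  -- type I, first kind
  have h3 : ‖∑ m ∈ Icc 1 u, ((ArithmeticFunction.moebius m : ℤ) : ℂ) *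
        ∑ k ∈ Icc 1 (B / m), ((Real.log k : ℝ) : ℂ) * F (m * k)‖ ≤ 5 * u * R * Real.log B := by
    have h4 : ∀ m ∈ Icc 1 u, ‖((ArithmeticFunction.moebius m : ℤ) : ℂ) *
        ∑ k ∈ Icc 1 (B / m), ((Real.log k : ℝ) : ℂ) * F (m * k)‖ ≤ 5 * R * Real.log B := by
      intro m hm
      rw [mem_Icc] at hm
      have e1 : ∑ k ∈ Icc 1 (B / m), ((Real.log k : ℝ) : ℂ) * F (m * k) =
          χ (m : ZMod q) * ∑ k ∈ Icc 1 (B / m), ((Real.log k * w (m * k) : ℝ) : ℂ) *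
            χ (k : ZMod q) := by
        rw [mul_sum]
        apply sum_congr rfl
        intro k _
        rw [hFm]
        push_cast
        ring
      rw [e1, norm_mul, norm_mul]
      have e2 := ty1b hw m (B / m) q hm.1 χ hχ
      have e3 : ‖((ArithmeticFunction.moebius m : ℤ) : ℂ)‖ ≤ 1 := by
        rw [Complex.norm_intCast]
        exact_mod_cast ArithmeticFunction.abs_moebius_le_one
      have e4 := vc_norm_le χ (m : ZMod q)
      have e5 : Real.log ((B / m : ℕ) : ℝ) ≤ Real.log B := by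
        rcases Nat.eq_zero_or_pos (B / m) with h0 | h0
        · rw [h0, Nat.cast_zero, Real.log_zero]
          exact Real.log_nonneg hBr
        · apply Real.log_le_log (by exact_mod_cast h0)
          exact_mod_cast Nat.div_le_self B m
      have e6 : 0 ≤ Real.log ((B / m : ℕ) : ℝ) := Real.log_natCast_nonneg _
      calc ‖((ArithmeticFunction.moebius m : ℤ) : ℂ)‖ * (‖χ (m : ZMod q)‖ *
            ‖∑ k ∈ Icc 1 (B / m), ((Real.log k * w (m * k) : ℝ) : ℂ) * χ (k : ZMod q)‖)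
          ≤ 1 * (1 * (5 * q * Real.log ((B / m : ℕ) : ℝ))) := by gcongr
        _ = 5 * q * Real.log ((B / m : ℕ) : ℝ) := by ring
        _ ≤ 5 * R * Real.log B := by gcongr
    refine (norm_sum_le _ _).trans ((sum_le_sum h4).trans (le_of_eq ?_))
    rw [sum_const, Nat.card_Icc, Nat.add_sub_cancel, nsmul_eq_mul]
    ring
  -- type I, second kind
  have h5 : ‖∑ m ∈ Icc 1 (u * u), ((c m : ℝ) : ℂ) * ∑ k ∈ Icc 1 (B / m), F (m * k)‖ ≤
      4 * (u * u) * R * Real.log (u * u) := by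
    have h4 : ∀ m ∈ Icc 1 (u * u), ‖((c m : ℝ) : ℂ) * ∑ k ∈ Icc 1 (B / m), F (m * k)‖ ≤
        4 * R * Real.log (u * u) := by
      intro m hm
      rw [mem_Icc] at hm
      have hm1 : (1 : ℝ) ≤ m := by exact_mod_cast hm.1
      have hm2 : (m : ℝ) ≤ u * u := by exact_mod_cast hm.2
      have e1 : ∑ k ∈ Icc 1 (B / m), F (m * k) =
          χ (m : ZMod q) * ∑ k ∈ Icc 1 (B / m), ((w (m * k) : ℝ) : ℂ) * χ (k : ZMod q) := by
        rw [mul_sum]
        apply sum_congr rfl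
        intro k _
        rw [hFm]
      rw [e1, norm_mul, norm_mul, Complex.norm_real, Real.norm_eq_abs]
      have e2 := ty1a hw m (B / m) q hm.1 χ hχ
      have e4 := vc_norm_le χ (m : ZMod q)
      have e5 : |c m| ≤ Real.log (u * u) :=
        (hc m).trans (Real.log_le_log (by linarith) hm2)
      have e6 : 0 ≤ Real.log ((u : ℝ) * u) := (abs_nonneg _).trans e5
      calc |c m| * (‖χ (m : ZMod q)‖ *
            ‖∑ k ∈ Icc 1 (B / m), ((w (m * k) : ℝ) : ℂ) * χ (k : ZMod q)‖)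
          ≤ Real.log (u * u) * (1 * (4 * q)) := by gcongr
        _ = 4 * q * Real.log (u * u) := by ring
        _ ≤ 4 * R * Real.log (u * u) := by gcongr
    refine (norm_sum_le _ _).trans ((sum_le_sum h4).trans (le_of_eq ?_))
    rw [sum_const, Nat.card_Icc, Nat.add_sub_cancel, nsmul_eq_mul]
    push_cast
    ring
  -- the sum over primes
  have h6 : ThC A B w χ = ∑ n ∈ Icc 1 B, ((ArithmeticFunction.vonMangoldt n : ℝ) : ℂ) * F n -
      ∑ n ∈ (Ioc A B).filter (fun n => ¬ n.Prime),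
        ((ArithmeticFunction.vonMangoldt n : ℝ) : ℂ) * F n := by
    have e1 : ∑ n ∈ Icc 1 B, ((ArithmeticFunction.vonMangoldt n : ℝ) : ℂ) * F n =
        ∑ n ∈ Ioc A B, ((ArithmeticFunction.vonMangoldt n : ℝ) : ℂ) * F n := by
      symm
      apply sum_subset
      · intro n hn
        rw [mem_Ioc] at hn
        rw [mem_Icc]
        omega
      · intro n _ hn
        rw [hF]
        simp only
        rw [hw.zero n hn]
        simp
    rw [e1, sum_filter, ← sum_sub_distrib]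
    unfold ThC
    apply sum_congr rfl
    intro n _
    unfold pl
    by_cases hp : n.Prime
    · rw [if_pos hp, if_neg (not_not.2 hp), sub_zero, hF,
        ArithmeticFunction.vonMangoldt_apply_prime hp]
      push_cast
      ring
    · rw [if_neg hp, if_pos hp, mul_zero]
      simp
  have h7 : ‖∑ n ∈ (Ioc A B).filter (fun n => ¬ n.Prime),
        ((ArithmeticFunction.vonMangoldt n : ℝ) : ℂ) * F n‖ ≤ 2 * Real.sqrt B * Real.log B := by
    refine (norm_sum_le _ _).trans (le_trans (sum_le_sum ?_) (vc_nonprime A B hB1))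
    intro n _
    rw [norm_mul, Complex.norm_real, Real.norm_of_nonneg ArithmeticFunction.vonMangoldt_nonneg, hF]
    simp only
    rw [norm_mul, Complex.norm_real, Real.norm_of_nonneg (hw.nonneg n)]
    have e1 : w n * ‖χ (n : ZMod q)‖ ≤ 1 * 1 :=
      mul_le_mul (hw.le_one n) (vc_norm_le χ _) (norm_nonneg _) zero_le_one
    calc ArithmeticFunction.vonMangoldt n * (w n * ‖χ (n : ZMod q)‖)
        ≤ ArithmeticFunction.vonMangoldt n * (1 * 1) :=
          mul_le_mul_of_nonneg_left e1 ArithmeticFunction.vonMangoldt_nonneg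
      _ = _ := by ring
  have h8 : ∑ m ∈ Ioc u B, ((ArithmeticFunction.moebius m : ℤ) : ℂ) *
        ∑ k ∈ Ioc u (B / m), ((b k : ℝ) : ℂ) * F (m * k) =
      ∑ m ∈ Ioc u B, (((ArithmeticFunction.moebius m : ℤ) : ℝ) : ℂ) *
        ∑ k ∈ Ioc u (B / m), ((b k : ℝ) : ℂ) *
          (((w (m * k) : ℝ) : ℂ) * χ ((m * k : ℕ) : ZMod q)) := by
    apply sum_congr rfl
    intro m _
    rw [hF]
    push_cast
    rfl
  rw [h6, h1, h2, zero_add, h8]
  obtain ⟨T1, hT1⟩ : ∃ T, T = ∑ m ∈ Icc 1 u, ((ArithmeticFunction.moebius m : ℤ) : ℂ) *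
        ∑ k ∈ Icc 1 (B / m), ((Real.log k : ℝ) : ℂ) * F (m * k) := ⟨_, rfl⟩
  obtain ⟨T2, hT2⟩ : ∃ T, T = ∑ m ∈ Icc 1 (u * u), ((c m : ℝ) : ℂ) *
    ∑ k ∈ Icc 1 (B / m), F (m * k) := ⟨_, rfl⟩
  obtain ⟨T3, hT3⟩ : ∃ T, T = ∑ m ∈ Ioc u B, (((ArithmeticFunction.moebius m : ℤ) : ℝ) : ℂ) *
        ∑ k ∈ Ioc u (B / m), ((b k : ℝ) : ℂ) *
          (((w (m * k) : ℝ) : ℂ) * χ ((m * k : ℕ) : ZMod q)) := ⟨_, rfl⟩
  obtain ⟨T4, hT4⟩ : ∃ T, T = ∑ n ∈ (Ioc A B).filter (fun n => ¬ n.Prime),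
        ((ArithmeticFunction.vonMangoldt n : ℝ) : ℂ) * F n := ⟨_, rfl⟩
  rw [← hT1] at h3 ⊢
  rw [← hT2] at h5 ⊢
  rw [← hT3]
  rw [← hT4] at h7 ⊢
  have e1 := norm_sub_le (T1 - T2 + T3) T4
  have e2 := norm_add_le (T1 - T2) T3
  have e3 := norm_sub_le T1 T2
  linarith

private theorem vc_num : ∀ᶠ X : ℝ in atTop, 1 ≤ X ∧ 1 ≤ ux X ∧ ux X ≤ Ax X ∧
    5 * (ux X : ℝ) * (Rx X : ℝ) * Real.log (Bx X) +
      4 * ((ux X : ℝ) * (ux X : ℝ)) * (Rx X : ℝ) * Real.log ((ux X : ℝ) * (ux X : ℝ)) +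
        2 * Real.sqrt (Bx X) * Real.log (Bx X) ≤ X ^ (8 / 10 : ℝ) := by
  have h1 := (isLittleO_log_rpow_atTop (show (0 : ℝ) < 1 / 100 by norm_num)).bound
    (show (0 : ℝ) < 1 / 26 by norm_num)
  have h2 := (tendsto_rpow_atTop (show (0 : ℝ) < 13 / 20 by norm_num)).eventually_ge_atTop 2
  filter_upwards [h1, h2, eventually_ge_atTop (4 : ℝ)] with X h1 h2 hX4
  have hX0 : 0 < X := by linarith
  have hX1 : 1 ≤ X := by linarith
  have hL0 : 0 ≤ Real.log X := Real.log_nonneg hX1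
  rw [Real.norm_of_nonneg hL0, Real.norm_of_nonneg (Real.rpow_nonneg hX0.le _)] at h1
  have hu1 : 1 ≤ X ^ (7 / 20 : ℝ) := Real.one_le_rpow hX1 (by norm_num)
  have hux : (ux X : ℝ) ≤ X ^ (7 / 20 : ℝ) := by
    unfold ux
    exact Nat.floor_le (by linarith)
  have hux1 : 1 ≤ ux X := by
    unfold ux
    exact Nat.le_floor (by exact_mod_cast hu1)
  have hux1' : (1 : ℝ) ≤ ux X := by exact_mod_cast hux1
  have hRx : (Rx X : ℝ) ≤ X ^ (17 / 200 : ℝ) := by
    unfold Rx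
    exact Nat.floor_le (Real.rpow_nonneg hX0.le _)
  have hBx : (Bx X : ℝ) ≤ 4 * X := by
    unfold Bx
    exact Nat.floor_le (by linarith)
  have hBx1 : (1 : ℝ) ≤ Bx X := by
    have : 1 ≤ Bx X := by
      unfold Bx
      apply Nat.le_floor
      push_cast
      linarith
    exact_mod_cast this
  refine ⟨hX1, hux1, ?_, ?_⟩
  · unfold ux Ax
    apply Nat.floor_le_floor
    have h3 : X ^ (7 / 20 : ℝ) * X ^ (13 / 20 : ℝ) = X := by
      rw [← Real.rpow_add hX0]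
      norm_num
    nlinarith
  · obtain ⟨Y, hY⟩ : ∃ Y : ℝ, Y = X ^ (785 / 1000 : ℝ) := ⟨_, rfl⟩
    have hY0 : 0 ≤ Y := by
      rw [hY]
      exact Real.rpow_nonneg hX0.le _
    have hlogB : Real.log (Bx X) ≤ 2 * Real.log X := by
      calc Real.log (Bx X) ≤ Real.log (X ^ 2) := by
            apply Real.log_le_log (by linarith)
            nlinarith
        _ = 2 * Real.log X := by
          rw [Real.log_pow]
          push_cast
          rfl
    have hlogB0 : 0 ≤ Real.log (Bx X) := Real.log_nonneg hBx1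
    have huu : (ux X : ℝ) * ux X ≤ X ^ (7 / 10 : ℝ) := by
      calc (ux X : ℝ) * ux X ≤ X ^ (7 / 20 : ℝ) * X ^ (7 / 20 : ℝ) := by gcongr
        _ = _ := by
          rw [← Real.rpow_add hX0]
          norm_num
    have huX : (ux X : ℝ) * ux X ≤ X := by
      refine huu.trans ?_
      calc X ^ (7 / 10 : ℝ) ≤ X ^ (1 : ℝ) := Real.rpow_le_rpow_of_exponent_le hX1 (by norm_num)
        _ = X := Real.rpow_one X
    have hlogu : Real.log ((ux X : ℝ) * ux X) ≤ Real.log X := by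
      apply Real.log_le_log _ huX
      positivity
    have hlogu0 : 0 ≤ Real.log ((ux X : ℝ) * ux X) := Real.log_nonneg (by nlinarith)
    have t1 : 5 * (ux X : ℝ) * (Rx X : ℝ) * Real.log (Bx X) ≤ 5 * Y * (2 * Real.log X) := by
      have e1 : (ux X : ℝ) * (Rx X : ℝ) ≤ Y := by
        calc (ux X : ℝ) * (Rx X : ℝ) ≤ X ^ (7 / 20 : ℝ) * X ^ (17 / 200 : ℝ) := by gcongr
          _ = X ^ (7 / 20 + 17 / 200 : ℝ) := by rw [← Real.rpow_add hX0]
          _ ≤ Y := by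
            rw [hY]
            exact Real.rpow_le_rpow_of_exponent_le hX1 (by norm_num)
      calc 5 * (ux X : ℝ) * (Rx X : ℝ) * Real.log (Bx X) =
            5 * ((ux X : ℝ) * (Rx X : ℝ)) * Real.log (Bx X) := by ring
        _ ≤ 5 * Y * (2 * Real.log X) := by gcongr
    have t2 : 4 * ((ux X : ℝ) * (ux X : ℝ)) * (Rx X : ℝ) * Real.log ((ux X : ℝ) * (ux X : ℝ)) ≤
        4 * Y * Real.log X := by
      have e1 : ((ux X : ℝ) * (ux X : ℝ)) * (Rx X : ℝ) ≤ Y := by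
        calc ((ux X : ℝ) * (ux X : ℝ)) * (Rx X : ℝ) ≤ X ^ (7 / 10 : ℝ) * X ^ (17 / 200 : ℝ) := by
              gcongr
          _ = X ^ (7 / 10 + 17 / 200 : ℝ) := by rw [← Real.rpow_add hX0]
          _ ≤ Y := by
            rw [hY]
            exact Real.rpow_le_rpow_of_exponent_le hX1 (by norm_num)
      calc 4 * ((ux X : ℝ) * (ux X : ℝ)) * (Rx X : ℝ) * Real.log ((ux X : ℝ) * (ux X : ℝ)) =
            4 * (((ux X : ℝ) * (ux X : ℝ)) * (Rx X : ℝ)) *
              Real.log ((ux X : ℝ) * (ux X : ℝ)) := by ring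
        _ ≤ 4 * Y * Real.log X := by gcongr
    have t3 : 2 * Real.sqrt (Bx X) * Real.log (Bx X) ≤ 4 * Y * (2 * Real.log X) := by
      have e1 : Real.sqrt (Bx X) ≤ 2 * Y := by
        calc Real.sqrt (Bx X) ≤ Real.sqrt (4 * X) := Real.sqrt_le_sqrt hBx
          _ = 2 * X ^ (1 / 2 : ℝ) := by
            rw [Real.sqrt_mul (by norm_num), ← Real.sqrt_eq_rpow]
            congr 1
            rw [show (4 : ℝ) = 2 ^ 2 by norm_num]
            exact Real.sqrt_sq (by norm_num)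
          _ ≤ 2 * Y := by
            rw [hY]
            apply mul_le_mul_of_nonneg_left _ (by norm_num)
            exact Real.rpow_le_rpow_of_exponent_le hX1 (by norm_num)
      calc 2 * Real.sqrt (Bx X) * Real.log (Bx X) ≤ 2 * (2 * Y) * (2 * Real.log X) := by gcongr
        _ = _ := by ring
    have t4 : Y * (22 * Real.log X) ≤ X ^ (8 / 10 : ℝ) := by
      have e1 : 22 * Real.log X ≤ X ^ (1 / 100 : ℝ) := by linarith
      calc Y * (22 * Real.log X) ≤ Y * X ^ (1 / 100 : ℝ) := by gcongr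
        _ = X ^ (785 / 1000 + 1 / 100 : ℝ) := by rw [hY, ← Real.rpow_add hX0]
        _ ≤ X ^ (8 / 10 : ℝ) := Real.rpow_le_rpow_of_exponent_le hX1 (by norm_num)
    linarith

theorem vau_bound : ∀ᶠ X : ℝ in atTop, ∃ b : ℕ → ℝ, (∀ k, |b k| ≤ Real.log k) ∧
    ∀ w : ℕ → ℝ, Wt (Ax X) (Bx X) w → ∀ c ∈ PC (Rx X),
    ‖ThC (Ax X) (Bx X) w c.2‖ ≤
      ‖∑ m ∈ Ioc (ux X) (Bx X), (((ArithmeticFunction.moebius m : ℤ) : ℝ) : ℂ) *
        ∑ k ∈ Ioc (ux X) (Bx X / m), ((b k : ℝ) : ℂ) *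
          (((w (m * k) : ℝ) : ℂ) * c.2 ((m * k : ℕ) : ZMod (c.1.val + 1)))‖ +
      X ^ (8 / 10 : ℝ) := by
  filter_upwards [vc_num] with X hX
  obtain ⟨hX1, hu1, huA, hnum⟩ := hX
  obtain ⟨c', b, hc', hb, hV⟩ := vaughan (ux X) hu1
  refine ⟨b, hb, ?_⟩
  intro w hw c hc
  have hAB : Ax X ≤ Bx X := by
    unfold Ax Bx
    exact Nat.floor_le_floor (by linarith)
  have h1 := vc_det hw hu1 huA hAB c.2 (ch_ne_one c hc) (R := Rx X) (by omega) c' b hc' hV
  linarith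

end Pool.Agent.H67.VS
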