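import Pool.Agent.H67.VS.Key
import Pool.Agent.H67.VS.Gsq
import Pool.Agent.H67.VS.Fp
import Pool.Agent.H67.VS.Cov
import Pool.Agent.H67.VS.Sel
import Pool.Agent.H67.VS.Sqb
import Pool.Agent.H67.VS.Hat

/-!
[H67 VS WIN]  The inequality for one window.

Proof.  `A = Ax X`, `B = Bx X`, `L = Lx X`, `Q = Qx X`, `w = hat y δ` (`hat_wt`), `ρ` from
`sw_exists`, `g = gH ρ L Q H`, `c0` from `sq_lower`, `W = mass`, `Θ = theta`.
`Z = ∑ w (PH - f) g = ∑ w PH g - ∑ (w f) g`.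
`cov_split` and `key`: `∑ w PH g ≥ H Sq Θ - H X^(97/100) - 9 H^3 L^2 |Q| log(B+H)`;
`f_part` with `v = w f`: `|v B| ≤ X^(1/10)`, `∑ |Δ v| ≤ X^(1/10) + 3 X^(1/10)`, so
`|∑ (w f) g| ≤ 15 H L^2 |Q| X^(1/10)`.  With `|Q| ≤ X^(8/100)`, `L ≤ X^(1/200)`, `H ≤ X^(1/100)` all
errors together are `≤ H X^(975/1000) ≤ H Sq X^(98/100)`.  So `Z ≥ H Sq (Θ - X^(98/100))`.
Cauchy-Schwarz: `Z^2 ≤ (∑ w (PH - f)^2) (∑ w g^2)`; `g_sq` and `W ≥ X^(9/10)` (`hat_mass`):
`∑ w g^2 ≤ 7 H Sq W/log L` (`100 H^2 L^4 |Q|^2 ≤ X^(1/4) ≤ H Sq W/log L`).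
If `Θ > X^(98/100)`: `H^2 Sq^2 (Θ - X^(98/100))^2 ≤ (∑ w (PH-f)^2) 7 H Sq W/log L`, divide by
`H Sq`; `Sq ≥ c0`, `log L ≥ log X/400`.  (`Θ ≤ X^(98/100)`: trivial.)
-/

namespace Pool.Agent.H67.VS

open Finset Filter

theorem win_log (c0 : ℝ) (hc0 : 0 < c0) :
    ∀ᶠ X : ℝ in atTop, 16 + 9 * Real.log (5 * X) ≤ c0 * X ^ (1 / 100 : ℝ) := by
  have h1 := (isLittleO_log_rpow_atTop (show (0 : ℝ) < 1 / 100 by norm_num)).bound
    (show (0 : ℝ) < c0 / 18 by positivity)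
  have h2 := (tendsto_rpow_atTop (show (0 : ℝ) < 1 / 100 by norm_num)).eventually_ge_atTop
    (2 * (16 + 9 * Real.log 5) / c0)
  filter_upwards [h1, h2, eventually_ge_atTop (1 : ℝ)] with X h1 h2 hX
  have hX0 : 0 < X := by linarith
  rw [Real.norm_eq_abs, Real.norm_eq_abs, abs_of_nonneg (Real.log_nonneg hX),
    abs_of_nonneg (Real.rpow_nonneg hX0.le _)] at h1
  rw [div_le_iff₀ hc0] at h2
  rw [Real.log_mul (by norm_num) hX0.ne']
  linarith

theorem win_v {A B : ℕ} {w f : ℕ → ℝ} (hw : Wt A B w) (F : ℝ) (hf : ∀ n, |f n| ≤ F)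
    (hf2 : ∀ m n : ℕ, ∑ k ∈ Ico m n, |f (k + 1) - f k| ≤ F) :
    |w B * f B| + ∑ k ∈ Ioo A B, |w (k + 1) * f (k + 1) - w k * f k| ≤ 5 * F := by
  have hF : 0 ≤ F := (abs_nonneg _).trans (hf 0)
  have h1 : |w B * f B| ≤ F := by
    rw [abs_mul, abs_of_nonneg (hw.nonneg B)]
    calc w B * |f B| ≤ 1 * |f B| := mul_le_mul_of_nonneg_right (hw.le_one B) (abs_nonneg _)
      _ ≤ F := by
        rw [one_mul]
        exact hf B
  have h2 : ∑ k ∈ Ioo A B, |w (k + 1) * f (k + 1) - w k * f k| ≤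
      ∑ k ∈ Ico A B, (|f (k + 1) - f k| + F * |w (k + 1) - w k|) := by
    have h3 : ∀ k ∈ Ioo A B, |w (k + 1) * f (k + 1) - w k * f k| ≤
        |f (k + 1) - f k| + F * |w (k + 1) - w k| := by
      intro k _
      have e : w (k + 1) * f (k + 1) - w k * f k =
          w (k + 1) * (f (k + 1) - f k) + f k * (w (k + 1) - w k) := by ring
      rw [e]
      refine (abs_add_le _ _).trans ?_
      rw [abs_mul, abs_mul, abs_of_nonneg (hw.nonneg (k + 1))]
      have h4 : w (k + 1) * |f (k + 1) - f k| ≤ 1 * |f (k + 1) - f k| :=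
        mul_le_mul_of_nonneg_right (hw.le_one _) (abs_nonneg _)
      have h5 : |f k| * |w (k + 1) - w k| ≤ F * |w (k + 1) - w k| :=
        mul_le_mul_of_nonneg_right (hf k) (abs_nonneg _)
      linarith
    refine (Finset.sum_le_sum h3).trans ?_
    refine Finset.sum_le_sum_of_subset_of_nonneg ?_ (fun k _ _ => by positivity)
    intro k hk
    rw [Finset.mem_Ioo] at hk
    rw [Finset.mem_Ico]
    omega
  have h3 : ∑ k ∈ Ico A B, (|f (k + 1) - f k| + F * |w (k + 1) - w k|) ≤ F + F * 3 := by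
    rw [Finset.sum_add_distrib, ← Finset.mul_sum]
    exact add_le_add (hf2 A B) (mul_le_mul_of_nonneg_left (hw.tv A B) hF)
  linarith

theorem window : ∃ c : ℝ, 0 < c ∧ ∀ᶠ X : ℝ in atTop, ∀ y δ : ℝ, X ≤ y → y ≤ 2 * X →
    X ^ (-1 / 50 : ℝ) ≤ δ → δ ≤ 1 / 2 → ∀ H : ℕ, 1 ≤ H → (H : ℝ) ≤ X ^ (1 / 100 : ℝ) →
    ∀ f : ℕ → ℝ, (∀ n, |f n| ≤ X ^ (1 / 10 : ℝ)) →
    (∀ m n : ℕ, ∑ k ∈ Ico m n, |f (k + 1) - f k| ≤ X ^ (1 / 10 : ℝ)) →
    c * H * Real.log X *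
        (max 0 (theta (Ax X) (Bx X) (hat y δ) - X ^ (98 / 100 : ℝ))) ^ 2 ≤
      mass (Ax X) (Bx X) (hat y δ) *
        ∑ n ∈ Ioc (Ax X) (Bx X), hat y δ n * (PH H n - f n) ^ 2 := by
  obtain ⟨c0, hc0, hsq⟩ := sq_lower
  refine ⟨c0 / 2800, by positivity, ?_⟩
  have e1 := (tendsto_rpow_atTop (show (0 : ℝ) < 1 / 200 by norm_num)).eventually_ge_atTop 2
  have e2 := (tendsto_rpow_atTop (show (0 : ℝ) < 92 / 100 by norm_num)).eventually_ge_atTop 2
  have e3 := (tendsto_rpow_atTop (show (0 : ℝ) < 705 / 1000 by norm_num)).eventually_ge_atTop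
    (100 / c0)
  have e4 := Real.tendsto_log_atTop.eventually_ge_atTop (400 * Real.log 2)
  filter_upwards [key, hat_mass, hsq, win_log c0 hc0, e1, e2, e3, e4,
    eventually_ge_atTop (2 : ℝ)] with X hkey hmass hsq hlog he1 he2 he3 he4 hX
  intro y δ hy1 hy2 hδ hδ2 H hH hHX f hf hf2
  have hX0 : (0 : ℝ) < X := by linarith
  have hX1 : (1 : ℝ) ≤ X := by linarith
  have hδ0 : 0 < δ := lt_of_lt_of_le (Real.rpow_pos_of_pos hX0 _) hδ
  have hw := hat_wt X y δ hX hy1 hy2 hδ0 hδ2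
  have hW := hmass y δ hy1 hy2 hδ hδ2
  set A := Ax X with hAdef
  set B := Bx X with hBdef
  set L := Lx X with hLdef
  set Q := Qx X with hQdef
  set w := hat y δ with hwdef
  set W := mass A B w with hWdef
  set Θ := theta A B w with hΘdef
  have hmono : ∀ a b : ℝ, a ≤ b → X ^ a ≤ X ^ b := fun a b hab =>
    Real.rpow_le_rpow_of_exponent_le hX1 hab
  have hLle : (L : ℝ) ≤ X ^ (1 / 200 : ℝ) := Nat.floor_le (Real.rpow_nonneg hX0.le _)
  have hLgt : X ^ (1 / 200 : ℝ) < L + 1 := Nat.lt_floor_add_one _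
  have hL2 : 2 ≤ L := Nat.le_floor (by exact_mod_cast he1)
  have hL2' : (2 : ℝ) ≤ L := by exact_mod_cast hL2
  have hAB : A ≤ B := by
    apply Nat.floor_mono
    linarith
  -- `X^(8/100) ≤ X/2`
  have h8 : X ^ (8 / 100 : ℝ) ≤ X / 2 := by
    have h1 : X ^ (8 / 100 : ℝ) * X ^ (92 / 100 : ℝ) = X := by
      rw [← Real.rpow_add hX0]
      norm_num
    have h2 : 0 ≤ X ^ (8 / 100 : ℝ) := Real.rpow_nonneg hX0.le _
    nlinarith
  have hLA : L ≤ A := Nat.le_floor (hLle.trans ((hmono _ _ (by norm_num)).trans h8))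
  have hHA : H ≤ A := Nat.le_floor (hHX.trans ((hmono _ _ (by norm_num)).trans h8))
  have hQlow : ∀ q ∈ Q, q.Prime ∧ X ^ (7 / 100 : ℝ) < q ∧ (q : ℝ) ≤ X ^ (8 / 100 : ℝ) := by
    intro q hq
    rw [hQdef, Qx, Finset.mem_filter, Finset.mem_Ioc] at hq
    refine ⟨hq.2, (Nat.floor_lt (Real.rpow_nonneg hX0.le _)).1 hq.1.1, ?_⟩
    exact (Nat.le_floor_iff (Real.rpow_nonneg hX0.le _)).1 hq.1.2
  have hLq : ∀ q ∈ Q, L < q := by
    intro q hq
    have h1 := (hQlow q hq).2.1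
    have h2 := hmono (1 / 200) (7 / 100) (by norm_num)
    have : (L : ℝ) < q := by linarith
    exact_mod_cast this
  have hHq : ∀ q ∈ Q, H < q := by
    intro q hq
    have h1 := (hQlow q hq).2.1
    have h2 := hmono (1 / 100) (7 / 100) (by norm_num)
    have : (H : ℝ) < q := by linarith
    exact_mod_cast this
  have hqA : ∀ q ∈ Q, q ≤ A := fun q hq => Nat.le_floor ((hQlow q hq).2.2.trans h8)
  obtain ⟨ρ, hρ⟩ := sw_exists L hL2
  set g := gH ρ L Q H with hgdef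
  have hcov := cov_split (A := A) (B := B) (L := L) (H := H) (Q := Q) hw hAB hρ hLA hHA
    (by omega) (fun q hq => ⟨(hQlow q hq).1, hLq q hq, hqA q hq⟩)
  have hk := hkey y δ hy1 hy2 hδ hδ2 H hH hHX ρ hρ
  have hfp := f_part (A := A) (B := B) (L := L) (H := H) (ρ := ρ) (Q := Q) (fun n => w n * f n) hAB
    hρ (fun q hq => ⟨(hQlow q hq).1, hLq q hq⟩)
  have hv := win_v hw _ hf hf2
  have hg := g_sq (A := A) (B := B) (L := L) (H := H) (Q := Q) hw hAB hρ hL2 hH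
    (fun q hq => ⟨(hQlow q hq).1, hLq q hq, hHq q hq⟩)
  -- sizes
  have hcard : (Q.card : ℝ) ≤ X ^ (8 / 100 : ℝ) := by
    have h1 : Q.card ≤ ⌊X ^ (8 / 100 : ℝ)⌋₊ := by
      rw [hQdef]
      unfold Qx
      refine (Finset.card_filter_le _ _).trans ?_
      rw [Nat.card_Ioc]
      exact Nat.sub_le _ _
    have h2 : (Q.card : ℝ) ≤ (⌊X ^ (8 / 100 : ℝ)⌋₊ : ℝ) := by exact_mod_cast h1
    exact h2.trans (Nat.floor_le (Real.rpow_nonneg hX0.le _))
  have hH0 : (0 : ℝ) ≤ H := Nat.cast_nonneg H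
  have hH1 : (1 : ℝ) ≤ H := by exact_mod_cast hH
  have hL0 : (0 : ℝ) ≤ (L : ℝ) := Nat.cast_nonneg _
  have hQ0 : (0 : ℝ) ≤ (Q.card : ℝ) := Nat.cast_nonneg _
  have hLsq : (L : ℝ) ^ 2 ≤ X ^ (1 / 100 : ℝ) := by
    calc (L : ℝ) ^ 2 ≤ (X ^ (1 / 200 : ℝ)) ^ 2 := pow_le_pow_left₀ hL0 hLle 2
      _ = X ^ (1 / 100 : ℝ) := by
          rw [sq, ← Real.rpow_add hX0]
          norm_num
  have hHsq : (H : ℝ) ^ 2 ≤ X ^ (2 / 100 : ℝ) := by
    calc (H : ℝ) ^ 2 ≤ (X ^ (1 / 100 : ℝ)) ^ 2 := pow_le_pow_left₀ hH0 hHX 2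
      _ = X ^ (2 / 100 : ℝ) := by
          rw [sq, ← Real.rpow_add hX0]
          norm_num
  have hLQ : (L : ℝ) ^ 2 * Q.card ≤ X ^ (9 / 100 : ℝ) := by
    calc (L : ℝ) ^ 2 * Q.card ≤ X ^ (1 / 100 : ℝ) * X ^ (8 / 100 : ℝ) :=
          mul_le_mul hLsq hcard hQ0 (by positivity)
      _ = X ^ (9 / 100 : ℝ) := by
          rw [← Real.rpow_add hX0]
          norm_num
  have hlogBH : Real.log ((B : ℝ) + H) ≤ Real.log (5 * X) := by
    have hB : (B : ℝ) ≤ 4 * X := Nat.floor_le (by linarith)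
    have hHX' : (H : ℝ) ≤ X := by
      have := hmono (1 / 100) 1 (by norm_num)
      rw [Real.rpow_one] at this
      linarith
    refine Real.log_le_log ?_ (by linarith)
    have : (0 : ℝ) ≤ B := Nat.cast_nonneg _
    linarith
  have hlog5 : 0 ≤ Real.log (5 * X) := Real.log_nonneg (by linarith)
  have hSq0 : 0 < Sq Q := lt_of_lt_of_le hc0 hsq
  -- the errors
  have herr1 : 9 * (H : ℝ) ^ 3 * (L : ℝ) ^ 2 * Q.card * Real.log (B + H) ≤
      H * (9 * X ^ (11 / 100 : ℝ) * Real.log (5 * X)) := by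
    calc 9 * (H : ℝ) ^ 3 * (L : ℝ) ^ 2 * Q.card * Real.log (B + H)
        = 9 * H * ((H : ℝ) ^ 2 * ((L : ℝ) ^ 2 * Q.card)) * Real.log (B + H) := by ring
      _ ≤ 9 * H * ((H : ℝ) ^ 2 * ((L : ℝ) ^ 2 * Q.card)) * Real.log (5 * X) :=
          mul_le_mul_of_nonneg_left hlogBH (by positivity)
      _ ≤ 9 * H * (X ^ (2 / 100 : ℝ) * X ^ (9 / 100 : ℝ)) * Real.log (5 * X) := by
          refine mul_le_mul_of_nonneg_right ?_ hlog5
          refine mul_le_mul_of_nonneg_left ?_ (by positivity)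
          exact mul_le_mul hHsq hLQ (by positivity) (by positivity)
      _ = _ := by
          rw [← Real.rpow_add hX0]
          norm_num
          ring
  have herr2 : 3 * H * (L : ℝ) ^ 2 * Q.card * (5 * X ^ (1 / 10 : ℝ)) ≤
      H * (15 * X ^ (19 / 100 : ℝ)) := by
    calc 3 * H * (L : ℝ) ^ 2 * Q.card * (5 * X ^ (1 / 10 : ℝ))
        = 15 * H * (((L : ℝ) ^ 2 * Q.card) * X ^ (1 / 10 : ℝ)) := by ring
      _ ≤ 15 * H * (X ^ (9 / 100 : ℝ) * X ^ (1 / 10 : ℝ)) := by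
          refine mul_le_mul_of_nonneg_left ?_ (by positivity)
          exact mul_le_mul_of_nonneg_right hLQ (by positivity)
      _ = _ := by
          rw [← Real.rpow_add hX0]
          norm_num
          ring
  have herr : H * X ^ (97 / 100 : ℝ) + H * (9 * X ^ (11 / 100 : ℝ) * Real.log (5 * X)) +
      H * (15 * X ^ (19 / 100 : ℝ)) ≤ H * Sq Q * X ^ (98 / 100 : ℝ) := by
    have h1 := hmono (11 / 100) (97 / 100) (by norm_num)
    have h2 := hmono (19 / 100) (97 / 100) (by norm_num)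
    have h3 : X ^ (98 / 100 : ℝ) = X ^ (1 / 100 : ℝ) * X ^ (97 / 100 : ℝ) := by
      rw [← Real.rpow_add hX0]
      norm_num
    have h4 : 0 ≤ X ^ (97 / 100 : ℝ) := Real.rpow_nonneg hX0.le _
    have h5 : X ^ (11 / 100 : ℝ) * Real.log (5 * X) ≤ X ^ (97 / 100 : ℝ) * Real.log (5 * X) :=
      mul_le_mul_of_nonneg_right h1 hlog5
    have h6 : X ^ (97 / 100 : ℝ) + 9 * X ^ (11 / 100 : ℝ) * Real.log (5 * X) +
        15 * X ^ (19 / 100 : ℝ) ≤ (16 + 9 * Real.log (5 * X)) * X ^ (97 / 100 : ℝ) := by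
      nlinarith
    have h7 : (16 + 9 * Real.log (5 * X)) * X ^ (97 / 100 : ℝ) ≤
        (c0 * X ^ (1 / 100 : ℝ)) * X ^ (97 / 100 : ℝ) :=
      mul_le_mul_of_nonneg_right hlog h4
    have h8 : (c0 * X ^ (1 / 100 : ℝ)) * X ^ (97 / 100 : ℝ) ≤ Sq Q * X ^ (98 / 100 : ℝ) := by
      rw [mul_assoc, ← h3]
      exact mul_le_mul_of_nonneg_right hsq (Real.rpow_nonneg hX0.le _)
    have h9 := mul_le_mul_of_nonneg_left (h6.trans (h7.trans h8)) hH0
    linarith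
  -- the lower bound of the correlation
  set Z := ∑ n ∈ Ioc A B, w n * (PH H n - f n) * g n with hZdef
  have hZ : H * Sq Q * (Θ - X ^ (98 / 100 : ℝ)) ≤ Z := by
    have hZ1 : Z = ∑ x ∈ Ioc A B, w x * (PH H x * gH ρ L Q H x) -
        ∑ x ∈ Ioc A B, (w x * f x) * gH ρ L Q H x := by
      rw [hZdef, ← Finset.sum_sub_distrib]
      refine Finset.sum_congr rfl (fun x _ => ?_)
      rw [hgdef]
      ring
    have h1 := (abs_le.1 hcov).1
    have h2 := (abs_le.1 hk).1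
    have h3 : |∑ x ∈ Ioc A B, (w x * f x) * gH ρ L Q H x| ≤
        3 * H * (L : ℝ) ^ 2 * Q.card * (5 * X ^ (1 / 10 : ℝ)) := by
      refine hfp.trans ?_
      exact mul_le_mul_of_nonneg_left hv (by positivity)
    have h4 := (abs_le.1 h3).2
    rw [hZ1]
    have h5 : H * Sq Q * (Θ - X ^ (98 / 100 : ℝ)) =
        H * Sq Q * Θ - H * Sq Q * X ^ (98 / 100 : ℝ) := by ring
    rw [h5]
    linarith
  set V := ∑ n ∈ Ioc A B, w n * (PH H n - f n) ^ 2 with hVdef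
  set G := ∑ x ∈ Ioc A B, w x * gH ρ L Q H x ^ 2 with hGdef
  have hV0 : 0 ≤ V := Finset.sum_nonneg (fun n _ => mul_nonneg (hw.nonneg n) (sq_nonneg _))
  have hW0 : 0 < W := lt_of_lt_of_le (Real.rpow_pos_of_pos hX0 _) hW
  have hCS : Z ^ 2 ≤ V * G := by
    refine Finset.sum_sq_le_sum_mul_sum_of_sq_eq_mul (Ioc A B)
      (fun n _ => mul_nonneg (hw.nonneg n) (sq_nonneg _))
      (fun n _ => mul_nonneg (hw.nonneg n) (sq_nonneg _)) (fun n _ => ?_)
    rw [hgdef]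
    ring
  have hlogL0 : 0 < Real.log L := Real.log_pos (by linarith)
  have hlogLle : Real.log L ≤ L := (Real.log_le_sub_one_of_pos (by linarith)).trans (by linarith)
  -- the second moment
  have hG : G ≤ 7 * H * Sq Q * W / Real.log L := by
    refine hg.trans ?_
    have h1 : 100 * (H : ℝ) ^ 2 * (L : ℝ) ^ 4 * (Q.card : ℝ) ^ 2 ≤ H * Sq Q * W / Real.log L := by
      rw [le_div_iff₀ hlogL0]
      have h2 : ((L : ℝ) ^ 2 * Q.card) ^ 2 ≤ X ^ (18 / 100 : ℝ) := by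
        calc ((L : ℝ) ^ 2 * Q.card) ^ 2 ≤ (X ^ (9 / 100 : ℝ)) ^ 2 :=
              pow_le_pow_left₀ (by positivity) hLQ 2
          _ = X ^ (18 / 100 : ℝ) := by
              rw [sq, ← Real.rpow_add hX0]
              norm_num
      have h3 : (H : ℝ) * ((L : ℝ) ^ 2 * Q.card) ^ 2 * Real.log L ≤ X ^ (195 / 1000 : ℝ) := by
        calc (H : ℝ) * ((L : ℝ) ^ 2 * Q.card) ^ 2 * Real.log L
            ≤ (X ^ (1 / 100 : ℝ) * X ^ (18 / 100 : ℝ)) * X ^ (1 / 200 : ℝ) := by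
              refine mul_le_mul (mul_le_mul hHX h2 (by positivity) (by positivity))
                (hlogLle.trans hLle) hlogL0.le (by positivity)
          _ = _ := by
              rw [← Real.rpow_add hX0, ← Real.rpow_add hX0]
              norm_num
      have h4 : 100 * X ^ (195 / 1000 : ℝ) ≤ c0 * X ^ (9 / 10 : ℝ) := by
        have h5 : X ^ (9 / 10 : ℝ) = X ^ (705 / 1000 : ℝ) * X ^ (195 / 1000 : ℝ) := by
          rw [← Real.rpow_add hX0]
          norm_num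
        rw [h5, ← mul_assoc]
        refine mul_le_mul_of_nonneg_right ?_ (Real.rpow_nonneg hX0.le _)
        rw [div_le_iff₀ hc0] at he3
        linarith
      have h5 : c0 * X ^ (9 / 10 : ℝ) ≤ Sq Q * W :=
        mul_le_mul hsq hW (Real.rpow_nonneg hX0.le _) hSq0.le
      calc 100 * (H : ℝ) ^ 2 * (L : ℝ) ^ 4 * (Q.card : ℝ) ^ 2 * Real.log L
          = H * (100 * ((H : ℝ) * ((L : ℝ) ^ 2 * Q.card) ^ 2 * Real.log L)) := by ring
        _ ≤ H * (100 * X ^ (195 / 1000 : ℝ)) := by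
            refine mul_le_mul_of_nonneg_left ?_ hH0
            exact mul_le_mul_of_nonneg_left h3 (by norm_num)
        _ ≤ H * (Sq Q * W) := mul_le_mul_of_nonneg_left (h4.trans h5) hH0
        _ = H * Sq Q * W := by ring
    have h2 : 7 * H * Sq Q * W / Real.log L = 6 * H * Sq Q * W / Real.log L +
        H * Sq Q * W / Real.log L := by ring
    rw [h2]
    linarith
  have hlogL : Real.log X / 400 ≤ Real.log L := by
    have h1 : X ^ (1 / 200 : ℝ) / 2 ≤ L := by linarith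
    have h2 : Real.log (X ^ (1 / 200 : ℝ) / 2) ≤ Real.log L :=
      Real.log_le_log (by positivity) h1
    rw [Real.log_div (Real.rpow_pos_of_pos hX0 _).ne' (by norm_num), Real.log_rpow hX0] at h2
    linarith
  have hlogX0 : 0 ≤ Real.log X := Real.log_nonneg hX1
  by_cases hΘ : Θ - X ^ (98 / 100 : ℝ) ≤ 0
  · rw [max_eq_left hΘ]
    have : 0 ≤ W * V := mul_nonneg hW0.le hV0
    simpa using this
  · push Not at hΘ
    rw [max_eq_right hΘ.le]
    set T := Θ - X ^ (98 / 100 : ℝ) with hTdef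
    have h1 : (H * Sq Q * T) ^ 2 ≤ V * (7 * H * Sq Q * W / Real.log L) := by
      calc (H * Sq Q * T) ^ 2 ≤ Z ^ 2 := pow_le_pow_left₀ (by positivity) hZ 2
        _ ≤ V * G := hCS
        _ ≤ _ := mul_le_mul_of_nonneg_left hG hV0
    have h2 : (H * Sq Q) * (H * Sq Q * T ^ 2 * Real.log L) ≤ (H * Sq Q) * (7 * (W * V)) := by
      have h3 : V * (7 * H * Sq Q * W / Real.log L) * Real.log L = (H * Sq Q) * (7 * (W * V)) := by
        field_simp
      rw [← h3]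
      calc (H * Sq Q) * (H * Sq Q * T ^ 2 * Real.log L) = (H * Sq Q * T) ^ 2 * Real.log L := by ring
        _ ≤ _ := mul_le_mul_of_nonneg_right h1 hlogL0.le
    have h3 : H * Sq Q * T ^ 2 * Real.log L ≤ 7 * (W * V) :=
      le_of_mul_le_mul_left h2 (by positivity)
    have h4 : H * c0 * T ^ 2 * (Real.log X / 400) ≤ H * Sq Q * T ^ 2 * Real.log L := by
      refine mul_le_mul ?_ hlogL (by positivity) (by positivity)
      refine mul_le_mul_of_nonneg_right ?_ (sq_nonneg T)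
      exact mul_le_mul_of_nonneg_left hsq hH0
    linarith

end Pool.Agent.H67.VS
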